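import Pool.Agent.Lib.MC.Stmts

set_option autoImplicit false

/-!
# Module AC: the action of `GL₅`
-/

noncomputable section

namespace MC

open Matrix

namespace ACAux

theorem act_act (g h : M5) (x : M5 × M5) : act g (act h x) = act (g * h) x := by
  unfold act
  apply Prod.ext
  · simp only [adjugate_mul_distrib, transpose_mul, Matrix.mul_assoc]
  · simp only [transpose_mul, Matrix.mul_assoc]

/-- A vector satisfying the Pluecker relations is decomposable. -/
theorem dec {Q : M5} (h : ∀ i j k l, Q i j * Q k l - Q i k * Q j l + Q i l * Q j k = 0) :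
    ∃ a b : Fin 5 → ℂ, Q = vecMulVec a b - vecMulVec b a := by
  by_cases hQ : Q = 0
  · exact ⟨0, 0, by simp [hQ]⟩
  · obtain ⟨i, j, hij⟩ : ∃ i j, Q i j ≠ 0 := by
      by_contra hc
      push Not at hc
      exact hQ (by ext i j; simpa using hc i j)
    refine ⟨fun k => (Q i j)⁻¹ * Q i k, fun k => Q j k, ?_⟩
    ext k l
    rw [Matrix.sub_apply, vecMulVec_apply, vecMulVec_apply]
    have h1 := h i j k l
    have h2 : (Q i j)⁻¹ * Q i j = 1 := inv_mul_cancel₀ hij
    linear_combination (Q i j)⁻¹ * h1 - Q k l * h2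

theorem pluecker_dec (a b : Fin 5 → ℂ) (i j k l : Fin 5) :
    (vecMulVec a b - vecMulVec b a) i j * (vecMulVec a b - vecMulVec b a) k l
      - (vecMulVec a b - vecMulVec b a) i k * (vecMulVec a b - vecMulVec b a) j l
      + (vecMulVec a b - vecMulVec b a) i l * (vecMulVec a b - vecMulVec b a) j k = 0 := by
  simp only [Matrix.sub_apply, vecMulVec_apply]
  ring

theorem conj_dec (B : M5) (a b : Fin 5 → ℂ) :
    Bᵀ * (vecMulVec a b - vecMulVec b a) * B =
      vecMulVec (Bᵀ *ᵥ a) (Bᵀ *ᵥ b) - vecMulVec (Bᵀ *ᵥ b) (Bᵀ *ᵥ a) := by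
  rw [Matrix.mul_sub, Matrix.sub_mul, mul_vecMulVec, mul_vecMulVec, vecMulVec_mul, vecMulVec_mul,
    mulVec_transpose, mulVec_transpose]

theorem act_mem {g : M5} (hg : g.det ≠ 0) {x : M5 × M5} (hx : x ∈ Cone) : act g x ∈ Cone := by
  obtain ⟨h1, h2, h3, h4, h5, h6⟩ := hx
  have hadj : adjugate g * g = g.det • (1 : M5) := adjugate_mul g
  have hadj' : gᵀ * (adjugate g)ᵀ = g.det • (1 : M5) := by
    rw [← transpose_mul, hadj, transpose_smul, transpose_one]
  refine ⟨?_, ?_, ?_, ?_, ?_, ?_⟩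
  · show ((adjugate g)ᵀ * x.1 * adjugate g)ᵀ = -((adjugate g)ᵀ * x.1 * adjugate g)
    rw [transpose_mul, transpose_mul, transpose_transpose, h1, Matrix.mul_assoc]
    simp
  · obtain ⟨a, b, hab⟩ := dec h2
    show ∀ i j k l, ((adjugate g)ᵀ * x.1 * adjugate g) i j * ((adjugate g)ᵀ * x.1 * adjugate g) k l
      - ((adjugate g)ᵀ * x.1 * adjugate g) i k * ((adjugate g)ᵀ * x.1 * adjugate g) j l
      + ((adjugate g)ᵀ * x.1 * adjugate g) i l * ((adjugate g)ᵀ * x.1 * adjugate g) j k = 0
    rw [hab, conj_dec]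
    exact pluecker_dec _ _
  · show (adjugate g)ᵀ * x.1 * adjugate g ≠ 0
    intro h0
    apply h3
    have e : gᵀ * ((adjugate g)ᵀ * x.1 * adjugate g) * g = (g.det * g.det) • x.1 := by
      calc gᵀ * ((adjugate g)ᵀ * x.1 * adjugate g) * g
          = (gᵀ * (adjugate g)ᵀ) * x.1 * (adjugate g * g) := by simp only [Matrix.mul_assoc]
        _ = (g.det * g.det) • x.1 := by
            rw [hadj, hadj']
            simp [smul_smul]
    rw [h0] at e
    have e' : (g.det * g.det) • x.1 = 0 := by rw [← e]; simp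
    rcases smul_eq_zero.1 e' with h | h
    · exact absurd h (mul_ne_zero hg hg)
    · exact h
  · show (g * x.2 * gᵀ)ᵀ = g * x.2 * gᵀ
    rw [transpose_mul, transpose_mul, transpose_transpose, h4, Matrix.mul_assoc]
  · show g * x.2 * gᵀ ≠ 0
    intro h0
    apply h5
    have e : adjugate g * (g * x.2 * gᵀ) * (adjugate g)ᵀ = (g.det * g.det) • x.2 := by
      calc adjugate g * (g * x.2 * gᵀ) * (adjugate g)ᵀ
          = (adjugate g * g) * x.2 * (gᵀ * (adjugate g)ᵀ) := by simp only [Matrix.mul_assoc]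
        _ = (g.det * g.det) • x.2 := by
            rw [hadj, hadj']
            simp [smul_smul]
    rw [h0] at e
    have e' : (g.det * g.det) • x.2 = 0 := by rw [← e]; simp
    rcases smul_eq_zero.1 e' with h | h
    · exact absurd h (mul_ne_zero hg hg)
    · exact h
  · show (g * x.2 * gᵀ) * ((adjugate g)ᵀ * x.1 * adjugate g) = 0
    calc (g * x.2 * gᵀ) * ((adjugate g)ᵀ * x.1 * adjugate g)
        = g * x.2 * (gᵀ * (adjugate g)ᵀ) * x.1 * adjugate g := by simp only [Matrix.mul_assoc]
      _ = g.det • (g * (x.2 * x.1) * adjugate g) := by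
          rw [hadj']
          simp [Matrix.mul_assoc]
      _ = 0 := by rw [h6]; simp

theorem of_scal {μ lam : ℂ} (hμ : μ ≠ 0) (hl : lam ≠ 0) {x : M5 × M5}
    (hx : scal μ lam x ∈ Cone) : x ∈ Cone := by
  obtain ⟨h1, h2, h3, h4, h5, h6⟩ := hx
  refine ⟨?_, ?_, ?_, ?_, ?_, ?_⟩
  · have h : μ • x.1ᵀ = μ • -x.1 := by
      rw [← transpose_smul, smul_neg]
      exact h1
    exact smul_right_injective _ hμ h
  · intro i j k l
    have h : (μ * x.1 i j) * (μ * x.1 k l) - (μ * x.1 i k) * (μ * x.1 j l)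
        + (μ * x.1 i l) * (μ * x.1 j k) = 0 := h2 i j k l
    have h' : (μ * μ) * (x.1 i j * x.1 k l - x.1 i k * x.1 j l + x.1 i l * x.1 j k) = 0 := by
      rw [← h]
      ring
    exact (mul_eq_zero.1 h').resolve_left (mul_ne_zero hμ hμ)
  · intro h
    apply h3
    show μ • x.1 = 0
    rw [h, smul_zero]
  · have h : lam • x.2ᵀ = lam • x.2 := by
      rw [← transpose_smul]
      exact h4
    exact smul_right_injective _ hl h
  · intro h
    apply h5
    show lam • x.2 = 0
    rw [h, smul_zero]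
  · have h : (lam • x.2) * (μ • x.1) = 0 := h6
    rw [Matrix.smul_mul, Matrix.mul_smul, smul_smul] at h
    exact (smul_eq_zero.1 h).resolve_left (mul_ne_zero hl hμ)

theorem adjugate_smul_one (c : ℂ) : adjugate (c • (1 : M5)) = c ^ 4 • (1 : M5) := by
  rw [adjugate_smul, adjugate_one]
  simp

theorem act_mem_iff (g : M5) (x : M5 × M5) (hg : g.det ≠ 0) : act g x ∈ Cone ↔ x ∈ Cone := by
  refine ⟨fun h => ?_, act_mem hg⟩
  have h1 : (adjugate g).det ≠ 0 := by
    rw [det_adjugate]
    exact pow_ne_zero _ hg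
  have h2 := act_mem h1 h
  rw [act_act, adjugate_mul] at h2
  refine of_scal (μ := g.det ^ 4 * g.det ^ 4) (lam := g.det * g.det) (by positivity) (by positivity)
    (x := x) ?_
  have e : act (g.det • (1 : M5)) x = scal (g.det ^ 4 * g.det ^ 4) (g.det * g.det) x := by
    unfold act scal
    rw [adjugate_smul_one]
    simp [smul_smul]
  rw [← e]
  exact h2

/-! ### Polynomial functions -/

section poly

variable {V : Type} [AddCommGroup V] [Module ℂ V]

/-- All entries are polynomial functions. -/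
def MPoly (F : V → M5) : Prop := ∀ a b, (fun v => F v a b) ∈ Poly V

theorem poly_const (c : ℂ) : (fun _ : V => c) ∈ Poly V := (Poly V).algebraMap_mem c

theorem poly_lin (φ : V →ₗ[ℂ] ℂ) : (fun v => φ v) ∈ Poly V :=
  Algebra.subset_adjoin ⟨φ, rfl⟩

theorem poly_mul {f g : V → ℂ} (hf : f ∈ Poly V) (hg : g ∈ Poly V) :
    (fun v => f v * g v) ∈ Poly V := (Poly V).mul_mem hf hg

theorem poly_sum {ι : Type} (s : Finset ι) {f : ι → V → ℂ} (hf : ∀ i ∈ s, f i ∈ Poly V) :
    (fun v => ∑ i ∈ s, f i v) ∈ Poly V := by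
  have e : (fun v => ∑ i ∈ s, f i v) = ∑ i ∈ s, f i := by
    funext v
    rw [Finset.sum_apply]
  rw [e]
  exact (Poly V).sum_mem hf

theorem poly_prod {ι : Type} (s : Finset ι) {f : ι → V → ℂ} (hf : ∀ i ∈ s, f i ∈ Poly V) :
    (fun v => ∏ i ∈ s, f i v) ∈ Poly V := by
  have e : (fun v => ∏ i ∈ s, f i v) = ∏ i ∈ s, f i := by
    funext v
    rw [Finset.prod_apply]
  rw [e]
  exact (Poly V).prod_mem hf

theorem MPoly.mul {F F' : V → M5} (h : MPoly F) (h' : MPoly F') :
    MPoly fun v => F v * F' v := by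
  intro a b
  simp only [Matrix.mul_apply]
  exact poly_sum _ fun i _ => poly_mul (h a i) (h' i b)

theorem MPoly.transpose {F : V → M5} (h : MPoly F) : MPoly fun v => (F v)ᵀ :=
  fun a b => h b a

theorem MPoly.det {F : V → M5} (h : MPoly F) : (fun v => (F v).det) ∈ Poly V := by
  simp only [Matrix.det_apply']
  exact poly_sum _ fun σ _ => poly_mul (poly_const _) (poly_prod _ fun i _ => h _ _)

theorem MPoly.adjugate {F : V → M5} (h : MPoly F) : MPoly fun v => Matrix.adjugate (F v) := by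
  intro a b
  simp only [Matrix.adjugate_apply]
  apply MPoly.det (F := fun v => (F v).updateRow b (Pi.single a 1))
  intro i j
  by_cases hi : i = b
  · subst hi
    simp only [Matrix.updateRow_self]
    exact poly_const _
  · simp only [Matrix.updateRow_ne hi]
    exact h i j

end poly

/-- The entries of a pair of forms determine the values of a linear functional. -/
theorem lin_expand {n : ℕ} (φ : (Fin n → M5) →ₗ[ℂ] ℂ) (y : Fin n → M5) :
    φ y = ∑ i, ∑ a, ∑ b, y i a b * φ (Pi.single i (Matrix.single a b 1)) := by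
  have e : y = ∑ i, ∑ a, ∑ b, y i a b • (Pi.single i (Matrix.single a b 1) : Fin n → M5) := by
    funext j
    rw [Finset.sum_apply]
    have h1 : ∀ i, (∑ a, ∑ b, y i a b • (Pi.single i (Matrix.single a b 1) : Fin n → M5)) j =
        if i = j then y j else 0 := by
      intro i
      by_cases hij : i = j
      · subst hij
        rw [if_pos rfl]
        conv_rhs => rw [Matrix.matrix_eq_sum_single (y i)]
        simp only [Finset.sum_apply, Pi.smul_apply, Pi.single_eq_same]
        refine Finset.sum_congr rfl fun a _ => Finset.sum_congr rfl fun b _ => ?_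
        rw [Matrix.smul_single, smul_eq_mul, mul_one]
      · rw [if_neg hij]
        simp only [Finset.sum_apply, Pi.smul_apply]
        refine Finset.sum_eq_zero fun a _ => Finset.sum_eq_zero fun b _ => ?_
        rw [Pi.single_eq_of_ne (Ne.symm hij), smul_zero]
    rw [Finset.sum_congr rfl fun i _ => h1 i]
    simp
  conv_lhs => rw [e]
  simp only [map_sum, map_smul, smul_eq_mul]

theorem polyMap_actc (d e : ℕ) : PolyMap (fun x : M5 × CV d e => actc x.1 x.2) := by
  intro φ
  -- the entries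
  have hg : MPoly (fun x : M5 × CV d e => x.1) := by
    intro a b
    exact poly_lin ((LinearMap.proj b ∘ₗ LinearMap.proj a ∘ₗ
      LinearMap.fst ℂ M5 (CV d e) : M5 × CV d e →ₗ[ℂ] ℂ))
  have h1 : ∀ i, MPoly (fun x : M5 × CV d e => x.2.1 i) := by
    intro i a b
    exact poly_lin ((LinearMap.proj b ∘ₗ LinearMap.proj a ∘ₗ LinearMap.proj i ∘ₗ
      LinearMap.fst ℂ (Fin (d + 1) → M5) (Fin (e + 1) → M5) ∘ₗ
      LinearMap.snd ℂ M5 (CV d e) : M5 × CV d e →ₗ[ℂ] ℂ))
  have h2 : ∀ i, MPoly (fun x : M5 × CV d e => x.2.2 i) := by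
    intro i a b
    exact poly_lin ((LinearMap.proj b ∘ₗ LinearMap.proj a ∘ₗ LinearMap.proj i ∘ₗ
      LinearMap.snd ℂ (Fin (d + 1) → M5) (Fin (e + 1) → M5) ∘ₗ
      LinearMap.snd ℂ M5 (CV d e) : M5 × CV d e →ₗ[ℂ] ℂ))
  have e1 : (fun x : M5 × CV d e => φ (actc x.1 x.2)) =
      (fun x => (φ ∘ₗ LinearMap.inl ℂ _ _) (actc x.1 x.2).1) +
      (fun x => (φ ∘ₗ LinearMap.inr ℂ _ _) (actc x.1 x.2).2) := by
    funext x
    rw [Pi.add_apply, LinearMap.comp_apply, LinearMap.comp_apply, ← map_add]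
    congr 1
    simp
  rw [e1]
  refine (Poly _).add_mem ?_ ?_
  · rw [show (fun x : M5 × CV d e => (φ ∘ₗ LinearMap.inl ℂ _ _) (actc x.1 x.2).1) = _ from
      funext fun x => lin_expand _ _]
    exact poly_sum _ fun i _ => poly_sum _ fun a _ => poly_sum _ fun b _ =>
      poly_mul (((hg.adjugate.transpose.mul (h1 i)).mul hg.adjugate) a b) (poly_const _)
  · rw [show (fun x : M5 × CV d e => (φ ∘ₗ LinearMap.inr ℂ _ _) (actc x.1 x.2).2) = _ from
      funext fun x => lin_expand _ _]
    exact poly_sum _ fun i _ => poly_sum _ fun a _ => poly_sum _ fun b _ =>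
      poly_mul (((hg.mul (h2 i)).mul hg.transpose) a b) (poly_const _)

end ACAux

open ACAux in
/-- Module AC. -/
theorem stAC : StAC := by
  refine ⟨act_act, fun g x hg => act_mem_iff g x hg, ?_⟩
  intro d e
  refine ⟨?_, ?_, ?_, polyMap_actc d e⟩
  · intro g c v
    unfold evp actc act ev
    apply Prod.ext
    · simp only [Finset.mul_sum, Finset.sum_mul, Matrix.mul_smul, Matrix.smul_mul]
    · simp only [Finset.mul_sum, Finset.sum_mul, Matrix.mul_smul, Matrix.smul_mul]
  · intro g h c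
    unfold actc
    apply Prod.ext
    · funext i
      simp only [adjugate_mul_distrib, transpose_mul, Matrix.mul_assoc]
    · funext i
      simp only [transpose_mul, Matrix.mul_assoc]
  · intro c
    unfold actc
    apply Prod.ext
    · funext i
      simp
    · funext i
      simp

end MC
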