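import Pool.Agent.Lib.MC.Stmts

set_option autoImplicit false

/-!
# Two Manin components (MP_ac098b_ag): module DO

The cone over `M × ℙ¹` is irreducible and the family map of a component which contains a curve
meeting the open orbit is dominant.
-/

noncomputable section

namespace MC

open Matrix

namespace DOAux

theorem lin_mem {V : Type} [AddCommGroup V] [Module ℂ V] (φ : V →ₗ[ℂ] ℂ) :
    (fun v => φ v) ∈ Poly V :=
  Algebra.subset_adjoin ⟨φ, rfl⟩

theorem polyMap_lin {V W : Type} [AddCommGroup V] [Module ℂ V] [AddCommGroup W] [Module ℂ W]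
    (F : V →ₗ[ℂ] W) : PolyMap (fun v => F v) := by
  intro φ
  exact lin_mem (φ.comp F)

theorem cone_scal {μ lam : ℂ} (hμ : μ ≠ 0) (hl : lam ≠ 0) {x : M5 × M5} (hx : x ∈ Cone) :
    scal μ lam x ∈ Cone := by
  obtain ⟨h1, h2, h3, h4, h5, h6⟩ := hx
  refine ⟨?_, ?_, ?_, ?_, ?_, ?_⟩
  · simp [scal, h1]
  · intro i j k l
    have := h2 i j k l
    simp only [scal, Matrix.smul_apply, smul_eq_mul]
    linear_combination μ ^ 2 * this
  · exact smul_ne_zero hμ h3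
  · simp [scal, h4]
  · exact smul_ne_zero hl h5
  · simp [scal, h6]

theorem ev_smul {d : ℕ} (μ : ℂ) (q : Fin (d + 1) → M5) (v : Fin 2 → ℂ) :
    ev (μ • q) v = μ • ev q v := by
  unfold ev
  rw [Finset.smul_sum]
  refine Finset.sum_congr rfl fun i _ => ?_
  rw [Pi.smul_apply, smul_comm]

theorem evp_smul {d e : ℕ} (μ lam : ℂ) (c : CV d e) (v : Fin 2 → ℂ) :
    evp ((μ • c.1, lam • c.2) : CV d e) v = scal μ lam (evp c v) := by
  simp only [evp, scal, ev_smul]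

theorem mor_smul {d e : ℕ} {μ lam : ℂ} (hμ : μ ≠ 0) (hl : lam ≠ 0) {c : CV d e}
    (hc : c ∈ MorCone d e) : ((μ • c.1, lam • c.2) : CV d e) ∈ MorCone d e := by
  intro v hv
  rw [evp_smul]
  exact cone_scal hμ hl (hc v hv)

theorem hat_smul {d e : ℕ} {M : Set (Mor d e)} {μ lam : ℂ} (hμ : μ ≠ 0) (hl : lam ≠ 0)
    {c : CV d e} (hc : c ∈ hat M) : ((μ • c.1, lam • c.2) : CV d e) ∈ hat M := by
  obtain ⟨h, hM⟩ := hc
  refine ⟨mor_smul hμ hl h, ?_⟩
  have : (Quotient.mk (morSetoid d e) ⟨c, h⟩ : Mor d e) =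
      Quotient.mk (morSetoid d e) ⟨(μ • c.1, lam • c.2), mor_smul hμ hl h⟩ :=
    Quotient.sound ⟨μ, lam, hμ, hl, rfl⟩
  rw [← this]
  exact hM

theorem hat_sub {d e : ℕ} {M : Set (Mor d e)} {c : CV d e} (hc : c ∈ hat M) : c ∈ MorCone d e := by
  obtain ⟨h, -⟩ := hc
  exact h

/-- the cone over `M × ℙ¹` is irreducible -/
theorem irr_fam (hZA : StZA) {d e : ℕ} {M : Set (Mor d e)} (hM : Irr (hat M)) : Irr (fam M) := by
  obtain ⟨-, -, h3⟩ := hZA
  have hφ : PolyMap (fun x : (Fin 2 → ℂ) × CV d e => ((x.2, x.1) : CV d e × (Fin 2 → ℂ))) := by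
    have := polyMap_lin ((LinearMap.snd ℂ (Fin 2 → ℂ) (CV d e)).prod
      (LinearMap.fst ℂ (Fin 2 → ℂ) (CV d e)))
    exact this
  have h1 : (1 : (Fin 2 → ℂ) → ℂ) ∈ Poly (Fin 2 → ℂ) := one_mem _
  have hI := h3 (Fin 2 → ℂ) (CV d e) (CV d e × (Fin 2 → ℂ)) _ hφ 1 h1
    ⟨0, by simp⟩ (hat M) hM
  have hcoord : ∀ i : Fin 2, (fun x : CV d e × (Fin 2 → ℂ) => x.2 i) ∈
      Poly (CV d e × (Fin 2 → ℂ)) := by
    intro i
    exact lin_mem ((LinearMap.proj i).comp (LinearMap.snd ℂ (CV d e) (Fin 2 → ℂ)))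
  refine ⟨?_, ?_⟩
  · obtain ⟨c, hc⟩ := hM.1
    refine ⟨(c, fun _ => 1), hc, ?_⟩
    intro h
    have := congrFun h 0
    simp at this
  · rintro f hf g hg ⟨x, hx, hfx⟩ ⟨y, hy, hgy⟩
    obtain ⟨hx1, hx2⟩ := hx
    obtain ⟨hy1, hy2⟩ := hy
    obtain ⟨i, hi⟩ : ∃ i, x.2 i ≠ 0 := by
      by_contra hcon
      push Not at hcon
      exact hx2 (funext hcon)
    obtain ⟨j, hj⟩ : ∃ j, y.2 j ≠ 0 := by
      by_contra hcon
      push Not at hcon
      exact hy2 (funext hcon)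
    obtain ⟨z, hz, hz1, hz2⟩ := hI.2 (f * fun x => x.2 i) (mul_mem hf (hcoord i))
      (g * fun x => x.2 j) (mul_mem hg (hcoord j))
      ⟨x, ⟨x.2, x.1, by simp, hx1, rfl⟩, by simpa using ⟨hfx, hi⟩⟩
      ⟨y, ⟨y.2, y.1, by simp, hy1, rfl⟩, by simpa using ⟨hgy, hj⟩⟩
    obtain ⟨w, v, -, hv, rfl⟩ := hz
    rw [Pi.mul_apply] at hz1 hz2
    refine ⟨(v, w), ⟨hv, ?_⟩, left_ne_zero_of_mul hz1, left_ne_zero_of_mul hz2⟩
    intro h
    have h' : w = 0 := h
    apply right_ne_zero_of_mul hz1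
    simp [h']

/-! ### Rank three -/

theorem rank_Q {Q : M5} (hs : Qᵀ = -Q) (h0 : Q ≠ 0) : 2 ≤ Q.rank := by
  obtain ⟨i, j, hij⟩ : ∃ i j, Q i j ≠ 0 := by
    by_contra hcon
    push Not at hcon
    exact h0 (Matrix.ext hcon)
  have hsk : ∀ a b, Q b a = -Q a b := fun a b => by
    have := congrFun (congrFun hs a) b
    simpa using this
  have hd : ∀ a, Q a a = 0 := fun a => by
    have := hsk a a
    have h2 : (2 : ℂ) * Q a a = 0 := by linear_combination this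
    simpa using h2
  have hdet : (Q.submatrix ![i, j] ![i, j]).det ≠ 0 := by
    rw [Matrix.det_fin_two]
    simp only [Matrix.submatrix_apply, Matrix.cons_val_zero, Matrix.cons_val_one,
      Matrix.cons_val_fin_one, hd, hsk i j]
    simpa using hij
  have h1 := Matrix.rank_of_det_ne_zero hdet
  have h2 := Matrix.rank_submatrix_le Q ![i, j] ![i, j]
  simp only [Fintype.card_fin] at h1
  omega

theorem rank_le {x : M5 × M5} (hx : x ∈ Cone) : x.2.rank ≤ 3 := by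
  obtain ⟨h1, h2, h3, h4, h5, h6⟩ := hx
  have := rank_Q h1 h3
  have h7 := Matrix.rank_add_rank_le_card_of_mul_eq_zero h6
  simp only [Fintype.card_fin] at h7
  omega

/-- the first three indices -/
def i3 : Fin 3 → Fin 5 := ![0, 1, 2]

/-- the first principal minor of order three -/
def mn (x : M5 × M5) : ℂ := (x.2.submatrix i3 i3).det

theorem mn_poly : mn ∈ Poly (M5 × M5) := by
  have hent : ∀ i j : Fin 5, (fun x : M5 × M5 => x.2 i j) ∈ Poly (M5 × M5) := by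
    intro i j
    exact lin_mem ((LinearMap.proj j).comp ((LinearMap.proj i).comp
      (LinearMap.snd ℂ M5 M5)))
  have : mn = fun x : M5 × M5 => ∑ σ : Equiv.Perm (Fin 3), (Equiv.Perm.sign σ : ℂ) *
      ∏ i, x.2 (i3 (σ i)) (i3 i) := by
    funext x
    unfold mn
    rw [Matrix.det_apply']
    rfl
  rw [this]
  have h2 : (fun x : M5 × M5 => ∑ σ : Equiv.Perm (Fin 3), (Equiv.Perm.sign σ : ℂ) *
      ∏ i, x.2 (i3 (σ i)) (i3 i)) = ∑ σ : Equiv.Perm (Fin 3), (algebraMap ℂ (M5 × M5 → ℂ)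
        (Equiv.Perm.sign σ : ℂ)) * ∏ i, fun x : M5 × M5 => x.2 (i3 (σ i)) (i3 i) := by
    funext x
    simp [Finset.sum_apply, Finset.prod_apply]
  rw [h2]
  refine sum_mem fun σ _ => mul_mem (Subalgebra.algebraMap_mem _ _) (prod_mem fun i _ => hent _ _)

theorem mn_rank {x : M5 × M5} (hx : x ∈ Cone) (h : mn x ≠ 0) : x.2.rank = 3 := by
  have h1 := Matrix.rank_of_det_ne_zero h
  have h2 := Matrix.rank_submatrix_le x.2 i3 i3
  have h3 := rank_le hx
  simp only [Fintype.card_fin] at h1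
  omega

/-- the standard point -/
def x0 : M5 × M5 :=
  (Matrix.single 3 4 1 - Matrix.single 4 3 1, Matrix.diagonal ![1, 1, 1, 0, 0])

theorem x0_cone : x0 ∈ Cone := by
  refine ⟨?_, ?_, ?_, ?_, ?_, ?_⟩
  · simp only [x0, Matrix.transpose_sub, Matrix.transpose_single]
    abel
  · intro i j k l
    fin_cases i <;> fin_cases j <;> fin_cases k <;> fin_cases l <;>
      simp [x0, Matrix.single]
  · intro h
    have := congrFun (congrFun h 3) 4
    simp [x0, Matrix.single] at this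
  · simp [x0]
  · intro h
    have := congrFun (congrFun h 0) 0
    simp [x0] at this
  · ext i j
    fin_cases i <;> fin_cases j <;>
      simp [x0, Matrix.single, Matrix.diagonal_mul]

theorem x0_mn : mn x0 ≠ 0 := by
  have : x0.2.submatrix i3 i3 = 1 := by
    ext i j
    fin_cases i <;> fin_cases j <;> simp [x0, i3]
  unfold mn
  rw [this]
  simp

end DOAux

open DOAux in
theorem stDO (hST : StST) (hIX : StIX) (hAC : StAC) (hZA : StZA) (hTO : StTO) : StDO := by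
  intro d e M hM
  obtain ⟨hirr, -, htr⟩ := hIX
  refine ⟨irr_fam hZA ((hTO d e).1 M hM).1, ?_⟩
  rintro ⟨c, hc, v, hv, hrk⟩
  have hA : ∀ x ∈ Cone, x.2.rank = 3 → ∃ c ∈ hat M, ∃ v, v ≠ 0 ∧ Same (evp c v) x := by
    intro x hx hx3
    obtain ⟨g, hg, hs⟩ := htr (evp c v) (hat_sub hc v hv) x hx hrk hx3
    refine ⟨actc g c, hST d e M hM g hg c hc, v, hv, ?_⟩
    rw [((hAC.2.2 d e).1 g c v)]
    exact hs
  refine ⟨hA, ?_⟩
  intro g hg h0 x hx
  have h3 : ∀ x ∈ Cone, x.2.rank = 3 → g x = 0 := by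
    intro x hx hx3
    obtain ⟨c, hc, v, hv, μ, lam, hμ, hl, h⟩ := hA x hx hx3
    have := h0 (((μ • c.1, lam • c.2) : CV d e), v) ⟨hat_smul hμ hl hc, hv⟩
    rw [evp_smul, ← h] at this
    exact this
  by_contra hcon
  obtain ⟨z, hz, hz1, hz2⟩ := hirr.2 g hg mn mn_poly ⟨x, hx, hcon⟩ ⟨x0, x0_cone, x0_mn⟩
  exact hz1 (h3 z hz (mn_rank hz hz2))

end MC
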