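import Pool.Agent.Lib.MC.Stmts

set_option autoImplicit false

/-!
# Module ZA: Zariski topology, polynomial functions, products
-/

noncomputable section

namespace MC

namespace ZAAux

theorem const_mem {V : Type} [AddCommGroup V] [Module ℂ V] (c : ℂ) :
    (fun _ : V => c) ∈ Poly V := (Poly V).algebraMap_mem c

theorem lin_mem {V : Type} [AddCommGroup V] [Module ℂ V] (φ : V →ₗ[ℂ] ℂ) :
    (fun v => φ v) ∈ Poly V := Algebra.subset_adjoin ⟨φ, rfl⟩

theorem comp_mem {V W : Type} [AddCommGroup V] [Module ℂ V] [AddCommGroup W] [Module ℂ W]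
    (F : V → W) (hF : PolyMap F) (f : W → ℂ) (hf : f ∈ Poly W) : (fun v => f (F v)) ∈ Poly V := by
  induction hf using Algebra.adjoin_induction with
  | mem x hx =>
    obtain ⟨φ, rfl⟩ := hx
    exact hF φ
  | algebraMap r => exact const_mem r
  | add x y _ _ hx hy => exact (Poly V).add_mem hx hy
  | mul x y _ _ hx hy => exact (Poly V).mul_mem hx hy

theorem line {V : Type} [AddCommGroup V] [Module ℂ V] (v w : V) (f : V → ℂ) (hf : f ∈ Poly V) :
    ∃ p : Polynomial ℂ, ∀ t : ℂ, f (v + t • (w - v)) = p.eval t := by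
  induction hf using Algebra.adjoin_induction with
  | mem x hx =>
    obtain ⟨φ, rfl⟩ := hx
    refine ⟨Polynomial.C (φ v) + Polynomial.X * Polynomial.C (φ (w - v)), fun t => ?_⟩
    simp only [map_add, map_smul, smul_eq_mul, Polynomial.eval_add, Polynomial.eval_C,
      Polynomial.eval_mul, Polynomial.eval_X]
  | algebraMap r => exact ⟨Polynomial.C r, fun t => by rw [Polynomial.eval_C]; rfl⟩
  | add x y _ _ hx hy =>
    obtain ⟨p, hp⟩ := hx
    obtain ⟨q, hq⟩ := hy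
    exact ⟨p + q, fun t => by rw [Polynomial.eval_add, ← hp, ← hq]; rfl⟩
  | mul x y _ _ hx hy =>
    obtain ⟨p, hp⟩ := hx
    obtain ⟨q, hq⟩ := hy
    exact ⟨p * q, fun t => by rw [Polynomial.eval_mul, ← hp, ← hq]; rfl⟩

theorem two {V : Type} [AddCommGroup V] [Module ℂ V] (f : V → ℂ) (hf : f ∈ Poly V) (g : V → ℂ)
    (hg : g ∈ Poly V) (v w : V) (hv : f v ≠ 0) (hw : g w ≠ 0) : ∃ u, f u ≠ 0 ∧ g u ≠ 0 := by
  obtain ⟨p, hp⟩ := line v w f hf
  obtain ⟨q, hq⟩ := line v w g hg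
  by_contra hcon
  push Not at hcon
  have h0 : p * q = 0 := by
    apply Polynomial.funext
    intro t
    rw [Polynomial.eval_mul, ← hp, ← hq, Polynomial.eval_zero]
    by_cases h : f (v + t • (w - v)) = 0
    · rw [h, zero_mul]
    · rw [hcon _ h, mul_zero]
  rcases mul_eq_zero.mp h0 with h | h
  · apply hv
    have := hp 0
    rw [h, Polynomial.eval_zero, zero_smul, add_zero] at this
    exact this
  · apply hw
    have := hq 1
    rw [h, Polynomial.eval_zero, one_smul, add_sub_cancel] at this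
    exact this

theorem right_pm {W V : Type} [AddCommGroup W] [Module ℂ W] [AddCommGroup V] [Module ℂ V]
    (w : W) : PolyMap (fun v : V => (w, v)) := by
  intro ψ
  have h : (fun v : V => ψ (w, v)) =
      (fun _ : V => ψ (w, 0)) + (fun v : V => (ψ.comp (LinearMap.inr ℂ W V)) v) := by
    funext v
    show ψ (w, v) = ψ (w, 0) + ψ (0, v)
    rw [← map_add, Prod.mk_add_mk, add_zero, zero_add]
  rw [h]
  exact (Poly V).add_mem (const_mem _) (lin_mem _)

theorem left_pm {W V : Type} [AddCommGroup W] [Module ℂ W] [AddCommGroup V] [Module ℂ V]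
    (v : V) : PolyMap (fun w : W => (w, v)) := by
  intro ψ
  have h : (fun w : W => ψ (w, v)) =
      (fun _ : W => ψ (0, v)) + (fun w : W => (ψ.comp (LinearMap.inl ℂ W V)) w) := by
    funext w
    show ψ (w, v) = ψ (0, v) + ψ (w, 0)
    rw [← map_add, Prod.mk_add_mk, add_zero, zero_add]
  rw [h]
  exact (Poly W).add_mem (const_mem _) (lin_mem _)

end ZAAux

open ZAAux

theorem stZA : StZA := by
  refine ⟨fun V _ _ f hf g hg v w hv hw => two f hf g hg v w hv hw,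
    fun V W _ _ _ _ F hF f hf => comp_mem F hF f hf, ?_⟩
  intro W V V' _ _ _ _ _ _ φ hφ h hh hw S hS
  obtain ⟨w0, hw0⟩ := hw
  obtain ⟨s0, hs0⟩ := hS.1
  refine ⟨⟨φ (w0, s0), w0, s0, hw0, hs0, rfl⟩, ?_⟩
  rintro f hf g hg ⟨_, ⟨w, v, hw1, hv1, rfl⟩, hfx⟩ ⟨_, ⟨w', v', hw1', hv1', rfl⟩, hgx⟩
  have hfφ := comp_mem φ hφ f hf
  have hgφ := comp_mem φ hφ g hg
  obtain ⟨u, hu, hu1, hu2⟩ := hS.2 _ (comp_mem (fun v : V => (w, v)) (right_pm w) _ hfφ) _
    (comp_mem (fun v : V => (w', v)) (right_pm w') _ hgφ) ⟨v, hv1, hfx⟩ ⟨v', hv1', hgx⟩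
  have hF1 := comp_mem (fun w : W => (w, u)) (left_pm u) _ hfφ
  have hF2 := comp_mem (fun w : W => (w, u)) (left_pm u) _ hgφ
  obtain ⟨w1, hw1a, hw1b⟩ := two _ hF1 _ hF2 w w' hu1 hu2
  obtain ⟨w2, hw2a, hw2b⟩ := two _ ((Poly W).mul_mem hF1 hF2) h hh w1 w0
    (mul_ne_zero hw1a hw1b) hw0
  have hw2c := mul_ne_zero_iff.mp hw2a
  exact ⟨φ (w2, u), ⟨w2, u, hw2b, hu, rfl⟩, hw2c.1, hw2c.2⟩

end MC
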