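import Pool.Agent.Lib.MC.Stmts2
import Pool.Agent.Lib.MC.DO
import Pool.Agent.Lib.MC.AC
import Pool.Agent.Lib.MC.ZA

set_option autoImplicit false

/-!
# MP_ac098b_ag, module BD: the classes of the nonzero sections
-/

noncomputable section

namespace MC

open Matrix

namespace BDAux

open ACAux

/-- A linear functional on pairs of matrices is a combination of the entries. -/
theorem lin_pair (L : M5 × M5 →ₗ[ℂ] ℂ) (x : M5 × M5) :
    L x = (∑ a, ∑ b, x.1 a b * L (Matrix.single a b 1, 0)) +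
      ∑ a, ∑ b, x.2 a b * L (0, Matrix.single a b 1) := by
  have e : x = ((x.1, 0) : M5 × M5) + (0, x.2) := by simp
  have h1 : L (x.1, 0) = ∑ a, ∑ b, x.1 a b * L (Matrix.single a b 1, 0) := by
    have e1 : (x.1, (0 : M5)) = LinearMap.inl ℂ M5 M5 x.1 := rfl
    rw [e1, ← LinearMap.comp_apply]
    conv_lhs => rw [Matrix.matrix_eq_sum_single x.1]
    rw [map_sum]
    refine Finset.sum_congr rfl fun a _ => ?_
    rw [map_sum]
    refine Finset.sum_congr rfl fun b _ => ?_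
    have e2 : (Matrix.single a b (x.1 a b) : M5) = x.1 a b • Matrix.single a b 1 := by
      rw [Matrix.smul_single, smul_eq_mul, mul_one]
    rw [e2, map_smul, smul_eq_mul]
    rfl
  have h2 : L (0, x.2) = ∑ a, ∑ b, x.2 a b * L (0, Matrix.single a b 1) := by
    have e1 : ((0 : M5), x.2) = LinearMap.inr ℂ M5 M5 x.2 := rfl
    rw [e1, ← LinearMap.comp_apply]
    conv_lhs => rw [Matrix.matrix_eq_sum_single x.2]
    rw [map_sum]
    refine Finset.sum_congr rfl fun a _ => ?_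
    rw [map_sum]
    refine Finset.sum_congr rfl fun b _ => ?_
    have e2 : (Matrix.single a b (x.2 a b) : M5) = x.2 a b • Matrix.single a b 1 := by
      rw [Matrix.smul_single, smul_eq_mul, mul_one]
    rw [e2, map_smul, smul_eq_mul]
    rfl
  conv_lhs => rw [e]
  rw [map_add, h1, h2]

theorem polyMap_pair {V : Type} [AddCommGroup V] [Module ℂ V] (F : V → M5 × M5)
    (h1 : MPoly fun v => (F v).1) (h2 : MPoly fun v => (F v).2) : PolyMap F := by
  intro L
  rw [show (fun v => L (F v)) = fun v => (∑ a, ∑ b, (F v).1 a b * L (Matrix.single a b 1, 0)) +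
      ∑ a, ∑ b, (F v).2 a b * L (0, Matrix.single a b 1) from funext fun v => lin_pair L (F v)]
  exact (Poly V).add_mem
    (poly_sum _ fun a _ => poly_sum _ fun b _ => poly_mul (h1 a b) (poly_const _))
    (poly_sum _ fun a _ => poly_sum _ fun b _ => poly_mul (h2 a b) (poly_const _))

/-- A section of negative degree on a curve vanishes on the curve. -/
theorem curve (hRG : StRG) {m n : ℤ} {φ : Cone → ℂ} (hφ : IsSec m n φ)
    (F : (Fin 2 → ℂ) → M5 × M5) (hF : PolyMap F) (hC : ∀ v, v ≠ 0 → F v ∈ Cone) (a b : ℕ)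
    (hs : ∀ v, v ≠ 0 → ∀ s : ℂ, s ≠ 0 → F (s • v) = scal (s ^ a) (s ^ b) (F v))
    (hk : (a : ℤ) * n + b * m < 0) (v : Fin 2 → ℂ) (hv : v ≠ 0) : φ ⟨F v, hC v hv⟩ = 0 := by
  classical
  let ψ : (Fin 2 → ℂ) → ℂ := fun v => if h : F v ∈ Cone then φ ⟨F v, h⟩ else 0
  have hψ : ∀ v (hv : v ≠ 0), ψ v = φ ⟨F v, hC v hv⟩ := fun v hv => dif_pos (hC v hv)
  rw [← hψ v hv]
  refine ((hRG ((a : ℤ) * n + b * m) ψ ?_ ?_).1 hk) v hv
  · intro v hv
    obtain ⟨p, hp, r, hr, hr0, h⟩ := hφ.1 ⟨F v, hC v hv⟩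
    refine ⟨fun v => p (F v), ZAAux.comp_mem F hF p hp, fun v => r (F v),
      ZAAux.comp_mem F hF r hr, hr0, ?_⟩
    intro v' hv' hr'
    rw [hψ v' hv']
    exact h ⟨F v', hC v' hv'⟩ hr'
  · intro v hv s hs0
    have hsv : s • v ≠ 0 := smul_ne_zero hs0 hv
    rw [hψ v hv, hψ (s • v) hsv]
    rw [hφ.2 ⟨F v, hC v hv⟩ ⟨F (s • v), hC (s • v) hsv⟩ (s ^ a) (s ^ b) (pow_ne_zero _ hs0)
      (pow_ne_zero _ hs0) (hs v hv s hs0)]
    congr 1
    rw [← zpow_natCast, ← zpow_natCast, ← _root_.zpow_mul, ← _root_.zpow_mul, ← zpow_add₀ hs0]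

/-- vectors in the kernel of `Q` -/
def uu (Q : M5) (p q k : Fin 5) : Fin 5 → ℂ :=
  Q p q • Pi.single k 1 + Q q k • Pi.single p 1 + Q k p • Pi.single q 1

theorem uu_mul {Q : M5} (hs : Qᵀ = -Q)
    (hQ : ∀ i j k l, Q i j * Q k l - Q i k * Q j l + Q i l * Q j k = 0) (p q k : Fin 5) :
    uu Q p q k ᵥ* Q = 0 := by
  have hsk : ∀ a b, Q b a = -Q a b := fun a b => by
    have := congrFun (congrFun hs a) b
    simpa using this
  funext l
  have h1 : (uu Q p q k ᵥ* Q) l = Q p q * Q k l + Q q k * Q p l + Q k p * Q q l := by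
    simp only [uu, Matrix.add_vecMul, Matrix.smul_vecMul, Matrix.single_one_vecMul, Pi.add_apply,
      Pi.smul_apply, smul_eq_mul, Matrix.row_apply]
  rw [h1, Pi.zero_apply]
  have h2 := hQ k l p q
  rw [hsk l p, hsk l q, hsk p k, hsk q k] at *
  linear_combination h2

theorem sym_vv (u : Fin 5 → ℂ) : (vecMulVec u u)ᵀ = vecMulVec u u := by
  ext i j
  simp [Matrix.vecMulVec_apply, mul_comm]

theorem uu_self {Q : M5} {p q k : Fin 5} (hp : k ≠ p) (hq : k ≠ q) : uu Q p q k k = Q p q := by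
  simp [uu, hp, hq]

theorem uu_other {Q : M5} {p q k k' : Fin 5} (hk : k' ≠ k) (hp : k' ≠ p) (hq : k' ≠ q) :
    uu Q p q k k' = 0 := by
  simp [uu, hp, hq, hk]

theorem exists_two (p q : Fin 5) : ∃ k k' : Fin 5, k ≠ p ∧ k ≠ q ∧ k' ≠ p ∧ k' ≠ q ∧ k' ≠ k := by
  revert p q
  decide

theorem exists_B {x : M5 × M5} (hx : x ∈ Cone) : ∃ B : M5, Bᵀ = B ∧ B * x.1 = 0 ∧
    ∀ s t : ℂ, (s ≠ 0 ∨ t ≠ 0) → s • x.2 + t • B ≠ 0 := by
  obtain ⟨h1, h2, h3, h4, h5, h6⟩ := hx
  obtain ⟨p, q, hpq⟩ : ∃ p q, x.1 p q ≠ 0 := by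
    by_contra hcon
    push Not at hcon
    exact h3 (Matrix.ext hcon)
  obtain ⟨k, k', a1, a2, a3, a4, a5⟩ := exists_two p q
  have hB : ∀ j, vecMulVec (uu x.1 p q j) (uu x.1 p q j) * x.1 = 0 := by
    intro j
    rw [Matrix.vecMulVec_mul, uu_mul h1 h2]
    ext i l
    simp [Matrix.vecMulVec_apply]
  by_contra hcon
  push Not at hcon
  have key : ∀ j, j ≠ p → j ≠ q → ∃ t : ℂ, t ≠ 0 ∧
      x.2 = t • vecMulVec (uu x.1 p q j) (uu x.1 p q j) := by
    intro j hj1 hj2
    obtain ⟨s, t, hst, h⟩ := hcon _ (sym_vv (uu x.1 p q j)) (hB j)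
    have hs : s ≠ 0 := by
      intro hs
      rw [hs, zero_smul, zero_add] at h
      have ht : t ≠ 0 := by
        rcases hst with h' | h'
        · exact absurd hs h'
        · exact h'
      have h7 := congrFun (congrFun h j) j
      simp only [Matrix.smul_apply, Matrix.vecMulVec_apply, uu_self hj1 hj2, smul_eq_mul,
        Matrix.zero_apply, mul_eq_zero, or_self] at h7
      rcases h7 with h7 | h7
      · exact ht h7
      · exact hpq h7
    have h8 : x.2 = (-t / s) • vecMulVec (uu x.1 p q j) (uu x.1 p q j) := by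
      ext a b
      have h9 := congrFun (congrFun h a) b
      simp only [Matrix.add_apply, Matrix.smul_apply, smul_eq_mul, Matrix.zero_apply] at h9 ⊢
      field_simp
      linear_combination h9
    refine ⟨-t / s, ?_, h8⟩
    intro h0
    rw [h0, zero_smul] at h8
    exact h5 h8
  obtain ⟨t, ht, e⟩ := key k a1 a2
  obtain ⟨t', ht', e'⟩ := key k' a3 a4
  rw [e] at e'
  have h9 := congrFun (congrFun e' k) k
  simp only [Matrix.smul_apply, Matrix.vecMulVec_apply, uu_self a1 a2,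
    uu_other (Ne.symm a5) a1 a2, smul_eq_mul, mul_zero, mul_eq_zero, or_self] at h9
  rcases h9 with h9 | h9
  · exact ht h9
  · exact hpq h9

theorem poly_co (i : Fin 2) : (fun v : Fin 2 → ℂ => v i) ∈ Poly (Fin 2 → ℂ) :=
  poly_lin (LinearMap.proj (R := ℂ) (φ := fun _ : Fin 2 => ℂ) i)

theorem m_nonneg (hRG : StRG) {m n : ℤ} {φ : Cone → ℂ} (hφ : IsSec m n φ) (h0 : φ ≠ 0) :
    0 ≤ m := by
  by_contra hm
  apply h0
  funext x
  obtain ⟨B, hB1, hB2, hB3⟩ := exists_B x.2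
  have hx := x.2
  obtain ⟨h1, h2, h3, h4, h5, h6⟩ := hx
  let F : (Fin 2 → ℂ) → M5 × M5 := fun v => ((x : M5 × M5).1, v 0 • (x : M5 × M5).2 + v 1 • B)
  have hF : PolyMap F := by
    apply polyMap_pair
    · intro a b
      exact poly_const _
    · intro a b
      change (fun v : Fin 2 → ℂ => (v 0 • (x : M5 × M5).2 + v 1 • B) a b) ∈ Poly (Fin 2 → ℂ)
      simp only [Matrix.add_apply, Matrix.smul_apply, smul_eq_mul]
      exact (Poly _).add_mem (poly_mul (poly_co 0) (poly_const _))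
        (poly_mul (poly_co 1) (poly_const _))
  have hC : ∀ v, v ≠ 0 → F v ∈ Cone := by
    intro v hv
    refine ⟨h1, h2, h3, ?_, ?_, ?_⟩
    · change (v 0 • (x : M5 × M5).2 + v 1 • B)ᵀ = _
      rw [Matrix.transpose_add, Matrix.transpose_smul, Matrix.transpose_smul, h4, hB1]
    · apply hB3
      by_contra hcon
      push Not at hcon
      apply hv
      funext i
      fin_cases i
      · exact hcon.1
      · exact hcon.2
    · change (v 0 • (x : M5 × M5).2 + v 1 • B) * (x : M5 × M5).1 = 0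
      rw [Matrix.add_mul, Matrix.smul_mul, Matrix.smul_mul, h6, hB2]
      simp
  have h := curve hRG hφ F hF hC 0 1 (by
    intro v hv s hs
    apply Prod.ext
    · simp [F, scal]
    · simp [F, scal, smul_add, smul_smul]) (by push Not at hm; simpa using hm) ![1, 0] (by
        intro h
        have := congrFun h 0
        simp at this)
  have e : F ![1, 0] = x := by
    apply Prod.ext
    · rfl
    · simp [F]
  rw [Pi.zero_apply, ← h]
  congr 1
  exact Subtype.ext e.symm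

theorem poly_ev {d : ℕ} (q : Fin (d + 1) → M5) : MPoly (fun v : Fin 2 → ℂ => ev q v) := by
  intro a b
  have e : (fun v : Fin 2 → ℂ => ev q v a b) =
      fun v => ∑ i : Fin (d + 1), (v 0 ^ (d - (i : ℕ)) * v 1 ^ (i : ℕ)) * q i a b := by
    funext v
    unfold ev
    rw [Matrix.sum_apply]
    rfl
  rw [e]
  refine poly_sum _ fun i _ => poly_mul (poly_mul ?_ ?_) (poly_const _)
  · exact (Poly _).pow_mem (poly_co 0) _
  · exact (Poly _).pow_mem (poly_co 1) _

theorem ev_hom {d : ℕ} (q : Fin (d + 1) → M5) (t : ℂ) (v : Fin 2 → ℂ) :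
    ev q (t • v) = t ^ d • ev q v := by
  unfold ev
  rw [Finset.smul_sum]
  refine Finset.sum_congr rfl fun i _ => ?_
  rw [smul_smul]
  congr 1
  simp only [Pi.smul_apply, smul_eq_mul]
  have h : t ^ d = t ^ (d - (i : ℕ)) * t ^ (i : ℕ) := by
    rw [← pow_add]
    congr 1
    have := i.2
    omega
  rw [h]
  ring

theorem act_scal (g : M5) (μ lam : ℂ) (x : M5 × M5) :
    act g (scal μ lam x) = scal μ lam (act g x) := by
  simp [act, scal]

theorem ev_zero {d : ℕ} (q : Fin (d + 1) → M5) : ev q ![1, 0] = q 0 := by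
  unfold ev
  rw [Finset.sum_eq_single 0]
  · simp
  · intro i _ hi
    have : (i : ℕ) ≠ 0 := by
      intro h
      exact hi (Fin.ext h)
    simp [this]
  · simp

theorem second (hRG : StRG) (hIX : StIX) (hEX : StEX) (hAC : StAC) {m n : ℤ} {φ : Cone → ℂ}
    (hφ : IsSec m n φ) (h0 : φ ≠ 0) : 0 ≤ 2 * m + 3 * n := by
  by_contra hmn
  obtain ⟨x, hx⟩ : ∃ x, φ x ≠ 0 := by
    by_contra hcon
    push Not at hcon
    exact h0 (funext hcon)
  obtain ⟨p, hp, r, hr, hr0, h⟩ := hφ.1 x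
  have hpx : p (x : M5 × M5) ≠ 0 := by
    intro hp0
    apply hx
    rw [h x hr0, hp0, zero_div]
  obtain ⟨hirr, -, htr⟩ := hIX
  obtain ⟨z, hz, hz1, hz2⟩ := hirr.2 (fun v => p v * r v) (poly_mul hp hr) DOAux.mn
    DOAux.mn_poly ⟨x, x.2, mul_ne_zero hpx hr0⟩ ⟨DOAux.x0, DOAux.x0_cone, DOAux.x0_mn⟩
  have hz3 := DOAux.mn_rank hz hz2
  have hφz : φ ⟨z, hz⟩ ≠ 0 := by
    rw [h ⟨z, hz⟩ (right_ne_zero_of_mul hz1)]
    exact div_ne_zero (left_ne_zero_of_mul hz1) (right_ne_zero_of_mul hz1)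
  obtain ⟨⟨c, hc, hblk, -⟩, -⟩ := hEX
  have hv0 : (![1, 0] : Fin 2 → ℂ) ≠ 0 := by
    intro h
    have := congrFun h 0
    simp at this
  have hcr : (evp c ![1, 0]).2.rank = 3 := by
    have e : (evp c ![1, 0]).2 = c.2 0 := ev_zero c.2
    have h1 := Matrix.rank_of_det_ne_zero hblk
    have h2 : (blk (c.2 0)).rank ≤ (c.2 0).rank := Matrix.rank_submatrix_le (c.2 0) i024 i024
    have h3 := DOAux.rank_le (hc _ hv0)
    rw [e] at h3 ⊢
    simp only [Fintype.card_fin] at h1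
    omega
  obtain ⟨g, hg, μ, lam, hμ, hl, hs⟩ := htr (evp c ![1, 0]) (hc _ hv0) z hz hcr hz3
  let F : (Fin 2 → ℂ) → M5 × M5 := fun v => act g (evp c v)
  have hF : PolyMap F := by
    apply polyMap_pair
    · have := ((MPoly.mul (V := Fin 2 → ℂ) (F := fun _ => (adjugate g)ᵀ)
        (fun a b => poly_const _) (poly_ev c.1))).mul (F' := fun _ => adjugate g)
        (fun a b => poly_const _)
      exact this
    · have := ((MPoly.mul (V := Fin 2 → ℂ) (F := fun _ => g)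
        (fun a b => poly_const _) (poly_ev c.2))).mul (F' := fun _ => gᵀ)
        (fun a b => poly_const _)
      exact this
  have hC : ∀ v, v ≠ 0 → F v ∈ Cone := fun v hv => (hAC.2.1 g (evp c v) hg).2 (hc v hv)
  have hF0 := curve hRG hφ F hF hC 3 2 (by
    intro v hv s hs
    change act g (evp c (s • v)) = scal (s ^ 3) (s ^ 2) (act g (evp c v))
    rw [← act_scal]
    congr 1
    apply Prod.ext
    · exact ev_hom c.1 s v
    · exact ev_hom c.2 s v) (by push Not at hmn; push_cast; linarith) ![1, 0] hv0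
  apply hφz
  rw [hφ.2 ⟨F ![1, 0], hC _ hv0⟩ ⟨z, hz⟩ μ lam hμ hl hs, hF0, mul_zero]

end BDAux

/-- Module BD. -/
theorem stBD (hRG : StRG) (hIX : StIX) (hEX : StEX) (hAC : StAC) : StBD :=
  fun _ _ _ hφ h0 => ⟨BDAux.m_nonneg hRG hφ h0, BDAux.second hRG hIX hEX hAC hφ h0⟩

end MC
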