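import Pool.Agent.Lib.MC.Stmts

set_option autoImplicit false

/-!
# Two Manin components of the same class (MP_ac098b_ag): module IX

The variety `X` is irreducible, and `GL₅` acts transitively on the pairs with `A` of rank three.
-/

noncomputable section

namespace MC

open Matrix

namespace IXAux

/-- the diagonal matrix of rank three -/
def D0 : M5 := Matrix.diagonal ![1, 1, 1, 0, 0]

lemma act_scal (g : M5) (μ lam : ℂ) (x : M5 × M5) :
    act g (scal μ lam x) = scal μ lam (act g x) := by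
  simp [act, scal]

lemma scal_scal (μ lam μ' lam' : ℂ) (x : M5 × M5) :
    scal μ lam (scal μ' lam' x) = scal (μ * μ') (lam * lam') x := by
  simp [scal, smul_smul]

lemma scal_one (x : M5 × M5) : scal 1 1 x = x := by
  simp [scal]

lemma act_act (g h : M5) (x : M5 × M5) : act g (act h x) = act (g * h) x := by
  simp only [act, adjugate_mul_distrib, transpose_mul, Matrix.mul_assoc]

lemma act_smul_one (δ : ℂ) (x : M5 × M5) :
    act (δ • (1 : M5)) x = scal (δ ^ 8) (δ ^ 2) x := by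
  have h1 : adjugate (δ • (1 : M5)) = δ ^ 4 • (1 : M5) := by
    rw [adjugate_smul, adjugate_one]
    simp
  simp only [act, scal, h1, transpose_smul, transpose_one, Matrix.smul_mul, Matrix.mul_smul,
    Matrix.one_mul, Matrix.mul_one, smul_smul]
  congr 2
  · ring
  · ring

/-- the orbit relation -/
def Rel (x y : M5 × M5) : Prop := ∃ g : M5, g.det ≠ 0 ∧ Same (act g x) y

lemma Rel.symm {x y : M5 × M5} (h : Rel x y) : Rel y x := by
  obtain ⟨g, hg, μ, lam, hμ, hl, hy⟩ := h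
  refine ⟨adjugate g, ?_, (μ * g.det ^ 8)⁻¹, (lam * g.det ^ 2)⁻¹, ?_, ?_, ?_⟩
  · rw [det_adjugate]
    exact pow_ne_zero _ hg
  · exact inv_ne_zero (mul_ne_zero hμ (pow_ne_zero _ hg))
  · exact inv_ne_zero (mul_ne_zero hl (pow_ne_zero _ hg))
  · rw [hy, act_scal, act_act, adjugate_mul, act_smul_one, scal_scal, scal_scal, mul_assoc,
      mul_assoc, inv_mul_cancel₀ (mul_ne_zero hμ (pow_ne_zero _ hg)),
      inv_mul_cancel₀ (mul_ne_zero hl (pow_ne_zero _ hg)), scal_one]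

lemma Rel.trans {x y z : M5 × M5} (h : Rel x y) (h' : Rel y z) : Rel x z := by
  obtain ⟨g, hg, μ, lam, hμ, hl, hy⟩ := h
  obtain ⟨g', hg', μ', lam', hμ', hl', hz⟩ := h'
  refine ⟨g' * g, by rw [det_mul]; exact mul_ne_zero hg' hg, μ' * μ, lam' * lam,
    mul_ne_zero hμ' hμ, mul_ne_zero hl' hl, ?_⟩
  rw [hz, hy, act_scal, act_act, scal_scal]

/-! ### The matrix `Q₀` -/

lemma Q0_apply (i j : Fin 5) : Q0 i j =
    (if i = 3 then (1 : ℂ) else 0) * (if j = 4 then 1 else 0) -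
      (if i = 4 then 1 else 0) * (if j = 3 then 1 else 0) := by
  rw [Q0, Matrix.sub_apply, Matrix.single_apply, Matrix.single_apply]
  by_cases h1 : i = 3 <;> by_cases h2 : i = 4 <;> by_cases h3 : j = 3 <;> by_cases h4 : j = 4 <;>
    simp [h1, h2, h3, h4, eq_comm]

lemma conj_apply (h : M5) (i j : Fin 5) :
    (hᵀ * Q0 * h) i j = h 3 i * h 4 j - h 4 i * h 3 j := by
  rw [Matrix.mul_apply]
  have h1 : ∀ k, (hᵀ * Q0) i k = h 3 i * (if k = 4 then 1 else 0) -
      h 4 i * (if k = 3 then 1 else 0) := by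
    intro k
    rw [Matrix.mul_apply]
    simp only [Q0_apply, Matrix.transpose_apply, mul_sub, Finset.sum_sub_distrib]
    congr 1
    · rw [Finset.sum_eq_single 3] <;> simp +contextual
    · rw [Finset.sum_eq_single 4] <;> simp +contextual
  simp only [h1, sub_mul, Finset.sum_sub_distrib]
  congr 1
  · rw [Finset.sum_eq_single 4] <;> simp +contextual
  · rw [Finset.sum_eq_single 3] <;> simp +contextual

lemma mul_Q0_apply (A : M5) (i j : Fin 5) :
    (A * Q0) i j = A i 3 * (if j = 4 then 1 else 0) - A i 4 * (if j = 3 then 1 else 0) := by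
  rw [Matrix.mul_apply]
  simp only [Q0_apply, mul_sub, Finset.sum_sub_distrib]
  congr 1
  · rw [Finset.sum_eq_single 3] <;> simp +contextual
  · rw [Finset.sum_eq_single 4] <;> simp +contextual

/-! ### The linear space of the matrices `A'` -/

/-- symmetric matrices supported on the first three rows and columns -/
def LL : Submodule ℂ M5 where
  carrier := {A | Aᵀ = A ∧ ∀ i, A i 3 = 0 ∧ A i 4 = 0}
  add_mem' := by
    rintro A B ⟨h1, h2⟩ ⟨h3, h4⟩
    refine ⟨by rw [transpose_add, h1, h3], fun i => ⟨?_, ?_⟩⟩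
    · rw [Matrix.add_apply, (h2 i).1, (h4 i).1, add_zero]
    · rw [Matrix.add_apply, (h2 i).2, (h4 i).2, add_zero]
  zero_mem' := ⟨by simp, by simp⟩
  smul_mem' := by
    rintro c A ⟨h1, h2⟩
    refine ⟨by rw [transpose_smul, h1], fun i => ⟨?_, ?_⟩⟩
    · rw [Matrix.smul_apply, (h2 i).1, smul_zero]
    · rw [Matrix.smul_apply, (h2 i).2, smul_zero]

lemma mem_LL {A : M5} : A ∈ LL ↔ Aᵀ = A ∧ ∀ i, A i 3 = 0 ∧ A i 4 = 0 := Iff.rfl

lemma D0_mem : D0 ∈ LL := by
  refine ⟨by rw [D0, diagonal_transpose], fun i => ?_⟩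
  fin_cases i <;> simp [D0]

lemma D0_ne : D0 ≠ 0 := by
  intro h
  have h1 := congrFun (congrFun h 0) 0
  simp [D0] at h1

lemma base_mem {c : ℂ} (hc : c ≠ 0) {A : M5} (hA : A ∈ LL) (hA0 : A ≠ 0) :
    (c • Q0, A) ∈ Cone := by
  refine ⟨?_, ?_, ?_, hA.1, hA0, ?_⟩
  · ext i j
    simp only [Matrix.transpose_apply, Matrix.smul_apply, Matrix.neg_apply, Q0_apply, smul_eq_mul]
    ring
  · intro i j k l
    simp only [Matrix.smul_apply, Q0_apply, smul_eq_mul]
    ring
  · intro h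
    have h1 := congrFun (congrFun h 3) 4
    have h2 : (3 : Fin 5) ≠ 4 := by decide
    simp only [Matrix.smul_apply, Q0_apply, smul_eq_mul, Matrix.zero_apply, if_true, h2, h2.symm,
      if_false, mul_one, mul_zero, sub_zero] at h1
    exact hc h1
  · ext i j
    show (A * (c • Q0)) i j = 0
    rw [Matrix.mul_smul, Matrix.smul_apply, mul_Q0_apply, (hA.2 i).1, (hA.2 i).2]
    simp

/-- a permutation with two prescribed values -/
lemma exists_perm (i j : Fin 5) (hij : i ≠ j) : ∃ e : Equiv.Perm (Fin 5), e 3 = i ∧ e 4 = j := by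
  revert i j
  decide

lemma exists_basis {Q : M5} (hQ : Qᵀ = -Q) {i₀ j₀ : Fin 5} (hq : Q i₀ j₀ ≠ 0) :
    ∃ h : M5, h.det ≠ 0 ∧ h 3 = Q i₀ ∧ h 4 = Q j₀ := by
  have hsk : ∀ i j, Q j i = - Q i j := fun i j => by
    have := congrFun (congrFun hQ i) j
    rwa [Matrix.transpose_apply, Matrix.neg_apply] at this
  have hd : ∀ i, Q i i = 0 := fun i => by
    have := hsk i i
    linear_combination (1 / 2 : ℂ) * this
  have hij : i₀ ≠ j₀ := by
    rintro rfl
    exact hq (hd i₀)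
  obtain ⟨e, he3, he4⟩ := exists_perm i₀ j₀ hij
  refine ⟨fun r => if r = 3 then Q i₀ else if r = 4 then Q j₀ else Pi.single (e r) 1, ?_, by simp,
    by simp⟩
  intro hdet
  obtain ⟨v, hv0, hv⟩ := Matrix.exists_mulVec_eq_zero_iff.mpr hdet
  apply hv0
  have h0 : v (e 0) = 0 := by
    have : (Pi.single (e 0) (1 : ℂ) : Fin 5 → ℂ) ⬝ᵥ v = 0 := congrFun hv 0
    rwa [single_dotProduct, one_mul] at this
  have h1 : v (e 1) = 0 := by
    have : (Pi.single (e 1) (1 : ℂ) : Fin 5 → ℂ) ⬝ᵥ v = 0 := congrFun hv 1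
    rwa [single_dotProduct, one_mul] at this
  have h2 : v (e 2) = 0 := by
    have : (Pi.single (e 2) (1 : ℂ) : Fin 5 → ℂ) ⬝ᵥ v = 0 := congrFun hv 2
    rwa [single_dotProduct, one_mul] at this
  have hs : ∀ a : Fin 5 → ℂ, ∑ k, a k * v k = a i₀ * v i₀ + a j₀ * v j₀ := by
    intro a
    rw [← Equiv.sum_comp e, Fin.sum_univ_five, h0, h1, h2, he3, he4]
    ring
  have h3 : Q i₀ j₀ * v j₀ = 0 := by
    have := congrFun hv 3
    have h4 : ∑ k, Q i₀ k * v k = 0 := this
    rw [hs, hd, zero_mul, zero_add] at h4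
    exact h4
  have h4 : Q j₀ i₀ * v i₀ = 0 := by
    have := congrFun hv 4
    have h4 : ∑ k, Q j₀ k * v k = 0 := this
    rw [hs, hd, zero_mul, add_zero] at h4
    exact h4
  have h5 : v j₀ = 0 := (mul_eq_zero.mp h3).resolve_left hq
  have h6 : v i₀ = 0 := by
    rw [hsk i₀ j₀] at h4
    exact (mul_eq_zero.mp h4).resolve_left (neg_ne_zero.mpr hq)
  funext k
  obtain ⟨r, rfl⟩ := e.surjective k
  fin_cases r
  · exact h0
  · exact h1
  · exact h2
  · show v (e 3) = 0
    rw [he3]; exact h6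
  · show v (e 4) = 0
    rw [he4]; exact h5

lemma adj_of_mul {g h : M5} (hgh : g * h = 1) : adjugate g = g.det • h := by
  calc adjugate g = adjugate g * (g * h) := by rw [hgh, Matrix.mul_one]
    _ = g.det • h := by rw [← Matrix.mul_assoc, adjugate_mul, Matrix.smul_mul, Matrix.one_mul]

/-- the normal form -/
lemma nf {x : M5 × M5} (hx : x ∈ Cone) : ∃ g : M5, g.det ≠ 0 ∧ ∃ c : ℂ, c ≠ 0 ∧
    ∃ A ∈ LL, A ≠ 0 ∧ x = act g (c • Q0, A) := by
  obtain ⟨Q, A⟩ := x
  obtain ⟨hQ, hpl, hQ0, hA, hA0, hAQ⟩ := hx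
  simp only at hQ hpl hQ0 hA hA0 hAQ
  obtain ⟨i₀, j₀, hq⟩ : ∃ i j, Q i j ≠ 0 := by
    by_contra hcon
    push Not at hcon
    exact hQ0 (by ext i j; exact hcon i j)
  obtain ⟨h, hh, h3, h4⟩ := exists_basis hQ hq
  have hgh : h⁻¹ * h = 1 := Matrix.nonsing_inv_mul h (isUnit_iff_ne_zero.mpr hh)
  have hhg : h * h⁻¹ = 1 := Matrix.mul_nonsing_inv h (isUnit_iff_ne_zero.mpr hh)
  have hg : (h⁻¹).det ≠ 0 := by
    intro h0
    have := congrArg Matrix.det hgh
    rw [det_mul, h0, zero_mul, det_one] at this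
    exact zero_ne_one this
  have hconj : hᵀ * Q0 * h = Q i₀ j₀ • Q := by
    ext i j
    rw [conj_apply, h3, h4, Matrix.smul_apply, smul_eq_mul]
    have := hpl i₀ j₀ i j
    linear_combination -this
  have hA' : h * A * hᵀ * Q0 = 0 := by
    have h5 : A * (hᵀ * Q0 * h) = 0 := by rw [hconj, Matrix.mul_smul, hAQ, smul_zero]
    calc h * A * hᵀ * Q0 = h * (A * (hᵀ * Q0 * h)) * h⁻¹ := by
          simp only [Matrix.mul_assoc, hhg, Matrix.mul_one]
      _ = 0 := by rw [h5, Matrix.mul_zero, Matrix.zero_mul]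
  have hback : h⁻¹ * (h * A * hᵀ) * (h⁻¹)ᵀ = A := by
    have h6 : hᵀ * (h⁻¹)ᵀ = 1 := by rw [← transpose_mul, hgh, transpose_one]
    calc h⁻¹ * (h * A * hᵀ) * (h⁻¹)ᵀ = (h⁻¹ * h) * A * (hᵀ * (h⁻¹)ᵀ) := by
          simp only [Matrix.mul_assoc]
      _ = A := by rw [hgh, h6, Matrix.one_mul, Matrix.mul_one]
  refine ⟨h⁻¹, hg, ((h⁻¹).det ^ 2 * Q i₀ j₀)⁻¹,
    inv_ne_zero (mul_ne_zero (pow_ne_zero _ hg) hq), h * A * hᵀ, ⟨?_, fun i => ⟨?_, ?_⟩⟩, ?_, ?_⟩
  · rw [transpose_mul, transpose_mul, transpose_transpose, hA, Matrix.mul_assoc]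
  · have := congrFun (congrFun hA' i) 4
    rw [mul_Q0_apply] at this
    simpa using this
  · have := congrFun (congrFun hA' i) 3
    rw [mul_Q0_apply] at this
    simpa using this
  · intro h0
    rw [h0, Matrix.mul_zero, Matrix.zero_mul] at hback
    exact hA0 hback.symm
  · have hadj := adj_of_mul hgh
    refine Prod.ext ?_ hback.symm
    show Q = (adjugate h⁻¹)ᵀ * (((h⁻¹).det ^ 2 * Q i₀ j₀)⁻¹ • Q0) * adjugate h⁻¹
    rw [hadj, transpose_smul, Matrix.smul_mul, Matrix.smul_mul, Matrix.mul_smul, Matrix.mul_smul,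
      Matrix.smul_mul, hconj, smul_smul, smul_smul, smul_smul]
    have h7 : (h⁻¹).det * ((h⁻¹).det * (((h⁻¹).det ^ 2 * Q i₀ j₀)⁻¹ * Q i₀ j₀)) = 1 := by
      field_simp
    rw [show (h⁻¹).det * (h⁻¹).det * ((h⁻¹).det ^ 2 * Q i₀ j₀)⁻¹ * Q i₀ j₀ = 1 by
      rw [← h7]; ring, one_smul]

/-! ### Polynomial functions -/

section Pol

variable {V W : Type} [AddCommGroup V] [Module ℂ V] [AddCommGroup W] [Module ℂ W]

lemma lin_mem (φ : V →ₗ[ℂ] ℂ) : (fun v => φ v) ∈ Poly V :=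
  Algebra.subset_adjoin ⟨φ, rfl⟩

lemma polyMap_lin (F : V →ₗ[ℂ] W) : PolyMap (fun v => F v) := fun φ => lin_mem (φ.comp F)

/-- the entry function -/
def entry (i j : Fin 5) : M5 →ₗ[ℂ] ℂ where
  toFun A := A i j
  map_add' _ _ := rfl
  map_smul' _ _ := rfl

lemma det_mem : (fun g : M5 => g.det) ∈ Poly M5 := by
  have h1 : (fun g : M5 => g.det) = ∑ s : Equiv.Perm (Fin 5),
      ((Equiv.Perm.sign s : ℤ) : ℂ) • ∏ i, (fun g : M5 => entry (s i) i g) := by
    funext g
    rw [Matrix.det_apply, Finset.sum_apply]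
    refine Finset.sum_congr rfl fun s _ => ?_
    rw [Pi.smul_apply, Finset.prod_apply, Units.smul_def, zsmul_eq_mul, smul_eq_mul]
    rfl
  rw [h1]
  exact Subalgebra.sum_mem _ fun s _ => Subalgebra.smul_mem _
    (Subalgebra.prod_mem _ fun i _ => lin_mem (entry (s i) i)) _

end Pol

/-- the map `((g, c), A) ↦ (g, (c Q₀, A))` -/
def lam0 : (M5 × ℂ) × M5 →ₗ[ℂ] M5 × CV 0 0 where
  toFun x := (x.1.1, (fun _ => x.1.2 • Q0, fun _ => x.2))
  map_add' x y := by
    refine Prod.ext rfl (Prod.ext ?_ rfl)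
    funext i
    exact add_smul _ _ _
  map_smul' c x := by
    refine Prod.ext rfl (Prod.ext ?_ rfl)
    funext i
    exact mul_smul _ _ _

/-- the value at the index `0` -/
def lam1 : CV 0 0 →ₗ[ℂ] M5 × M5 where
  toFun c := (c.1 0, c.2 0)
  map_add' _ _ := rfl
  map_smul' _ _ := rfl

lemma irr_LL (hZA : StZA) : Irr {A : M5 | A ∈ LL ∧ A ≠ 0} := by
  refine ⟨⟨D0, D0_mem, D0_ne⟩, ?_⟩
  rintro f hf g hg ⟨A, ⟨hA, hA0⟩, hfA⟩ ⟨B, ⟨hB, hB0⟩, hgB⟩
  have hf' : (fun u : LL => f (u : M5)) ∈ Poly LL :=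
    hZA.2.1 LL M5 (fun u => (u : M5)) (polyMap_lin LL.subtype) f hf
  have hg' : (fun u : LL => g (u : M5)) ∈ Poly LL :=
    hZA.2.1 LL M5 (fun u => (u : M5)) (polyMap_lin LL.subtype) g hg
  obtain ⟨i, j, hij⟩ : ∃ i j, A i j ≠ 0 := by
    by_contra hcon
    push Not at hcon
    exact hA0 (by ext i j; exact hcon i j)
  have he : (fun u : LL => entry i j (u : M5)) ∈ Poly LL :=
    hZA.2.1 LL M5 (fun u => (u : M5)) (polyMap_lin LL.subtype) _ (lin_mem (entry i j))
  obtain ⟨u, hu1, hu2⟩ := hZA.1 LL _ hf' _ hg' ⟨A, hA⟩ ⟨B, hB⟩ hfA hgB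
  obtain ⟨w, hw1, hw2⟩ := hZA.1 LL _ (Subalgebra.mul_mem _ hf' hg') _ he u ⟨A, hA⟩
    (mul_ne_zero hu1 hu2) hij
  refine ⟨w, ⟨w.2, ?_⟩, ?_, ?_⟩
  · intro h0
    apply hw2
    show (w : M5) i j = 0
    rw [h0]
    rfl
  · intro h0
    apply hw1
    show f (w : M5) * g (w : M5) = 0
    rw [h0, zero_mul]
  · intro h0
    apply hw1
    show f (w : M5) * g (w : M5) = 0
    rw [h0, mul_zero]

lemma irr_cone (hZA : StZA) (hAC : StAC) : Irr Cone := by
  have hφ : PolyMap (fun x : (M5 × ℂ) × M5 => act x.1.1 (x.1.2 • Q0, x.2)) := by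
    intro φ
    have h1 : (fun y : M5 × CV 0 0 => (φ.comp lam1) (actc y.1 y.2)) ∈ Poly (M5 × CV 0 0) :=
      (hAC.2.2 0 0).2.2.2 (φ.comp lam1)
    exact hZA.2.1 _ _ (fun x => lam0 x) (polyMap_lin lam0) _ h1
  have hh : (fun w : M5 × ℂ => w.1.det * w.2) ∈ Poly (M5 × ℂ) :=
    Subalgebra.mul_mem _
      (hZA.2.1 _ _ (fun w : M5 × ℂ => w.1) (polyMap_lin (LinearMap.fst ℂ M5 ℂ)) _ det_mem)
      (lin_mem (LinearMap.snd ℂ M5 ℂ))
  have key := hZA.2.2 (M5 × ℂ) M5 (M5 × M5) _ hφ _ hh ⟨(1, 1), by simp⟩ _ (irr_LL hZA)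
  have hset : {x | ∃ (w : M5 × ℂ) (v : M5), w.1.det * w.2 ≠ 0 ∧
      v ∈ {A : M5 | A ∈ LL ∧ A ≠ 0} ∧ x = act (w, v).1.1 ((w, v).1.2 • Q0, (w, v).2)} = Cone := by
    ext x
    constructor
    · rintro ⟨⟨g, c⟩, A, hw, ⟨hA, hA0⟩, rfl⟩
      exact (hAC.2.1 g _ (left_ne_zero_of_mul hw)).mpr
        (base_mem (right_ne_zero_of_mul hw) hA hA0)
    · intro hx
      obtain ⟨g, hg, c, hc, A, hA, hA0, rfl⟩ := nf hx
      exact ⟨(g, c), A, mul_ne_zero hg hc, ⟨hA, hA0⟩, rfl⟩
  rw [← hset]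
  exact key

/-! ### Transitivity -/

lemma exists_diag (A : M5) (hA : Aᵀ = A) :
    ∃ P : M5, P.det ≠ 0 ∧ ∃ w : Fin 5 → ℂ, P * A * Pᵀ = Matrix.diagonal w := by
  have hinv : Invertible (2 : ℂ) := invertibleOfNonzero two_ne_zero
  set B : LinearMap.BilinForm ℂ (Fin 5 → ℂ) := Matrix.toBilin' A with hB
  have hBa : ∀ x y, B x y = x ⬝ᵥ (A *ᵥ y) := fun x y => Matrix.toBilin'_apply' A x y
  have hsymm : LinearMap.IsSymm B := by
    refine ⟨fun x y => ?_⟩
    show B x y = B y x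
    rw [hBa, hBa, Matrix.dotProduct_mulVec, ← Matrix.mulVec_transpose, hA, dotProduct_comm]
  obtain ⟨v, hv⟩ := LinearMap.BilinForm.exists_orthogonal_basis hsymm
  have hcard : Module.finrank ℂ (Fin 5 → ℂ) = 5 := by simp
  set v' := v.reindex (finCongr hcard) with hv'
  have hortho : ∀ i j, i ≠ j → B (v' i) (v' j) = 0 := by
    intro i j hij
    rw [hv', Module.Basis.reindex_apply, Module.Basis.reindex_apply]
    refine hv ?_
    intro h
    exact hij ((finCongr hcard).symm.injective h)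
  refine ⟨Matrix.of (fun i => v' i), ?_, fun i => B (v' i) (v' i), ?_⟩
  · have h1 : LinearIndependent ℂ (Matrix.of (fun i => v' i) : M5).row := v'.linearIndependent
    have h2 := Matrix.linearIndependent_rows_iff_isUnit.mp h1
    exact ((Matrix.isUnit_iff_isUnit_det _).mp h2).ne_zero
  · ext i j
    have h3 : (Matrix.of (fun i => v' i) * A * (Matrix.of (fun i => v' i))ᵀ : M5) i j =
        B (v' i) (v' j) := by
      rw [hBa, Matrix.mul_assoc]
      rfl
    rw [h3, Matrix.diagonal_apply]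
    by_cases hij : i = j
    · rw [if_pos hij, hij]
    · rw [if_neg hij, hortho i j hij]

lemma exists_D0 (A : M5) (hA : Aᵀ = A) (hr : A.rank = 3) :
    ∃ P : M5, P.det ≠ 0 ∧ P * A * Pᵀ = D0 := by
  classical
  obtain ⟨P, hP, w, hw⟩ := exists_diag A hA
  have hPu : IsUnit P.det := isUnit_iff_ne_zero.mpr hP
  have hPtu : IsUnit (Pᵀ).det := by rwa [det_transpose]
  have hrk : (Matrix.diagonal w).rank = 3 := by
    rw [← hw, Matrix.rank_mul_eq_left_of_isUnit_det _ _ hPtu,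
      Matrix.rank_mul_eq_right_of_isUnit_det _ _ hPu, hr]
  rw [Matrix.rank_diagonal] at hrk
  have hcard : Fintype.card {i : Fin 5 // i.val < 3} = Fintype.card {i : Fin 5 // w i ≠ 0} := by
    rw [hrk]
    decide
  set e : Equiv.Perm (Fin 5) := (Fintype.equivOfCardEq hcard).extendSubtype with he
  have he1 : ∀ i : Fin 5, i.val < 3 → w (e i) ≠ 0 := fun i hi =>
    Equiv.extendSubtype_mem (Fintype.equivOfCardEq hcard) i hi
  have he2 : ∀ i : Fin 5, ¬ i.val < 3 → w (e i) = 0 := fun i hi =>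
    not_not.mp (Equiv.extendSubtype_not_mem (Fintype.equivOfCardEq hcard) i hi)
  have hs : ∀ i : Fin 5, ∃ s : ℂ, s ≠ 0 ∧ (i.val < 3 → s * s * w (e i) = 1) := by
    intro i
    by_cases hi : i.val < 3
    · obtain ⟨s, hs⟩ := IsAlgClosed.exists_pow_nat_eq ((w (e i))⁻¹) (n := 2) two_pos
      have hne := he1 i hi
      refine ⟨s, ?_, fun _ => ?_⟩
      · rintro rfl
        rw [zero_pow two_ne_zero] at hs
        exact inv_ne_zero hne hs.symm
      · rw [← pow_two, hs, inv_mul_cancel₀ hne]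
    · exact ⟨1, one_ne_zero, fun h => absurd h hi⟩
  choose s hs0 hs1 using hs
  have hone : ∀ i : Fin 5, i.val < 3 → (![1, 1, 1, 0, 0] : Fin 5 → ℂ) i = 1 := by
    intro i hi
    fin_cases i
    · rfl
    · rfl
    · rfl
    · exact absurd hi (by decide)
    · exact absurd hi (by decide)
  have hzer : ∀ i : Fin 5, ¬ i.val < 3 → (![1, 1, 1, 0, 0] : Fin 5 → ℂ) i = 0 := by
    intro i hi
    fin_cases i
    · exact absurd (by decide) hi
    · exact absurd (by decide) hi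
    · exact absurd (by decide) hi
    · rfl
    · rfl
  refine ⟨Matrix.diagonal s * P.submatrix e id, ?_, ?_⟩
  · rw [det_mul, det_diagonal, Matrix.det_permute]
    refine mul_ne_zero (Finset.prod_ne_zero_iff.mpr fun i _ => hs0 i) (mul_ne_zero ?_ hP)
    rcases Int.units_eq_one_or (Equiv.Perm.sign e) with h | h <;> rw [h] <;> simp
  · have h1 : P.submatrix e id * A * (P.submatrix e id)ᵀ = Matrix.diagonal (fun i => w (e i)) := by
      have h2 : P.submatrix e id * A * (P.submatrix e id)ᵀ = (P * A * Pᵀ).submatrix e e := by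
        ext i j
        rfl
      rw [h2, hw]
      exact Matrix.submatrix_diagonal_equiv w e
    rw [transpose_mul, diagonal_transpose]
    calc Matrix.diagonal s * P.submatrix e id * A * ((P.submatrix e id)ᵀ * Matrix.diagonal s)
        = Matrix.diagonal s * (P.submatrix e id * A * (P.submatrix e id)ᵀ) *
          Matrix.diagonal s := by simp only [Matrix.mul_assoc]
      _ = D0 := by
        rw [h1, Matrix.diagonal_mul_diagonal, Matrix.diagonal_mul_diagonal, D0]
        congr 1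
        funext i
        by_cases hi : i.val < 3
        · rw [hone i hi]
          linear_combination hs1 i hi
        · rw [hzer i hi, he2 i hi]
          ring

lemma rel_base (hAC : StAC) {x : M5 × M5} (hx : x ∈ Cone) (hr : x.2.rank = 3) :
    Rel x (Q0, D0) := by
  obtain ⟨P, hP, hPA⟩ := exists_D0 x.2 hx.2.2.2.1 hr
  have hc : act P x ∈ Cone := (hAC.2.1 P x hP).mpr hx
  have h2 : (act P x).2 = D0 := hPA
  obtain ⟨hQ, -, hQ0, -, -, hAQ⟩ := hc
  rw [h2] at hAQ
  set Q := (act P x).1 with hQdef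
  have hrow : ∀ i : Fin 5, i.val < 3 → ∀ j, Q i j = 0 := by
    intro i hi j
    have := congrFun (congrFun hAQ i) j
    rw [D0, Matrix.diagonal_mul] at this
    fin_cases i
    · simpa using this
    · simpa using this
    · simpa using this
    · exact absurd hi (by decide)
    · exact absurd hi (by decide)
  have hsk : ∀ i j, Q j i = - Q i j := fun i j => by
    have := congrFun (congrFun hQ i) j
    rwa [Matrix.transpose_apply, Matrix.neg_apply] at this
  have hd : ∀ i, Q i i = 0 := fun i => by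
    have := hsk i i
    linear_combination (1 / 2 : ℂ) * this
  have hcol : ∀ i : Fin 5, i.val < 3 → ∀ j, Q j i = 0 := fun i hi j => by
    rw [hsk, hrow i hi, neg_zero]
  have hQe : Q = Q 3 4 • Q0 := by
    ext i j
    rw [Matrix.smul_apply, smul_eq_mul, Q0_apply]
    by_cases hi : i.val < 3
    · rw [hrow i hi]
      have h3 : i ≠ 3 := by rintro rfl; exact absurd hi (by decide)
      have h4 : i ≠ 4 := by rintro rfl; exact absurd hi (by decide)
      simp [h3, h4]
    · by_cases hj : j.val < 3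
      · rw [hcol j hj]
        have h3 : j ≠ 3 := by rintro rfl; exact absurd hj (by decide)
        have h4 : j ≠ 4 := by rintro rfl; exact absurd hj (by decide)
        simp [h3, h4]
      · have hi' : i = 3 ∨ i = 4 := by
          revert hi
          fin_cases i <;> simp
        have hj' : j = 3 ∨ j = 4 := by
          revert hj
          fin_cases j <;> simp
        rcases hi' with rfl | rfl <;> rcases hj' with rfl | rfl
        · rw [hd]; simp
        · simp
        · rw [hsk 3 4]; simp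
        · rw [hd]; simp
  have hne : Q 3 4 ≠ 0 := by
    intro h0
    rw [h0, zero_smul] at hQe
    exact hQ0 hQe
  refine ⟨P, hP, (Q 3 4)⁻¹, 1, inv_ne_zero hne, one_ne_zero, ?_⟩
  refine Prod.ext ?_ ?_
  · show Q0 = (Q 3 4)⁻¹ • Q
    have h5 : (Q 3 4)⁻¹ • Q = (Q 3 4)⁻¹ • (Q 3 4 • Q0) := congrArg _ hQe
    rw [h5, smul_smul, inv_mul_cancel₀ hne, one_smul]
  · show D0 = (1 : ℂ) • (act P x).2
    rw [h2, one_smul]

end IXAux

open IXAux in
/-- Module IX -/
theorem stIX (hZA : StZA) (hAC : StAC) : StIX := by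
  refine ⟨irr_cone hZA hAC, ⟨(Q0, D0), ?_, ?_⟩, ?_⟩
  · have := base_mem (c := 1) one_ne_zero D0_mem D0_ne
    rwa [one_smul] at this
  · show (D0 : M5).rank = 3
    rw [D0, Matrix.rank_diagonal]
    rw [Fintype.card_subtype]
    have : (Finset.univ.filter fun i : Fin 5 => (![1, 1, 1, 0, 0] : Fin 5 → ℂ) i ≠ 0) =
        {0, 1, 2} := by
      ext i
      fin_cases i <;> simp
    rw [this]
    rfl
  · intro x hx y hy hxr hyr
    exact (rel_base hAC hx hxr).trans (rel_base hAC hy hyr).symm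

end MC
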