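import Pool.Agent.Lib.MC.Stmts2
import Pool.Agent.Lib.MC.AC
import Pool.Agent.Lib.MC.IX

set_option autoImplicit false

/-!
# Two Manin components of the same class (MP_ac098b_ag): module CH, the charts of `X`
-/

noncomputable section

namespace MC

open Matrix

namespace CHAux

lemma Nz_mul (z : Fin 6 → ℂ) : Nz z * Nz (-z) = 1 := by
  ext i j
  rw [Matrix.mul_apply, Fin.sum_univ_five]
  fin_cases i <;> fin_cases j <;> simp [Nz]

lemma Nz_det (z : Fin 6 → ℂ) : (Nz z).det = 1 := by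
  have h : (Nz z).BlockTriangular OrderDual.toDual := by
    intro i j hij
    have hij' : i < j := hij
    fin_cases i <;> fin_cases j <;> first | rfl | exact absurd hij' (by decide)
  rw [Matrix.det_of_lowerTriangular _ h, Fin.prod_univ_five]
  simp [Nz]

lemma Nz_adj (z : Fin 6 → ℂ) : adjugate (Nz z) = Nz (-z) := by
  rw [IXAux.adj_of_mul (Nz_mul z), Nz_det, one_smul]

lemma Sy_mem (a b c d e f : ℂ) : Sy a b c d e f ∈ IXAux.LL := by
  refine ⟨?_, fun i => ?_⟩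
  · ext i j
    fin_cases i <;> fin_cases j <;> rfl
  · fin_cases i <;> exact ⟨rfl, rfl⟩

/-- the first component -/
lemma act_fst (z : Fin 6 → ℂ) (P : M5) (i j : Fin 5) :
    (act (Nz z) (Q0, P)).1 i j = Nz (-z) 3 i * Nz (-z) 4 j - Nz (-z) 4 i * Nz (-z) 3 j := by
  show ((adjugate (Nz z))ᵀ * Q0 * adjugate (Nz z)) i j = _
  rw [Nz_adj, IXAux.conj_apply]

/-- the second component -/
lemma act_snd (z : Fin 6 → ℂ) (a b c d e f : ℂ) (i j : Fin 5) :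
    (act (Nz z) (Q0, Sy a b c d e f)).2 i j =
      Nz z i 0 * (a * Nz z j 0 + b * Nz z j 1 + c * Nz z j 2) +
      Nz z i 1 * (b * Nz z j 0 + d * Nz z j 1 + e * Nz z j 2) +
      Nz z i 2 * (c * Nz z j 0 + e * Nz z j 1 + f * Nz z j 2) := by
  show (Nz z * Sy a b c d e f * (Nz z)ᵀ) i j = _
  rw [Matrix.mul_assoc, Matrix.mul_apply, Fin.sum_univ_five]
  simp only [Matrix.mul_apply, Matrix.transpose_apply, Fin.sum_univ_five]
  simp only [Sy, Matrix.of_apply, Matrix.cons_val', Matrix.cons_val_zero, Matrix.cons_val_one,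
    Matrix.cons_val, Matrix.cons_val_fin_one]
  ring

lemma mem_cone (z : Fin 6 → ℂ) {P : M5} (hP : P ∈ IXAux.LL) (hP0 : P ≠ 0) :
    act (Nz z) (Q0, P) ∈ Cone := by
  refine ACAux.act_mem (by rw [Nz_det]; exact one_ne_zero) ?_
  have h := IXAux.base_mem (one_ne_zero) hP hP0
  rwa [one_smul] at h

lemma Sy_ne0 (b c d e f : ℂ) : Sy 1 b c d e f ≠ 0 := by
  intro h
  have h1 := congrFun (congrFun h 0) 0
  exact one_ne_zero h1

lemma Sy_ne1 (a c d e f : ℂ) : Sy a 1 c d e f ≠ 0 := by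
  intro h
  have h1 := congrFun (congrFun h 0) 1
  exact one_ne_zero h1

/-! ### The structure of the points with `Q₃₄ ≠ 0` -/

section str

variable {x : M5 × M5} (hx : x ∈ Cone) (hQ : x.1 3 4 ≠ 0)

include hx

lemma skew (i j : Fin 5) : x.1 j i = - x.1 i j := by
  have h := congrFun (congrFun hx.1 i) j
  rwa [Matrix.transpose_apply, Matrix.neg_apply] at h

lemma diag (i : Fin 5) : x.1 i i = 0 := by
  have h := skew hx i i
  linear_combination (1 / 2 : ℂ) * h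

lemma symm (i j : Fin 5) : x.2 j i = x.2 i j := by
  have h := congrFun (congrFun hx.2.2.2.1 i) j
  rwa [Matrix.transpose_apply] at h

include hQ

/-- the coordinates `z` -/
def zc (x : M5 × M5) : Fin 6 → ℂ :=
  ![-x.1 0 4 / x.1 3 4, -x.1 1 4 / x.1 3 4, -x.1 2 4 / x.1 3 4,
    -x.1 3 0 / x.1 3 4, -x.1 3 1 / x.1 3 4, -x.1 3 2 / x.1 3 4]

omit hx hQ in
lemma row3 (hx : x ∈ Cone) (hQ : x.1 3 4 ≠ 0) (i : Fin 5) :
    Nz (-zc x) 3 i = x.1 i 4 / x.1 3 4 := by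
  have h44 := diag hx 4
  fin_cases i
  · show -(-x.1 0 4 / x.1 3 4) = x.1 0 4 / x.1 3 4
    ring
  · show -(-x.1 1 4 / x.1 3 4) = x.1 1 4 / x.1 3 4
    ring
  · show -(-x.1 2 4 / x.1 3 4) = x.1 2 4 / x.1 3 4
    ring
  · show (1 : ℂ) = x.1 3 4 / x.1 3 4
    rw [div_self hQ]
  · show (0 : ℂ) = x.1 4 4 / x.1 3 4
    rw [h44, zero_div]

omit hx hQ in
lemma row4 (hx : x ∈ Cone) (hQ : x.1 3 4 ≠ 0) (i : Fin 5) :
    Nz (-zc x) 4 i = x.1 3 i / x.1 3 4 := by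
  have h33 := diag hx 3
  fin_cases i
  · show -(-x.1 3 0 / x.1 3 4) = x.1 3 0 / x.1 3 4
    ring
  · show -(-x.1 3 1 / x.1 3 4) = x.1 3 1 / x.1 3 4
    ring
  · show -(-x.1 3 2 / x.1 3 4) = x.1 3 2 / x.1 3 4
    ring
  · show (0 : ℂ) = x.1 3 3 / x.1 3 4
    rw [h33, zero_div]
  · show (1 : ℂ) = x.1 3 4 / x.1 3 4
    rw [div_self hQ]

lemma fst_eq (P : M5) : x.1 = x.1 3 4 • (act (Nz (zc x)) (Q0, P)).1 := by
  ext i j
  rw [Matrix.smul_apply, smul_eq_mul, act_fst, row3 hx hQ, row3 hx hQ, row4 hx hQ, row4 hx hQ]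
  have h1 := hx.2.1 3 4 i j
  have h2 := skew hx 4 i
  have h3 := skew hx 4 j
  field_simp
  rw [h2, h3] at *
  linear_combination h1

/-- the columns `3` and `4` of `A` -/
lemma col3 (i : Fin 5) : x.2 i 3 = zc x 0 * x.2 i 0 + zc x 1 * x.2 i 1 + zc x 2 * x.2 i 2 := by
  have h := congrFun (congrFun hx.2.2.2.2.2 i) 4
  rw [Matrix.mul_apply, Fin.sum_univ_five, diag hx 4] at h
  show x.2 i 3 = (-x.1 0 4 / x.1 3 4) * x.2 i 0 + (-x.1 1 4 / x.1 3 4) * x.2 i 1 +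
    (-x.1 2 4 / x.1 3 4) * x.2 i 2
  field_simp
  have h' : x.2 i 0 * x.1 0 4 + x.2 i 1 * x.1 1 4 + x.2 i 2 * x.1 2 4 + x.2 i 3 * x.1 3 4 +
    x.2 i 4 * 0 = 0 := h
  linear_combination h'

lemma col4 (i : Fin 5) : x.2 i 4 = zc x 3 * x.2 i 0 + zc x 4 * x.2 i 1 + zc x 5 * x.2 i 2 := by
  have h := congrFun (congrFun hx.2.2.2.2.2 i) 3
  rw [Matrix.mul_apply, Fin.sum_univ_five, diag hx 3, skew hx 3 0, skew hx 3 1, skew hx 3 2,
    skew hx 3 4] at h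
  show x.2 i 4 = (-x.1 3 0 / x.1 3 4) * x.2 i 0 + (-x.1 3 1 / x.1 3 4) * x.2 i 1 +
    (-x.1 3 2 / x.1 3 4) * x.2 i 2
  field_simp
  have h' : x.2 i 0 * -x.1 3 0 + x.2 i 1 * -x.1 3 1 + x.2 i 2 * -x.1 3 2 + x.2 i 3 * 0 +
    x.2 i 4 * -x.1 3 4 = 0 := h
  linear_combination -h'

/-- all columns of `A` -/
lemma col (i j : Fin 5) : x.2 i j = Nz (zc x) j 0 * x.2 i 0 + Nz (zc x) j 1 * x.2 i 1 +
    Nz (zc x) j 2 * x.2 i 2 := by
  fin_cases j
  · show x.2 i 0 = 1 * x.2 i 0 + 0 * x.2 i 1 + 0 * x.2 i 2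
    ring
  · show x.2 i 1 = 0 * x.2 i 0 + 1 * x.2 i 1 + 0 * x.2 i 2
    ring
  · show x.2 i 2 = 0 * x.2 i 0 + 0 * x.2 i 1 + 1 * x.2 i 2
    ring
  · exact col3 hx hQ i
  · exact col4 hx hQ i

lemma snd_eq (lam : ℂ) (a b c d e f : ℂ) (ha : x.2 0 0 = lam * a) (hb : x.2 0 1 = lam * b)
    (hc : x.2 0 2 = lam * c) (hd : x.2 1 1 = lam * d) (he : x.2 1 2 = lam * e)
    (hf : x.2 2 2 = lam * f) :
    x.2 = lam • (act (Nz (zc x)) (Q0, Sy a b c d e f)).2 := by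
  ext i j
  rw [Matrix.smul_apply, smul_eq_mul, act_snd, col hx hQ i j]
  have h0 := col hx hQ 0 i
  have h1 := col hx hQ 1 i
  have h2 := col hx hQ 2 i
  rw [symm hx 0 1] at h1
  rw [symm hx 0 2, symm hx 1 2] at h2
  rw [symm hx 0 i, symm hx 1 i, symm hx 2 i, h0, h1, h2, ha, hb, hc, hd, he, hf]
  ring

lemma block_ne : ∃ a b : Fin 5, (a ≠ 3 ∧ a ≠ 4 ∧ b ≠ 3 ∧ b ≠ 4) ∧ x.2 a b ≠ 0 := by
  by_contra hcon
  push Not at hcon
  have h : ∀ a b : Fin 5, a ≠ 3 → a ≠ 4 → b ≠ 3 → b ≠ 4 → x.2 a b = 0 := fun a b h1 h2 h3 h4 =>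
    hcon a b ⟨h1, h2, h3, h4⟩
  apply hx.2.2.2.2.1
  rw [snd_eq hx hQ 0 0 0 0 0 0 0]
  · simp
  all_goals
    rw [zero_mul]
    exact h _ _ (by decide) (by decide) (by decide) (by decide)

end str

/-! ### Polynomial maps -/

section poly

variable {V : Type} [AddCommGroup V] [Module ℂ V]

lemma expand1 (φ : M5 →ₗ[ℂ] ℂ) (y : M5) :
    φ y = ∑ a, ∑ b, y a b * φ (Matrix.single a b 1) := by
  conv_lhs => rw [Matrix.matrix_eq_sum_single y]
  simp only [map_sum]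
  refine Finset.sum_congr rfl fun a _ => Finset.sum_congr rfl fun b _ => ?_
  rw [← smul_eq_mul, ← map_smul, Matrix.smul_single, smul_eq_mul, mul_one]

lemma polyMap_of {F : V → M5 × M5} (h1 : ACAux.MPoly fun v => (F v).1)
    (h2 : ACAux.MPoly fun v => (F v).2) : PolyMap F := by
  intro φ
  have e1 : (fun v => φ (F v)) =
      (fun v => (φ ∘ₗ LinearMap.inl ℂ _ _) (F v).1) +
      (fun v => (φ ∘ₗ LinearMap.inr ℂ _ _) (F v).2) := by
    funext v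
    rw [Pi.add_apply, LinearMap.comp_apply, LinearMap.comp_apply, ← map_add]
    congr 1
    simp
  rw [e1]
  refine (Poly _).add_mem ?_ ?_
  · rw [show (fun v => (φ ∘ₗ LinearMap.inl ℂ M5 M5) (F v).1) = _ from
      funext fun v => expand1 _ _]
    exact ACAux.poly_sum _ fun a _ => ACAux.poly_sum _ fun b _ =>
      ACAux.poly_mul (h1 a b) (ACAux.poly_const _)
  · rw [show (fun v => (φ ∘ₗ LinearMap.inr ℂ M5 M5) (F v).2) = _ from
      funext fun v => expand1 _ _]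
    exact ACAux.poly_sum _ fun a _ => ACAux.poly_sum _ fun b _ =>
      ACAux.poly_mul (h2 a b) (ACAux.poly_const _)

lemma polyMap_act {g : V → M5} {P : V → M5} (hg : ACAux.MPoly g) (hP : ACAux.MPoly P) :
    PolyMap fun v => act (g v) (Q0, P v) := by
  have hQ : ACAux.MPoly fun _ : V => Q0 := fun a b => ACAux.poly_const _
  refine polyMap_of ?_ ?_
  · exact (hg.adjugate.transpose.mul hQ).mul hg.adjugate
  · exact (hg.mul hP).mul hg.transpose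

lemma pc (n : ℕ) (k : Fin n) : (fun w : Fin n → ℂ => w k) ∈ Poly (Fin n → ℂ) :=
  ACAux.poly_lin (LinearMap.proj k : (Fin n → ℂ) →ₗ[ℂ] ℂ)

lemma p0 (n : ℕ) : (fun _ : Fin n → ℂ => (0 : ℂ)) ∈ Poly (Fin n → ℂ) := ACAux.poly_const _

lemma p1 (n : ℕ) : (fun _ : Fin n → ℂ => (1 : ℂ)) ∈ Poly (Fin n → ℂ) := ACAux.poly_const _

lemma poly_Nz : ACAux.MPoly fun w : Fin 11 → ℂ => Nz ![w 0, w 1, w 2, w 3, w 4, w 5] := by
  intro a b
  fin_cases a <;> fin_cases b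
  · exact p1 11
  · exact p0 11
  · exact p0 11
  · exact p0 11
  · exact p0 11
  · exact p0 11
  · exact p1 11
  · exact p0 11
  · exact p0 11
  · exact p0 11
  · exact p0 11
  · exact p0 11
  · exact p1 11
  · exact p0 11
  · exact p0 11
  · exact pc 11 0
  · exact pc 11 1
  · exact pc 11 2
  · exact p1 11
  · exact p0 11
  · exact pc 11 3
  · exact pc 11 4
  · exact pc 11 5
  · exact p0 11
  · exact p1 11

lemma poly_Sy {a b c d e f : V → ℂ} (ha : a ∈ Poly V) (hb : b ∈ Poly V) (hc : c ∈ Poly V)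
    (hd : d ∈ Poly V) (he : e ∈ Poly V) (hf : f ∈ Poly V) :
    ACAux.MPoly fun v => Sy (a v) (b v) (c v) (d v) (e v) (f v) := by
  have h0 : (fun _ : V => (0 : ℂ)) ∈ Poly V := ACAux.poly_const _
  intro i j
  fin_cases i <;> fin_cases j
  · exact ha
  · exact hb
  · exact hc
  · exact h0
  · exact h0
  · exact hb
  · exact hd
  · exact he
  · exact h0
  · exact h0
  · exact hc
  · exact he
  · exact hf
  · exact h0
  · exact h0
  · exact h0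
  · exact h0
  · exact h0
  · exact h0
  · exact h0
  · exact h0
  · exact h0
  · exact h0
  · exact h0
  · exact h0

end poly

/-! ### Permutations -/

lemma pm_apply (π : Equiv.Perm (Fin 5)) (i j : Fin 5) :
    pm π i j = if π i = j then 1 else 0 := by
  rw [pm, PEquiv.toMatrix_apply, Equiv.toPEquiv_apply]
  simp [eq_comm]

lemma pm_conj (π : Equiv.Perm (Fin 5)) (A : M5) (i j : Fin 5) :
    (pm π * A * (pm π)ᵀ) i j = A (π i) (π j) := by
  rw [Matrix.mul_apply]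
  have h1 : ∀ k, (pm π * A) i k = A (π i) k := by
    intro k
    rw [Matrix.mul_apply, Finset.sum_eq_single (π i)]
    · rw [pm_apply, if_pos rfl, one_mul]
    · intro b _ hb
      rw [pm_apply, if_neg (Ne.symm hb), zero_mul]
    · intro h
      exact absurd (Finset.mem_univ _) h
  rw [Finset.sum_eq_single (π j)]
  · rw [h1, Matrix.transpose_apply, pm_apply, if_pos rfl, mul_one]
  · intro b _ hb
    rw [Matrix.transpose_apply, pm_apply, if_neg (Ne.symm hb), mul_zero]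
  · intro h
    exact absurd (Finset.mem_univ _) h

lemma pm_mul (π : Equiv.Perm (Fin 5)) : pm π * (pm π)ᵀ = 1 := by
  ext i j
  have h := pm_conj π 1 i j
  rw [Matrix.mul_one] at h
  rw [h, Matrix.one_apply, Matrix.one_apply]
  simp

lemma pm_det (π : Equiv.Perm (Fin 5)) : (pm π).det ≠ 0 := by
  intro h
  have h1 := congrArg Matrix.det (pm_mul π)
  rw [det_mul, h, zero_mul, det_one] at h1
  exact zero_ne_one h1

lemma act_pm_fst (π : Equiv.Perm (Fin 5)) (x : M5 × M5) (i j : Fin 5) :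
    (act (pm π) x).1 i j = (pm π).det * (pm π).det * x.1 (π i) (π j) := by
  show ((adjugate (pm π))ᵀ * x.1 * adjugate (pm π)) i j = _
  rw [IXAux.adj_of_mul (pm_mul π), transpose_smul, transpose_transpose, Matrix.smul_mul,
    Matrix.smul_mul, Matrix.mul_smul, smul_smul, Matrix.smul_apply, pm_conj, smul_eq_mul]

lemma act_pm_snd (π : Equiv.Perm (Fin 5)) (x : M5 × M5) (i j : Fin 5) :
    (act (pm π) x).2 i j = x.2 (π i) (π j) := pm_conj π x.2 i j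

lemma perm1 : ∀ a : Fin 5, a ≠ 3 → a ≠ 4 →
    ∃ σ : Equiv.Perm (Fin 5), σ 0 = a ∧ σ 3 = 3 ∧ σ 4 = 4 := by
  decide

lemma perm2 : ∀ a b : Fin 5, a ≠ 3 → a ≠ 4 → b ≠ 3 → b ≠ 4 → a ≠ b →
    ∃ σ : Equiv.Perm (Fin 5), σ 0 = a ∧ σ 1 = b ∧ σ 3 = 3 ∧ σ 4 = 4 := by
  decide

lemma cover {x : M5 × M5} (hx : x ∈ Cone) : ∃ π : Equiv.Perm (Fin 5),
    (act (pm π) x).1 3 4 ≠ 0 ∧ ((act (pm π) x).2 0 0 ≠ 0 ∨ (act (pm π) x).2 0 1 ≠ 0) := by
  obtain ⟨i₀, j₀, hq⟩ : ∃ i j, x.1 i j ≠ 0 := by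
    by_contra hcon
    push Not at hcon
    exact hx.2.2.1 (by ext i j; exact hcon i j)
  have hij : i₀ ≠ j₀ := by
    rintro rfl
    exact hq (diag hx i₀)
  obtain ⟨e, he3, he4⟩ := IXAux.exists_perm i₀ j₀ hij
  have hx' : act (pm e) x ∈ Cone := ACAux.act_mem (pm_det e) hx
  have hQ' : (act (pm e) x).1 3 4 ≠ 0 := by
    rw [act_pm_fst, he3, he4]
    exact mul_ne_zero (mul_ne_zero (pm_det e) (pm_det e)) hq
  have key : ∀ σ : Equiv.Perm (Fin 5), σ 3 = 3 → σ 4 = 4 → (act (pm (e * σ)) x).1 3 4 ≠ 0 := by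
    intro σ h3 h4
    rw [act_pm_fst]
    show (pm (e * σ)).det * (pm (e * σ)).det * x.1 (e (σ 3)) (e (σ 4)) ≠ 0
    rw [h3, h4, he3, he4]
    exact mul_ne_zero (mul_ne_zero (pm_det _) (pm_det _)) hq
  obtain ⟨a, b, ⟨ha3, ha4, hb3, hb4⟩, hab⟩ := block_ne hx' hQ'
  rw [act_pm_snd] at hab
  by_cases h : a = b
  · subst h
    obtain ⟨σ, h0, h3, h4⟩ := perm1 a ha3 ha4
    refine ⟨e * σ, key σ h3 h4, Or.inl ?_⟩
    rw [act_pm_snd]
    show x.2 (e (σ 0)) (e (σ 0)) ≠ 0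
    rw [h0]
    exact hab
  · obtain ⟨σ, h0, h1, h3, h4⟩ := perm2 a b ha3 ha4 hb3 hb4 h
    refine ⟨e * σ, key σ h3 h4, Or.inr ?_⟩
    rw [act_pm_snd]
    show x.2 (e (σ 0)) (e (σ 1)) ≠ 0
    rw [h0, h1]
    exact hab

end CHAux

open CHAux in
/-- Module CH. -/
theorem stCH : StCH := by
  refine ⟨?_, ?_, ?_, ?_, ?_, ?_, ?_, ?_, fun x hx => cover hx⟩
  · intro w
    refine ⟨mem_cone _ (Sy_mem _ _ _ _ _ _) (Sy_ne0 _ _ _ _ _), ?_, ?_⟩
    · rw [Ph0, act_fst]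
      show (1 : ℂ) * 1 - 0 * 0 = 1
      ring
    · rw [Ph0, act_snd]
      show (1 : ℂ) * (1 * 1 + w 6 * 0 + w 7 * 0) + 0 * (w 6 * 1 + w 8 * 0 + w 9 * 0) +
        0 * (w 7 * 1 + w 9 * 0 + w 10 * 0) = 1
      ring
  · intro w
    refine ⟨mem_cone _ (Sy_mem _ _ _ _ _ _) (Sy_ne1 _ _ _ _ _), ?_, ?_⟩
    · rw [Ph1, act_fst]
      show (1 : ℂ) * 1 - 0 * 0 = 1
      ring
    · rw [Ph1, act_snd]
      show (1 : ℂ) * (w 6 * 0 + 1 * 1 + w 7 * 0) + 0 * (1 * 0 + w 8 * 1 + w 9 * 0) +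
        0 * (w 7 * 0 + w 9 * 1 + w 10 * 0) = 1
      ring
  · intro x hx hQ hA
    refine ⟨x.1 3 4, x.2 0 0, hQ, hA, ?_⟩
    refine Prod.ext (fst_eq hx hQ _) (snd_eq hx hQ _ _ _ _ _ _ _ ?_ ?_ ?_ ?_ ?_ ?_)
    · rw [mul_one]
    · show x.2 0 1 = x.2 0 0 * (x.2 0 1 / x.2 0 0)
      field_simp
    · show x.2 0 2 = x.2 0 0 * (x.2 0 2 / x.2 0 0)
      field_simp
    · show x.2 1 1 = x.2 0 0 * (x.2 1 1 / x.2 0 0)
      field_simp
    · show x.2 1 2 = x.2 0 0 * (x.2 1 2 / x.2 0 0)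
      field_simp
    · show x.2 2 2 = x.2 0 0 * (x.2 2 2 / x.2 0 0)
      field_simp
  · intro x hx hQ hA
    refine ⟨x.1 3 4, x.2 0 1, hQ, hA, ?_⟩
    refine Prod.ext (fst_eq hx hQ _) (snd_eq hx hQ _ _ _ _ _ _ _ ?_ ?_ ?_ ?_ ?_ ?_)
    · show x.2 0 0 = x.2 0 1 * (x.2 0 0 / x.2 0 1)
      field_simp
    · rw [mul_one]
    · show x.2 0 2 = x.2 0 1 * (x.2 0 2 / x.2 0 1)
      field_simp
    · show x.2 1 1 = x.2 0 1 * (x.2 1 1 / x.2 0 1)
      field_simp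
    · show x.2 1 2 = x.2 0 1 * (x.2 1 2 / x.2 0 1)
      field_simp
    · show x.2 2 2 = x.2 0 1 * (x.2 2 2 / x.2 0 1)
      field_simp
  · rintro w x ⟨μ, lam, hμ, hl, rfl⟩
    have e1 : ∀ i j, (scal μ lam (Ph0 w)).1 i j = μ * (Ph0 w).1 i j := fun _ _ => rfl
    have e2 : ∀ i j, (scal μ lam (Ph0 w)).2 i j = lam * (Ph0 w).2 i j := fun _ _ => rfl
    unfold Co0
    simp only [e1, e2]
    simp only [Ph0, act_fst, act_snd]
    funext k
    fin_cases k <;> simp [Nz] <;> field_simp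
  · rintro w x ⟨μ, lam, hμ, hl, rfl⟩
    have e1 : ∀ i j, (scal μ lam (Ph1 w)).1 i j = μ * (Ph1 w).1 i j := fun _ _ => rfl
    have e2 : ∀ i j, (scal μ lam (Ph1 w)).2 i j = lam * (Ph1 w).2 i j := fun _ _ => rfl
    unfold Co1
    simp only [e1, e2]
    simp only [Ph1, act_fst, act_snd]
    funext k
    fin_cases k <;> simp [Nz] <;> field_simp
  · exact polyMap_act poly_Nz (poly_Sy (p1 11) (pc 11 6) (pc 11 7) (pc 11 8) (pc 11 9) (pc 11 10))
  · exact polyMap_act poly_Nz (poly_Sy (pc 11 6) (p1 11) (pc 11 7) (pc 11 8) (pc 11 9) (pc 11 10))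

end MC
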