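import Mathlib

set_option autoImplicit false

/-!
# Two Manin components of the same class (MP_ac098b_ag): definitions

Everything is over `ℂ` and in the classical language: projective varieties are given by their
(punctured) affine cones, rational maps by polynomials.

The variety `X` is the set of pairs `([Q], [A])` in `ℙ⁹ × ℙ¹⁴` where `Q` is a skew symmetric
`5 × 5` matrix of rank two, `A ≠ 0` is a symmetric `5 × 5` matrix and `A Q = 0`. The matrix `Q` is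
the Plücker vector of a two dimensional subspace of the dual of `ℂ⁵`, i.e. of a three dimensional
subspace `S` of `ℂ⁵`, and `A Q = 0` means that `A ∈ Sym² S`. So `X = ℙ(Sym² S)` over the
Grassmannian `Gr(3, 5)`: a smooth projective variety of dimension `11` with
`Pic X = ℤ H ⊕ ℤ σ`, where `H` and `σ` are the pull backs of the hyperplane classes of `ℙ¹⁴` (the
matrix `A`) and of `ℙ⁹` (the matrix `Q`). The class of a curve `C` is written `(H.C, σ.C)`. The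
lattice of the integral curve classes is `ℤ²`: it is generated by the class `(1, 0)` of the lines in
the fibres of `X → Gr(3, 5)` and by the class `(0, 1)` of the lines in the planes `{S ⊃ im A}` for a
fixed `A` of rank two. The class of a morphism in `Mor d e` (see below) is `(e, d)`.
-/

noncomputable section

namespace MC

open Matrix

/-! ### Zariski topology of a vector space -/

section Zariski

variable (V : Type) [AddCommGroup V] [Module ℂ V]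

/-- polynomial functions on the vector space `V` -/
def Poly : Subalgebra ℂ (V → ℂ) :=
  Algebra.adjoin ℂ (Set.range fun φ : V →ₗ[ℂ] ℂ => (φ : V → ℂ))

/-- the Zariski topology -/
@[instance_reducible]
def zar : TopologicalSpace V :=
  TopologicalSpace.generateFrom {U | ∃ f ∈ Poly V, U = {v | f v ≠ 0}}

variable {V}

/-- polynomial maps between vector spaces -/
def PolyMap {W : Type} [AddCommGroup W] [Module ℂ W] (F : V → W) : Prop :=
  ∀ φ : W →ₗ[ℂ] ℂ, (fun v => φ (F v)) ∈ Poly V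

/-- A set is irreducible (for the Zariski topology): it is not empty and two polynomial functions
which do not vanish identically on it do not vanish at a common point. -/
def Irr (S : Set V) : Prop :=
  S.Nonempty ∧ ∀ f ∈ Poly V, ∀ g ∈ Poly V, (∃ v ∈ S, f v ≠ 0) → (∃ v ∈ S, g v ≠ 0) →
    ∃ v ∈ S, f v ≠ 0 ∧ g v ≠ 0

end Zariski

/-! ### The variety `X` -/

/-- `5 × 5` matrices -/
abbrev M5 : Type := Matrix (Fin 5) (Fin 5) ℂ

/-- the cone over `X`: pairs `(Q, A)`, with `Q` skew symmetric of rank two (the `4 × 4` Pfaffians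
vanish), `A` symmetric, `Q ≠ 0`, `A ≠ 0` and `A Q = 0` -/
def Cone : Set (M5 × M5) :=
  {x | x.1ᵀ = -x.1 ∧
    (∀ i j k l, x.1 i j * x.1 k l - x.1 i k * x.1 j l + x.1 i l * x.1 j k = 0) ∧
    x.1 ≠ 0 ∧ x.2ᵀ = x.2 ∧ x.2 ≠ 0 ∧ x.2 * x.1 = 0}

/-- the action of the scalars `(μ, lam)` -/
def scal (μ lam : ℂ) (x : M5 × M5) : M5 × M5 := (μ • x.1, lam • x.2)

/-- two vectors represent the same point of `X` -/
def Same (x y : M5 × M5) : Prop := ∃ μ lam : ℂ, μ ≠ 0 ∧ lam ≠ 0 ∧ y = scal μ lam x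

/-! ### The action of `GL₅` -/

/-- the action of the matrix `g` (the action of `GL₅` on `Q` is twisted by `det ^ 2`) -/
def act (g : M5) (x : M5 × M5) : M5 × M5 :=
  ((adjugate g)ᵀ * x.1 * adjugate g, g * x.2 * gᵀ)

/-- the matrix `Q` of the coordinate subspace `S = ⟨e₀, e₁, e₂⟩` -/
def Q0 : M5 := Matrix.single 3 4 1 - Matrix.single 4 3 1

/-! ### Charts -/

/-- the matrix `(1, 0; z, 1)` -/
def Nz (z : Fin 6 → ℂ) : M5 :=
  !![1, 0, 0, 0, 0; 0, 1, 0, 0, 0; 0, 0, 1, 0, 0; z 0, z 1, z 2, 1, 0; z 3, z 4, z 5, 0, 1]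

/-- symmetric `3 × 3` matrices -/
def Sy (a b c d e f : ℂ) : M5 :=
  !![a, b, c, 0, 0; b, d, e, 0, 0; c, e, f, 0, 0; 0, 0, 0, 0, 0; 0, 0, 0, 0, 0]

/-- the chart `ℂ¹¹ → X` onto `{Q₃₄ ≠ 0, A₀₀ ≠ 0}` -/
def Ph0 (w : Fin 11 → ℂ) : M5 × M5 :=
  act (Nz ![w 0, w 1, w 2, w 3, w 4, w 5]) (Q0, Sy 1 (w 6) (w 7) (w 8) (w 9) (w 10))

/-- the chart `ℂ¹¹ → X` onto `{Q₃₄ ≠ 0, A₀₁ ≠ 0}` -/
def Ph1 (w : Fin 11 → ℂ) : M5 × M5 :=
  act (Nz ![w 0, w 1, w 2, w 3, w 4, w 5]) (Q0, Sy (w 6) 1 (w 7) (w 8) (w 9) (w 10))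

/-- the coordinates of the first chart -/
def Co0 (x : M5 × M5) : Fin 11 → ℂ :=
  ![-x.1 0 4 / x.1 3 4, -x.1 1 4 / x.1 3 4, -x.1 2 4 / x.1 3 4,
    -x.1 3 0 / x.1 3 4, -x.1 3 1 / x.1 3 4, -x.1 3 2 / x.1 3 4,
    x.2 0 1 / x.2 0 0, x.2 0 2 / x.2 0 0, x.2 1 1 / x.2 0 0, x.2 1 2 / x.2 0 0, x.2 2 2 / x.2 0 0]

/-- the coordinates of the second chart -/
def Co1 (x : M5 × M5) : Fin 11 → ℂ :=
  ![-x.1 0 4 / x.1 3 4, -x.1 1 4 / x.1 3 4, -x.1 2 4 / x.1 3 4,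
    -x.1 3 0 / x.1 3 4, -x.1 3 1 / x.1 3 4, -x.1 3 2 / x.1 3 4,
    x.2 0 0 / x.2 0 1, x.2 0 2 / x.2 0 1, x.2 1 1 / x.2 0 1, x.2 1 2 / x.2 0 1, x.2 2 2 / x.2 0 1]

/-- the permutation matrices -/
def pm (π : Equiv.Perm (Fin 5)) : M5 := (Equiv.toPEquiv π).toMatrix

/-- Module CH: `X` is covered by open subsets which are isomorphic to the affine space of dimension
`11` (the images of the two charts under the permutation matrices). -/
def StCH : Prop :=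
  (∀ w, Ph0 w ∈ Cone ∧ (Ph0 w).1 3 4 = 1 ∧ (Ph0 w).2 0 0 = 1) ∧
  (∀ w, Ph1 w ∈ Cone ∧ (Ph1 w).1 3 4 = 1 ∧ (Ph1 w).2 0 1 = 1) ∧
  (∀ x ∈ Cone, x.1 3 4 ≠ 0 → x.2 0 0 ≠ 0 → Same (Ph0 (Co0 x)) x) ∧
  (∀ x ∈ Cone, x.1 3 4 ≠ 0 → x.2 0 1 ≠ 0 → Same (Ph1 (Co1 x)) x) ∧
  (∀ w x, Same (Ph0 w) x → Co0 x = w) ∧ (∀ w x, Same (Ph1 w) x → Co1 x = w) ∧
  PolyMap Ph0 ∧ PolyMap Ph1 ∧
  ∀ x ∈ Cone, ∃ π : Equiv.Perm (Fin 5), (act (pm π) x).1 3 4 ≠ 0 ∧
    ((act (pm π) x).2 0 0 ≠ 0 ∨ (act (pm π) x).2 0 1 ≠ 0)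

/-! ### The canonical class -/

/-- the chart `(z, P, τ) ↦ act (1, 0; z, 1) (τ Q₀, P)` of the cone, onto `{Q₃₄ ≠ 0}` -/
def Th (w : Fin 13 → ℂ) : M5 × M5 :=
  act (Nz ![w 0, w 1, w 2, w 3, w 4, w 5])
    (w 12 • Q0, Sy (w 6) (w 7) (w 8) (w 9) (w 10) (w 11))

/-- the inverse of the chart of the cone -/
def Ti (x : M5 × M5) : Fin 13 → ℂ :=
  ![-x.1 0 4 / x.1 3 4, -x.1 1 4 / x.1 3 4, -x.1 2 4 / x.1 3 4,
    -x.1 3 0 / x.1 3 4, -x.1 3 1 / x.1 3 4, -x.1 3 2 / x.1 3 4,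
    x.2 0 0, x.2 0 1, x.2 0 2, x.2 1 1, x.2 1 2, x.2 2 2, x.1 3 4]

/-- Module KX: in the chart `Th` of the cone over `X` the element `g` of `GL₅` acts with Jacobian
determinant `det g ^ 4`. Hence the differential form `ω = dw₀ ∧ … ∧ dw₁₂` of degree `13` extends
to a regular form without zeros on the cone (which is covered by the images of the chart under
`GL₅`), and by (2) it is homogeneous of degree `6` in `A` and of degree `1` in `Q`. As the cone over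
`X` is the torsor of the line bundles `H` and `σ` this means that `K_X = - 6 H - σ`. -/
def StKX : Prop :=
  (∀ x ∈ Cone, x.1 3 4 ≠ 0 → Th (Ti x) = x) ∧ (∀ w, w 12 ≠ 0 → Ti (Th w) = w) ∧
  (∀ (μ lam : ℂ) (w : Fin 13 → ℂ), scal μ lam (Th w) =
    Th ![w 0, w 1, w 2, w 3, w 4, w 5, lam * w 6, lam * w 7, lam * w 8, lam * w 9, lam * w 10,
      lam * w 11, μ * w 12]) ∧
  ∀ g : M5, g.det ≠ 0 → ∀ w : Fin 13 → ℂ, w 12 ≠ 0 → (act g (Th w)).1 3 4 ≠ 0 →
    ∃ T' : (Fin 13 → ℂ) →L[ℂ] (Fin 13 → ℂ),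
      HasFDerivAt (fun w => Ti (act g (Th w))) T' w ∧ T'.det = g.det ^ 4

/-! ### Line bundles and sections -/

/-- regular functions on the cone -/
def Regular (φ : Cone → ℂ) : Prop :=
  ∀ x : Cone, ∃ p ∈ Poly (M5 × M5), ∃ r ∈ Poly (M5 × M5), r (x : M5 × M5) ≠ 0 ∧
    ∀ y : Cone, r (y : M5 × M5) ≠ 0 → φ y = p (y : M5 × M5) / r (y : M5 × M5)

/-- `IsSec m n φ`: `φ` is a global section of the line bundle `m H + n σ`, i.e. a regular function
on the cone of degree `m` in `A` and of degree `n` in `Q` -/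
def IsSec (m n : ℤ) (φ : Cone → ℂ) : Prop :=
  Regular φ ∧ ∀ (x y : Cone) (μ lam : ℂ), μ ≠ 0 → lam ≠ 0 → (y : M5 × M5) = scal μ lam x →
    φ y = μ ^ n * lam ^ m * φ x

/-- The pseudo-effective cone of `X` in `N¹(X) = ℝ H ⊕ ℝ σ = ℝ × ℝ`: the closure of the cone
generated by the classes `(m, n)` with a nonzero section. -/
def Eff : Set (ℝ × ℝ) :=
  closure (Submodule.span NNReal
    {D : ℝ × ℝ | ∃ m n : ℤ, D = ((m : ℝ), (n : ℝ)) ∧ ∃ φ, IsSec m n φ ∧ φ ≠ 0} : Set (ℝ × ℝ))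

/-- the canonical class `K = - 6 H - σ` of `X` -/
def KX : ℝ × ℝ := (-6, -1)

/-- the polarisations `L = - K + c E = (6 + 3 c) H + (1 - 2 c) σ` -/
def Lc (c : ℝ) : ℝ × ℝ := (6 + 3 * c, 1 - 2 * c)

/-- the intersection number of the divisor class `D = (m, n)` and the curve class
`α = (H.α, σ.α)` -/
def dot (D α : ℝ × ℝ) : ℝ := D.1 * α.1 + D.2 * α.2

/-- the nef cone of curves, the dual of the pseudo-effective cone -/
def Nef1 : Set (ℝ × ℝ) := {α | ∀ D ∈ Eff, 0 ≤ dot D α}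

/-- `IsA L a`: `a = a(X, L)` -/
def IsA (L : ℝ × ℝ) (a : ℝ) : Prop := IsLeast {t : ℝ | t • L + KX ∈ Eff} a

/-- the face `F(X, L)` of the nef cone of curves, for `a = a(X, L)` -/
def Face (L : ℝ × ℝ) (a : ℝ) : Set (ℝ × ℝ) := {α | α ∈ Nef1 ∧ dot (KX + a • L) α = 0}

/-! ### Curves -/

/-- the value at `v = (s, t)` of the binary form of degree `d` with coefficients `q` -/
def ev {d : ℕ} (q : Fin (d + 1) → M5) (v : Fin 2 → ℂ) : M5 :=
  ∑ i : Fin (d + 1), (v 0 ^ (d - (i : ℕ)) * v 1 ^ (i : ℕ)) • q i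

/-- pairs of forms of degrees `d` and `e` -/
abbrev CV (d e : ℕ) : Type := (Fin (d + 1) → M5) × (Fin (e + 1) → M5)

/-- the value of a pair of forms -/
def evp {d e : ℕ} (c : CV d e) (v : Fin 2 → ℂ) : M5 × M5 := (ev c.1 v, ev c.2 v)

/-- the pairs of forms which define a morphism `ℙ¹ → X` -/
def MorCone (d e : ℕ) : Set (CV d e) := {c | ∀ v, v ≠ 0 → evp c v ∈ Cone}

/-- two pairs of forms which define the same morphism -/
def morSetoid (d e : ℕ) : Setoid (MorCone d e) where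
  r c c' := ∃ μ lam : ℂ, μ ≠ 0 ∧ lam ≠ 0 ∧
    (c' : CV d e) = (μ • (c : CV d e).1, lam • (c : CV d e).2)
  iseqv := by
    refine ⟨fun c => ⟨1, 1, one_ne_zero, one_ne_zero, by simp⟩, ?_, ?_⟩
    · rintro c c' ⟨μ, lam, hμ, hl, h⟩
      refine ⟨μ⁻¹, lam⁻¹, inv_ne_zero hμ, inv_ne_zero hl, ?_⟩
      rw [h]
      simp only [smul_smul, inv_mul_cancel₀ hμ, inv_mul_cancel₀ hl, one_smul]
    · rintro c c' c'' ⟨μ, lam, hμ, hl, h⟩ ⟨μ', lam', hμ', hl', h'⟩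
      refine ⟨μ' * μ, lam' * lam, mul_ne_zero hμ' hμ, mul_ne_zero hl' hl, ?_⟩
      rw [h', h]
      simp only [smul_smul]

/-- The space `Mor(ℙ¹, X)` of the morphisms `f : ℙ¹ → X` with `σ.f = d` and `H.f = e`: the pairs of
binary forms `(q, a)` of degrees `d` and `e`, without zeros and with values in the cone over `X`, up
to scalars. -/
def Mor (d e : ℕ) : Type := Quotient (morSetoid d e)

/-- the Zariski topology of the set of pairs of forms -/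
instance morConeTop (d e : ℕ) : TopologicalSpace (MorCone d e) :=
  TopologicalSpace.induced Subtype.val (zar (CV d e))

/-- the Zariski topology of `Mor(ℙ¹, X)`: the quotient topology of the Zariski topology of the set
of pairs of forms -/
instance morTop (d e : ℕ) : TopologicalSpace (Mor d e) :=
  TopologicalSpace.coinduced (Quotient.mk (morSetoid d e))
    (TopologicalSpace.induced Subtype.val (zar (CV d e)))

/-- the cone over a set of morphisms -/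
def hat {d e : ℕ} (M : Set (Mor d e)) : Set (CV d e) :=
  {c | ∃ h : c ∈ MorCone d e, (Quotient.mk (morSetoid d e) ⟨c, h⟩ : Mor d e) ∈ M}

/-- the cone over `M × ℙ¹` -/
def fam {d e : ℕ} (M : Set (Mor d e)) : Set (CV d e × (Fin 2 → ℂ)) :=
  {x | x.1 ∈ hat M ∧ x.2 ≠ 0}

/-! ### Thin maps -/

/-- projective varieties in `ℙ^N`, given by the punctured affine cone -/
structure PVar (N : ℕ) where
  /-- the points of the cone -/
  pts : Set (Fin (N + 1) → ℂ)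
  zero_notMem : (0 : Fin (N + 1) → ℂ) ∉ pts
  smul_mem : ∀ y ∈ pts, ∀ lam : ℂ, lam ≠ 0 → lam • y ∈ pts
  closed : ∃ I : Set ((Fin (N + 1) → ℂ) → ℂ), (∀ f ∈ I, f ∈ Poly (Fin (N + 1) → ℂ)) ∧
    ∀ y, y ∈ pts ↔ y ≠ 0 ∧ ∀ f ∈ I, f y = 0
  irr : Irr pts

/-- `IsMorph Y f`: the map `f` from the points of the cone over `Y` to the cone over `X` defines a
morphism `Y → X`: near every point it is given by polynomials. -/
def IsMorph {N : ℕ} (Y : PVar N) (f : (Fin (N + 1) → ℂ) → M5 × M5) : Prop :=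
  (∀ y ∈ Y.pts, f y ∈ Cone) ∧
  (∀ y ∈ Y.pts, ∀ lam : ℂ, lam ≠ 0 → Same (f y) (f (lam • y))) ∧
  ∀ y ∈ Y.pts, ∃ F : (Fin (N + 1) → ℂ) → M5 × M5, PolyMap F ∧ (F y).1 ≠ 0 ∧ (F y).2 ≠ 0 ∧
    ∀ y' ∈ Y.pts, (F y').1 ≠ 0 → (F y').2 ≠ 0 → Same (f y') (F y')

/-- the image of `f` is Zariski dense in `X` -/
def Dominant {N : ℕ} (Y : PVar N) (f : (Fin (N + 1) → ℂ) → M5 × M5) : Prop :=
  ∀ g ∈ Poly (M5 × M5), (∀ y ∈ Y.pts, ∀ x, Same (f y) x → g x = 0) → ∀ x ∈ Cone, g x = 0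

/-- `f` is generically finite (onto its image): the fibres of the restriction of `f` to a nonempty
open subset are finite -/
def GenFinite {N : ℕ} (Y : PVar N) (f : (Fin (N + 1) → ℂ) → M5 × M5) : Prop :=
  ∃ g ∈ Poly (Fin (N + 1) → ℂ), (∃ y ∈ Y.pts, g y ≠ 0) ∧ ∀ x ∈ Cone,
    ∃ T : Set (Fin (N + 1) → ℂ), T.Finite ∧ ∀ y ∈ Y.pts, g y ≠ 0 → Same x (f y) →
      ∃ y' ∈ T, ∃ lam : ℂ, lam ≠ 0 ∧ y = lam • y'

/-- `f` is birational: it is dominant and it has a rational inverse `G` -/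
def Birational {N : ℕ} (Y : PVar N) (f : (Fin (N + 1) → ℂ) → M5 × M5) : Prop :=
  Dominant Y f ∧ ∃ G : M5 × M5 → (Fin (N + 1) → ℂ), PolyMap G ∧
    ∃ g ∈ Poly (Fin (N + 1) → ℂ), (∃ y ∈ Y.pts, g y ≠ 0) ∧ ∀ y ∈ Y.pts, g y ≠ 0 →
      ∀ x, Same (f y) x → ∃ lam : ℂ, lam ≠ 0 ∧ G x = lam • y

/-- thin morphisms `Y → X` -/
def Thin {N : ℕ} (Y : PVar N) (f : (Fin (N + 1) → ℂ) → M5 × M5) : Prop :=
  IsMorph Y f ∧ GenFinite Y f ∧ ¬ Birational Y f

/-- The family map `s : M × ℙ¹ → X` factors rationally through `f : Y → X`: there is a map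
`h : M × ℙ¹ ⇢ Y`, given by polynomials, with `f ∘ h = s` on a nonempty open subset. -/
def Factors {d e : ℕ} (M : Set (Mor d e)) {N : ℕ} (Y : PVar N)
    (f : (Fin (N + 1) → ℂ) → M5 × M5) : Prop :=
  ∃ h : CV d e × (Fin 2 → ℂ) → (Fin (N + 1) → ℂ), PolyMap h ∧
    ∃ g ∈ Poly (CV d e × (Fin 2 → ℂ)), (∃ x ∈ fam M, g x ≠ 0) ∧ ∀ x ∈ fam M, g x ≠ 0 →
      h x ∈ Y.pts ∧ Same (f (h x)) (evp x.1 x.2)

/-- The family map of `M` factors rationally through no thin morphism at all (so that `M` is a Manin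
component, for all `L` such that the class of the curves is in `F(X, L)`). -/
def NoThin {d e : ℕ} (M : Set (Mor d e)) : Prop :=
  ∀ (N : ℕ) (Y : PVar N) (f : (Fin (N + 1) → ℂ) → M5 × M5), Thin Y f → ¬ Factors M Y f

end MC
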