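import Pool.Agent.Lib.MC.Stmts2

set_option autoImplicit false

/-!
# Two Manin components of the same class (MP_ac098b_ag): the pseudo-effective cone
-/

noncomputable section

namespace MC

namespace EFAux

/-- the half plane cone -/
def C : Set (ℝ × ℝ) := {D : ℝ × ℝ | 0 ≤ D.1 ∧ 0 ≤ 2 * D.1 + 3 * D.2}

/-- the classes with a nonzero section -/
def G : Set (ℝ × ℝ) :=
  {D : ℝ × ℝ | ∃ m n : ℤ, D = ((m : ℝ), (n : ℝ)) ∧ ∃ φ, IsSec m n φ ∧ φ ≠ 0}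

lemma isClosed_C : IsClosed C := by
  have h1 : IsClosed {D : ℝ × ℝ | 0 ≤ D.1} :=
    isClosed_le continuous_const continuous_fst
  have h2 : IsClosed {D : ℝ × ℝ | 0 ≤ 2 * D.1 + 3 * D.2} :=
    isClosed_le continuous_const (by fun_prop)
  exact h1.inter h2

lemma span_le (hbd : StBD) : (Submodule.span NNReal G : Set (ℝ × ℝ)) ⊆ C := by
  intro D hD
  refine Submodule.span_induction (p := fun D _ => D ∈ C) ?_ ?_ ?_ ?_ hD
  · rintro x ⟨m, n, rfl, φ, hφ, h0⟩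
    obtain ⟨h1, h2⟩ := hbd m n φ hφ h0
    refine ⟨?_, ?_⟩
    · show (0 : ℝ) ≤ (m : ℝ)
      exact_mod_cast h1
    · show (0 : ℝ) ≤ 2 * (m : ℝ) + 3 * (n : ℝ)
      exact_mod_cast h2
  · exact ⟨le_refl _, by simp⟩
  · rintro x y _ _ ⟨hx1, hx2⟩ ⟨hy1, hy2⟩
    refine ⟨?_, ?_⟩
    · show 0 ≤ x.1 + y.1
      linarith
    · show 0 ≤ 2 * (x.1 + y.1) + 3 * (x.2 + y.2)
      linarith
  · rintro a x _ ⟨hx1, hx2⟩
    have ha : (0 : ℝ) ≤ (a : ℝ) := a.2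
    refine ⟨?_, ?_⟩
    · show 0 ≤ (a : ℝ) * x.1
      exact mul_nonneg ha hx1
    · show 0 ≤ 2 * ((a : ℝ) * x.1) + 3 * ((a : ℝ) * x.2)
      have := mul_nonneg ha hx2
      linarith

lemma C_le (hse : StSE) : C ⊆ (Submodule.span NNReal G : Set (ℝ × ℝ)) := by
  obtain ⟨_, ⟨φ, hφ, hφ0⟩, δ, hδ, hδ0, _⟩ := hse
  rintro D ⟨h1, h2⟩
  have g1 : ((0 : ℝ), (1 : ℝ)) ∈ Submodule.span NNReal G :=
    Submodule.subset_span ⟨0, 1, by simp, φ, hφ, hφ0⟩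
  have g2 : ((3 : ℝ), (-2 : ℝ)) ∈ Submodule.span NNReal G :=
    Submodule.subset_span ⟨3, -2, by simp, δ, hδ, hδ0⟩
  have e1 := Submodule.smul_mem _ (⟨(2 * D.1 + 3 * D.2) / 3, by positivity⟩ : NNReal) g1
  have e2 := Submodule.smul_mem _ (⟨D.1 / 3, by positivity⟩ : NNReal) g2
  have e := Submodule.add_mem _ e1 e2
  have hD : D = (⟨(2 * D.1 + 3 * D.2) / 3, by positivity⟩ : NNReal) • ((0 : ℝ), (1 : ℝ)) +
      (⟨D.1 / 3, by positivity⟩ : NNReal) • ((3 : ℝ), (-2 : ℝ)) := by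
    refine Prod.ext ?_ ?_
    · show D.1 = (2 * D.1 + 3 * D.2) / 3 * 0 + D.1 / 3 * 3
      ring
    · show D.2 = (2 * D.1 + 3 * D.2) / 3 * 1 + D.1 / 3 * (-2)
      ring
  rw [hD]
  exact e

end EFAux

/-- Module EF: the pseudo-effective cone is generated by `σ` and `E`. -/
theorem stEF (hse : StSE) (hbd : StBD) : StEF := by
  show closure (Submodule.span NNReal EFAux.G : Set (ℝ × ℝ)) = EFAux.C
  apply Set.Subset.antisymm
  · exact closure_minimal (EFAux.span_le hbd) EFAux.isClosed_C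
  · exact (EFAux.C_le hse).trans subset_closure

end MC
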