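import Pool.Agent.Lib.MC.Stmts

set_option autoImplicit false

/-!
# Two Manin components of the same class (MP_ac098b_ag): the two explicit curves
-/

noncomputable section

namespace MC

open Matrix

namespace EXAux

theorem cone_of (A Q : M5) (x y : Fin 5 → ℂ) (hQ : ∀ i j, Q i j = x i * y j - y i * x j)
    (hQ0 : Q ≠ 0) (hA : Aᵀ = A) (hA0 : A ≠ 0) (hx : ∀ i, ∑ k, A i k * x k = 0)
    (hy : ∀ i, ∑ k, A i k * y k = 0) : (Q, A) ∈ Cone := by
  refine ⟨?_, ?_, hQ0, hA, hA0, ?_⟩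
  · ext i j
    change Q j i = -Q i j
    rw [hQ, hQ]
    ring
  · intro i j k l
    change Q i j * Q k l - Q i k * Q j l + Q i l * Q j k = 0
    simp only [hQ]
    ring
  · ext i j
    change ∑ k, A i k * Q k j = 0
    have h : ∀ k, A i k * Q k j = (A i k * x k) * y j - (A i k * y k) * x j := by
      intro k
      rw [hQ]
      ring
    simp only [h]
    rw [Finset.sum_sub_distrib, ← Finset.sum_mul, ← Finset.sum_mul, hx, hy]
    ring

theorem ne_zero_cases (v : Fin 2 → ℂ) (hv : v ≠ 0) : v 0 ≠ 0 ∨ v 1 ≠ 0 := by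
  by_contra h
  push Not at h
  apply hv
  ext i
  fin_cases i
  · exact h.1
  · exact h.2

theorem ev3 (q : Fin (3 + 1) → M5) (v : Fin 2 → ℂ) (i j : Fin 5) :
    ev q v i j = v 0 ^ 3 * q 0 i j + v 0 ^ 2 * v 1 * q 1 i j + v 0 * v 1 ^ 2 * q 2 i j
      + v 1 ^ 3 * q 3 i j := by
  unfold ev
  simp [Fin.sum_univ_four, Matrix.add_apply, Matrix.smul_apply]

theorem ev2 (q : Fin (2 + 1) → M5) (v : Fin 2 → ℂ) (i j : Fin 5) :
    ev q v i j = v 0 ^ 2 * q 0 i j + v 0 * v 1 * q 1 i j + v 1 ^ 2 * q 2 i j := by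
  unfold ev
  simp [Fin.sum_univ_three, Matrix.add_apply, Matrix.smul_apply]

/-! ### the even curve -/

/-- the vector `x` -/
def xv (s t : ℂ) : Fin 5 → ℂ := ![t, -s, 0, 0, 0]

/-- the vector `y` of the even curve -/
def ye (s t : ℂ) : Fin 5 → ℂ := ![0, 0, -(s * t), s ^ 2, t ^ 2]

/-- the forms `Q` of the even curve -/
def qe : Fin (3 + 1) → M5 :=
  ![!![0, 0, 0, 0, 0; 0, 0, 0, -1, 0; 0, 0, 0, 0, 0; 0, 1, 0, 0, 0; 0, 0, 0, 0, 0],
    !![0, 0, 0, 1, 0; 0, 0, 1, 0, 0; 0, -1, 0, 0, 0; -1, 0, 0, 0, 0; 0, 0, 0, 0, 0],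
    !![0, 0, -1, 0, 0; 0, 0, 0, 0, -1; 1, 0, 0, 0, 0; 0, 0, 0, 0, 0; 0, 1, 0, 0, 0],
    !![0, 0, 0, 0, 1; 0, 0, 0, 0, 0; 0, 0, 0, 0, 0; 0, 0, 0, 0, 0; -1, 0, 0, 0, 0]]

/-- the forms `A` of the even curve -/
def ae : Fin (2 + 1) → M5 :=
  ![!![1, 0, 0, 0, 0; 0, 0, 0, 0, 0; 0, 0, 1, 0, 0; 0, 0, 0, 0, 0; 0, 0, 0, 0, 1],
    !![0, 1, 0, 0, 0; 1, 0, 0, 0, 0; 0, 0, 0, 1, 1; 0, 0, 1, 0, 0; 0, 0, 1, 0, 0],
    !![0, 0, 0, 0, 0; 0, 1, 0, 0, 0; 0, 0, 1, 0, 0; 0, 0, 0, 1, 0; 0, 0, 0, 0, 0]]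

theorem qe_apply (v : Fin 2 → ℂ) (i j : Fin 5) : ev qe v i j =
    xv (v 0) (v 1) i * ye (v 0) (v 1) j - ye (v 0) (v 1) i * xv (v 0) (v 1) j := by
  rw [ev3]
  fin_cases i <;> fin_cases j <;> simp [qe, xv, ye] <;> ring

theorem ae_x (v : Fin 2 → ℂ) (i : Fin 5) : ∑ k, ev ae v i k * xv (v 0) (v 1) k = 0 := by
  simp only [ev2, Fin.sum_univ_five]
  fin_cases i <;> simp [ae, xv] <;> ring

theorem ae_y (v : Fin 2 → ℂ) (i : Fin 5) : ∑ k, ev ae v i k * ye (v 0) (v 1) k = 0 := by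
  simp only [ev2, Fin.sum_univ_five]
  fin_cases i <;> simp [ae, ye] <;> ring

theorem ae_symm (v : Fin 2 → ℂ) : (ev ae v)ᵀ = ev ae v := by
  ext i j
  rw [Matrix.transpose_apply, ev2, ev2]
  fin_cases i <;> fin_cases j <;> simp [ae]

theorem ce_mem : ((qe, ae) : CV 3 2) ∈ MorCone 3 2 := by
  intro v hv
  refine cone_of _ _ _ _ (qe_apply v) ?_ (ae_symm v) ?_ (ae_x v) (ae_y v)
  · intro h
    rcases ne_zero_cases v hv with h0 | h0
    · have h1 : ev qe v 1 3 = 0 := by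
        change (ev (qe, ae).1 v) 1 3 = 0
        rw [show ev (qe, ae).1 v = 0 from h]
        rfl
      rw [qe_apply] at h1
      simp [xv, ye] at h1
      exact h0 h1
    · have h1 : ev qe v 0 4 = 0 := by
        change (ev (qe, ae).1 v) 0 4 = 0
        rw [show ev (qe, ae).1 v = 0 from h]
        rfl
      rw [qe_apply] at h1
      simp [xv, ye] at h1
      exact h0 h1
  · intro h
    rcases ne_zero_cases v hv with h0 | h0
    · have h1 : ev ae v 0 0 = 0 := by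
        rw [show ev ae v = 0 from h]
        rfl
      rw [ev2] at h1
      simp [ae] at h1
      exact h0 h1
    · have h1 : ev ae v 1 1 = 0 := by
        rw [show ev ae v = 0 from h]
        rfl
      rw [ev2] at h1
      simp [ae] at h1
      exact h0 h1

/-! ### the odd curve -/

/-- the vector `y` of the odd curve -/
def yo (s t : ℂ) : Fin 5 → ℂ := ![0, 0, -(s * t), s ^ 2 + t ^ 2, 0]

/-- the forms `Q` of the odd curve -/
def qo : Fin (3 + 1) → M5 :=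
  ![!![0, 0, 0, 0, 0; 0, 0, 0, -1, 0; 0, 0, 0, 0, 0; 0, 1, 0, 0, 0; 0, 0, 0, 0, 0],
    !![0, 0, 0, 1, 0; 0, 0, 1, 0, 0; 0, -1, 0, 0, 0; -1, 0, 0, 0, 0; 0, 0, 0, 0, 0],
    !![0, 0, -1, 0, 0; 0, 0, 0, -1, 0; 1, 0, 0, 0, 0; 0, 1, 0, 0, 0; 0, 0, 0, 0, 0],
    !![0, 0, 0, 1, 0; 0, 0, 0, 0, 0; 0, 0, 0, 0, 0; -1, 0, 0, 0, 0; 0, 0, 0, 0, 0]]

/-- the forms `A` of the odd curve -/
def ao : Fin (2 + 1) → M5 :=
  ![!![1, 0, 0, 0, 0; 0, 0, 0, 0, 0; 0, 0, 0, 0, 1; 0, 0, 0, 0, 0; 0, 0, 1, 0, 0],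
    !![0, 1, 0, 0, 0; 1, 0, 0, 0, 0; 0, 0, 0, 0, 0; 0, 0, 0, 0, 1; 0, 0, 0, 1, 0],
    !![0, 0, 0, 0, 0; 0, 1, 0, 0, 0; 0, 0, 0, 0, 1; 0, 0, 0, 0, 0; 0, 0, 1, 0, 0]]

theorem qo_apply (v : Fin 2 → ℂ) (i j : Fin 5) : ev qo v i j =
    xv (v 0) (v 1) i * yo (v 0) (v 1) j - yo (v 0) (v 1) i * xv (v 0) (v 1) j := by
  rw [ev3]
  fin_cases i <;> fin_cases j <;> simp [qo, xv, yo] <;> ring

theorem ao_x (v : Fin 2 → ℂ) (i : Fin 5) : ∑ k, ev ao v i k * xv (v 0) (v 1) k = 0 := by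
  simp only [ev2, Fin.sum_univ_five]
  fin_cases i <;> simp [ao, xv] <;> ring

theorem ao_y (v : Fin 2 → ℂ) (i : Fin 5) : ∑ k, ev ao v i k * yo (v 0) (v 1) k = 0 := by
  simp only [ev2, Fin.sum_univ_five]
  fin_cases i <;> simp [ao, yo] <;> ring

theorem ao_symm (v : Fin 2 → ℂ) : (ev ao v)ᵀ = ev ao v := by
  ext i j
  rw [Matrix.transpose_apply, ev2, ev2]
  fin_cases i <;> fin_cases j <;> simp [ao]

theorem co_mem : ((qo, ao) : CV 3 2) ∈ MorCone 3 2 := by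
  intro v hv
  refine cone_of _ _ _ _ (qo_apply v) ?_ (ao_symm v) ?_ (ao_x v) (ao_y v)
  · intro h
    have h1 : ∀ i j, ev qo v i j = 0 := by
      intro i j
      rw [show ev qo v = 0 from h]
      rfl
    have h02 := h1 0 2
    have h12 := h1 1 2
    have h03 := h1 0 3
    have h13 := h1 1 3
    rw [qo_apply] at h02 h12 h03 h13
    simp [xv, yo] at h02 h12 h03 h13
    rcases ne_zero_cases v hv with h0 | h0
    · have ht : v 1 = 0 := by tauto
      have h13' : v 0 ^ 2 + v 1 ^ 2 = 0 := by tauto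
      rw [ht] at h13'
      exact h0 (by simpa using h13')
    · have hs : v 0 = 0 := by tauto
      have h03' : v 0 ^ 2 + v 1 ^ 2 = 0 := by tauto
      rw [hs] at h03'
      exact h0 (by simpa using h03')
  · intro h
    rcases ne_zero_cases v hv with h0 | h0
    · have h1 : ev ao v 0 0 = 0 := by
        rw [show ev ao v = 0 from h]
        rfl
      rw [ev2] at h1
      simp [ao] at h1
      exact h0 h1
    · have h1 : ev ao v 1 1 = 0 := by
        rw [show ev ao v = 0 from h]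
        rfl
      rw [ev2] at h1
      simp [ao] at h1
      exact h0 h1

theorem blk_e : blk (ae 0) = 1 := by
  ext i j
  fin_cases i <;> fin_cases j <;> simp [blk, ae, i024]

theorem blk_o : (blk (ao 0)).det = -1 := by
  rw [Matrix.det_fin_three]
  simp [blk, ao, i024]

theorem kap_of (A : M5) (j : Fin 5) (h : ∀ a : Fin 3, A (i024 a) j = 0) :
    kap A j = (blk A).det • Pi.single j 1 := by
  unfold kap
  have h1 : (fun b => A (i024 b) j) = 0 := by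
    ext b
    exact h b
  rw [h1, Matrix.mulVec_zero]
  simp

theorem kap_e1 : kap (ae 0) 1 = Pi.single 1 1 := by
  rw [kap_of _ _ (by intro a; fin_cases a <;> simp [ae, i024]), blk_e]
  simp

theorem kap_e3 : kap (ae 0) 3 = Pi.single 3 1 := by
  rw [kap_of _ _ (by intro a; fin_cases a <;> simp [ae, i024]), blk_e]
  simp

theorem kap_o1 : kap (ao 0) 1 = -Pi.single 1 1 := by
  rw [kap_of _ _ (by intro a; fin_cases a <;> simp [ao, i024]), blk_o]
  simp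

theorem kap_o3 : kap (ao 0) 3 = -Pi.single 3 1 := by
  rw [kap_of _ _ (by intro a; fin_cases a <;> simp [ao, i024]), blk_o]
  simp

theorem qf_single (A : M5) (i j : Fin 5) :
    qf (Pi.single i 1) A (Pi.single j 1) = A i j := by
  unfold qf
  simp

theorem qf_single_xx (A : M5) (i : Fin 5) :
    qf (Pi.single i 1) A xx = A i 2 + A i 4 := by
  unfold qf xx
  rw [single_one_dotProduct]
  simp [Matrix.mulVec, dotProduct, Fin.sum_univ_five]

theorem qf_xx_xx (A : M5) : qf xx A xx = A 2 2 + A 2 4 + A 4 2 + A 4 4 := by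
  unfold qf xx
  simp [Matrix.mulVec, dotProduct, Fin.sum_univ_five]
  ring

theorem qf_neg_left (x : Fin 5 → ℂ) (A : M5) (y : Fin 5 → ℂ) : qf (-x) A y = -qf x A y := by
  unfold qf
  rw [neg_dotProduct]

theorem qf_neg_right (x : Fin 5 → ℂ) (A : M5) (y : Fin 5 → ℂ) : qf x A (-y) = -qf x A y := by
  unfold qf
  rw [Matrix.mulVec_neg, dotProduct_neg]

theorem GG_e : GG (ae 0) (ae 2) = 1 := by
  unfold GG
  rw [kap_e1, kap_e3]
  simp only [qf_single]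
  rw [Matrix.det_fin_two]
  simp [ae]

theorem FF_o : FF (ao 0) (ao 1) (ao 2) = -2 := by
  unfold FF
  rw [kap_o1, kap_o3]
  simp only [qf_neg_left, qf_neg_right, qf_single, qf_single_xx, qf_xx_xx]
  simp [ao, Matrix.det_succ_row_zero, Fin.sum_univ_succ]
  norm_num

end EXAux

/-- Module EX: the two curves. -/
theorem stEX : StEX := by
  refine ⟨⟨(EXAux.qe, EXAux.ae), EXAux.ce_mem, ?_, ?_⟩, ⟨(EXAux.qo, EXAux.ao), EXAux.co_mem, ?_, ?_⟩⟩
  · change (blk (EXAux.ae 0)).det ≠ 0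
    rw [EXAux.blk_e, Matrix.det_one]
    exact one_ne_zero
  · change GG (EXAux.ae 0) (EXAux.ae 2) ≠ 0
    rw [EXAux.GG_e]
    exact one_ne_zero
  · change (blk (EXAux.ao 0)).det ≠ 0
    rw [EXAux.blk_o]
    norm_num
  · change FF (EXAux.ao 0) (EXAux.ao 1) (EXAux.ao 2) ≠ 0
    rw [EXAux.FF_o]
    norm_num

end MC
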