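import Pool.Agent.Lib.MC.Stmts3
import Pool.Agent.Lib.MC.DO

set_option autoImplicit false

/-!
# Two Manin components (MP_ac098b_ag): module EXK, the two curves of class `k (2, 3)`
-/

noncomputable section

namespace MC

open Matrix

namespace EXKAux

/-- the family of coefficients of the monomial `s ^ (d - i) t ^ i` with coefficient `M` -/
def mon (d i : ℕ) (M : M5) : Fin (d + 1) → M5 := fun j => if (j : ℕ) = i then M else 0

theorem ev_mon {d i : ℕ} (h : i ≤ d) (M : M5) (v : Fin 2 → ℂ) :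
    ev (mon d i M) v = (v 0 ^ (d - i) * v 1 ^ i) • M := by
  unfold ev mon
  rw [Finset.sum_eq_single (⟨i, by omega⟩ : Fin (d + 1))]
  · simp
  · intro b _ hb
    have : (b : ℕ) ≠ i := fun h => hb (Fin.ext h)
    simp [this]
  · intro h
    exact absurd (Finset.mem_univ _) h

theorem ev_add {d : ℕ} (q q' : Fin (d + 1) → M5) (v : Fin 2 → ℂ) :
    ev (q + q') v = ev q v + ev q' v := by
  unfold ev
  rw [← Finset.sum_add_distrib]
  refine Finset.sum_congr rfl fun i _ => ?_
  rw [Pi.add_apply, smul_add]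

/-- the matrix with the entries `x ∧ y` -/
def wd (x y : Fin 5 → ℂ) : M5 := Matrix.of fun i j => x i * y j - y i * x j

theorem wd_mulVec (x y z : Fin 5 → ℂ) (i : Fin 5) :
    (wd x y *ᵥ z) i = x i * (y ⬝ᵥ z) - y i * (x ⬝ᵥ z) := by
  simp only [Matrix.mulVec, dotProduct, wd, Matrix.of_apply, Finset.mul_sum]
  rw [← Finset.sum_sub_distrib]
  exact Finset.sum_congr rfl fun j _ => by ring

theorem mem_cone {x y : Fin 5 → ℂ} {A : M5} (hA : Aᵀ = A) (hx : A *ᵥ x = 0) (hy : A *ᵥ y = 0)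
    (h0 : A ≠ 0) (hQ : wd x y ≠ 0) : (wd x y, A) ∈ Cone := by
  refine ⟨?_, ?_, hQ, hA, h0, ?_⟩
  · ext i j
    simp only [wd, Matrix.transpose_apply, Matrix.of_apply, Matrix.neg_apply]
    ring
  · intro i j k l
    simp only [wd, Matrix.of_apply]
    ring
  · ext i j
    have h1 := congrFun hx i
    have h2 := congrFun hy i
    simp only [Matrix.mulVec, dotProduct, Pi.zero_apply] at h1 h2
    simp only [Matrix.mul_apply, wd, Matrix.of_apply, Matrix.zero_apply]
    have : ∑ x_1, A i x_1 * (x x_1 * y j - y x_1 * x j) =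
        (∑ l, A i l * x l) * y j - (∑ l, A i l * y l) * x j := by
      rw [Finset.sum_mul, Finset.sum_mul, ← Finset.sum_sub_distrib]
      exact Finset.sum_congr rfl fun j _ => by ring
    rw [this, h1, h2]
    ring

theorem rank_three {x : M5 × M5} (hx : x ∈ Cone) (f : Fin 3 → Fin 5)
    (h : (x.2.submatrix f f).det ≠ 0) : x.2.rank = 3 := by
  have h1 := Matrix.rank_of_det_ne_zero h
  have h2 := Matrix.rank_submatrix_le x.2 f f
  have h3 := DOAux.rank_le hx
  simp only [Fintype.card_fin] at h1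
  omega

/-- the extended coefficients -/
def co {k : ℕ} (x : Fin (k + 1) → (Fin 5 → ℂ)) (j : Fin 5) (n : ℕ) : ℂ :=
  if h : n < k + 1 then x ⟨n, h⟩ j else 0

/-- the polynomial of the component `j` -/
def zp {k : ℕ} (x : Fin (k + 1) → (Fin 5 → ℂ)) (j : Fin 5) : Polynomial ℂ :=
  ∑ i : Fin (k + 1), Polynomial.monomial (i : ℕ) (x i j)

theorem zp_coeff {k : ℕ} (x : Fin (k + 1) → (Fin 5 → ℂ)) (j : Fin 5) (n : ℕ) :
    (zp x j).coeff n = co x j n := by
  unfold zp co
  rw [Polynomial.finsetSum_coeff]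
  simp only [Polynomial.coeff_monomial]
  split_ifs with h
  · rw [Finset.sum_eq_single (⟨n, h⟩ : Fin (k + 1))]
    · simp
    · intro b _ hb
      have : (b : ℕ) ≠ n := fun h => hb (Fin.ext h)
      simp [this]
    · intro h
      exact absurd (Finset.mem_univ _) h
  · refine Finset.sum_eq_zero fun i _ => ?_
    have : (i : ℕ) ≠ n := fun h' => h (h' ▸ i.2)
    simp [this]

theorem zp_eval {k : ℕ} (x : Fin (k + 1) → (Fin 5 → ℂ)) (j : Fin 5) (t : ℂ) :
    (zp x j).eval t = evv x ![1, t] j := by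
  unfold zp evv
  rw [Polynomial.eval_finsetSum, Finset.sum_apply]
  refine Finset.sum_congr rfl fun i _ => ?_
  rw [Polynomial.eval_monomial]
  simp [mul_comm]

theorem co_big {k : ℕ} (x : Fin (k + 1) → (Fin 5 → ℂ)) (j : Fin 5) {n : ℕ} (h : k < n) :
    co x j n = 0 := by
  unfold co
  rw [dif_neg (by omega)]

theorem eq_zero_of_co {k : ℕ} {x : Fin (k + 1) → (Fin 5 → ℂ)} (h : ∀ j n, co x j n = 0) :
    x = 0 := by
  funext i j
  have := h j i
  unfold co at this
  rw [dif_pos i.2] at this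
  exact this

/-- an elementary symmetric or diagonal matrix -/
def E (i j : Fin 5) : M5 := Matrix.single i j 1

theorem xrel {k : ℕ} (x : Fin (k + 1) → (Fin 5 → ℂ))
    (h : ∀ t : ℂ, t ^ k * evv x ![1, t] 0 - evv x ![1, t] 1 = 0) :
    (∀ n, 1 ≤ n → co x 0 n = 0) ∧ ∀ n, co x 1 n = if k ≤ n then co x 0 (n - k) else 0 := by
  have hP : zp x 1 = Polynomial.X ^ k * zp x 0 := by
    apply Polynomial.funext
    intro t
    rw [Polynomial.eval_mul, Polynomial.eval_pow, Polynomial.eval_X, zp_eval, zp_eval]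
    linear_combination -h t
  have hc : ∀ n, co x 1 n = if k ≤ n then co x 0 (n - k) else 0 := by
    intro n
    rw [← zp_coeff, hP, Polynomial.coeff_X_pow_mul', zp_coeff]
  refine ⟨?_, hc⟩
  intro n hn
  have := hc (k + n)
  rw [if_pos (by omega), co_big _ _ (by omega), Nat.add_sub_cancel_left] at this
  exact this.symm

/-! ### The even curve -/

/-- the first vector -/
def xe (k : ℕ) (v : Fin 2 → ℂ) : Fin 5 → ℂ := ![v 1 ^ k, -v 0 ^ k, 0, 0, 0]

/-- the second vector of the even curve -/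
def ye (k : ℕ) (v : Fin 2 → ℂ) : Fin 5 → ℂ :=
  ![0, 0, -(v 0 ^ k * v 1 ^ k), v 0 ^ (2 * k), v 1 ^ (2 * k)]

/-- the matrix of the even curve -/
def Ae (k : ℕ) (v : Fin 2 → ℂ) : M5 :=
  !![v 0 ^ (2 * k), v 0 ^ k * v 1 ^ k, 0, 0, 0; v 0 ^ k * v 1 ^ k, v 1 ^ (2 * k), 0, 0, 0;
    0, 0, v 0 ^ (2 * k) + v 1 ^ (2 * k), v 0 ^ k * v 1 ^ k, v 0 ^ k * v 1 ^ k;
    0, 0, v 0 ^ k * v 1 ^ k, v 1 ^ (2 * k), 0; 0, 0, v 0 ^ k * v 1 ^ k, 0, v 0 ^ (2 * k)]

/-- the even curve -/
def ce (k : ℕ) : CV (3 * k) (2 * k) :=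
  (mon (3 * k) 0 (-(E 1 3 - E 3 1)) + mon (3 * k) k (E 0 3 - E 3 0 + (E 1 2 - E 2 1)) +
      mon (3 * k) (2 * k) (-(E 0 2 - E 2 0) - (E 1 4 - E 4 1)) +
      mon (3 * k) (3 * k) (E 0 4 - E 4 0),
    mon (2 * k) 0 (E 0 0 + E 2 2 + E 4 4) +
      mon (2 * k) k (E 0 1 + E 1 0 + (E 2 3 + E 3 2) + (E 2 4 + E 4 2)) +
      mon (2 * k) (2 * k) (E 1 1 + E 2 2 + E 3 3))

theorem ce1 (k : ℕ) (v : Fin 2 → ℂ) : ev (ce k).1 v = wd (xe k v) (ye k v) := by
  unfold ce
  dsimp only
  rw [ev_add, ev_add, ev_add, ev_mon (by omega), ev_mon (by omega), ev_mon (by omega),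
    ev_mon (by omega), show 3 * k - k = 2 * k by omega, show 3 * k - 2 * k = k by omega,
    Nat.sub_self, Nat.sub_zero]
  ext i j
  fin_cases i <;> fin_cases j <;>
    simp [wd, xe, ye, E, Matrix.single] <;> ring

theorem ce2 (k : ℕ) (v : Fin 2 → ℂ) : ev (ce k).2 v = Ae k v := by
  unfold ce
  dsimp only
  rw [ev_add, ev_add, ev_mon (by omega), ev_mon (by omega), ev_mon (by omega),
    show 2 * k - k = k by omega, Nat.sub_self, Nat.sub_zero]
  ext i j
  fin_cases i <;> fin_cases j <;>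
    simp [Ae, E, Matrix.single]

theorem pt_ne {v : Fin 2 → ℂ} (hv : v ≠ 0) : v 0 ≠ 0 ∨ v 1 ≠ 0 := by
  by_contra hcon
  push Not at hcon
  apply hv
  funext i
  fin_cases i
  · exact hcon.1
  · exact hcon.2

theorem ce_mem (k : ℕ) : ce k ∈ MorCone (3 * k) (2 * k) := by
  intro v hv
  unfold evp
  rw [ce1, ce2]
  refine mem_cone ?_ ?_ ?_ ?_ ?_
  · ext i j
    fin_cases i <;> fin_cases j <;> simp [Ae]
  · funext i
    fin_cases i <;> simp [Ae, xe, Matrix.mulVec, dotProduct, Fin.sum_univ_five] <;> ring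
  · funext i
    fin_cases i <;> simp [Ae, ye, Matrix.mulVec, dotProduct, Fin.sum_univ_five] <;> ring
  · intro h
    have h00 := congrFun (congrFun h 0) 0
    have h11 := congrFun (congrFun h 1) 1
    simp only [Ae, Matrix.of_apply, Matrix.cons_val, Matrix.zero_apply] at h00 h11
    rcases pt_ne hv with h' | h'
    · exact pow_ne_zero _ h' h00
    · exact pow_ne_zero _ h' h11
  · intro h
    have h13 := congrFun (congrFun h 1) 3
    have h04 := congrFun (congrFun h 0) 4
    simp only [wd, xe, ye, Matrix.of_apply, Matrix.cons_val, Matrix.zero_apply, mul_zero,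
      sub_zero, neg_mul, neg_eq_zero] at h13 h04
    rcases pt_ne hv with h' | h'
    · exact mul_ne_zero (pow_ne_zero _ h') (pow_ne_zero _ h') h13
    · exact mul_ne_zero (pow_ne_zero _ h') (pow_ne_zero _ h') h04

theorem ce_HH {k : ℕ} (hk : 1 ≤ k) (x : Fin (k + 1) → (Fin 5 → ℂ)) (hx : x ∈ HH k (ce k))
    (h0 : x 0 = 0) : x = 0 := by
  have hx' : ∀ v, ev (ce k).1 v *ᵥ evv x v = 0 := hx
  have h1 : ∀ t : ℂ, t ^ k * evv x ![1, t] 0 - evv x ![1, t] 1 = 0 := by
    intro t
    have := congrFun (hx' ![1, t]) 3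
    rw [ce1, wd_mulVec] at this
    simp [xe, ye, dotProduct, Fin.sum_univ_five] at this
    linear_combination -this
  have h2 : ∀ t : ℂ, -(t ^ k * evv x ![1, t] 2) + evv x ![1, t] 3 +
      t ^ (2 * k) * evv x ![1, t] 4 = 0 := by
    intro t
    have := congrFun (hx' ![1, t]) 1
    rw [ce1, wd_mulVec] at this
    simp [xe, ye, dotProduct, Fin.sum_univ_five] at this
    linear_combination -this
  obtain ⟨ha, hb⟩ := xrel x h1
  have hP : zp x 3 = Polynomial.X ^ k * zp x 2 - Polynomial.X ^ (2 * k) * zp x 4 := by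
    apply Polynomial.funext
    intro t
    rw [Polynomial.eval_sub, Polynomial.eval_mul, Polynomial.eval_pow, Polynomial.eval_X,
      Polynomial.eval_mul, Polynomial.eval_pow, Polynomial.eval_X, zp_eval, zp_eval, zp_eval]
    linear_combination h2 t
  have hc : ∀ n, co x 3 n = (if k ≤ n then co x 2 (n - k) else 0) -
      (if 2 * k ≤ n then co x 4 (n - 2 * k) else 0) := by
    intro n
    rw [← zp_coeff, hP, Polynomial.coeff_sub, Polynomial.coeff_X_pow_mul',
      Polynomial.coeff_X_pow_mul', zp_coeff, zp_coeff]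
  have hz : ∀ j, co x j 0 = 0 := by
    intro j
    unfold co
    rw [dif_pos (by omega)]
    exact congrFun h0 j
  have h4 : ∀ n, co x 4 n = 0 := by
    intro n
    rcases Nat.eq_zero_or_pos n with rfl | hn
    · exact hz 4
    · have := hc (2 * k + n)
      rw [if_pos (by omega), if_pos (by omega), co_big _ _ (by omega), co_big _ _ (by omega),
        Nat.add_sub_cancel_left] at this
      linear_combination this
  have h2' : ∀ n, co x 2 n = 0 := by
    intro n
    rcases Nat.eq_zero_or_pos n with rfl | hn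
    · exact hz 2
    · have := hc (k + n)
      rw [if_pos (by omega), co_big _ 3 (by omega), Nat.add_sub_cancel_left, h4, ite_self,
        sub_zero] at this
      exact this.symm
  have h0' : ∀ n, co x 0 n = 0 := by
    intro n
    rcases Nat.eq_zero_or_pos n with rfl | hn
    · exact hz 0
    · exact ha n hn
  apply eq_zero_of_co
  intro j n
  fin_cases j
  · exact h0' n
  · have := hb n
    rw [h0', ite_self] at this
    exact this
  · exact h2' n
  · have := hc n
    rw [h2', h4, ite_self, ite_self, sub_zero] at this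
    exact this
  · exact h4 n

/-! ### The odd curve -/

/-- the second vector of the odd curve -/
def yo (m : ℕ) (v : Fin 2 → ℂ) : Fin 5 → ℂ :=
  ![0, 0, -v 1 ^ (2 * (m + 1)), -v 0 ^ (2 * (m + 1)), v 0 ^ (m + 2) * v 1 ^ m]

/-- the matrix of the odd curve -/
def Ao (m : ℕ) (v : Fin 2 → ℂ) : M5 :=
  !![v 0 ^ (2 * (m + 1)), v 0 ^ (m + 1) * v 1 ^ (m + 1), 0, 0, 0;
    v 0 ^ (m + 1) * v 1 ^ (m + 1), v 1 ^ (2 * (m + 1)), 0, 0, 0;
    0, 0, 0, v 0 ^ (m + 2) * v 1 ^ m, v 0 ^ (2 * (m + 1));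
    0, 0, v 0 ^ (m + 2) * v 1 ^ m, 0, v 1 ^ (2 * (m + 1));
    0, 0, v 0 ^ (2 * (m + 1)), v 1 ^ (2 * (m + 1)), 2 * (v 0 ^ m * v 1 ^ (m + 2))]

/-- the odd curve -/
def cd (m : ℕ) : CV (3 * (m + 1)) (2 * (m + 1)) :=
  (mon (3 * (m + 1)) (3 * (m + 1)) (-(E 0 2 - E 2 0)) +
      mon (3 * (m + 1)) (m + 1) (-(E 0 3 - E 3 0)) +
      mon (3 * (m + 1)) (2 * m + 1) (E 0 4 - E 4 0) +
      mon (3 * (m + 1)) (2 * m + 2) (E 1 2 - E 2 1) +
      mon (3 * (m + 1)) 0 (E 1 3 - E 3 1) + mon (3 * (m + 1)) m (-(E 1 4 - E 4 1)),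
    mon (2 * (m + 1)) 0 (E 0 0 + E 2 4 + E 4 2) + mon (2 * (m + 1)) (m + 1) (E 0 1 + E 1 0) +
      mon (2 * (m + 1)) (2 * (m + 1)) (E 1 1 + E 3 4 + E 4 3) +
      mon (2 * (m + 1)) m (E 2 3 + E 3 2) + mon (2 * (m + 1)) (m + 2) (E 4 4 + E 4 4))

theorem cd1 (m : ℕ) (v : Fin 2 → ℂ) : ev (cd m).1 v = wd (xe (m + 1) v) (yo m v) := by
  unfold cd
  dsimp only
  rw [ev_add, ev_add, ev_add, ev_add, ev_add, ev_mon (by omega), ev_mon (by omega),
    ev_mon (by omega), ev_mon (by omega), ev_mon (by omega), ev_mon (by omega),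
    show 3 * (m + 1) - (m + 1) = 2 * (m + 1) by omega,
    show 3 * (m + 1) - (2 * m + 1) = m + 2 by omega,
    show 3 * (m + 1) - (2 * m + 2) = m + 1 by omega,
    show 3 * (m + 1) - m = 2 * m + 3 by omega, Nat.sub_self, Nat.sub_zero]
  ext i j
  fin_cases i <;> fin_cases j <;>
    simp [wd, xe, yo, E, Matrix.single, -mul_eq_mul_left_iff, -mul_eq_mul_right_iff] <;> ring

theorem cd2 (m : ℕ) (v : Fin 2 → ℂ) : ev (cd m).2 v = Ao m v := by
  unfold cd
  dsimp only
  rw [ev_add, ev_add, ev_add, ev_add, ev_mon (by omega), ev_mon (by omega),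
    ev_mon (by omega), ev_mon (by omega), ev_mon (by omega),
    show 2 * (m + 1) - (m + 1) = m + 1 by omega,
    show 2 * (m + 1) - m = m + 2 by omega,
    show 2 * (m + 1) - (m + 2) = m by omega, Nat.sub_self, Nat.sub_zero]
  ext i j
  fin_cases i <;> fin_cases j <;>
    simp [Ao, E, Matrix.single]
  ring

theorem cd_mem (m : ℕ) : cd m ∈ MorCone (3 * (m + 1)) (2 * (m + 1)) := by
  intro v hv
  unfold evp
  rw [cd1, cd2]
  refine mem_cone ?_ ?_ ?_ ?_ ?_
  · ext i j
    fin_cases i <;> fin_cases j <;> simp [Ao]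
  · funext i
    fin_cases i <;> simp [Ao, xe, Matrix.mulVec, dotProduct, Fin.sum_univ_five] <;> ring
  · funext i
    fin_cases i <;> simp [Ao, yo, Matrix.mulVec, dotProduct, Fin.sum_univ_five] <;> ring
  · intro h
    have h00 := congrFun (congrFun h 0) 0
    have h11 := congrFun (congrFun h 1) 1
    simp only [Ao, Matrix.of_apply, Matrix.cons_val, Matrix.zero_apply] at h00 h11
    rcases pt_ne hv with h' | h'
    · exact pow_ne_zero _ h' h00
    · exact pow_ne_zero _ h' h11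
  · intro h
    have h13 := congrFun (congrFun h 1) 3
    have h02 := congrFun (congrFun h 0) 2
    simp only [wd, xe, yo, Matrix.of_apply, Matrix.cons_val, Matrix.zero_apply, mul_zero,
      sub_zero, neg_mul, mul_neg, neg_neg, neg_eq_zero] at h13 h02
    rcases pt_ne hv with h' | h'
    · exact mul_ne_zero (pow_ne_zero _ h') (pow_ne_zero _ h') h13
    · exact mul_ne_zero (pow_ne_zero _ h') (pow_ne_zero _ h') h02

/-- the block of the first coefficient -/
def P0 : Matrix (Fin 3) (Fin 3) ℂ := !![1, 0, 0; 0, 0, 1; 0, 1, 0]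

theorem blk_add (A B : M5) : blk (A + B) = blk A + blk B := rfl

theorem blk_mon (d i : ℕ) (M : M5) (j : Fin (d + 1)) :
    blk (mon d i M j) = if (j : ℕ) = i then blk M else 0 := by
  unfold mon
  split_ifs <;> rfl

theorem blk_cd (m : ℕ) (j : Fin (2 * (m + 1) + 1)) : blk ((cd m).2 j) =
    (if (j : ℕ) = 0 then P0 else 0) + if (j : ℕ) = m + 2 then blk (E 4 4 + E 4 4) else 0 := by
  have h1 : blk (E 0 0 + E 2 4 + E 4 2) = P0 := by
    ext i j
    fin_cases i <;> fin_cases j <;> simp [P0, blk, E, Matrix.single, i024]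
  have h2 : blk (E 0 1 + E 1 0) = 0 := by
    ext i j
    fin_cases i <;> fin_cases j <;> simp [blk, E, Matrix.single, i024]
  have h3 : blk (E 1 1 + E 3 4 + E 4 3) = 0 := by
    ext i j
    fin_cases i <;> fin_cases j <;> simp [blk, E, Matrix.single, i024]
  have h4 : blk (E 2 3 + E 3 2) = 0 := by
    ext i j
    fin_cases i <;> fin_cases j <;> simp [blk, E, Matrix.single, i024]
  unfold cd
  simp only [Pi.add_apply]
  rw [blk_add, blk_add, blk_add, blk_add, blk_mon, blk_mon, blk_mon, blk_mon, blk_mon, h1, h2, h3,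
    h4, ite_self, ite_self, ite_self, add_zero, add_zero, add_zero]

theorem blk0 (m : ℕ) : blk ((cd m).2 0) = P0 := by
  have h0 : ((0 : Fin (2 * (m + 1) + 1)) : ℕ) = 0 := rfl
  rw [blk_cd, h0, if_pos rfl, if_neg (by omega), add_zero]

theorem blk1 (m : ℕ) : blk ((cd m).2 1) = 0 := by
  have h1 : ((1 : Fin (2 * (m + 1) + 1)) : ℕ) = 1 := by
    have h : 1 % (2 * (m + 1) + 1) = 1 := Nat.mod_eq_of_lt (by omega)
    exact h
  rw [blk_cd, h1, if_neg (by omega), if_neg (by omega), add_zero]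

theorem cd_TT {m : ℕ} (x : Fin (m + 1 + 1) → (Fin 5 → ℂ)) (hx : x ∈ HH (m + 1) (cd m))
    (h0 : TT ((cd m).2 0) ((cd m).2 1) (x 0) (x 1) = 0) : x = 0 := by
  have hx' : ∀ v, ev (cd m).1 v *ᵥ evv x v = 0 := hx
  have h1 : ∀ t : ℂ, t ^ (m + 1) * evv x ![1, t] 0 - evv x ![1, t] 1 = 0 := by
    intro t
    have := congrFun (hx' ![1, t]) 3
    rw [cd1, wd_mulVec] at this
    simp [xe, yo, dotProduct, Fin.sum_univ_five] at this
    linear_combination this
  have h2 : ∀ t : ℂ, -(t ^ (2 * (m + 1)) * evv x ![1, t] 2) - evv x ![1, t] 3 +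
      t ^ m * evv x ![1, t] 4 = 0 := by
    intro t
    have := congrFun (hx' ![1, t]) 1
    rw [cd1, wd_mulVec] at this
    simp [xe, yo, dotProduct, Fin.sum_univ_five] at this
    linear_combination -this
  obtain ⟨ha, hb⟩ := xrel x h1
  have hP : zp x 3 = Polynomial.X ^ m * zp x 4 - Polynomial.X ^ (2 * (m + 1)) * zp x 2 := by
    apply Polynomial.funext
    intro t
    rw [Polynomial.eval_sub, Polynomial.eval_mul, Polynomial.eval_pow, Polynomial.eval_X,
      Polynomial.eval_mul, Polynomial.eval_pow, Polynomial.eval_X, zp_eval, zp_eval, zp_eval]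
    linear_combination -h2 t
  have hc : ∀ n, co x 3 n = (if m ≤ n then co x 4 (n - m) else 0) -
      (if 2 * (m + 1) ≤ n then co x 2 (n - 2 * (m + 1)) else 0) := by
    intro n
    rw [← zp_coeff, hP, Polynomial.coeff_sub, Polynomial.coeff_X_pow_mul',
      Polynomial.coeff_X_pow_mul', zp_coeff, zp_coeff]
  have h2' : ∀ n, co x 2 n = 0 := by
    intro n
    have := hc (2 * (m + 1) + n)
    rw [if_pos (by omega), if_pos (by omega), co_big _ _ (by omega), co_big _ _ (by omega),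
      Nat.add_sub_cancel_left] at this
    linear_combination this
  have h4 : ∀ n, 2 ≤ n → co x 4 n = 0 := by
    intro n hn
    have := hc (m + n)
    rw [if_pos (by omega), co_big _ 3 (by omega), Nat.add_sub_cancel_left, h2', ite_self,
      sub_zero] at this
    exact this.symm
  have hx0 : ∀ j, x 0 j = co x j 0 := by
    intro j
    unfold co
    rw [dif_pos (by omega)]
    rfl
  have hx1 : ∀ j, x 1 j = co x j 1 := by
    intro j
    unfold co
    rw [dif_pos (by omega)]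
    rfl
  have hadj : adjugate P0 = !![-1, 0, 0; 0, 0, -1; 0, -1, 0] := by
    unfold P0
    rw [Matrix.adjugate_fin_three]
    ext i j
    fin_cases i <;> fin_cases j <;> simp
  have hdet : P0.det = -1 := by
    unfold P0
    rw [Matrix.det_fin_three]
    simp
  unfold TT at h0
  rw [blk0, blk1, hadj, hdet] at h0
  have e0 := congrFun h0 0
  have e1 := congrFun h0 1
  have e2 := congrFun h0 2
  simp [dotProduct, Fin.sum_univ_three, i024, hx0, hx1, h2', ha 1 le_rfl] at e0 e1 e2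
  have h00 : ∀ n, co x 0 n = 0 := by
    intro n
    rcases Nat.eq_zero_or_pos n with rfl | hn
    · exact e2
    · exact ha n hn
  have h44 : ∀ n, co x 4 n = 0 := by
    intro n
    rcases Nat.lt_or_ge n 2 with hn | hn
    · interval_cases n
      · exact e0
      · exact e1
    · exact h4 n hn
  apply eq_zero_of_co
  intro j n
  fin_cases j
  · exact h00 n
  · have := hb n
    rw [h00, ite_self] at this
    exact this
  · exact h2' n
  · have := hc n
    rw [h2', h44, ite_self, ite_self, sub_zero] at this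
    exact this
  · exact h44 n

theorem v10 : (![1, 0] : Fin 2 → ℂ) ≠ 0 := by
  intro h
  have := congrFun h 0
  simp at this

theorem ce_rank {k : ℕ} (hk : 1 ≤ k) : (ev (ce k).2 ![1, 0]).rank = 3 := by
  have h := ce_mem k ![1, 0] v10
  have h2 : (evp (ce k) ![1, 0]).2 = Ae k ![1, 0] := ce2 k _
  have h3 := rank_three h i024 ?_
  · exact h3
  · rw [h2]
    have hk' : k ≠ 0 := by omega
    rw [Matrix.det_fin_three]
    simp [Ae, i024, hk']

theorem cd_rank (m : ℕ) : (ev (cd m).2 ![1, 0]).rank = 3 := by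
  have h := cd_mem m ![1, 0] v10
  have h2 : (evp (cd m) ![1, 0]).2 = Ao m ![1, 0] := cd2 m _
  have h3 := rank_three h i024 ?_
  · exact h3
  · rw [h2]
    rw [Matrix.det_fin_three]
    simp [Ao, i024]

end EXKAux

open EXKAux in
theorem stEXK : StEXK := by
  intro k hk
  refine ⟨⟨ce k, ce_mem k, ⟨![1, 0], v10, ce_rank hk⟩, fun x hx h0 => ce_HH hk x hx h0⟩, ?_⟩
  obtain ⟨m, rfl⟩ : ∃ m, k = m + 1 := ⟨k - 1, by omega⟩
  refine ⟨cd m, cd_mem m, ⟨![1, 0], v10, cd_rank m⟩, ?_, fun x hx h0 => cd_TT x hx h0⟩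
  rw [blk0]
  unfold P0
  rw [Matrix.det_fin_three]
  simp

end MC
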