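import Pool.Agent.Lib.MC.Stmts

/-!
# Module FL: an irreducible polynomial with a root in two different quadratic extensions
-/

set_option autoImplicit false

namespace MC

namespace FLAux

open MvPolynomial

variable {K : Type} [Field K] [Algebra (MvPolynomial (Fin 11) ℂ) K]

/-- the variable as an element of the field -/
noncomputable abbrev tt (K : Type) [Field K] [Algebra (MvPolynomial (Fin 11) ℂ) K] (i : Fin 11) : K :=
  algebraMap (MvPolynomial (Fin 11) ℂ) K (X i)

/-- a polynomial of odd degree in one variable is not a square in the fraction field -/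
lemma not_sq [IsFractionRing (MvPolynomial (Fin 11) ℂ) K] (p : MvPolynomial (Fin 11) ℂ)
    (i : Fin 11) (hp : p.degreeOf i = 1) (z : K) (hz : z ^ 2 = algebraMap _ K p) : False := by
  obtain ⟨y, hy⟩ := IsIntegrallyClosed.exists_algebraMap_eq_of_isIntegral_pow
    (R := MvPolynomial (Fin 11) ℂ) (K := K) (x := z) (n := 2) (by norm_num)
    (by rw [hz]; exact isIntegral_algebraMap)
  have h1 : y ^ 2 = p := by
    apply IsFractionRing.injective (MvPolynomial (Fin 11) ℂ) K
    rw [map_pow, hy, hz]
  have hy0 : y ≠ 0 := by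
    rintro rfl
    rw [zero_pow (by norm_num)] at h1
    rw [← h1] at hp
    simp at hp
  have h2 := degreeOf_pow_eq i y 2 hy0
  rw [h1, hp] at h2
  omega

/-- the field is generated by the square root over the image -/
lemma decomp [IsFractionRing (MvPolynomial (Fin 11) ℂ) K] (i : Fin 11) (κ : K →+* K)
    (hκ : ∀ p : MvPolynomial (Fin 11) ℂ, κ (algebraMap _ K p) = algebraMap _ K
      (bind₁ (fun j => if j = i then (X i) ^ 2 else X j) p)) (x : K) :
    ∃ a b, x = κ a + tt K i * κ b := by
  have ht : κ (tt K i) = tt K i ^ 2 := by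
    rw [hκ, bind₁_X_right, if_pos rfl, map_pow]
  have hmul : ∀ x y : K, (∃ a b, x = κ a + tt K i * κ b) → (∃ a b, y = κ a + tt K i * κ b) →
      ∃ a b, x * y = κ a + tt K i * κ b := by
    rintro x y ⟨a, b, rfl⟩ ⟨c, e, rfl⟩
    refine ⟨a * c + tt K i * b * e, a * e + b * c, ?_⟩
    simp only [map_add, map_mul, ht]
    ring
  have hinv : ∀ x : K, (∃ a b, x = κ a + tt K i * κ b) → ∃ a b, x⁻¹ = κ a + tt K i * κ b := by
    rintro x ⟨a, b, rfl⟩
    by_cases h0 : κ a + tt K i * κ b = 0
    · exact ⟨0, 0, by rw [h0]; simp⟩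
    have hN : a ^ 2 - tt K i * b ^ 2 ≠ 0 := by
      intro h
      by_cases hb : b = 0
      · subst hb
        have ha : a = 0 := by
          have : a ^ 2 = 0 := by simpa using h
          exact pow_eq_zero_iff (by norm_num) |>.mp this
        subst ha
        exact h0 (by simp)
      · refine not_sq (K := K) (X i) i (degreeOf_X_self i) (a / b) ?_
        rw [div_pow, div_eq_iff (pow_ne_zero 2 hb)]
        exact sub_eq_zero.mp h
    refine ⟨a / (a ^ 2 - tt K i * b ^ 2), - b / (a ^ 2 - tt K i * b ^ 2), ?_⟩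
    have hN' : κ (a ^ 2 - tt K i * b ^ 2) ≠ 0 := (map_ne_zero κ).mpr hN
    rw [map_div₀, map_div₀, map_neg]
    field_simp
    simp only [map_sub, map_mul, map_pow, ht]
    ring
  have hpoly : ∀ p : MvPolynomial (Fin 11) ℂ, ∃ a b, algebraMap _ K p = κ a + tt K i * κ b := by
    intro p
    induction p using MvPolynomial.induction_on with
    | C c =>
      refine ⟨algebraMap (MvPolynomial (Fin 11) ℂ) K (C c), 0, ?_⟩
      rw [hκ, bind₁_C_right]
      simp
    | add p q hp hq =>
      obtain ⟨a, b, h⟩ := hp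
      obtain ⟨c, e, h'⟩ := hq
      refine ⟨a + c, b + e, ?_⟩
      rw [map_add, h, h', map_add, map_add]
      ring
    | mul_X p j hp =>
      rw [map_mul]
      refine hmul _ _ hp ?_
      by_cases hj : j = i
      · subst hj
        exact ⟨0, 1, by simp⟩
      · refine ⟨algebraMap (MvPolynomial (Fin 11) ℂ) K (X j), 0, ?_⟩
        rw [hκ, bind₁_X_right, if_neg hj]
        simp
  obtain ⟨p, q, -, rfl⟩ := IsFractionRing.div_surjective (A := MvPolynomial (Fin 11) ℂ) x
  rw [div_eq_mul_inv]
  exact hmul _ _ (hpoly p) (hinv _ (hpoly q))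

/-- the quadratic polynomial -/
noncomputable def qp (a c : K) : Polynomial K := (Polynomial.X - Polynomial.C a) ^ 2 - Polynomial.C c

omit [Algebra (MvPolynomial (Fin 11) ℂ) K] in
lemma qp_deg (a c : K) : (qp a c).natDegree = 2 := by
  unfold qp
  compute_degree!

omit [Algebra (MvPolynomial (Fin 11) ℂ) K] in
lemma qp_monic (a c : K) : (qp a c).Monic := by
  unfold qp
  monicity!

lemma dvd_qp [IsFractionRing (MvPolynomial (Fin 11) ℂ) K] (i : Fin 11) (κ : K →+* K)
    (hκ : ∀ p : MvPolynomial (Fin 11) ℂ, κ (algebraMap _ K p) = algebraMap _ K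
      (bind₁ (fun j => if j = i then (X i) ^ 2 else X j) p)) (P : Polynomial K)
    (hP : Irreducible P) (hx : ∃ x, (P.map κ).eval x = 0) :
    P.natDegree = 1 ∨ ∃ a b : K, b ≠ 0 ∧ P ∣ qp a (tt K i * b ^ 2) := by
  obtain ⟨x, hx⟩ := hx
  obtain ⟨a, b, rfl⟩ := decomp i κ hκ x
  have ht : κ (tt K i) = tt K i ^ 2 := by
    rw [hκ, bind₁_X_right, if_pos rfl, map_pow]
  by_cases hb : b = 0
  · left
    subst hb
    have h1 : P.eval a = 0 := by
      apply κ.injective
      rw [map_zero, ← Polynomial.eval_map_apply]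
      simpa using hx
    exact Polynomial.natDegree_eq_of_degree_eq_some
      (Polynomial.degree_eq_one_of_irreducible_of_root hP h1)
  · right
    refine ⟨a, b, hb, ?_⟩
    by_contra hnd
    have hcop : IsCoprime P (qp a (tt K i * b ^ 2)) :=
      (hP.coprime_iff_not_dvd).mpr hnd
    obtain ⟨u, v, huv⟩ := hcop
    have h2 := congrArg (fun Q : Polynomial K => (Q.map κ).eval (κ a + tt K i * κ b)) huv
    simp only [Polynomial.map_add, Polynomial.map_mul, Polynomial.eval_add, Polynomial.eval_mul,
      hx, Polynomial.map_one, Polynomial.eval_one, mul_zero, zero_add, qp, Polynomial.map_sub,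
      Polynomial.map_pow, Polynomial.map_X, Polynomial.map_C, Polynomial.eval_sub,
      Polynomial.eval_pow, Polynomial.eval_X, Polynomial.eval_C, map_mul, map_pow, ht] at h2
    have h3 : (κ a + tt K i * κ b - κ a) ^ 2 - tt K i ^ 2 * κ b ^ 2 = 0 := by ring
    rw [h3, mul_zero] at h2
    exact zero_ne_one h2

end FLAux

open FLAux in
theorem stFL : StFL := by
  intro K _ _ _ κ₁ κ₂ h₁ h₂ P hP hx₁ hx₂
  rcases dvd_qp 9 κ₁ h₁ P hP hx₁ with h | ⟨a, b, hb, hd⟩
  · exact h
  rcases dvd_qp 10 κ₂ h₂ P hP hx₂ with h | ⟨a', b', hb', hd'⟩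
  · exact h
  by_contra hne
  have hP0 : P ≠ 0 := hP.ne_zero
  have hpos : 0 < P.natDegree := hP.natDegree_pos
  have hle : P.natDegree ≤ 2 := by
    rw [← qp_deg a (tt K 9 * b ^ 2)]
    exact Polynomial.natDegree_le_of_dvd hd (qp_monic _ _).ne_zero
  have h2 : P.natDegree = 2 := by omega
  -- both polynomials are the normalised P
  have key : ∀ c d : K, P ∣ qp c d → qp c d = P * Polynomial.C (P.leadingCoeff)⁻¹ := by
    intro c d hcd
    obtain ⟨s, hs⟩ := hcd
    have hs0 : s ≠ 0 := by
      rintro rfl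
      rw [mul_zero] at hs
      exact (qp_monic c d).ne_zero hs
    have hdeg := congrArg Polynomial.natDegree hs
    rw [qp_deg, Polynomial.natDegree_mul hP0 hs0, h2] at hdeg
    have hs1 : s.natDegree = 0 := by omega
    obtain ⟨e, rfl⟩ := Polynomial.natDegree_eq_zero.mp hs1
    have hlc := congrArg Polynomial.leadingCoeff hs
    rw [(qp_monic c d).leadingCoeff, Polynomial.leadingCoeff_mul, Polynomial.leadingCoeff_C] at hlc
    rw [hs, eq_inv_of_mul_eq_one_right hlc.symm]
  have heq : qp a (tt K 9 * b ^ 2) = qp a' (tt K 10 * b' ^ 2) := by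
    rw [key _ _ hd, key _ _ hd']
  have hchar : (2 : K) ≠ 0 := by
    intro h
    have h0 : (algebraMap (MvPolynomial (Fin 11) ℂ) K) 2 = 0 := by
      rw [map_ofNat]
      exact h
    rw [map_eq_zero_iff _ (IsFractionRing.injective (MvPolynomial (Fin 11) ℂ) K)] at h0
    exact two_ne_zero h0
  have he0 := congrArg (Polynomial.eval 0) heq
  have he1 := congrArg (Polynomial.eval 1) heq
  simp only [qp, Polynomial.eval_sub, Polynomial.eval_pow, Polynomial.eval_X,
    Polynomial.eval_C] at he0 he1
  have haa : a = a' := by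
    have : (2 : K) * (a - a') = 0 := by linear_combination he0 - he1
    rcases mul_eq_zero.mp this with h | h
    · exact absurd h hchar
    · exact sub_eq_zero.mp h
  subst haa
  have hbb : tt K 9 * b ^ 2 = tt K 10 * b' ^ 2 := by linear_combination - he0
  -- X 9 * X 10 is a square
  refine not_sq (K := K) (MvPolynomial.X 9 * MvPolynomial.X 10) 9 ?_ (tt K 10 * b' / b) ?_
  · rw [MvPolynomial.degreeOf_mul_eq (MvPolynomial.X_ne_zero _) (MvPolynomial.X_ne_zero _),
      MvPolynomial.degreeOf_X_self, MvPolynomial.degreeOf_X_of_ne (by decide)]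
  · rw [div_pow, div_eq_iff (pow_ne_zero 2 hb), map_mul]
    change (tt K 10 * b') ^ 2 = tt K 9 * tt K 10 * b ^ 2
    linear_combination - tt K 10 * hbb

end MC
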