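import Mathlib

set_option autoImplicit false

/-!
# Points of a variety with prescribed algebraically independent coordinates

Commutative algebra for the module GF: extension of homomorphisms to `ℂ` from a polynomial ring to a
domain of finite type over `ℂ`.
-/

noncomputable section

namespace MC

open Algebra

/-- A point of an algebra of finite type over `ℂ` which lies over a proper ideal. -/
theorem exists_point {B : Type} [CommRing B] [Algebra ℂ B] [Algebra.FiniteType ℂ B]
    (J : Ideal B) (hJ : J ≠ ⊤) : ∃ ψ : B →ₐ[ℂ] ℂ, ∀ b ∈ J, ψ b = 0 := by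
  obtain ⟨m, hm, hJm⟩ := Ideal.exists_le_maximal J hJ
  have := hm
  let _ : Field (B ⧸ m) := Ideal.Quotient.field m
  have : Algebra.FiniteType ℂ (B ⧸ m) :=
    Algebra.FiniteType.of_surjective (Ideal.Quotient.mkₐ ℂ m) Ideal.Quotient.mk_surjective
  have : Module.Finite ℂ (B ⧸ m) := finite_of_finite_type_of_isJacobsonRing ℂ (B ⧸ m)
  have hbij : Function.Bijective (algebraMap ℂ (B ⧸ m)) :=
    IsAlgClosed.algebraMap_bijective_of_isIntegral
  let e : ℂ ≃ₐ[ℂ] (B ⧸ m) := AlgEquiv.ofBijective (Algebra.ofId ℂ (B ⧸ m)) hbij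
  refine ⟨(e.symm : (B ⧸ m) →ₐ[ℂ] ℂ).comp (Ideal.Quotient.mkₐ ℂ m), fun b hb => ?_⟩
  have h0 : Ideal.Quotient.mkₐ ℂ m b = 0 := Ideal.Quotient.eq_zero_iff_mem.mpr (hJm hb)
  rw [AlgHom.comp_apply, h0, map_zero]

/-- Extension of a homomorphism from `A` to the algebraic domain of finite type `B ⊇ A`, away from
`y`. -/
theorem exists_extension {B : Type} [CommRing B] [IsDomain B] [Algebra ℂ B]
    [Algebra.FiniteType ℂ B] (A : Subalgebra ℂ B) [Algebra.IsAlgebraic A B] :
    ∃ y : A, y ≠ 0 ∧ ∀ φ : A →ₐ[ℂ] ℂ, φ y ≠ 0 → ∃ ψ : B →ₐ[ℂ] ℂ, ∀ a : A, ψ a = φ a := by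
  obtain ⟨G, hG⟩ := (Algebra.FiniteType.out : (⊤ : Subalgebra ℂ B).FG)
  obtain ⟨y, hy0, hy⟩ := Algebra.IsAlgebraic.exists_integral_multiples A G
  refine ⟨y, hy0, fun φ hφ => ?_⟩
  -- every element of `B` is in `C` after multiplication by a power of `y`
  have hC : ∀ b : B, ∃ n : ℕ, (y : B) ^ n * b ∈ integralClosure A B := by
    intro b
    have hb : b ∈ Algebra.adjoin ℂ (G : Set B) := by rw [hG]; trivial
    induction hb using Algebra.adjoin_induction with
    | mem g hg =>
      refine ⟨1, ?_⟩
      have := hy g hg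
      rw [pow_one]
      exact this
    | algebraMap r =>
      refine ⟨0, ?_⟩
      rw [pow_zero, one_mul, IsScalarTower.algebraMap_apply ℂ A B]
      exact Subalgebra.algebraMap_mem _ _
    | add b b' _ _ h h' =>
      obtain ⟨n, hn⟩ := h
      obtain ⟨n', hn'⟩ := h'
      refine ⟨n + n', ?_⟩
      have hyC : (y : B) ∈ integralClosure A B := Subalgebra.algebraMap_mem _ y
      have e : (y : B) ^ (n + n') * (b + b') =
        (y : B) ^ n' * ((y : B) ^ n * b) + (y : B) ^ n * ((y : B) ^ n' * b') := by ring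
      rw [e]
      exact add_mem (mul_mem (pow_mem hyC _) hn) (mul_mem (pow_mem hyC _) hn')
    | mul b b' _ _ h h' =>
      obtain ⟨n, hn⟩ := h
      obtain ⟨n', hn'⟩ := h'
      refine ⟨n + n', ?_⟩
      have e : (y : B) ^ (n + n') * (b * b') = ((y : B) ^ n * b) * ((y : B) ^ n' * b') := by ring
      rw [e]
      exact mul_mem hn hn'
  -- the ideal generated by the kernel of `φ` is proper
  set p : Ideal A := RingHom.ker φ with hp
  have : p.IsPrime := RingHom.ker_isPrime _
  let C := integralClosure A B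
  have hproper : p.map (algebraMap A B) ≠ ⊤ := by
    intro htop
    have h1 : (1 : B) ∈ p.map (algebraMap A B) := by rw [htop]; trivial
    have key : ∀ b ∈ p.map (algebraMap A B), ∃ n : ℕ, ∃ c ∈ p.map (algebraMap A C),
        (c : B) = (y : B) ^ n * b := by
      intro b hb
      rw [Ideal.map] at hb
      induction hb using Submodule.span_induction with
      | mem b hb =>
        obtain ⟨a, ha, rfl⟩ := hb
        exact ⟨0, algebraMap A C a, Ideal.mem_map_of_mem _ ha, by rw [pow_zero, one_mul]; rfl⟩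
      | zero => exact ⟨0, 0, zero_mem _, by simp⟩
      | add b b' _ _ h h' =>
        obtain ⟨n, c, hc, e⟩ := h
        obtain ⟨n', c', hc', e'⟩ := h'
        refine ⟨n + n', algebraMap A C y ^ n' * c + algebraMap A C y ^ n * c',
          add_mem (Ideal.mul_mem_left _ _ hc) (Ideal.mul_mem_left _ _ hc'), ?_⟩
        have h3 : ((algebraMap A C y ^ n' * c + algebraMap A C y ^ n * c' : C) : B) =
          (y : B) ^ n' * c + (y : B) ^ n * c' := rfl
        rw [h3, e, e']
        ring
      | smul s b _ h =>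
        obtain ⟨n, c, hc, e⟩ := h
        obtain ⟨m, hm⟩ := hC s
        refine ⟨n + m, ⟨_, hm⟩ * c, Ideal.mul_mem_left _ _ hc, ?_⟩
        have h3 : ((⟨_, hm⟩ * c : C) : B) = ((y : B) ^ m * s) * c := rfl
        rw [h3, e, smul_eq_mul]
        ring
    obtain ⟨n, c, hc, e⟩ := key 1 h1
    rw [mul_one] at e
    obtain ⟨Q, hQ, hQp⟩ := Ideal.exists_ideal_over_prime_of_isIntegral_of_isDomain (S := C) p
      (by
        intro a ha
        have ha' : algebraMap A C a = 0 := ha
        have : (a : B) = 0 := congrArg (Subtype.val) ha'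
        have : a = 0 := Subtype.ext this
        rw [this]; exact zero_mem _)
    have hcQ : c ∈ Q := by
      have hle : p.map (algebraMap A C) ≤ Q := by
        rw [Ideal.map_le_iff_le_comap, hQp]
      exact hle hc
    have hc' : c = algebraMap A C (y ^ n) := by
      apply Subtype.ext
      rw [e]
      have : ((algebraMap A C (y ^ n) : C) : B) = ((y ^ n : A) : B) := rfl
      rw [this]; rfl
    rw [hc', ← Ideal.mem_comap, hQp] at hcQ
    have : φ (y ^ n) = 0 := hcQ
    rw [map_pow] at this
    exact hφ (eq_zero_of_pow_eq_zero this)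
  obtain ⟨ψ, hψ⟩ := exists_point _ hproper
  refine ⟨ψ, fun a => ?_⟩
  have h1 : a - algebraMap ℂ A (φ a) ∈ p := by
    rw [hp, RingHom.mem_ker, map_sub, AlgHom.commutes]
    simp
  have h2 := hψ _ (Ideal.mem_map_of_mem (algebraMap A B) h1)
  have h3 : algebraMap A B (a - algebraMap ℂ A (φ a)) = (a : B) - algebraMap ℂ B (φ a) := by
    rw [map_sub]; rfl
  rw [h3, map_sub, AlgHom.commutes, sub_eq_zero] at h2
  exact h2

/-- If the functions `t i` and `z` on the affine variety with coordinate ring `B` are algebraically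
independent then there is a fibre of `t` on which `z` takes infinitely many values. -/
theorem exists_points {B : Type} [CommRing B] [IsDomain B] [Algebra ℂ B]
    [Algebra.FiniteType ℂ B] {ι : Type} (t : ι → B) (z : B)
    (hind : AlgebraicIndependent ℂ (fun o : Option ι => o.elim z t)) :
    ∃ τ : ι → ℂ, ∀ F : Finset ℂ, ∃ ζ ∉ F, ∃ ψ : B →ₐ[ℂ] ℂ, (∀ i, ψ (t i) = τ i) ∧ ψ z = ζ := by
  classical
  have hs : AlgebraicIndepOn ℂ id (Set.range (fun o : Option ι => o.elim z t)) := hind.coe_range
  have : Algebra.IsAlgebraic (Algebra.adjoin ℂ (Set.univ : Set B)) B := by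
    refine ⟨fun b => ?_⟩
    have hb : b ∈ Algebra.adjoin ℂ (Set.univ : Set B) := Algebra.subset_adjoin trivial
    exact isAlgebraic_algebraMap (⟨b, hb⟩ : Algebra.adjoin ℂ (Set.univ : Set B))
  obtain ⟨u, hsu, -, hu⟩ := exists_isTranscendenceBasis_between (R := ℂ)
    (Set.range (fun o : Option ι => o.elim z t)) (Set.univ : Set B) (Set.subset_univ _) hs
  have : Algebra.IsAlgebraic (Algebra.adjoin ℂ (Set.range ((↑) : u → B))) B := hu.isAlgebraic
  obtain ⟨y, hy0, hy⟩ := exists_extension (Algebra.adjoin ℂ (Set.range ((↑) : u → B)))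
  let e := hu.1.aevalEquiv
  set Y : MvPolynomial u ℂ := e.symm y with hY
  have hY0 : Y ≠ 0 := by
    rw [hY]
    simpa using hy0
  obtain ⟨v, hv⟩ : ∃ v : u → ℂ, MvPolynomial.eval v Y ≠ 0 := by
    by_contra hcon
    push Not at hcon
    exact hY0 (MvPolynomial.funext fun v => by simpa using hcon v)
  let zu : u := ⟨z, hsu ⟨none, rfl⟩⟩
  let tu : ι → u := fun i => ⟨t i, hsu ⟨some i, rfl⟩⟩
  have htz : ∀ i, tu i ≠ zu := by
    intro i h
    have h1 : t i = z := congrArg Subtype.val h
    have h2 := hind.injective (a₁ := some i) (a₂ := none) h1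
    exact absurd h2 (by simp)
  refine ⟨fun i => v (tu i), fun F => ?_⟩
  -- the polynomial in one variable
  let q : Polynomial ℂ := MvPolynomial.aeval
    (fun w : u => if w = zu then Polynomial.X else Polynomial.C (v w)) Y
  have hq : ∀ x : ℂ, q.eval x = MvPolynomial.eval (Function.update v zu x) Y := by
    intro x
    have : (Polynomial.aeval x : Polynomial ℂ →ₐ[ℂ] ℂ).comp (MvPolynomial.aeval
        (fun w : u => if w = zu then Polynomial.X else Polynomial.C (v w))) =
        MvPolynomial.aeval (Function.update v zu x) := by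
      apply MvPolynomial.algHom_ext
      intro w
      by_cases hw : w = zu
      · subst hw; simp
      · simp [hw, Function.update_of_ne hw]
    have h := congrArg (fun f => f Y) this
    simpa [q, Polynomial.aeval_def, Polynomial.eval₂_eq_eval_map, MvPolynomial.aeval_eq_eval]
      using h
  have hq0 : q ≠ 0 := by
    intro h
    apply hv
    have := hq (v zu)
    rw [h, Polynomial.eval_zero, Function.update_eq_self] at this
    exact this.symm
  obtain ⟨ζ, hζ⟩ : ∃ ζ : ℂ, ζ ∉ F ∪ q.roots.toFinset := Infinite.exists_notMem_finset _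
  rw [Finset.mem_union, not_or] at hζ
  refine ⟨ζ, hζ.1, ?_⟩
  have hqζ : q.eval ζ ≠ 0 := by
    intro h
    apply hζ.2
    rw [Multiset.mem_toFinset, Polynomial.mem_roots hq0]
    exact h
  let φ : Algebra.adjoin ℂ (Set.range ((↑) : u → B)) →ₐ[ℂ] ℂ :=
    (MvPolynomial.aeval (Function.update v zu ζ)).comp
      (e.symm : Algebra.adjoin ℂ (Set.range ((↑) : u → B)) →ₐ[ℂ] MvPolynomial u ℂ)
  have hφ : φ y ≠ 0 := by
    have : φ y = MvPolynomial.eval (Function.update v zu ζ) Y := by
      simp [φ, hY, MvPolynomial.aeval_eq_eval]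
    rw [this, ← hq]
    exact hqζ
  obtain ⟨ψ, hψ⟩ := hy φ hφ
  have hval : ∀ w : u, ψ (w : B) = Function.update v zu ζ w := by
    intro w
    have hw : (w : B) ∈ Algebra.adjoin ℂ (Set.range ((↑) : u → B)) :=
      Algebra.subset_adjoin ⟨w, rfl⟩
    have h1 := hψ ⟨w, hw⟩
    have h2 : e (MvPolynomial.X w) = ⟨w, hw⟩ := by
      apply Subtype.ext
      simp [e]
    have h3 : φ ⟨w, hw⟩ = Function.update v zu ζ w := by
      simp only [φ, AlgHom.comp_apply]
      rw [← h2]
      simp
    rw [← h3, ← h1]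
  refine ⟨ψ, fun i => ?_, ?_⟩
  · have := hval (tu i)
    rw [Function.update_of_ne (htz i)] at this
    exact this
  · have := hval zu
    rw [Function.update_self] at this
    exact this

end MC
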