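import Pool.Agent.Lib.MC.Defs
import Pool.Agent.Lib.MC.GenPt

set_option autoImplicit false

/-!
# The affine pieces of a projective variety

Either the functions `T i / u ^ 2` and `Z / u ^ 2` on the open set `u ≠ 0` of the variety `Y` satisfy
a polynomial equation or there is a fibre of `(T i / u ^ 2)` on which `Z / u ^ 2` takes infinitely many
values.
-/

noncomputable section

namespace MC

namespace GFaux

section

variable {N : ℕ}

/-- polynomial functions on `ℂⁿ` are polynomials -/
theorem poly_eval {n : ℕ} {f : (Fin n → ℂ) → ℂ} (hf : f ∈ Poly (Fin n → ℂ)) :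
    ∃ p : MvPolynomial (Fin n) ℂ, ∀ v, f v = MvPolynomial.eval v p := by
  unfold Poly at hf
  induction hf using Algebra.adjoin_induction with
  | mem f hf =>
    obtain ⟨φ, rfl⟩ := hf
    refine ⟨∑ i, MvPolynomial.C (φ (Pi.single i 1)) * MvPolynomial.X i, fun v => ?_⟩
    simp only [map_sum, map_mul, MvPolynomial.eval_C, MvPolynomial.eval_X]
    rw [LinearMap.pi_apply_eq_sum_univ φ v]
    refine Finset.sum_congr rfl fun i _ => ?_
    rw [smul_eq_mul, mul_comm]
    congr 2
    funext j
    rw [Pi.single_apply]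
    by_cases h : i = j
    · simp [h]
    · simp [h, Ne.symm h]
  | algebraMap r => exact ⟨MvPolynomial.C r, fun v => by simp⟩
  | add f g _ _ h h' =>
    obtain ⟨p, hp⟩ := h
    obtain ⟨q, hq⟩ := h'
    exact ⟨p + q, fun v => by simp [hp, hq]⟩
  | mul f g _ _ h h' =>
    obtain ⟨p, hp⟩ := h
    obtain ⟨q, hq⟩ := h'
    exact ⟨p * q, fun v => by simp [hp, hq]⟩

/-- polynomials are polynomial functions -/
theorem eval_poly {n : ℕ} (p : MvPolynomial (Fin n) ℂ) :
    (fun v => MvPolynomial.eval v p) ∈ Poly (Fin n → ℂ) := by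
  induction p using MvPolynomial.induction_on with
  | C a =>
    simp only [MvPolynomial.eval_C]
    exact (Poly (Fin n → ℂ)).algebraMap_mem a
  | add p q hp hq =>
    simp only [map_add]
    exact (Poly (Fin n → ℂ)).add_mem hp hq
  | mul_X p i hp =>
    have hX : (fun v : Fin n → ℂ => v i) ∈ Poly (Fin n → ℂ) :=
      Algebra.subset_adjoin ⟨LinearMap.proj i, rfl⟩
    simp only [map_mul, MvPolynomial.eval_X]
    exact (Poly (Fin n → ℂ)).mul_mem hp hX

/-- the ideal of a variety -/
def van (Y : PVar N) : Ideal (MvPolynomial (Fin (N + 1)) ℂ) where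
  carrier := {p | ∀ y ∈ Y.pts, MvPolynomial.eval y p = 0}
  add_mem' := fun {a b} ha hb y hy => by rw [map_add, ha y hy, hb y hy, add_zero]
  zero_mem' := fun y _ => by rw [map_zero]
  smul_mem' := fun c a ha y hy => by rw [smul_eq_mul, map_mul, ha y hy, mul_zero]

theorem mem_van {Y : PVar N} {p : MvPolynomial (Fin (N + 1)) ℂ} :
    p ∈ van Y ↔ ∀ y ∈ Y.pts, MvPolynomial.eval y p = 0 := Iff.rfl

theorem van_prime (Y : PVar N) : (van Y).IsPrime := by
  refine ⟨?_, fun {p q} hpq => ?_⟩
  · intro h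
    obtain ⟨y, hy⟩ := Y.irr.1
    have h1 : (1 : MvPolynomial (Fin (N + 1)) ℂ) ∈ van Y := by rw [h]; trivial
    have := h1 y hy
    rw [map_one] at this
    exact one_ne_zero this
  · by_contra hcon
    rw [not_or] at hcon
    have h1 : ∃ y ∈ Y.pts, MvPolynomial.eval y p ≠ 0 := by
      by_contra h; push Not at h; exact hcon.1 h
    have h2 : ∃ y ∈ Y.pts, MvPolynomial.eval y q ≠ 0 := by
      by_contra h; push Not at h; exact hcon.2 h
    obtain ⟨y, hy, hy1, hy2⟩ := Y.irr.2 _ (eval_poly p) _ (eval_poly q) h1 h2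
    have := hpq y hy
    rw [map_mul] at this
    exact mul_ne_zero hy1 hy2 this

theorem pieces (Y : PVar N) (u : MvPolynomial (Fin (N + 1)) ℂ)
    (hu : ∃ y ∈ Y.pts, MvPolynomial.eval y u ≠ 0)
    (hu0 : ∀ v, MvPolynomial.eval v u ≠ 0 → v ≠ 0) {ι : Type}
    (T : ι → MvPolynomial (Fin (N + 1)) ℂ) (Z : MvPolynomial (Fin (N + 1)) ℂ) :
    (∃ H : MvPolynomial (Option ι) ℂ, H ≠ 0 ∧ ∀ y ∈ Y.pts, MvPolynomial.eval y u ≠ 0 →
      MvPolynomial.eval (fun o : Option ι => o.elim
        (MvPolynomial.eval y Z / (MvPolynomial.eval y u) ^ 2)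
        (fun i => MvPolynomial.eval y (T i) / (MvPolynomial.eval y u) ^ 2)) H = 0) ∨
    (∃ τ : ι → ℂ, ∀ F : Finset ℂ, ∃ ζ ∉ F, ∃ y ∈ Y.pts, MvPolynomial.eval y u ≠ 0 ∧
      (∀ i, MvPolynomial.eval y (T i) / (MvPolynomial.eval y u) ^ 2 = τ i) ∧
      MvPolynomial.eval y Z / (MvPolynomial.eval y u) ^ 2 = ζ) := by
  have hprime := van_prime Y
  let R := MvPolynomial (Fin (N + 1)) ℂ ⧸ van Y
  let ub : R := Ideal.Quotient.mk (van Y) u
  have hub : ub ≠ 0 := by
    intro h
    obtain ⟨y, hy, hy1⟩ := hu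
    exact hy1 ((Ideal.Quotient.eq_zero_iff_mem.mp h) y hy)
  let B := Localization.Away ub
  have hdom : IsDomain B := IsLocalization.isDomain_localization
    (powers_le_nonZeroDivisors_of_noZeroDivisors hub)
  have hft : Algebra.FiniteType ℂ R :=
    Algebra.FiniteType.of_surjective (Ideal.Quotient.mkₐ ℂ (van Y)) Ideal.Quotient.mk_surjective
  have hft2 : Algebra.FiniteType R B :=
    IsLocalization.finiteType_of_monoid_fg (Submonoid.powers ub) B
  have hft3 : Algebra.FiniteType ℂ B := Algebra.FiniteType.trans hft hft2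
  let inv : B := IsLocalization.Away.invSelf ub
  have hinv : algebraMap R B ub * inv = 1 := IsLocalization.Away.mul_invSelf ub
  let q : MvPolynomial (Fin (N + 1)) ℂ → B := fun p => algebraMap R B (Ideal.Quotient.mk (van Y) p)
  let t : ι → B := fun i => q (T i) * inv ^ 2
  let z : B := q Z * inv ^ 2
  by_cases hind : AlgebraicIndependent ℂ (fun o : Option ι => o.elim z t)
  · right
    obtain ⟨τ, hτ⟩ := exists_points t z hind
    refine ⟨τ, fun F => ?_⟩
    obtain ⟨ζ, hζ, ψ, hψt, hψz⟩ := hτ F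
    let y : Fin (N + 1) → ℂ := fun i => ψ (q (MvPolynomial.X i))
    have hy : ∀ p, ψ (q p) = MvPolynomial.eval y p := by
      intro p
      have : (ψ.comp ((IsScalarTower.toAlgHom ℂ R B).comp (Ideal.Quotient.mkₐ ℂ (van Y)))) =
          MvPolynomial.aeval y := by
        apply MvPolynomial.algHom_ext
        intro i
        rw [MvPolynomial.aeval_X]
        rfl
      have h := congrArg (fun f => f p) this
      simp only [MvPolynomial.aeval_eq_eval] at h
      exact h
    have huy : MvPolynomial.eval y u * ψ inv = 1 := by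
      rw [← hy u, ← map_mul, hinv, map_one]
    have hu1 : MvPolynomial.eval y u ≠ 0 := left_ne_zero_of_mul_eq_one huy
    have hinv' : ψ inv = (MvPolynomial.eval y u)⁻¹ := by
      exact eq_inv_of_mul_eq_one_right huy
    have hval : ∀ p, ψ (q p * inv ^ 2) = MvPolynomial.eval y p / (MvPolynomial.eval y u) ^ 2 := by
      intro p
      rw [map_mul, map_pow, hy, hinv', inv_pow, div_eq_mul_inv]
    refine ⟨ζ, hζ, y, ?_, hu1, fun i => ?_, ?_⟩
    · obtain ⟨J, hJ, hJ'⟩ := Y.closed
      rw [hJ']
      refine ⟨hu0 y hu1, fun f hf => ?_⟩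
      obtain ⟨p, hp⟩ := poly_eval (hJ f hf)
      rw [hp y, ← hy p]
      have : Ideal.Quotient.mk (van Y) p = 0 := by
        rw [Ideal.Quotient.eq_zero_iff_mem]
        intro y' hy'
        rw [← hp y']
        exact ((hJ' y').1 hy').2 f hf
      simp [q, this]
    · rw [← hval, hψt]
    · rw [← hval, ← hψz]
  · left
    rw [algebraicIndependent_iff] at hind
    push Not at hind
    obtain ⟨H, hH, hH0⟩ := hind
    refine ⟨H, hH0, fun y hy huy => ?_⟩
    -- evaluation at `y`
    let ev1 : R →+* ℂ := Ideal.Quotient.lift (van Y) (MvPolynomial.eval y) (fun p hp => hp y hy)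
    have hev1 : ∀ p, ev1 (Ideal.Quotient.mk (van Y) p) = MvPolynomial.eval y p := fun p => rfl
    have hunit : IsUnit (ev1 ub) := by
      rw [isUnit_iff_ne_zero]
      exact huy
    let ev2 : B →+* ℂ := IsLocalization.Away.lift ub hunit
    have hev2 : ∀ p, ev2 (q p) = MvPolynomial.eval y p := by
      intro p
      rw [← hev1 p]
      exact IsLocalization.Away.lift_eq ub hunit _
    have hi : MvPolynomial.eval y u * ev2 inv = 1 := by
      rw [← hev2 u, ← map_mul, hinv, map_one]
    have hinv' : ev2 inv = (MvPolynomial.eval y u)⁻¹ := by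
      exact eq_inv_of_mul_eq_one_right hi
    have hval : ∀ p, ev2 (q p * inv ^ 2) = MvPolynomial.eval y p / (MvPolynomial.eval y u) ^ 2 := by
      intro p
      rw [map_mul, map_pow, hev2, hinv', inv_pow, div_eq_mul_inv]
    have h0 := congrArg ev2 hH
    rw [map_zero, MvPolynomial.aeval_def, MvPolynomial.hom_eval₂] at h0
    have hc : ev2.comp (algebraMap ℂ B) = RingHom.id ℂ := by
      ext c
      have : algebraMap ℂ B c = q (MvPolynomial.C c) := rfl
      rw [RingHom.comp_apply, this, hev2]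
      simp
    rw [hc] at h0
    have hfun : (⇑ev2 ∘ fun o : Option ι => o.elim z t) = fun o : Option ι => o.elim
        (MvPolynomial.eval y Z / (MvPolynomial.eval y u) ^ 2)
        (fun i => MvPolynomial.eval y (T i) / (MvPolynomial.eval y u) ^ 2) := by
      funext o
      cases o with
      | none => exact hval Z
      | some i => exact hval (T i)
    rw [← MvPolynomial.eval₂_id, ← hfun]
    exact h0

end

end GFaux

end MC
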