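import Pool.Agent.Lib.MC.Stmts
import Pool.Agent.Lib.MC.GFa

set_option autoImplicit false

/-!
# Module GF: rational functions on generically finite covers are algebraic over `ℂ(X)`
-/

noncomputable section

namespace MC

open Matrix

namespace GFaux

/-! ### Polynomial functions -/

section

variable {V : Type} [AddCommGroup V] [Module ℂ V]

theorem poly_const (c : ℂ) : (fun _ : V => c) ∈ Poly V := (Poly V).algebraMap_mem c

theorem poly_add {f g : V → ℂ} (hf : f ∈ Poly V) (hg : g ∈ Poly V) :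
    (fun v => f v + g v) ∈ Poly V := (Poly V).add_mem hf hg

theorem poly_sub {f g : V → ℂ} (hf : f ∈ Poly V) (hg : g ∈ Poly V) :
    (fun v => f v - g v) ∈ Poly V := (Poly V).sub_mem hf hg

theorem poly_mul {f g : V → ℂ} (hf : f ∈ Poly V) (hg : g ∈ Poly V) :
    (fun v => f v * g v) ∈ Poly V := (Poly V).mul_mem hf hg

theorem poly_pow {f : V → ℂ} (hf : f ∈ Poly V) (n : ℕ) : (fun v => f v ^ n) ∈ Poly V :=
  (Poly V).pow_mem hf n

theorem poly_sum {ι : Type} (s : Finset ι) {f : ι → V → ℂ} (hf : ∀ i ∈ s, f i ∈ Poly V) :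
    (fun v => ∑ i ∈ s, f i v) ∈ Poly V := by
  have h := (Poly V).sum_mem hf
  have e : (∑ i ∈ s, f i) = fun v => ∑ i ∈ s, f i v := by
    funext v
    simp
  rwa [e] at h

theorem poly_lin (φ : V →ₗ[ℂ] ℂ) : (fun v => φ v) ∈ Poly V := Algebra.subset_adjoin ⟨φ, rfl⟩

theorem poly_comp {W : Type} [AddCommGroup W] [Module ℂ W] {F : V → W} (hF : PolyMap F) {f : W → ℂ}
    (hf : f ∈ Poly W) : (fun v => f (F v)) ∈ Poly V := by
  unfold Poly at hf
  induction hf using Algebra.adjoin_induction with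
  | mem f hf => obtain ⟨φ, rfl⟩ := hf; exact hF φ
  | algebraMap r => exact poly_const r
  | add f g _ _ h h' => exact poly_add h h'
  | mul f g _ _ h h' => exact poly_mul h h'

end

/-- coordinates -/
theorem poly_coord {n : ℕ} (i : Fin n) : (fun v : Fin n → ℂ => v i) ∈ Poly (Fin n → ℂ) :=
  Algebra.subset_adjoin ⟨LinearMap.proj i, rfl⟩

theorem poly_fst (i j : Fin 5) : (fun x : M5 × M5 => x.1 i j) ∈ Poly (M5 × M5) := by
  let φ : (M5 × M5) →ₗ[ℂ] ℂ :=
    { toFun := fun x => x.1 i j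
      map_add' := fun _ _ => rfl
      map_smul' := fun _ _ => rfl }
  exact Algebra.subset_adjoin ⟨φ, rfl⟩

theorem poly_snd (i j : Fin 5) : (fun x : M5 × M5 => x.2 i j) ∈ Poly (M5 × M5) := by
  let φ : (M5 × M5) →ₗ[ℂ] ℂ :=
    { toFun := fun x => x.2 i j
      map_add' := fun _ _ => rfl
      map_smul' := fun _ _ => rfl }
  exact Algebra.subset_adjoin ⟨φ, rfl⟩

/-! ### The coordinates `nu` -/

theorem poly_D2 : (fun x : M5 × M5 => D2 x.2) ∈ Poly (M5 × M5) :=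
  poly_sub (poly_mul (poly_snd 0 0) (poly_snd 1 1)) (poly_mul (poly_snd 0 1) (poly_snd 1 0))

theorem poly_m3 (i : Fin 5) : (fun x : M5 × M5 => m3 x.2 i) ∈ Poly (M5 × M5) := by
  unfold m3
  simp only [Matrix.det_fin_three]
  simp only [Matrix.of_apply, Matrix.cons_val', Matrix.cons_val_zero, Matrix.cons_val_one,
    Matrix.cons_val_fin_one, Matrix.cons_val]
  exact poly_sub (poly_add (poly_add (poly_sub (poly_sub
    (poly_mul (poly_mul (poly_snd _ _) (poly_snd _ _)) (poly_snd _ _))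
    (poly_mul (poly_mul (poly_snd _ _) (poly_snd _ _)) (poly_snd _ _)))
    (poly_mul (poly_mul (poly_snd _ _) (poly_snd _ _)) (poly_snd _ _)))
    (poly_mul (poly_mul (poly_snd _ _) (poly_snd _ _)) (poly_snd _ _)))
    (poly_mul (poly_mul (poly_snd _ _) (poly_snd _ _)) (poly_snd _ _)))
    (poly_mul (poly_mul (poly_snd _ _) (poly_snd _ _)) (poly_snd _ _))

theorem poly_dn : (fun x : M5 × M5 => dn x.2) ∈ Poly (M5 × M5) :=
  poly_mul (poly_mul (poly_snd 0 0) poly_D2) (poly_m3 2)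

/-- numerators of the coordinates, for the common denominator `dn ^ 2` -/
def Nn (A : M5) : Fin 11 → ℂ :=
  ![A 1 0 * (D2 A * m3 A 2) * dn A, A 2 0 * (D2 A * m3 A 2) * dn A,
    A 3 0 * (D2 A * m3 A 2) * dn A, A 4 0 * (D2 A * m3 A 2) * dn A,
    (A 0 0 * A 2 1 - A 0 1 * A 2 0) * (A 0 0 * m3 A 2) * dn A,
    (A 0 0 * A 3 1 - A 0 1 * A 3 0) * (A 0 0 * m3 A 2) * dn A,
    (A 0 0 * A 4 1 - A 0 1 * A 4 0) * (A 0 0 * m3 A 2) * dn A,
    m3 A 3 * (A 0 0 * D2 A) * dn A, m3 A 4 * (A 0 0 * D2 A) * dn A,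
    D2 A * (D2 A * m3 A 2) ^ 2, m3 A 2 * m3 A 2 * dn A]

theorem dn_ne {A : M5} (h : dn A ≠ 0) : A 0 0 ≠ 0 ∧ D2 A ≠ 0 ∧ m3 A 2 ≠ 0 := by
  unfold dn at h
  refine ⟨fun h0 => h (by rw [h0]; ring), fun h0 => h (by rw [h0]; ring),
    fun h0 => h (by rw [h0]; ring)⟩

theorem nu_eq {A : M5} (h : dn A ≠ 0) (j : Fin 11) : dn A ^ 2 * nu A j = Nn A j := by
  obtain ⟨h1, h2, h3⟩ := dn_ne h
  have hdn : dn A = A 0 0 * D2 A * m3 A 2 := rfl
  fin_cases j <;> simp [nu, Nn] <;> rw [hdn] <;> field_simp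

theorem poly_Nn (j : Fin 11) : (fun x : M5 × M5 => Nn x.2 j) ∈ Poly (M5 × M5) := by
  have hD := poly_D2
  have hm := poly_m3
  have hd := poly_dn
  have hs := poly_snd
  fin_cases j
  · exact poly_mul (poly_mul (hs 1 0) (poly_mul hD (hm 2))) hd
  · exact poly_mul (poly_mul (hs 2 0) (poly_mul hD (hm 2))) hd
  · exact poly_mul (poly_mul (hs 3 0) (poly_mul hD (hm 2))) hd
  · exact poly_mul (poly_mul (hs 4 0) (poly_mul hD (hm 2))) hd
  · exact poly_mul (poly_mul (poly_sub (poly_mul (hs 0 0) (hs 2 1)) (poly_mul (hs 0 1) (hs 2 0)))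
      (poly_mul (hs 0 0) (hm 2))) hd
  · exact poly_mul (poly_mul (poly_sub (poly_mul (hs 0 0) (hs 3 1)) (poly_mul (hs 0 1) (hs 3 0)))
      (poly_mul (hs 0 0) (hm 2))) hd
  · exact poly_mul (poly_mul (poly_sub (poly_mul (hs 0 0) (hs 4 1)) (poly_mul (hs 0 1) (hs 4 0)))
      (poly_mul (hs 0 0) (hm 2))) hd
  · exact poly_mul (poly_mul (hm 3) (poly_mul (hs 0 0) hD)) hd
  · exact poly_mul (poly_mul (hm 4) (poly_mul (hs 0 0) hD)) hd
  · exact poly_mul hD (poly_pow (poly_mul hD (hm 2)) 2)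
  · exact poly_mul (poly_mul (hm 2) (hm 2)) hd

/-- polynomials in the coordinates, with denominators cleared -/
theorem clear_den (α : MvPolynomial (Fin 11) ℂ) : ∃ K : ℕ, ∀ k, K ≤ k → ∃ E ∈ Poly (M5 × M5),
    ∀ x : M5 × M5, dn x.2 ≠ 0 → dn x.2 ^ k * MvPolynomial.eval (nu x.2) α = E x := by
  induction α using MvPolynomial.induction_on with
  | C a =>
    refine ⟨0, fun k _ => ⟨_, poly_mul (poly_pow poly_dn k) (poly_const a), fun x _ => ?_⟩⟩
    simp
  | add p q hp hq =>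
    obtain ⟨K, hK⟩ := hp
    obtain ⟨L, hL⟩ := hq
    refine ⟨max K L, fun k hk => ?_⟩
    obtain ⟨E, hE, h⟩ := hK k (le_trans (le_max_left _ _) hk)
    obtain ⟨E', hE', h'⟩ := hL k (le_trans (le_max_right _ _) hk)
    refine ⟨_, poly_add hE hE', fun x hx => ?_⟩
    rw [map_add, mul_add, h x hx, h' x hx]
  | mul_X p j hp =>
    obtain ⟨K, hK⟩ := hp
    refine ⟨K + 2, fun k hk => ?_⟩
    obtain ⟨E, hE, h⟩ := hK (k - 2) (by omega)
    refine ⟨_, poly_mul hE (poly_Nn j), fun x hx => ?_⟩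
    rw [map_mul, MvPolynomial.eval_X, ← h x hx, ← nu_eq hx j]
    obtain ⟨m, rfl⟩ : ∃ m, k = m + 2 := ⟨k - 2, by omega⟩
    rw [Nat.add_sub_cancel]
    ring

/-- homogeneity -/
theorem D2_smul (c : ℂ) (A : M5) : D2 (c • A) = c ^ 2 * D2 A := by
  simp only [D2, Matrix.smul_apply, smul_eq_mul]; ring

theorem m3_smul (c : ℂ) (A : M5) (i : Fin 5) : m3 (c • A) i = c ^ 3 * m3 A i := by
  simp only [m3, Matrix.det_fin_three, Matrix.smul_apply, smul_eq_mul, Matrix.of_apply,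
    Matrix.cons_val', Matrix.cons_val_zero, Matrix.cons_val_one,
    Matrix.cons_val_fin_one, Matrix.cons_val]
  ring

theorem dn_smul (c : ℂ) (A : M5) : dn (c • A) = c ^ 6 * dn A := by
  simp only [dn, D2_smul, m3_smul, Matrix.smul_apply, smul_eq_mul]; ring

theorem nu_smul {c : ℂ} (hc : c ≠ 0) (A : M5) : nu (c • A) = nu A := by
  funext j
  have h1 : ∀ a b : ℂ, c * a / (c * b) = a / b := fun a b => mul_div_mul_left a b hc
  have h2 : ∀ a b : ℂ, c ^ 2 * a / (c ^ 2 * b) = a / b :=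
    fun a b => mul_div_mul_left a b (pow_ne_zero _ hc)
  have h3 : ∀ a b : ℂ, c ^ 3 * a / (c ^ 3 * b) = a / b :=
    fun a b => mul_div_mul_left a b (pow_ne_zero _ hc)
  have e : ∀ i : Fin 5, c * A 0 0 * (c * A i 1) - c * A 0 1 * (c * A i 0) =
      c ^ 2 * (A 0 0 * A i 1 - A 0 1 * A i 0) := fun i => by ring
  have e2 : c ^ 2 * D2 A * (c * A 0 0) = c ^ 3 * (D2 A * A 0 0) := by ring
  fin_cases j <;> simp [nu, D2_smul, m3_smul, h1, e, h2, e2, h3, mul_pow]

/-! ### Points -/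

theorem same_refl (x : M5 × M5) : Same x x := ⟨1, 1, one_ne_zero, one_ne_zero, by simp [scal]⟩

theorem same_symm {x y : M5 × M5} (h : Same x y) : Same y x := by
  obtain ⟨μ, lam, hμ, hl, rfl⟩ := h
  refine ⟨μ⁻¹, lam⁻¹, inv_ne_zero hμ, inv_ne_zero hl, ?_⟩
  simp [scal, smul_smul, hμ, hl]

theorem same_trans {x y z : M5 × M5} (h : Same x y) (h' : Same y z) : Same x z := by
  obtain ⟨μ, lam, hμ, hl, rfl⟩ := h
  obtain ⟨μ', lam', hμ', hl', rfl⟩ := h'
  exact ⟨μ' * μ, lam' * lam, mul_ne_zero hμ' hμ, mul_ne_zero hl' hl, by simp [scal, smul_smul]⟩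

theorem same_dn {x y : M5 × M5} (h : Same x y) : dn x.2 ≠ 0 ↔ dn y.2 ≠ 0 := by
  obtain ⟨μ, lam, hμ, hl, rfl⟩ := h
  simp only [scal, dn_smul]
  simp [hl]

theorem same_nu {x y : M5 × M5} (h : Same x y) : nu x.2 = nu y.2 := by
  obtain ⟨μ, lam, hμ, hl, rfl⟩ := h
  simp only [scal]
  rw [nu_smul hl]

theorem eval_option {ι : Type} (z : ℂ) (t : ι → ℂ) (H : MvPolynomial (Option ι) ℂ) :
    MvPolynomial.eval (fun o : Option ι => o.elim z t) H =
      ((MvPolynomial.optionEquivLeft ℂ ι H).map (MvPolynomial.eval t)).eval z := by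
  have : MvPolynomial.eval (fun o : Option ι => o.elim z t) =
      (Polynomial.evalRingHom z).comp ((Polynomial.mapRingHom (MvPolynomial.eval t)).comp
        (MvPolynomial.optionEquivLeft ℂ ι : MvPolynomial (Option ι) ℂ →+* _)) := by
    apply MvPolynomial.ringHom_ext
    · intro r
      simp [MvPolynomial.optionEquivLeft_C]
    · intro o
      cases o with
      | none => simp [MvPolynomial.optionEquivLeft_X_none]
      | some i => simp [MvPolynomial.optionEquivLeft_X_some]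
  rw [this]
  rfl

theorem irr_mul {V : Type} [AddCommGroup V] [Module ℂ V] {S : Set V} (hS : Irr S) {f g : V → ℂ}
    (hf : f ∈ Poly V) (hg : g ∈ Poly V) (h1 : ∃ v ∈ S, f v ≠ 0) (h2 : ∃ v ∈ S, g v ≠ 0) :
    ∃ v ∈ S, f v * g v ≠ 0 := by
  obtain ⟨v, hv, h3, h4⟩ := hS.2 f hf g hg h1 h2
  exact ⟨v, hv, mul_ne_zero h3 h4⟩

end GFaux

open GFaux

theorem stGF (hLD : StLD) : StGF := by
  intro N Y f hf hfin hdom P hP P' hP' hP'ne hhom
  obtain ⟨hLD1, hLD2, hLD3⟩ := hLD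
  obtain ⟨hfC, hfs, hfl⟩ := hf
  -- a point `y₁` of `Y` with `dn (f y₁) ≠ 0`
  obtain ⟨y₁, hy₁, hdn₁⟩ : ∃ y ∈ Y.pts, dn (f y).2 ≠ 0 := by
    by_contra hcon
    push Not at hcon
    have h := hdom (fun x => dn x.2) poly_dn
      (fun y hy x hx => by
        by_contra h0
        exact ((same_dn hx).2 h0) (hcon y hy))
      (pt (fun _ => 1)) (hLD1 _)
    exact (hLD2 (fun _ => 1) (pt (fun _ => 1)) (by simp) (by simp) (same_refl _)).1 h
  obtain ⟨F, hFpoly, hF1, hF2, hF⟩ := hfl y₁ hy₁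
  obtain ⟨a, b, hab⟩ : ∃ a b, (F y₁).1 a b ≠ 0 := by
    by_contra hcon
    push Not at hcon
    exact hF1 (by ext i j; simpa using hcon i j)
  obtain ⟨i₀, hi₀⟩ : ∃ i, y₁ i ≠ 0 := by
    by_contra hcon
    push Not at hcon
    exact Y.zero_notMem (by
      have : y₁ = 0 := by ext i; simpa using hcon i
      rw [← this]; exact hy₁)
  obtain ⟨g, hg, hgne, hgfin⟩ := hfin
  -- polynomials
  have hpd : (fun y => dn (F y).2) ∈ Poly (Fin (N + 1) → ℂ) := poly_comp hFpoly poly_dn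
  have hpab : (fun y => (F y).1 a b) ∈ Poly (Fin (N + 1) → ℂ) := poly_comp hFpoly (poly_fst a b)
  have hpi : (fun y : Fin (N + 1) → ℂ => y i₀) ∈ Poly (Fin (N + 1) → ℂ) := poly_coord i₀
  have hdF₁ : dn (F y₁).2 ≠ 0 := (same_dn (hF y₁ hy₁ hF1 hF2)).1 hdn₁
  -- the remaining factor
  have hw1 : (fun y => (F y).1 a b * y i₀) ∈ Poly (Fin (N + 1) → ℂ) := poly_mul hpab hpi
  have hw2 : (fun y => g y * ((F y).1 a b * y i₀)) ∈ Poly (Fin (N + 1) → ℂ) := poly_mul hg hw1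
  obtain ⟨pu, hpu⟩ := poly_eval (poly_mul (poly_mul hpd hP') hw2)
  obtain ⟨pw, hpw⟩ := poly_eval (poly_mul hP' hw2)
  obtain ⟨pv, hpv⟩ := poly_eval (poly_mul hpd hw2)
  obtain ⟨pP, hpP⟩ := poly_eval hP
  have hpN : ∀ j, ∃ p : MvPolynomial (Fin (N + 1)) ℂ, ∀ v, Nn (F v).2 j = MvPolynomial.eval v p :=
    fun j => poly_eval (poly_comp hFpoly (poly_Nn j))
  choose pN hpN using hpN
  -- nonvanishing of u somewhere
  have hune : ∃ y ∈ Y.pts, MvPolynomial.eval y pu ≠ 0 := by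
    have h1 := irr_mul Y.irr hpd hP' ⟨y₁, hy₁, hdF₁⟩ hP'ne
    have h2 := irr_mul Y.irr hg hw1 hgne ⟨y₁, hy₁, mul_ne_zero hab hi₀⟩
    obtain ⟨y, hy, h⟩ := irr_mul Y.irr (poly_mul hpd hP') hw2 h1 h2
    refine ⟨y, hy, ?_⟩
    rw [← hpu]
    exact h
  have hu' : ∀ v, MvPolynomial.eval v pu ≠ 0 → dn (F v).2 ≠ 0 ∧ P' v ≠ 0 ∧ g v ≠ 0 ∧
      (F v).1 ≠ 0 ∧ (F v).2 ≠ 0 ∧ v ≠ 0 ∧ g v * ((F v).1 a b * v i₀) ≠ 0 := by
    intro v hv
    rw [← hpu] at hv
    have h1 := left_ne_zero_of_mul hv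
    have h2 := right_ne_zero_of_mul hv
    have h3 := left_ne_zero_of_mul h1
    have h4 := right_ne_zero_of_mul h1
    have h5 := left_ne_zero_of_mul h2
    have h6 := right_ne_zero_of_mul h2
    have h7 := left_ne_zero_of_mul h6
    have h8 := right_ne_zero_of_mul h6
    refine ⟨h3, h4, h5, fun h => h7 (by rw [h]; rfl), fun h => h3 ?_, fun h => h8 (by rw [h]; rfl),
      h2⟩
    rw [h]; simp [dn]
  have hT : ∀ j v, MvPolynomial.eval v pu ≠ 0 →
      MvPolynomial.eval v (pN j * pw ^ 2) / (MvPolynomial.eval v pu) ^ 2 = nu (F v).2 j := by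
    intro j v hv
    obtain ⟨h1, h2, h3, h4, h5, h6, h7⟩ := hu' v hv
    rw [map_mul, map_pow, ← hpN, ← hpw, ← hpu, ← nu_eq h1 j]
    generalize g v * ((F v).1 a b * v i₀) = W at h7
    field_simp
  have hZ : ∀ v, MvPolynomial.eval v pu ≠ 0 →
      MvPolynomial.eval v (pP * pv * pu) / (MvPolynomial.eval v pu) ^ 2 = P v / P' v := by
    intro v hv
    obtain ⟨h1, h2, h3, h4, h5, h6, h7⟩ := hu' v hv
    rw [map_mul, map_mul, ← hpP, ← hpv, ← hpu]
    generalize g v * ((F v).1 a b * v i₀) = W at h7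
    field_simp
  rcases pieces Y pu hune (fun v hv => (hu' v hv).2.2.2.2.2.1) (fun j => pN j * pw ^ 2)
    (pP * pv * pu) with ⟨H, hH0, hH⟩ | ⟨τ, hτ⟩
  · -- algebraic
    set Hp := MvPolynomial.optionEquivLeft ℂ (Fin 11) H with hHp
    have hHp0 : Hp ≠ 0 := by
      rw [hHp]
      simpa using hH0
    refine ⟨Hp.natDegree, fun i => Hp.coeff i, by
      show Hp.coeff Hp.natDegree ≠ 0
      rw [Polynomial.coeff_natDegree]
      exact Polynomial.leadingCoeff_ne_zero.2 hHp0, ?_⟩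
    set n := Hp.natDegree with hn
    -- the equation on the open set
    have hopen : ∀ y ∈ Y.pts, MvPolynomial.eval y pu ≠ 0 → ∑ i ∈ Finset.range (n + 1),
        MvPolynomial.eval (nu (F y).2) (Hp.coeff i) * P y ^ i * P' y ^ (n - i) = 0 := by
      intro y hy huy
      have h1 := hH y hy huy
      have h2 : (fun o : Option (Fin 11) => o.elim
          (MvPolynomial.eval y (pP * pv * pu) / (MvPolynomial.eval y pu) ^ 2)
          (fun j => MvPolynomial.eval y (pN j * pw ^ 2) / (MvPolynomial.eval y pu) ^ 2)) =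
          fun o : Option (Fin 11) => o.elim (P y / P' y) (nu (F y).2) := by
        funext o
        cases o with
        | none => exact hZ y huy
        | some j => exact hT j y huy
      rw [h2, eval_option, ← hHp] at h1
      rw [Polynomial.eval_eq_sum_range' (n := n + 1)
        (lt_of_le_of_lt Polynomial.natDegree_map_le (Nat.lt_succ_self _))] at h1
      have h3 : P' y ≠ 0 := (hu' y huy).2.1
      have h4 : ∑ i ∈ Finset.range (n + 1),
          MvPolynomial.eval (nu (F y).2) (Hp.coeff i) * P y ^ i * P' y ^ (n - i) =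
          P' y ^ n * ∑ i ∈ Finset.range (n + 1),
            (Hp.map (MvPolynomial.eval (nu (F y).2))).coeff i * (P y / P' y) ^ i := by
        rw [Finset.mul_sum]
        refine Finset.sum_congr rfl fun i hi => ?_
        have hi' : i ≤ n := Nat.lt_succ_iff.1 (Finset.mem_range.1 hi)
        rw [Polynomial.coeff_map, div_pow, ← Nat.sub_add_cancel hi', pow_add,
          Nat.add_sub_cancel]
        field_simp
      rw [h4, h1, mul_zero]
    -- closure
    intro y₂ hy₂ hdn₂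
    by_contra hne
    obtain ⟨F', hF'poly, hF'1, hF'2, hF'⟩ := hfl y₂ hy₂
    obtain ⟨a', b', hab'⟩ : ∃ a b, (F' y₂).1 a b ≠ 0 := by
      by_contra hcon
      push Not at hcon
      exact hF'1 (by ext i j; simpa using hcon i j)
    have hs₂ := hF' y₂ hy₂ hF'1 hF'2
    have hdF' : dn (F' y₂).2 ≠ 0 := (same_dn hs₂).1 hdn₂
    choose K hK using fun i => clear_den (Hp.coeff i)
    obtain ⟨k, hk⟩ : ∃ k, ∀ i ∈ Finset.range (n + 1), K i ≤ k :=
      ⟨∑ i ∈ Finset.range (n + 1), K i, fun i hi =>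
        Finset.single_le_sum (f := K) (fun _ _ => Nat.zero_le _) hi⟩
    have hE : ∀ i, ∃ E ∈ Poly (M5 × M5), i ∈ Finset.range (n + 1) → ∀ x : M5 × M5, dn x.2 ≠ 0 →
        dn x.2 ^ k * MvPolynomial.eval (nu x.2) (Hp.coeff i) = E x := by
      intro i
      by_cases hi : i ∈ Finset.range (n + 1)
      · obtain ⟨E, hE, h⟩ := hK i k (hk i hi)
        exact ⟨E, hE, fun _ => h⟩
      · exact ⟨_, poly_const 0, fun h => absurd h hi⟩
    choose E hEpoly hE using hE
    have hG : (fun y => ∑ i ∈ Finset.range (n + 1), E i (F' y) * P y ^ i * P' y ^ (n - i)) ∈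
        Poly (Fin (N + 1) → ℂ) :=
      poly_sum _ fun i _ => poly_mul (poly_mul (poly_comp hF'poly (hEpoly i)) (poly_pow hP i))
        (poly_pow hP' (n - i))
    have hGval : ∀ y, dn (F' y).2 ≠ 0 → ∑ i ∈ Finset.range (n + 1),
        E i (F' y) * P y ^ i * P' y ^ (n - i) = dn (F' y).2 ^ k * ∑ i ∈ Finset.range (n + 1),
          MvPolynomial.eval (nu (F' y).2) (Hp.coeff i) * P y ^ i * P' y ^ (n - i) := by
      intro y hy
      rw [Finset.mul_sum]
      refine Finset.sum_congr rfl fun i hi => ?_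
      rw [← hE i hi (F' y) hy]
      ring
    have hpd' : (fun y => dn (F' y).2) ∈ Poly (Fin (N + 1) → ℂ) := poly_comp hF'poly poly_dn
    have hpab' : (fun y => (F' y).1 a' b') ∈ Poly (Fin (N + 1) → ℂ) :=
      poly_comp hF'poly (poly_fst a' b')
    have h1 : ∃ y ∈ Y.pts, (∑ i ∈ Finset.range (n + 1), E i (F' y) * P y ^ i * P' y ^ (n - i)) *
        (dn (F' y).2 * (F' y).1 a' b') ≠ 0 := by
      refine ⟨y₂, hy₂, mul_ne_zero ?_ (mul_ne_zero hdF' hab')⟩
      rw [hGval y₂ hdF']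
      refine mul_ne_zero (pow_ne_zero _ hdF') ?_
      rw [← same_nu hs₂]
      exact hne
    obtain ⟨y, hy, h2⟩ := irr_mul Y.irr (poly_mul hG (poly_mul hpd' hpab')) (eval_poly pu) h1 hune
    have h3 := left_ne_zero_of_mul h2
    have h4 := right_ne_zero_of_mul h2
    have h5 := left_ne_zero_of_mul h3
    have h6 := left_ne_zero_of_mul (right_ne_zero_of_mul h3)
    have h7 := right_ne_zero_of_mul (right_ne_zero_of_mul h3)
    have h8 : (F' y).1 ≠ 0 := fun h => h7 (by rw [h]; rfl)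
    have h9 : (F' y).2 ≠ 0 := fun h => h6 (by rw [h]; simp [dn])
    have hs' := hF' y hy h8 h9
    obtain ⟨-, -, -, h10, h11, -, -⟩ := hu' y h4
    have hs := hF y hy h10 h11
    apply h5
    rw [hGval y h6, ← same_nu hs', same_nu hs, hopen y hy h4, mul_zero]
  · -- infinitely many points in a fibre
    exfalso
    obtain ⟨T, hTfin, hTf⟩ := hgfin (pt τ) (hLD1 τ)
    classical
    let Zf : (Fin (N + 1) → ℂ) → ℂ := fun y' =>
      if h : ∃ lam : ℂ, lam ≠ 0 ∧ P' (lam • y') ≠ 0 ∧ lam • y' ∈ Y.pts then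
        P (h.choose • y') / P' (h.choose • y') else 0
    obtain ⟨ζ, hζ, y, hy, huy, hyτ, hyζ⟩ := hτ (hTfin.toFinset.image Zf)
    obtain ⟨h1, h2, h3, h4, h5, h6, h7⟩ := hu' y huy
    have hsame := hF y hy h4 h5
    have hnu : nu (f y).2 = τ := by
      rw [same_nu hsame]
      funext j
      rw [← hT j y huy]
      exact hyτ j
    have hdf : dn (f y).2 ≠ 0 := (same_dn hsame).2 h1
    have hpt := (hLD3 (f y) (hfC y hy) hdf).2.2
    rw [hnu] at hpt
    obtain ⟨y', hy'T, lam, hlam, hyy'⟩ := hTf y hy h3 hpt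
    apply hζ
    rw [Finset.mem_image]
    refine ⟨y', by simpa using hy'T, ?_⟩
    have hex : ∃ lam : ℂ, lam ≠ 0 ∧ P' (lam • y') ≠ 0 ∧ lam • y' ∈ Y.pts :=
      ⟨lam, hlam, by rw [← hyy']; exact h2, by rw [← hyy']; exact hy⟩
    have hZf : Zf y' = P (hex.choose • y') / P' (hex.choose • y') := dif_pos hex
    obtain ⟨hc1, hc2, hc3⟩ := hex.choose_spec
    rw [hZf, ← hyζ, hZ y huy]
    set c := hex.choose with hc
    have e : c • y' = (c * lam⁻¹) • y := by
      rw [hyy', smul_smul, mul_assoc, inv_mul_cancel₀ hlam, mul_one]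
    have h8 := hhom y hy (c * lam⁻¹) (mul_ne_zero hc1 (inv_ne_zero hlam))
    rw [← e] at h8
    rw [div_eq_div_iff hc2 h2, h8]

end MC
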