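import Pool.Agent.Lib.MC.Stmts2

set_option autoImplicit false

/-!
# Two Manin components of the same class (MP_ac098b_ag): module IN
-/

noncomputable section

namespace MC

namespace INAux

/-- the ray of `(2, 3)` -/
def ray : Set (ℝ × ℝ) := {α | ∃ r : ℝ, 0 ≤ r ∧ α = (2 * r, 3 * r)}

/-- the line of `(2, 3)` -/
def line : Submodule ℝ (ℝ × ℝ) where
  carrier := {α | 3 * α.1 = 2 * α.2}
  add_mem' := by
    intro a b ha hb
    simp only [Set.mem_setOf_eq, Prod.fst_add, Prod.snd_add] at *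
    linarith
  zero_mem' := by simp
  smul_mem' := by
    intro c a ha
    simp only [Set.mem_setOf_eq, Prod.smul_fst, Prod.smul_snd, smul_eq_mul] at *
    linear_combination c * ha

theorem span_le : affineSpan ℝ ray ≤ line.toAffineSubspace := by
  refine affineSpan_le.2 ?_
  rintro α ⟨r, _, rfl⟩
  show 3 * (2 * r) = 2 * (3 * r)
  ring

theorem two_three_mem : ((2, 3) : ℝ × ℝ) ∈ intrinsicInterior ℝ ray := by
  have hm : ((2, 3) : ℝ × ℝ) ∈ ray := ⟨1, zero_le_one, by norm_num⟩
  have hs : ((2, 3) : ℝ × ℝ) ∈ affineSpan ℝ ray := subset_affineSpan ℝ ray hm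
  refine mem_intrinsicInterior.2 ⟨⟨(2, 3), hs⟩, ?_, rfl⟩
  refine mem_interior.2 ⟨{x | 0 < (x : ℝ × ℝ).1}, ?_, ?_, ?_⟩
  · rintro ⟨α, hα⟩ h0
    have h0' : 0 < α.1 := h0
    have h1 : 3 * α.1 = 2 * α.2 := span_le hα
    refine ⟨α.1 / 2, by linarith, ?_⟩
    refine Prod.ext ?_ ?_
    · show α.1 = 2 * (α.1 / 2)
      ring
    · show α.2 = 3 * (α.1 / 2)
      linarith
  · exact isOpen_lt continuous_const (continuous_fst.comp continuous_subtype_val)
  · show (0 : ℝ) < 2
    norm_num

end INAux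

/-- Module IN. -/
theorem stIN : StEF → StIN := by
  intro hEF c hc0 hc1
  have hE : ∀ D : ℝ × ℝ, D ∈ Eff ↔ 0 ≤ D.1 ∧ 0 ≤ 2 * D.1 + 3 * D.2 := by
    intro D
    rw [show Eff = _ from hEF]
    rfl
  have hK : KX + (1 : ℝ) • Lc c = c • ((3, -2) : ℝ × ℝ) := by
    refine Prod.ext ?_ ?_
    · simp only [KX, Lc, Prod.fst_add, Prod.smul_fst, smul_eq_mul]
      ring
    · simp only [KX, Lc, Prod.snd_add, Prod.smul_snd, smul_eq_mul]
      ring
  have hF : Face (Lc c) 1 = INAux.ray := by
    ext α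
    constructor
    · rintro ⟨h1, h2⟩
      have h3 := h1 (0, 1) ((hE _).2 ⟨le_refl _, by norm_num⟩)
      rw [hK] at h2
      simp only [dot, Prod.smul_fst, Prod.smul_snd, smul_eq_mul] at h2 h3
      have h4 : c * (3 * α.1 - 2 * α.2) = 0 := by linear_combination h2
      have h5 : 3 * α.1 - 2 * α.2 = 0 := by
        rcases mul_eq_zero.1 h4 with h | h
        · exact absurd h hc0.ne'
        · exact h
      refine ⟨α.2 / 3, by linarith, Prod.ext ?_ ?_⟩
      · show α.1 = 2 * (α.2 / 3)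
        linarith
      · show α.2 = 3 * (α.2 / 3)
        ring
    · rintro ⟨r, hr, rfl⟩
      refine ⟨?_, ?_⟩
      · intro D hD
        have h := ((hE _).1 hD).2
        have := mul_nonneg hr h
        simp only [dot]
        linarith
      · rw [hK]
        simp only [dot, Prod.smul_fst, Prod.smul_snd, smul_eq_mul]
        ring
  refine ⟨⟨?_, ?_⟩, hK, hF, ?_⟩
  · show (1 : ℝ) • Lc c + KX ∈ Eff
    rw [add_comm, hK, hE]
    simp only [Prod.smul_fst, Prod.smul_snd, smul_eq_mul]
    constructor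
    · linarith
    · linarith
  · intro t ht
    have h := ((hE _).1 ht).2
    simp only [KX, Lc, Prod.fst_add, Prod.snd_add, Prod.smul_fst, Prod.smul_snd, smul_eq_mul] at h
    linarith
  · rw [hF]
    exact INAux.two_three_mem

end MC
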