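import Pool.Agent.Lib.MC.SE
import Pool.Agent.Lib.MC.IN

set_option autoImplicit false

/-!
# Two Manin components of the same class (MP_ac098b_ag): the polarisations

`H` and `σ` are generated by their global sections, `L = - K + c E` is big for `0 < c ≤ 1 / 2`, and
all positive multiples of `(2, 3)` are in the relative interior of the ray.
-/

noncomputable section

namespace MC

/-- the line bundle `H` is globally generated -/
theorem globH (x : Cone) : ∃ φ, IsSec 1 0 φ ∧ φ x ≠ 0 := by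
  obtain ⟨i, j, hij⟩ : ∃ i j, (x : M5 × M5).2 i j ≠ 0 := by
    by_contra hcon
    push Not at hcon
    exact x.2.2.2.2.2.1 (by ext i j; exact hcon i j)
  refine ⟨fun x => (x : M5 × M5).2 i j, ⟨SEAux.regular_of_poly (SEAux.e2_mem i j), ?_⟩, hij⟩
  intro x y μ lam hμ hl hy
  simp [hy, scal]

/-- the line bundle `σ` is globally generated -/
theorem globS (x : Cone) : ∃ φ, IsSec 0 1 φ ∧ φ x ≠ 0 := by
  obtain ⟨i, j, hij⟩ := SEAux.exists_ne x.2
  refine ⟨fun x => (x : M5 × M5).1 i j, ⟨SEAux.regular_of_poly (SEAux.e1_mem i j), ?_⟩, hij⟩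
  intro x y μ lam hμ hl hy
  simp [hy, scal]

/-- the polarisations are big -/
theorem big (hEF : StEF) (c : ℝ) (hc : 0 < c) (hc' : c ≤ 1 / 2) : Lc c ∈ interior Eff := by
  have hE : ∀ D : ℝ × ℝ, D ∈ Eff ↔ 0 ≤ D.1 ∧ 0 ≤ 2 * D.1 + 3 * D.2 := by
    intro D
    rw [show Eff = _ from hEF]
    rfl
  refine mem_interior.2 ⟨{D | 0 < D.1} ∩ {D | 0 < 2 * D.1 + 3 * D.2}, ?_, ?_, ?_⟩
  · rintro D ⟨h1, h2⟩
    exact (hE D).2 ⟨le_of_lt h1, le_of_lt h2⟩
  · exact (isOpen_lt continuous_const continuous_fst).inter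
      (isOpen_lt continuous_const (by fun_prop))
  · refine ⟨?_, ?_⟩
    · show (0 : ℝ) < 6 + 3 * c
      linarith
    · show (0 : ℝ) < 2 * (6 + 3 * c) + 3 * (1 - 2 * c)
      linarith

/-- the relative interior of the ray -/
theorem mem_ray {r : ℝ} (hr : 0 < r) :
    ((2 * r, 3 * r) : ℝ × ℝ) ∈ intrinsicInterior ℝ INAux.ray := by
  have hm : ((2 * r, 3 * r) : ℝ × ℝ) ∈ INAux.ray := ⟨r, hr.le, rfl⟩
  have hs : ((2 * r, 3 * r) : ℝ × ℝ) ∈ affineSpan ℝ INAux.ray := subset_affineSpan ℝ INAux.ray hm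
  refine mem_intrinsicInterior.2 ⟨⟨_, hs⟩, ?_, rfl⟩
  refine mem_interior.2 ⟨{x | 0 < (x : ℝ × ℝ).1}, ?_, ?_, ?_⟩
  · rintro ⟨α, hα⟩ h0
    have h0' : 0 < α.1 := h0
    have h1 : 3 * α.1 = 2 * α.2 := INAux.span_le hα
    refine ⟨α.1 / 2, by linarith, ?_⟩
    refine Prod.ext ?_ ?_
    · show α.1 = 2 * (α.1 / 2)
      ring
    · show α.2 = 3 * (α.1 / 2)
      linarith
  · exact isOpen_lt continuous_const (continuous_fst.comp continuous_subtype_val)
  · show (0 : ℝ) < 2 * r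
    linarith

end MC
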