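import Pool.Agent.Lib.MC.KE1

set_option autoImplicit false

/-!
# Module KE: the function field of `X` is algebraically closed in that of `M × ℙ¹`
-/

noncomputable section

namespace MC

namespace KEAux

open Matrix MvPolynomial

/-! ### Algebra -/

theorem hom_eval₂ {R F : Type} [CommRing R] [Field F] (f : R →+* F) (B : Polynomial R) (m : ℕ)
    (hm : B.natDegree ≤ m) (a c : F) (hc : c ≠ 0) :
    ∑ i ∈ Finset.range (m + 1), f (B.coeff i) * a ^ i * c ^ (m - i) =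
      c ^ m * B.eval₂ f (a / c) := by
  rw [Polynomial.eval₂_eq_sum_range' f (Nat.lt_succ_of_le hm), Finset.mul_sum]
  refine Finset.sum_congr rfl fun i hi => ?_
  have h1 : i ≤ m := Nat.lt_succ_iff.1 (Finset.mem_range.1 hi)
  have h2 : c ^ m = c ^ (m - i) * c ^ i := by
    rw [← pow_add, Nat.sub_add_cancel h1]
  rw [h2, div_pow]
  field_simp

/-- an irreducible equation -/
theorem exists_irred {K F : Type} [Field K] [Field F] (ι : K →+* F) (z : F) (Q : Polynomial K)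
    (hQ : Q ≠ 0) (h : Q.eval₂ ι z = 0) : ∃ P : Polynomial K, Irreducible P ∧ P.eval₂ ι z = 0 := by
  let _ := ι.toAlgebra
  have h1 : IsAlgebraic K z := ⟨Q, hQ, h⟩
  exact ⟨minpoly K z, minpoly.irreducible h1.isIntegral, minpoly.aeval K z⟩

theorem solve1 {K F : Type} [Field K] [Field F] (ι : K →+* F) (z : F) (P : Polynomial K)
    (hdeg : P.natDegree = 1) (hP : P ≠ 0) (h : P.eval₂ ι z = 0) :
    z = ι (-P.coeff 0 / P.coeff 1) := by
  have hlc : P.coeff 1 ≠ 0 := by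
    rw [← hdeg]
    exact Polynomial.leadingCoeff_ne_zero.2 hP
  rw [Polynomial.eval₂_eq_sum_range, hdeg, Finset.sum_range_succ, Finset.sum_range_one,
    pow_zero, mul_one, pow_one] at h
  rw [map_div₀, map_neg, eq_div_iff ((map_ne_zero _).2 hlc)]
  linear_combination h

theorem frac_eq {K F : Type} [Field K] [Field F] (ι : K →+* F) {z a b : F} {r s : K}
    (h1 : ι r = a) (h2 : ι s = b) (hb : b ≠ 0) (hz : z = ι (r / s)) : z * b = a := by
  rw [hz, map_div₀, h1, h2, div_mul_cancel₀ _ hb]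

theorem cross {F : Type} [Field F] {z a b p q : F} (h3 : z * b = a) (h4 : z * q = p) :
    p * b = q * a := by
  rw [← h3, ← h4]
  ring

/-- clearing denominators -/
theorem clear (P : Polynomial KK) : ∃ (B : Polynomial MP) (b : MP), b ≠ 0 ∧
    B.map (algebraMap MP KK) = Polynomial.C (algebraMap MP KK b) * P := by
  obtain ⟨b, hb', hb⟩ := IsLocalization.integerNormalization_spec (nonZeroDivisors MP) P
  refine ⟨IsLocalization.integerNormalization (nonZeroDivisors MP) P, b,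
    nonZeroDivisors.ne_zero hb', ?_⟩
  rw [hb]
  ext i
  rw [Polynomial.coeff_C_mul]
  simp [Algebra.smul_def]

/-! ### The coordinates as functions on `M × ℙ¹` -/

section Coord

variable {d e : ℕ}

/-- the matrix `A` of a point of the family -/
def AA (x : CV d e × (Fin 2 → ℂ)) : M5 := ev x.1.2 x.2

theorem AA_mem : ACAux.MPoly (AA (d := d) (e := e)) := by
  intro i j
  have h1 : ∀ a : Fin 2, (fun x : CV d e × (Fin 2 → ℂ) => x.2 a) ∈
      Poly (CV d e × (Fin 2 → ℂ)) := fun a =>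
    DOAux.lin_mem ((LinearMap.proj a).comp (LinearMap.snd ℂ (CV d e) (Fin 2 → ℂ)))
  have h2 : ∀ k, (fun x : CV d e × (Fin 2 → ℂ) => x.1.2 k i j) ∈
      Poly (CV d e × (Fin 2 → ℂ)) := fun k =>
    DOAux.lin_mem (LinearMap.proj j ∘ₗ LinearMap.proj i ∘ₗ LinearMap.proj k ∘ₗ
      LinearMap.snd ℂ (Fin (d + 1) → M5) (Fin (e + 1) → M5) ∘ₗ
      LinearMap.fst ℂ (CV d e) (Fin 2 → ℂ))
  have h3 : (fun x : CV d e × (Fin 2 → ℂ) => AA x i j) =
      fun x => ∑ k : Fin (e + 1), (x.2 0 ^ (e - (k : ℕ)) * x.2 1 ^ (k : ℕ)) * x.1.2 k i j := by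
    funext x
    unfold AA ev
    rw [Matrix.sum_apply]
    rfl
  rw [h3]
  exact ACAux.poly_sum _ fun k _ => mul_mem (mul_mem (pow_mem (h1 0) _) (pow_mem (h1 1) _)) (h2 k)

section Gen

variable {V : Type} [AddCommGroup V] [Module ℂ V] {A : V → M5}

theorem D2_mem (hA : ACAux.MPoly A) : (fun x => D2 (A x)) ∈ Poly V :=
  sub_mem (mul_mem (hA 0 0) (hA 1 1)) (mul_mem (hA 0 1) (hA 1 0))

theorem m3_mem (hA : ACAux.MPoly A) (i : Fin 5) : (fun x => m3 (A x) i) ∈ Poly V := by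
  have h : (fun x => m3 (A x) i) = fun x =>
      A x 0 0 * A x 1 1 * A x i 2 - A x 0 0 * A x 1 2 * A x i 1 - A x 0 1 * A x 1 0 * A x i 2 +
      A x 0 1 * A x 1 2 * A x i 0 + A x 0 2 * A x 1 0 * A x i 1 - A x 0 2 * A x 1 1 * A x i 0 := by
    funext x
    unfold m3
    rw [Matrix.det_fin_three]
    simp
  rw [h]
  exact sub_mem (add_mem (add_mem (sub_mem (sub_mem
    (mul_mem (mul_mem (hA 0 0) (hA 1 1)) (hA i 2)) (mul_mem (mul_mem (hA 0 0) (hA 1 2)) (hA i 1)))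
    (mul_mem (mul_mem (hA 0 1) (hA 1 0)) (hA i 2))) (mul_mem (mul_mem (hA 0 1) (hA 1 2)) (hA i 0)))
    (mul_mem (mul_mem (hA 0 2) (hA 1 0)) (hA i 1))) (mul_mem (mul_mem (hA 0 2) (hA 1 1)) (hA i 0))

theorem dn_mem (hA : ACAux.MPoly A) : (fun x => dn (A x)) ∈ Poly V :=
  mul_mem (mul_mem (hA 0 0) (D2_mem hA)) (m3_mem hA 2)

theorem div_mem {S : Set V} {δ : V → ℂ} {hδ : δ ∈ Poly V} {f g r : V → ℂ} (hf : f ∈ Poly V)
    (hr : r ∈ Poly V) (k : ℕ) (h : ∀ x, g x * r x = δ x ^ k) :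
    (fun x : So S δ => f x / g x) ∈ Lo S δ hδ := by
  refine ⟨f * r, mul_mem hf hr, k, fun x => ?_⟩
  have h1 : g x ≠ 0 := by
    intro h0
    have h2 := h x
    rw [h0, zero_mul] at h2
    exact pow_ne_zero k x.2.2 h2.symm
  rw [← h, Pi.mul_apply]
  field_simp

section Nu

variable (hA : ACAux.MPoly A) (S : Set V)
include hA

theorem nu_mem1 (i : Fin 5) : (fun x : So S (fun x => dn (A x)) => A x i 0 / A x 0 0) ∈
    Lo S (fun x => dn (A x)) (dn_mem hA) :=
  div_mem (g := fun x => A x 0 0) (hA i 0) (mul_mem (D2_mem hA) (m3_mem hA 2)) 1 fun x => by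
    rw [pow_one, dn, Pi.mul_apply]
    ring

theorem nu_mem2 (i : Fin 5) : (fun x : So S (fun x => dn (A x)) =>
    (A x 0 0 * A x i 1 - A x 0 1 * A x i 0) / D2 (A x)) ∈
    Lo S (fun x => dn (A x)) (dn_mem hA) :=
  div_mem (f := fun x => A x 0 0 * A x i 1 - A x 0 1 * A x i 0) (g := fun x => D2 (A x))
    (sub_mem (mul_mem (hA 0 0) (hA i 1)) (mul_mem (hA 0 1) (hA i 0)))
    (mul_mem (hA 0 0) (m3_mem hA 2)) 1 fun x => by
      rw [pow_one, dn, Pi.mul_apply]
      ring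

theorem nu_mem3 (i : Fin 5) : (fun x : So S (fun x => dn (A x)) => m3 (A x) i / m3 (A x) 2) ∈
    Lo S (fun x => dn (A x)) (dn_mem hA) :=
  div_mem (g := fun x => m3 (A x) 2) (m3_mem hA i) (mul_mem (hA 0 0) (D2_mem hA)) 1 fun x => by
    rw [pow_one, dn, Pi.mul_apply]
    ring

theorem nu_mem4 : (fun x : So S (fun x => dn (A x)) => D2 (A x) / A x 0 0 ^ 2) ∈
    Lo S (fun x => dn (A x)) (dn_mem hA) :=
  div_mem (g := fun x => A x 0 0 ^ 2) (D2_mem hA)
    (pow_mem (mul_mem (D2_mem hA) (m3_mem hA 2)) 2) 2 fun x => by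
      rw [dn, Pi.pow_apply, Pi.mul_apply]
      ring

theorem nu_mem5 : (fun x : So S (fun x => dn (A x)) => m3 (A x) 2 / (D2 (A x) * A x 0 0)) ∈
    Lo S (fun x => dn (A x)) (dn_mem hA) :=
  div_mem (g := fun x => D2 (A x) * A x 0 0) (m3_mem hA 2) (m3_mem hA 2) 1 fun x => by
    rw [pow_one, dn]
    ring

end Nu

theorem nu_mem (hA : ACAux.MPoly A) (S : Set V) (j : Fin 11) :
    (fun x : So S (fun x => dn (A x)) => nu (A x) j) ∈
      Lo S (fun x => dn (A x)) (dn_mem hA) := by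
  fin_cases j
  exacts [nu_mem1 hA S 1, nu_mem1 hA S 2, nu_mem1 hA S 3, nu_mem1 hA S 4, nu_mem2 hA S 2,
    nu_mem2 hA S 3, nu_mem2 hA S 4, nu_mem3 hA S 3, nu_mem3 hA S 4, nu_mem4 hA S, nu_mem5 hA S]

end Gen

/-- the functions on the open set -/
abbrev LF (S : Set (CV d e × (Fin 2 → ℂ))) :
    Subalgebra ℂ (So S (fun x => dn (AA x)) → ℂ) :=
  Lo S (fun x => dn (AA x)) (dn_mem AA_mem)

/-- the coordinates -/
def nuL (S : Set (CV d e × (Fin 2 → ℂ))) (j : Fin 11) : LF S :=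
  ⟨fun x => nu (AA (x : CV d e × (Fin 2 → ℂ))) j, nu_mem AA_mem S j⟩

theorem evl_aeval (S : Set (CV d e × (Fin 2 → ℂ))) (x : So S (fun x => dn (AA x))) (P : MP) :
    evl x (aeval (nuL S) P) = eval (nu (AA (x : CV d e × (Fin 2 → ℂ)))) P := by
  have h : (evl x).comp (aeval (nuL S) : MP →ₐ[ℂ] LF S) =
      aeval (nu (AA (x : CV d e × (Fin 2 → ℂ)))) := by
    apply MvPolynomial.algHom_ext
    intro i
    rw [AlgHom.comp_apply, aeval_X, aeval_X]
    rfl
  have h1 := congrArg (fun f => f P) h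
  rw [aeval_eq_eval] at h1
  exact h1

/-! ### The relation `Same` -/

theorem same_refl (x : M5 × M5) : Same x x :=
  ⟨1, 1, one_ne_zero, one_ne_zero, (IXAux.scal_one x).symm⟩

theorem same_symm {x y : M5 × M5} (h : Same x y) : Same y x := by
  obtain ⟨μ, lam, hμ, hl, rfl⟩ := h
  refine ⟨μ⁻¹, lam⁻¹, inv_ne_zero hμ, inv_ne_zero hl, ?_⟩
  rw [IXAux.scal_scal, inv_mul_cancel₀ hμ, inv_mul_cancel₀ hl, IXAux.scal_one]

theorem same_trans {x y z : M5 × M5} (h : Same x y) (h' : Same y z) : Same x z := by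
  obtain ⟨μ, lam, hμ, hl, rfl⟩ := h
  obtain ⟨μ', lam', hμ', hl', rfl⟩ := h'
  exact ⟨μ' * μ, lam' * lam, mul_ne_zero hμ' hμ, mul_ne_zero hl' hl, IXAux.scal_scal _ _ _ _ _⟩

theorem same_act (g : M5) {x y : M5 × M5} (h : Same x y) : Same (act g x) (act g y) := by
  obtain ⟨μ, lam, hμ, hl, rfl⟩ := h
  exact ⟨μ, lam, hμ, hl, IXAux.act_scal _ _ _ _⟩

/-! ### Points of the family -/

theorem m3_mn (x : M5 × M5) : m3 x.2 2 = DOAux.mn x := by
  unfold m3 DOAux.mn
  congr 1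
  ext i j
  fin_cases i <;> fin_cases j <;> rfl

theorem exists_point (hDO : StDO) (hLD : StLD) {M : Set (Mor d e)}
    (hM : M ∈ irreducibleComponents (Mor d e))
    (hr : ∃ c ∈ hat M, ∃ v, v ≠ 0 ∧ (ev c.2 v).rank = 3) (τ : Fin 11 → ℂ) (h9 : τ 9 ≠ 0)
    (h10 : τ 10 ≠ 0) : ∃ x ∈ fam M, dn (AA x) ≠ 0 ∧ nu (AA x) = τ := by
  obtain ⟨l1, l2, l3⟩ := hLD
  have h1 := l1 τ
  have h2 := (l2 τ (pt τ) h9 h10 (same_refl _)).1
  have h3 : (pt τ).2.rank = 3 := by
    refine DOAux.mn_rank h1 ?_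
    intro h
    apply h2
    unfold dn
    rw [m3_mn, h, mul_zero]
  obtain ⟨c, hc, v, hv, hs⟩ := ((hDO d e M hM).2 hr).1 _ h1 h3
  obtain ⟨h4, h5⟩ := l2 τ _ h9 h10 (same_symm hs)
  exact ⟨(c, v), ⟨hc, hv⟩, h4, h5⟩

/-! ### Polynomial maps -/

theorem lin_M5 (φ : M5 →ₗ[ℂ] ℂ) (A : M5) :
    φ A = ∑ a, ∑ b, A a b * φ (Matrix.single a b 1) := by
  conv_lhs => rw [Matrix.matrix_eq_sum_single A]
  simp only [map_sum]
  refine Finset.sum_congr rfl fun a _ => Finset.sum_congr rfl fun b _ => ?_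
  have h : Matrix.single a b (A a b) = A a b • Matrix.single a b (1 : ℂ) := by
    rw [Matrix.smul_single, smul_eq_mul, mul_one]
  rw [h, map_smul, smul_eq_mul]

theorem polyMap_pair {V W : Type} [AddCommGroup V] [Module ℂ V] [AddCommGroup W] [Module ℂ W]
    {F : V → M5} (hF : ACAux.MPoly F) (w : W) : PolyMap (fun v => (F v, w)) := by
  intro φ
  have h : (fun v => φ (F v, w)) = fun v => (∑ a, ∑ b, F v a b *
      (φ ∘ₗ LinearMap.inl ℂ M5 W) (Matrix.single a b 1)) + φ (0, w) := by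
    funext v
    rw [← lin_M5, LinearMap.comp_apply, ← map_add]
    simp
  rw [h]
  exact add_mem (ACAux.poly_sum _ fun a _ => ACAux.poly_sum _ fun b _ =>
    mul_mem (hF a b) (const_mem _)) (const_mem _)

theorem polyMap_psi (hZA : StZA) (hAC : StAC) {g : (Fin 11 → ℂ) → M5}
    (hg : ∀ i k, (fun θ => g θ i k) ∈ Poly (Fin 11 → ℂ)) (k : M5) (x : CV d e × (Fin 2 → ℂ)) :
    PolyMap (fun θ => ((actc (g θ * k) x.1, x.2) : CV d e × (Fin 2 → ℂ))) := by
  have hF : ACAux.MPoly (fun θ => g θ * k) :=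
    ACAux.MPoly.mul hg (F' := fun _ => k) (fun _ _ => const_mem _)
  have h1 := polyMap_pair hF x.1
  have h2 := ((hAC.2.2 d e).2.2.2 : PolyMap (fun x : M5 × CV d e => actc x.1 x.2))
  intro φ
  have h3 := hZA.2.1 _ _ _ h1 _ (h2 (φ ∘ₗ LinearMap.inl ℂ (CV d e) (Fin 2 → ℂ)))
  have h4 : (fun θ => φ ((actc (g θ * k) x.1, x.2) : CV d e × (Fin 2 → ℂ))) =
      fun θ => (φ ∘ₗ LinearMap.inl ℂ (CV d e) (Fin 2 → ℂ)) (actc (g θ * k) x.1) +
        φ (0, x.2) := by
    funext θ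
    rw [LinearMap.comp_apply, ← map_add]
    simp
  rw [h4]
  exact add_mem h3 (const_mem _)

end Coord

/-! ### Roots after the substitutions -/

section Root

variable {d e : ℕ}

theorem sq_ne {j : Fin 11} {θ : Fin 11 → ℂ} {i : Fin 11} (h : θ i ≠ 0) : sq j θ i ≠ 0 := by
  unfold sq
  split_ifs with hi
  · rw [← hi]
    exact pow_ne_zero 2 h
  · exact h

theorem exists_sq (j : Fin 11) (τ : Fin 11 → ℂ) : ∃ θ : Fin 11 → ℂ, sq j θ = τ ∧
    ∀ i, τ i ≠ 0 → θ i ≠ 0 := by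
  obtain ⟨b, hb⟩ := IsAlgClosed.exists_pow_nat_eq (τ j) (n := 2) (by norm_num)
  refine ⟨fun i => if i = j then b else τ i, ?_, fun i hi => ?_⟩
  · funext i
    unfold sq
    by_cases hi : i = j
    · subst hi
      simp [hb]
    · simp [hi]
  · by_cases hij : i = j
    · subst hij
      simp only [if_true]
      intro h0
      rw [h0] at hb
      apply hi
      rw [← hb]
      simp
    · simpa [hij] using hi

theorem root (hST : StST) (hDO : StDO) (hLD : StLD) (hZA : StZA) (hAC : StAC)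
    {M : Set (Mor d e)} (hM : M ∈ irreducibleComponents (Mor d e))
    (hne : ∃ x ∈ fam M, dn (AA x) ≠ 0)
    {p q : CV d e × (Fin 2 → ℂ) → ℂ} (hp : p ∈ Poly (CV d e × (Fin 2 → ℂ)))
    (hq : q ∈ Poly (CV d e × (Fin 2 → ℂ))) (hq0 : ∃ x ∈ fam M, q x ≠ 0) {j : Fin 11}
    {g : (Fin 11 → ℂ) → M5} (hg : Good j g) (B : Polynomial MP) (m : ℕ) (hB : B.natDegree ≤ m)
    (hrel : ∀ x ∈ fam M, dn (AA x) ≠ 0 → ∑ i ∈ Finset.range (m + 1),
      eval (nu (AA x)) (B.coeff i) * p x ^ i * q x ^ (m - i) = 0) :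
    ∃ ζ : KK, B.eval₂ ((kp j).comp (algebraMap MP KK)) ζ = 0 := by
  obtain ⟨x₀, hx₀, hdn, hqx⟩ := (hDO d e M hM).1.2 _ (dn_mem AA_mem) q hq hne hq0
  obtain ⟨l1, l2, l3⟩ := hLD
  have hc₀ : x₀.1 ∈ MorCone d e := DOAux.hat_sub hx₀.1
  have hcone : evp x₀.1 x₀.2 ∈ Cone := hc₀ _ hx₀.2
  obtain ⟨t9, t10, hs⟩ := l3 _ hcone hdn
  obtain ⟨θ₀, hθ, hθ'⟩ := exists_sq j (nu (evp x₀.1 x₀.2).2)
  have hd₀ := hg.det θ₀ (hθ' 9 t9) (hθ' 10 t10)
  set k : M5 := (g θ₀)⁻¹ with hk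
  have hu : IsUnit (g θ₀).det := isUnit_iff_ne_zero.2 hd₀
  have hgk : g θ₀ * k = 1 := Matrix.mul_nonsing_inv _ hu
  have hkg : k * g θ₀ = 1 := Matrix.nonsing_inv_mul _ hu
  have hkd : k.det ≠ 0 := det_ne hkg
  let ψ : (Fin 11 → ℂ) → CV d e × (Fin 2 → ℂ) := fun θ => (actc (g θ * k) x₀.1, x₀.2)
  have hψ : PolyMap ψ := polyMap_psi hZA hAC hg.poly k x₀
  have hψm : ∀ θ, θ 9 ≠ 0 → θ 10 ≠ 0 → ψ θ ∈ fam M ∧ dn (AA (ψ θ)) ≠ 0 ∧
      nu (AA (ψ θ)) = sq j θ := by
    intro θ h9 h10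
    have hdet : (g θ * k).det ≠ 0 := by
      rw [det_mul]
      exact mul_ne_zero (hg.det θ h9 h10) hkd
    have h1 : evp (ψ θ).1 (ψ θ).2 = act (g θ * k) (evp x₀.1 x₀.2) := (hAC.2.2 d e).1 _ _ _
    have h2 : Same (pt (sq j θ)) (evp (ψ θ).1 (ψ θ).2) := by
      rw [h1]
      refine same_trans (hg.same θ h9 h10) ?_
      have h3 : act (g θ) (Q0, Dm 1 1) = act (g θ * k) (act (g θ₀) (Q0, Dm 1 1)) := by
        rw [IXAux.act_act, Matrix.mul_assoc, hkg, Matrix.mul_one]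
      rw [h3]
      refine same_act _ ?_
      refine same_trans (same_symm (hg.same θ₀ (hθ' 9 t9) (hθ' 10 t10))) ?_
      rw [hθ]
      exact hs
    obtain ⟨h4, h5⟩ := l2 (sq j θ) _ (sq_ne h9) (sq_ne h10) h2
    exact ⟨⟨hST d e M hM _ hdet _ hx₀.1, hx₀.2⟩, h4, h5⟩
  have hψ0 : ψ θ₀ = x₀ := by
    change (actc (g θ₀ * k) x₀.1, x₀.2) = x₀
    rw [hgk, (hAC.2.2 d e).2.2.1]
  obtain ⟨Gp, hGp⟩ := poly_mv _ (hZA.2.1 _ _ ψ hψ p hp)
  obtain ⟨Gq, hGq⟩ := poly_mv _ (hZA.2.1 _ _ ψ hψ q hq)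
  have hGq0 : Gq ≠ 0 := by
    intro h0
    have h1 := hGq θ₀
    rw [h0, map_zero, hψ0] at h1
    exact hqx h1.symm
  have hid : ∑ i ∈ Finset.range (m + 1),
      bind₁ (sb j) (B.coeff i) * Gp ^ i * Gq ^ (m - i) = 0 := by
    apply zero_of
    intro θ h9 h10
    obtain ⟨h1, h2, h3⟩ := hψm θ h9 h10
    have h4 := hrel _ h1 h2
    rw [map_sum]
    rw [← h4]
    refine Finset.sum_congr rfl fun i _ => ?_
    rw [map_mul, map_mul, map_pow, map_pow, hGp, hGq, eval_sb, h3]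
  have hGq1 : algebraMap MP KK Gq ≠ 0 := by
    intro h0
    exact hGq0 ((IsFractionRing.injective MP KK) (by rw [h0, map_zero]))
  refine ⟨algebraMap MP KK Gp / algebraMap MP KK Gq, ?_⟩
  have h5 := hom_eval₂ ((kp j).comp (algebraMap MP KK)) B m hB (algebraMap MP KK Gp)
    (algebraMap MP KK Gq) hGq1
  have h6 : ∑ i ∈ Finset.range (m + 1), ((kp j).comp (algebraMap MP KK)) (B.coeff i) *
      (algebraMap MP KK Gp) ^ i * (algebraMap MP KK Gq) ^ (m - i) = 0 := by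
    have h7 := congrArg (algebraMap MP KK) hid
    rw [map_zero, map_sum] at h7
    rw [← h7]
    refine Finset.sum_congr rfl fun i _ => ?_
    rw [map_mul, map_mul, map_pow, map_pow, RingHom.comp_apply, kp_apply]
  rw [h6] at h5
  exact (mul_eq_zero.1 h5.symm).resolve_left (pow_ne_zero _ hGq1)

end Root

end KEAux

open KEAux MvPolynomial in
/-- Module KE. -/
theorem stKE (hST : StST) (hDO : StDO) (hLD : StLD) (hFL : StFL) (hZA : StZA) (hAC : StAC) :
    StKE := by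
  intro d e M hM hr p hp q hq hq0 n α hα hrel
  have hI : Irr (fam M) := (hDO d e M hM).1
  have hne : ∃ x ∈ fam M, dn (AA x) ≠ 0 := by
    obtain ⟨x, hx, hx', -⟩ := exists_point hDO hLD hM hr (fun _ => 1) one_ne_zero one_ne_zero
    exact ⟨x, hx, hx'⟩
  have hdom : IsDomain (LF (fam M)) := isDomain_Lo hI hne
  -- the map from the polynomials
  let φ : MP →ₐ[ℂ] LF (fam M) := aeval (nuL (fam M))
  have hφ : Function.Injective φ := by
    rw [injective_iff_map_eq_zero]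
    intro P hP
    apply zero_of
    intro θ h9 h10
    obtain ⟨x, hx, hx', hx''⟩ := exists_point hDO hLD hM hr θ h9 h10
    have h1 := evl_aeval (fam M) ⟨x, hx, hx'⟩ P
    have h2 : evl (⟨x, hx, hx'⟩ : So (fam M) (fun x => dn (AA x))) (φ P) = 0 := by
      rw [hP, map_zero]
    rw [← hx'']
    exact h1.symm.trans h2
  have hinj : Function.Injective (algebraMap (LF (fam M)) (FractionRing (LF (fam M)))) :=
    IsFractionRing.injective _ _
  let f : MP →+* FractionRing (LF (fam M)) :=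
    (algebraMap (LF (fam M)) (FractionRing (LF (fam M)))).comp φ.toRingHom
  have hf : Function.Injective f := hinj.comp hφ
  let ι : KK →+* FractionRing (LF (fam M)) :=
    IsFractionRing.lift (A := MP) (K := KK) (g := f) hf
  have hι : ∀ P, ι (algebraMap MP KK P) = f P := fun P => IsFractionRing.lift_algebraMap hf P
  have hιc : ι.comp (algebraMap MP KK) = f := RingHom.ext hι
  -- the function
  let p' : LF (fam M) := ⟨fun x => p x, restr_mem hp⟩
  let q' : LF (fam M) := ⟨fun x => q x, restr_mem hq⟩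
  have hq' : q' ≠ 0 := by
    obtain ⟨x, hx, hx', hx''⟩ := hI.2 _ (dn_mem AA_mem) q hq hne hq0
    intro h0
    exact hx'' (congrFun (congrArg Subtype.val h0) ⟨x, hx, hx'⟩)
  have hqF : algebraMap (LF (fam M)) (FractionRing (LF (fam M))) q' ≠ 0 := by
    intro h0
    exact hq' (hinj (by rw [h0, map_zero]))
  let z : FractionRing (LF (fam M)) := algebraMap (LF (fam M)) (FractionRing (LF (fam M))) p' /
    algebraMap (LF (fam M)) (FractionRing (LF (fam M))) q'
  have key : ∀ (B : Polynomial MP) (m : ℕ), B.natDegree ≤ m →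
      ((∀ x ∈ fam M, dn (AA x) ≠ 0 → ∑ i ∈ Finset.range (m + 1),
        eval (nu (AA x)) (B.coeff i) * p x ^ i * q x ^ (m - i) = 0) ↔ B.eval₂ f z = 0) := by
    intro B m hB
    have h1 := hom_eval₂ f B m hB (algebraMap (LF (fam M)) (FractionRing (LF (fam M))) p')
      (algebraMap (LF (fam M)) (FractionRing (LF (fam M))) q') hqF
    have h2 : algebraMap (LF (fam M)) (FractionRing (LF (fam M)))
        (∑ i ∈ Finset.range (m + 1), φ (B.coeff i) * p' ^ i * q' ^ (m - i)) =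
        ∑ i ∈ Finset.range (m + 1), f (B.coeff i) *
          algebraMap (LF (fam M)) (FractionRing (LF (fam M))) p' ^ i *
          algebraMap (LF (fam M)) (FractionRing (LF (fam M))) q' ^ (m - i) := by
      rw [map_sum]
      refine Finset.sum_congr rfl fun i _ => ?_
      rw [map_mul, map_mul, map_pow, map_pow]
      rfl
    have h3 : ∀ x : So (fam M) (fun x => dn (AA x)),
        evl x (∑ i ∈ Finset.range (m + 1), φ (B.coeff i) * p' ^ i * q' ^ (m - i)) =
        ∑ i ∈ Finset.range (m + 1), eval (nu (AA (x : CV d e × (Fin 2 → ℂ)))) (B.coeff i) *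
          p x ^ i * q x ^ (m - i) := by
      intro x
      rw [map_sum]
      refine Finset.sum_congr rfl fun i _ => ?_
      rw [map_mul, map_mul, map_pow, map_pow]
      congr 2
      rw [← evl_aeval]
    have h4 : B.eval₂ f z = 0 ↔
        (∑ i ∈ Finset.range (m + 1), φ (B.coeff i) * p' ^ i * q' ^ (m - i)) = 0 := by
      rw [← map_eq_zero_iff _ hinj, h2, h1]
      constructor
      · intro h5
        exact mul_eq_zero_of_right _ h5
      · intro h5
        exact (mul_eq_zero.1 h5).resolve_left (pow_ne_zero _ hqF)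
    rw [h4]
    constructor
    · intro h5
      apply ext_evl
      intro x
      rw [h3, map_zero]
      exact h5 x x.2.1 x.2.2
    · intro h5 x hx hx'
      have h6 := h3 ⟨x, hx, hx'⟩
      rw [h5, map_zero] at h6
      exact h6.symm
  -- the first equation
  let Q : Polynomial MP := ∑ i ∈ Finset.range (n + 1), Polynomial.monomial i (α i)
  have hQc : ∀ i ∈ Finset.range (n + 1), Q.coeff i = α i := by
    intro i hi
    change (∑ i ∈ Finset.range (n + 1), Polynomial.monomial i (α i)).coeff i = α i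
    rw [Polynomial.finsetSum_coeff, Finset.sum_eq_single i]
    · rw [Polynomial.coeff_monomial, if_pos rfl]
    · intro b _ hb
      rw [Polynomial.coeff_monomial, if_neg hb]
    · intro h
      exact absurd hi h
  have hQn : Q.natDegree ≤ n := by
    refine Polynomial.natDegree_sum_le_of_forall_le _ _ fun i hi => ?_
    exact (Polynomial.natDegree_monomial_le _).trans (Nat.lt_succ_iff.1 (Finset.mem_range.1 hi))
  have hQ0 : Q ≠ 0 := by
    intro h0
    have := hQc n (Finset.self_mem_range_succ n)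
    rw [h0, Polynomial.coeff_zero] at this
    exact hα this.symm
  have hQz : Q.eval₂ f z = 0 := by
    rw [← key Q n hQn]
    intro x hx hx'
    rw [← hrel x hx hx']
    refine Finset.sum_congr rfl fun i hi => ?_
    rw [hQc i hi]
    rfl
  obtain ⟨P, hP, hPz⟩ := exists_irred ι z (Q.map (algebraMap MP KK))
    ((Polynomial.map_ne_zero_iff (IsFractionRing.injective MP KK)).2 hQ0)
    (by rw [Polynomial.eval₂_map, hιc, hQz])
  obtain ⟨B, b, hb, hBP⟩ := clear P
  have hBz : B.eval₂ f z = 0 := by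
    rw [← hιc, ← Polynomial.eval₂_map, hBP, Polynomial.eval₂_mul, hPz, mul_zero]
  have hrel' := (key B B.natDegree le_rfl).2 hBz
  have hbK : algebraMap MP KK b ≠ 0 := by
    intro h0
    exact hb ((IsFractionRing.injective MP KK) (by rw [h0, map_zero]))
  have hroot : ∀ (j : Fin 11) (g : (Fin 11 → ℂ) → M5), Good j g →
      ∃ x, (P.map (kp j)).eval x = 0 := by
    intro j g hg
    obtain ⟨ζ, hζ⟩ := root hST hDO hLD hZA hAC hM hne hp hq hq0 hg B _ le_rfl hrel'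
    refine ⟨ζ, ?_⟩
    rw [← Polynomial.eval₂_map, hBP, Polynomial.eval₂_mul, Polynomial.eval₂_C] at hζ
    rw [Polynomial.eval_map]
    exact (mul_eq_zero.1 hζ).resolve_left ((map_ne_zero _).2 hbK)
  have hdeg : P.natDegree = 1 := hFL KK (kp 9) (kp 10) (fun p => kp_apply 9 p)
    (fun p => kp_apply 10 p) P hP (hroot 9 g9 good9) (hroot 10 g10 good10)
  -- the solution
  have hz : z = ι (-P.coeff 0 / P.coeff 1) := solve1 ι z P hdeg hP.ne_zero hPz
  obtain ⟨R₁, R₂, hR₂, hR⟩ := IsFractionRing.div_surjective (A := MP) (-P.coeff 0 / P.coeff 1)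
  have hR₂0 : R₂ ≠ 0 := nonZeroDivisors.ne_zero hR₂
  refine ⟨R₁, R₂, hR₂0, ?_⟩
  have hfR₂ : f R₂ ≠ 0 := by
    intro h0
    exact hR₂0 (hf (by rw [h0, map_zero]))
  have h1 : p' * φ R₂ = q' * φ R₁ := by
    apply hinj
    have h3 : z * f R₂ = f R₁ := frac_eq ι (hι R₁) (hι R₂) hfR₂ (by rw [hz, ← hR])
    have h4 : z * algebraMap (LF (fam M)) (FractionRing (LF (fam M))) q' =
      algebraMap (LF (fam M)) (FractionRing (LF (fam M))) p' := div_mul_cancel₀ _ hqF
    rw [map_mul, map_mul]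
    exact cross h3 h4
  intro x hx hx'
  have h2 := congrArg (evl (⟨x, hx, hx'⟩ : So (fam M) (fun x => dn (AA x)))) h1
  rw [map_mul, map_mul, evl_aeval, evl_aeval] at h2
  exact h2

end MC
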