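import Pool.Agent.Lib.MC.DO
import Pool.Agent.Lib.MC.IX
import Pool.Agent.Lib.MC.AC

set_option autoImplicit false

/-!
# Module KE: the function field of `X` is algebraically closed in that of `M × ℙ¹`
-/

noncomputable section

namespace MC

namespace KEAux

open Matrix MvPolynomial

/-- polynomials in eleven variables -/
abbrev MP : Type := MvPolynomial (Fin 11) ℂ

/-! ### Substitutions -/

/-- the substitution `X_j ↦ X_j ^ 2` -/
def sb (j : Fin 11) : Fin 11 → MP := fun i => if i = j then (X j) ^ 2 else X i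

/-- the substitution `τ_j ↦ τ_j ^ 2` on points -/
def sq (j : Fin 11) (θ : Fin 11 → ℂ) : Fin 11 → ℂ := fun i => if i = j then θ j ^ 2 else θ i

theorem eval_sb (j : Fin 11) (θ : Fin 11 → ℂ) (p : MP) :
    eval θ (bind₁ (sb j) p) = eval (sq j θ) p := by
  have h : (aeval θ : MP →ₐ[ℂ] ℂ).comp (bind₁ (sb j)) = aeval (sq j θ) := by
    apply MvPolynomial.algHom_ext
    intro i
    rw [AlgHom.comp_apply, bind₁_X_right, aeval_X]
    unfold sb sq
    split_ifs with h
    · rw [map_pow, aeval_X]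
    · rw [aeval_X]
  have := congrArg (fun f => f p) h
  simpa [aeval_eq_eval] using this

/-- a polynomial which vanishes for `τ₉ τ₁₀ ≠ 0` is zero -/
theorem zero_of (p : MP) (h : ∀ θ : Fin 11 → ℂ, θ 9 ≠ 0 → θ 10 ≠ 0 → eval θ p = 0) : p = 0 := by
  have h1 : p * (X 9 * X 10) = 0 := by
    apply MvPolynomial.funext
    intro θ
    rw [map_mul, map_mul, eval_X, eval_X, map_zero]
    by_cases h9 : θ 9 = 0
    · rw [h9, zero_mul, mul_zero]
    by_cases h10 : θ 10 = 0
    · rw [h10, mul_zero, mul_zero]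
    rw [h θ h9 h10, zero_mul]
  rcases mul_eq_zero.1 h1 with h2 | h2
  · exact h2
  · rcases mul_eq_zero.1 h2 with h3 | h3 <;> exact absurd h3 (X_ne_zero _)

theorem sb_inj (j : Fin 11) : Function.Injective (bind₁ (sb j) : MP →ₐ[ℂ] MP) := by
  rw [injective_iff_map_eq_zero]
  intro p hp
  apply MvPolynomial.funext
  intro τ
  obtain ⟨b, hb⟩ := IsAlgClosed.exists_pow_nat_eq (τ j) (n := 2) (by norm_num)
  have h1 := eval_sb j (fun i => if i = j then b else τ i) p
  rw [hp, map_zero] at h1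
  have h2 : sq j (fun i => if i = j then b else τ i) = τ := by
    funext i
    unfold sq
    by_cases hi : i = j
    · subst hi
      simp [hb]
    · simp [hi]
  rw [h2] at h1
  rw [← h1, map_zero]

/-- the field of rational functions in eleven variables -/
abbrev KK : Type := FractionRing MP

/-- the substitution on the field -/
def kp (j : Fin 11) : KK →+* KK :=
  IsFractionRing.lift (A := MP) (K := KK)
    (g := (algebraMap MP KK).comp (bind₁ (sb j) : MP →ₐ[ℂ] MP).toRingHom)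
    ((IsFractionRing.injective MP KK).comp (sb_inj j))

theorem kp_apply (j : Fin 11) (p : MP) :
    kp j (algebraMap MP KK p) = algebraMap MP KK (bind₁ (sb j) p) :=
  IsFractionRing.lift_algebraMap _ p

/-- polynomial functions on `ℂ¹¹` -/
theorem poly_mv (f : (Fin 11 → ℂ) → ℂ) (hf : f ∈ Poly (Fin 11 → ℂ)) :
    ∃ G : MP, ∀ θ, eval θ G = f θ := by
  refine Algebra.adjoin_induction (p := fun f _ => ∃ G : MP, ∀ θ, eval θ G = f θ)
    ?_ ?_ ?_ ?_ hf
  · rintro _ ⟨φ, rfl⟩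
    refine ⟨∑ i, C (φ (Pi.single i 1)) * X i, fun θ => ?_⟩
    rw [map_sum]
    simp only [map_mul, eval_C, eval_X]
    have h1 : θ = ∑ i, θ i • (Pi.single i (1 : ℂ) : Fin 11 → ℂ) := by
      funext j
      simp [Finset.sum_apply, Pi.single_apply]
    conv_rhs => rw [h1]
    rw [map_sum]
    refine Finset.sum_congr rfl fun i _ => ?_
    rw [map_smul, smul_eq_mul, mul_comm]
  · intro r
    exact ⟨C r, fun θ => by rw [eval_C]; rfl⟩
  · rintro f g _ _ ⟨F, hF⟩ ⟨G, hG⟩
    exact ⟨F + G, fun θ => by rw [map_add, hF, hG]; rfl⟩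
  · rintro f g _ _ ⟨F, hF⟩ ⟨G, hG⟩
    exact ⟨F * G, fun θ => by rw [map_mul, hF, hG]; rfl⟩

/-! ### Functions on an open set -/

section Fun

variable {V : Type} [AddCommGroup V] [Module ℂ V] (S : Set V) (δ : V → ℂ)

/-- the open set `δ ≠ 0` -/
def So : Set V := {x | x ∈ S ∧ δ x ≠ 0}

/-- the functions `g / δ ^ k` -/
def Lo (hδ : δ ∈ Poly V) : Subalgebra ℂ (So S δ → ℂ) where
  carrier := {f | ∃ g ∈ Poly V, ∃ k : ℕ, ∀ x : So S δ, f x * δ x ^ k = g x}
  mul_mem' := by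
    rintro f f' ⟨g, hg, k, h⟩ ⟨g', hg', k', h'⟩
    refine ⟨g * g', mul_mem hg hg', k + k', fun x => ?_⟩
    simp only [Pi.mul_apply]
    rw [← h, ← h', pow_add]
    ring
  add_mem' := by
    rintro f f' ⟨g, hg, k, h⟩ ⟨g', hg', k', h'⟩
    refine ⟨g * δ ^ k' + g' * δ ^ k, add_mem (mul_mem hg (pow_mem hδ _))
      (mul_mem hg' (pow_mem hδ _)), k + k', fun x => ?_⟩
    simp only [Pi.mul_apply, Pi.add_apply, Pi.pow_apply]
    rw [← h, ← h', pow_add]
    ring
  algebraMap_mem' := fun r => ⟨fun _ => r, (Poly V).algebraMap_mem r, 0, fun x => by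
    rw [pow_zero, mul_one]
    rfl⟩

variable {S δ} {hδ : δ ∈ Poly V}

theorem mem_Lo {f : So S δ → ℂ} : f ∈ Lo S δ hδ ↔
    ∃ g ∈ Poly V, ∃ k : ℕ, ∀ x : So S δ, f x * δ x ^ k = g x := Iff.rfl

theorem restr_mem {g : V → ℂ} (hg : g ∈ Poly V) : (fun x : So S δ => g x) ∈ Lo S δ hδ :=
  ⟨g, hg, 0, fun x => by rw [pow_zero, mul_one]⟩

theorem isDomain_Lo (hS : Irr S) (hne : ∃ x ∈ S, δ x ≠ 0) : IsDomain (Lo S δ hδ) := by
  have hnt : Nontrivial (Lo S δ hδ) := by
    obtain ⟨x, hx, hx'⟩ := hne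
    refine ⟨0, 1, fun h => ?_⟩
    have h1 := congrFun (congrArg Subtype.val h) ⟨x, hx, hx'⟩
    exact zero_ne_one h1
  have hnz : NoZeroDivisors (Lo S δ hδ) := by
    refine ⟨fun {f f'} hff => ?_⟩
    by_contra hcon
    push Not at hcon
    obtain ⟨hf, hf'⟩ := hcon
    obtain ⟨g, hg, k, h⟩ := f.2
    obtain ⟨g', hg', k', h'⟩ := f'.2
    have h1 : ∃ x : So S δ, (f : So S δ → ℂ) x ≠ 0 := by
      by_contra h1
      push Not at h1
      exact hf (Subtype.ext (funext h1))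
    have h1' : ∃ x : So S δ, (f' : So S δ → ℂ) x ≠ 0 := by
      by_contra h1
      push Not at h1
      exact hf' (Subtype.ext (funext h1))
    obtain ⟨x, hx⟩ := h1
    obtain ⟨x', hx'⟩ := h1'
    obtain ⟨y, hyS, hy1, hy2⟩ := hS.2 (g * δ) (mul_mem hg hδ) g' hg'
      ⟨x, x.2.1, mul_ne_zero (by rw [← h x]; exact mul_ne_zero hx (pow_ne_zero _ x.2.2)) x.2.2⟩
      ⟨x', x'.2.1, by rw [← h' x']; exact mul_ne_zero hx' (pow_ne_zero _ x'.2.2)⟩
    rw [Pi.mul_apply] at hy1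
    have hyδ : δ y ≠ 0 := right_ne_zero_of_mul hy1
    let z : So S δ := ⟨y, hyS, hyδ⟩
    have e1 : (f : So S δ → ℂ) z ≠ 0 := by
      intro h0
      have := h z
      rw [h0, zero_mul] at this
      exact left_ne_zero_of_mul hy1 this.symm
    have e2 : (f' : So S δ → ℂ) z ≠ 0 := by
      intro h0
      have := h' z
      rw [h0, zero_mul] at this
      exact hy2 this.symm
    have e3 := congrFun (congrArg Subtype.val hff) z
    exact mul_ne_zero e1 e2 e3
  exact NoZeroDivisors.to_isDomain _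

/-- evaluation at a point -/
def evl (x : So S δ) : Lo S δ hδ →ₐ[ℂ] ℂ := (Pi.evalAlgHom ℂ (fun _ => ℂ) x).comp (Lo S δ hδ).val

theorem evl_apply (x : So S δ) (f : Lo S δ hδ) : evl x f = (f : So S δ → ℂ) x := rfl

theorem ext_evl {f g : Lo S δ hδ} (h : ∀ x, evl x f = evl x g) : f = g :=
  Subtype.ext (funext h)

end Fun

/-! ### The group elements -/

theorem act_block {h k : M5} (hk : h * k = 1) (h3 : ∀ i, k 3 i = if i = 3 then 1 else 0)
    (h4 : ∀ i, k 4 i = if i = 4 then 1 else 0) (A : M5) :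
    act h (Q0, A) = (h.det ^ 2 • Q0, h * A * hᵀ) := by
  unfold act
  refine Prod.ext ?_ rfl
  change (adjugate h)ᵀ * Q0 * adjugate h = h.det ^ 2 • Q0
  rw [IXAux.adj_of_mul hk, transpose_smul, Matrix.smul_mul, Matrix.smul_mul, Matrix.mul_smul,
    smul_smul, ← pow_two]
  congr 1
  ext i j
  rw [IXAux.conj_apply, IXAux.Q0_apply, h3, h3, h4, h4]

section Blocks

variable (x y b g : ℂ)

/-- first block matrix -/
def hA : M5 := !![x, y, 0, 0, 0; -b * y, b * x, 0, 0, 0; 0, 0, g, 0, 0; 0, 0, 0, 1, 0;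
  0, 0, 0, 0, 1]

/-- its inverse -/
def kA : M5 := !![x / g, -y / (b * g), 0, 0, 0; y / g, x / (b * g), 0, 0, 0; 0, 0, 1 / g, 0, 0;
  0, 0, 0, 1, 0; 0, 0, 0, 0, 1]

/-- second block matrix -/
def hB : M5 := !![x, 0, y, 0, 0; 0, g, 0, 0, 0; -b * y, 0, b * x, 0, 0; 0, 0, 0, 1, 0;
  0, 0, 0, 0, 1]

/-- its inverse -/
def kB : M5 := !![x / g, 0, -y / (b * g), 0, 0; 0, 1 / g, 0, 0, 0; y / g, 0, x / (b * g), 0, 0;
  0, 0, 0, 1, 0; 0, 0, 0, 0, 1]

variable {x y b g}

theorem hkA (hxy : x ^ 2 + y ^ 2 = g) (hb : b ≠ 0) (hg : g ≠ 0) : hA x y b g * kA x y b g = 1 := by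
  have e1 : x * (x / g) + y * (y / g) = 1 := by
    field_simp
    exact hxy
  have e2 : x * (-y / (b * g)) + y * (x / (b * g)) = 0 := by
    field_simp
    ring
  have e3 : -b * y * (x / g) + b * x * (y / g) = 0 := by
    field_simp
    ring
  have e4 : -b * y * (-y / (b * g)) + b * x * (x / (b * g)) = 1 := by
    field_simp
    linear_combination hxy
  ext i j
  fin_cases i <;> fin_cases j <;>
    simp [hA, kA, Matrix.mul_apply, Fin.sum_univ_succ, -neg_mul, hg] <;> assumption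

theorem hkB (hxy : x ^ 2 + y ^ 2 = g) (hb : b ≠ 0) (hg : g ≠ 0) : hB x y b g * kB x y b g = 1 := by
  have e1 : x * (x / g) + y * (y / g) = 1 := by
    field_simp
    exact hxy
  have e2 : x * (-y / (b * g)) + y * (x / (b * g)) = 0 := by
    field_simp
    ring
  have e3 : -b * y * (x / g) + b * x * (y / g) = 0 := by
    field_simp
    ring
  have e4 : -b * y * (-y / (b * g)) + b * x * (x / (b * g)) = 1 := by
    field_simp
    linear_combination hxy
  ext i j
  fin_cases i <;> fin_cases j <;>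
    simp [hB, kB, Matrix.mul_apply, Fin.sum_univ_succ, -neg_mul, hg] <;> assumption

theorem hDA (hxy : x ^ 2 + y ^ 2 = g) :
    hA x y b g * Dm 1 1 * (hA x y b g)ᵀ = g • Dm (b ^ 2) g := by
  ext i j
  rw [Dm, Dm, Matrix.mul_apply]
  simp only [Matrix.mul_diagonal, Matrix.transpose_apply, Matrix.smul_apply,
    Matrix.diagonal_apply]
  fin_cases i <;> fin_cases j <;> simp [hA, Fin.sum_univ_succ] <;>
    first | linear_combination hxy | linear_combination b ^ 2 * hxy | ring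

theorem hDB (hxy : x ^ 2 + y ^ 2 = g) :
    hB x y b g * Dm 1 1 * (hB x y b g)ᵀ = g • Dm g (b ^ 2) := by
  ext i j
  rw [Dm, Dm, Matrix.mul_apply]
  simp only [Matrix.mul_diagonal, Matrix.transpose_apply, Matrix.smul_apply,
    Matrix.diagonal_apply]
  fin_cases i <;> fin_cases j <;> simp [hB, Fin.sum_univ_succ] <;>
    first | linear_combination hxy | linear_combination b ^ 2 * hxy | ring

end Blocks

/-- the numbers `x`, `y` with `x ^ 2 + y ^ 2 = g` -/
theorem sum_sq (g : ℂ) : ((g + 1) / 2) ^ 2 + (-(Complex.I * (g - 1) / 2)) ^ 2 = g := by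
  linear_combination ((g - 1) ^ 2 / 4) * Complex.I_sq

/-- the element of `GL₅` for the substitution `β = b ^ 2` -/
def g9 (θ : Fin 11 → ℂ) : M5 :=
  Nm θ * hA ((θ 10 + 1) / 2) (-(Complex.I * (θ 10 - 1) / 2)) (θ 9) (θ 10)

/-- the element of `GL₅` for the substitution `γ = c ^ 2` -/
def g10 (θ : Fin 11 → ℂ) : M5 :=
  Nm θ * hB ((θ 9 + 1) / 2) (-(Complex.I * (θ 9 - 1) / 2)) (θ 10) (θ 9)

theorem det_Nm (θ : Fin 11 → ℂ) : (Nm θ).det = 1 := by
  rw [Matrix.det_of_isLowerTriangular]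
  · simp [Nm, Fin.prod_univ_succ]
  · intro i j hij
    have hij' : i < j := hij
    clear hij
    fin_cases i <;> fin_cases j <;> first | rfl | exact absurd hij' (by decide)

theorem det_ne {h k : M5} (hk : h * k = 1) : h.det ≠ 0 := by
  intro h0
  have := congrArg Matrix.det hk
  rw [det_mul, h0, zero_mul, det_one] at this
  exact zero_ne_one this

/-- the properties of the group elements which are needed -/
structure Good (j : Fin 11) (g : (Fin 11 → ℂ) → M5) : Prop where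
  poly : ∀ i k, (fun θ => g θ i k) ∈ Poly (Fin 11 → ℂ)
  det : ∀ θ, θ 9 ≠ 0 → θ 10 ≠ 0 → (g θ).det ≠ 0
  same : ∀ θ, θ 9 ≠ 0 → θ 10 ≠ 0 → Same (pt (sq j θ)) (act (g θ) (Q0, Dm 1 1))

theorem Nm_sq9 (θ : Fin 11 → ℂ) : Nm (sq 9 θ) = Nm θ := by
  simp [Nm, sq]

theorem Nm_sq10 (θ : Fin 11 → ℂ) : Nm (sq 10 θ) = Nm θ := by
  simp [Nm, sq]

theorem coord_mem (i : Fin 11) : (fun θ : Fin 11 → ℂ => θ i) ∈ Poly (Fin 11 → ℂ) :=
  Algebra.subset_adjoin ⟨LinearMap.proj i, rfl⟩

theorem const_mem {V : Type} [AddCommGroup V] [Module ℂ V] (c : ℂ) : (fun _ : V => c) ∈ Poly V :=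
  (Poly V).algebraMap_mem c

theorem mpoly_Nm : ACAux.MPoly (fun θ : Fin 11 → ℂ => Nm θ) := by
  intro i j
  fin_cases i <;> fin_cases j <;> first | exact const_mem _ | exact coord_mem _

theorem half_mem (i : Fin 11) : (fun θ : Fin 11 → ℂ => (θ i + 1) / 2) ∈ Poly (Fin 11 → ℂ) := by
  have := mul_mem (add_mem (coord_mem i) (const_mem 1)) (const_mem (V := Fin 11 → ℂ) (2⁻¹ : ℂ))
  exact this

theorem half'_mem (i : Fin 11) :
    (fun θ : Fin 11 → ℂ => -(Complex.I * (θ i - 1) / 2)) ∈ Poly (Fin 11 → ℂ) := by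
  have := neg_mem (mul_mem (mul_mem (const_mem Complex.I) (sub_mem (coord_mem i) (const_mem 1)))
    (const_mem (V := Fin 11 → ℂ) (2⁻¹ : ℂ)))
  exact this

theorem nmul_mem (i j : Fin 11) :
    (fun θ : Fin 11 → ℂ => -θ i * -(Complex.I * (θ j - 1) / 2)) ∈ Poly (Fin 11 → ℂ) :=
  mul_mem (neg_mem (coord_mem i)) (half'_mem j)

theorem pmul_mem (i j : Fin 11) :
    (fun θ : Fin 11 → ℂ => θ i * ((θ j + 1) / 2)) ∈ Poly (Fin 11 → ℂ) :=
  mul_mem (coord_mem i) (half_mem j)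

section Entries

variable {V : Type} [AddCommGroup V] [Module ℂ V] {x y b g : V → ℂ}

theorem mpoly_hA (hx : x ∈ Poly V) (hy : y ∈ Poly V) (hg : g ∈ Poly V)
    (h1 : (fun v => -b v * y v) ∈ Poly V) (h2 : (fun v => b v * x v) ∈ Poly V) :
    ACAux.MPoly (fun v => hA (x v) (y v) (b v) (g v)) := by
  have c0 : (fun _ : V => (0 : ℂ)) ∈ Poly V := const_mem 0
  have c1 : (fun _ : V => (1 : ℂ)) ∈ Poly V := const_mem 1
  intro i j
  fin_cases i <;> fin_cases j <;>
    first | exact c0 | exact c1 | exact hx | exact hy | exact hg | exact h1 | exact h2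

theorem mpoly_hB (hx : x ∈ Poly V) (hy : y ∈ Poly V) (hg : g ∈ Poly V)
    (h1 : (fun v => -b v * y v) ∈ Poly V) (h2 : (fun v => b v * x v) ∈ Poly V) :
    ACAux.MPoly (fun v => hB (x v) (y v) (b v) (g v)) := by
  have c0 : (fun _ : V => (0 : ℂ)) ∈ Poly V := const_mem 0
  have c1 : (fun _ : V => (1 : ℂ)) ∈ Poly V := const_mem 1
  intro i j
  fin_cases i <;> fin_cases j <;>
    first | exact c0 | exact c1 | exact hx | exact hy | exact hg | exact h1 | exact h2

end Entries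

theorem good9 : Good 9 g9 := by
  refine ⟨fun i k => ?_, fun θ h9 h10 => ?_, fun θ h9 h10 => ?_⟩
  · have h := mpoly_Nm.mul (mpoly_hA (half_mem 10) (half'_mem 10) (coord_mem 10) (nmul_mem 9 10)
      (pmul_mem 9 10)) i k
    unfold g9
    exact h
  · rw [g9, det_mul, det_Nm, one_mul]
    exact det_ne (hkA (sum_sq _) h9 h10)
  · rw [g9, ← IXAux.act_act, act_block (hkA (sum_sq _) h9 h10) (by intro i; fin_cases i <;> simp [kA])
      (by intro i; fin_cases i <;> simp [kA]), hDA (sum_sq _)]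
    refine ⟨_, θ 10, pow_ne_zero 2 (det_ne (hkA (sum_sq (θ 10)) h9 h10)), h10, ?_⟩
    have h1 : pt (sq 9 θ) = act (Nm θ) (Q0, Dm (θ 9 ^ 2) (θ 10)) := by
      rw [pt, Nm_sq9]
      simp [sq]
    rw [h1, ← IXAux.act_scal]
    rfl

theorem good10 : Good 10 g10 := by
  refine ⟨fun i k => ?_, fun θ h9 h10 => ?_, fun θ h9 h10 => ?_⟩
  · have h := mpoly_Nm.mul (mpoly_hB (half_mem 9) (half'_mem 9) (coord_mem 9) (nmul_mem 10 9)
      (pmul_mem 10 9)) i k
    unfold g10
    exact h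
  · rw [g10, det_mul, det_Nm, one_mul]
    exact det_ne (hkB (sum_sq _) h10 h9)
  · rw [g10, ← IXAux.act_act, act_block (hkB (sum_sq _) h10 h9) (by intro i; fin_cases i <;> simp [kB])
      (by intro i; fin_cases i <;> simp [kB]), hDB (sum_sq _)]
    refine ⟨_, θ 9, pow_ne_zero 2 (det_ne (hkB (sum_sq (θ 9)) h10 h9)), h9, ?_⟩
    have h1 : pt (sq 10 θ) = act (Nm θ) (Q0, Dm (θ 9) (θ 10 ^ 2)) := by
      rw [pt, Nm_sq10]
      simp [sq]
    rw [h1, ← IXAux.act_scal]
    rfl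

end KEAux

end MC
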