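import Pool.Agent.Lib.MC.Stmts2

set_option autoImplicit false

/-!
# Two Manin components of the same class (MP_ac098b_ag): module `KX`, the canonical class
-/

noncomputable section

namespace MC
namespace KXAux

open Matrix Kronecker

abbrev M33 : Type := Matrix (Fin 3) (Fin 3) ℂ
abbrev M32 : Type := Matrix (Fin 3) (Fin 2) ℂ
abbrev M23 : Type := Matrix (Fin 2) (Fin 3) ℂ
abbrev M22 : Type := Matrix (Fin 2) (Fin 2) ℂ

/-- block matrices -/
def Bk (a : M33) (b : M32) (c : M23) (d : M22) : M5 :=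
  Matrix.reindex finSumFinEquiv finSumFinEquiv (fromBlocks a b c d)

theorem Bk_mul (a a' : M33) (b b' : M32) (c c' : M23) (d d' : M22) :
    Bk a b c d * Bk a' b' c' d' =
      Bk (a * a' + b * c') (a * b' + b * d') (c * a' + d * c') (c * b' + d * d') := by
  unfold Bk
  rw [← fromBlocks_multiply]
  simp only [Matrix.reindex_apply]
  exact Matrix.submatrix_mul_equiv _ _ _ _ _

theorem Bk_transpose (a : M33) (b : M32) (c : M23) (d : M22) :
    (Bk a b c d)ᵀ = Bk aᵀ cᵀ bᵀ dᵀ := by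
  unfold Bk
  rw [← fromBlocks_transpose]
  rfl

theorem Bk_one : Bk 1 0 0 1 = 1 := by
  unfold Bk
  rw [fromBlocks_one]
  simp

theorem Bk_smul (t : ℂ) (a : M33) (b : M32) (c : M23) (d : M22) :
    t • Bk a b c d = Bk (t • a) (t • b) (t • c) (t • d) := by
  unfold Bk
  rw [← fromBlocks_smul]
  rfl

theorem Bk_det_upper (a : M33) (b : M32) (d : M22) : (Bk a b 0 d).det = a.det * d.det := by
  unfold Bk
  rw [Matrix.det_reindex_self, Matrix.det_fromBlocks_zero₂₁]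

theorem Bk_det_lower (a : M33) (c : M23) (d : M22) : (Bk a 0 c d).det = a.det * d.det := by
  unfold Bk
  rw [Matrix.det_reindex_self, Matrix.det_fromBlocks_zero₁₂]

theorem Bk_surj (g : M5) : ∃ a b c d, g = Bk a b c d := by
  let e : Fin 3 ⊕ Fin 2 ≃ Fin 5 := finSumFinEquiv
  refine ⟨(Matrix.reindex e.symm e.symm g).toBlocks₁₁,
    (Matrix.reindex e.symm e.symm g).toBlocks₁₂,
    (Matrix.reindex e.symm e.symm g).toBlocks₂₁,
    (Matrix.reindex e.symm e.symm g).toBlocks₂₂, ?_⟩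
  unfold Bk
  rw [fromBlocks_toBlocks]
  ext i j
  change g i j = g (e (e.symm i)) (e (e.symm j))
  rw [e.apply_symm_apply, e.apply_symm_apply]

theorem Bk_inj {a a' : M33} {b b' : M32} {c c' : M23} {d d' : M22}
    (h : Bk a b c d = Bk a' b' c' d') : a = a' ∧ b = b' ∧ c = c' ∧ d = d' := by
  unfold Bk at h
  have := (Matrix.reindex finSumFinEquiv finSumFinEquiv).injective h
  exact Matrix.fromBlocks_inj.1 this

/-- the skew `2 × 2` matrix -/
def J : M22 := !![0, 1; -1, 0]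

theorem Q0_eq : Q0 = Bk 0 0 0 J := by
  ext i j
  fin_cases i <;> fin_cases j <;> simp [Q0, Matrix.single] <;> rfl

/-- the unipotent matrix -/
def Nb (Z : M23) : M5 := Bk 1 0 Z 1

/-- the matrix `Z` of a point -/
def Zc (w : Fin 13 → ℂ) : M23 := !![w 0, w 1, w 2; w 3, w 4, w 5]

/-- the matrix `P` of a point -/
def Pc (w : Fin 13 → ℂ) : M33 := !![w 6, w 7, w 8; w 7, w 9, w 10; w 8, w 10, w 11]

/-- the point with given matrices -/
def pk (Z : M23) (P : M33) (t : ℂ) : Fin 13 → ℂ :=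
  ![Z 0 0, Z 0 1, Z 0 2, Z 1 0, Z 1 1, Z 1 2, P 0 0, P 0 1, P 0 2, P 1 1, P 1 2, P 2 2, t]

theorem Nz_eq (w : Fin 13 → ℂ) : Nz ![w 0, w 1, w 2, w 3, w 4, w 5] = Nb (Zc w) := by
  ext i j
  fin_cases i <;> fin_cases j <;> rfl

theorem Sy_eq (w : Fin 13 → ℂ) : Sy (w 6) (w 7) (w 8) (w 9) (w 10) (w 11) = Bk (Pc w) 0 0 0 := by
  ext i j
  fin_cases i <;> fin_cases j <;> rfl

/-- the chart in terms of matrices -/
def ThB (Z : M23) (P : M33) (t : ℂ) : M5 × M5 := act (Nb Z) (t • Q0, Bk P 0 0 0)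

theorem Th_eq (w : Fin 13 → ℂ) : Th w = ThB (Zc w) (Pc w) (w 12) := by
  unfold Th ThB
  rw [Nz_eq, Sy_eq]

theorem Zc_pk (Z : M23) (P : M33) (t : ℂ) : Zc (pk Z P t) = Z := by
  ext i j
  fin_cases i <;> fin_cases j <;> rfl

theorem Pc_pk (Z : M23) {P : M33} (hP : Pᵀ = P) (t : ℂ) : Pc (pk Z P t) = P := by
  have h : ∀ i j, P j i = P i j := fun i j => congrFun (congrFun hP i) j
  ext i j
  fin_cases i <;> fin_cases j
  · rfl
  · rfl
  · rfl
  · exact h 1 0
  · rfl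
  · rfl
  · exact h 2 0
  · exact h 2 1
  · rfl

theorem Pc_symm (w : Fin 13 → ℂ) : (Pc w)ᵀ = Pc w := by
  ext i j
  fin_cases i <;> fin_cases j <;> rfl

theorem pk_c (w : Fin 13 → ℂ) : pk (Zc w) (Pc w) (w 12) = w := by
  funext i
  fin_cases i <;> rfl

theorem Th_pk (Z : M23) {P : M33} (hP : Pᵀ = P) (t : ℂ) : Th (pk Z P t) = ThB Z P t := by
  rw [Th_eq, Zc_pk, Pc_pk Z hP]
  rfl

theorem Nb_mul (Z Z' : M23) : Nb Z * Nb Z' = Nb (Z + Z') := by
  unfold Nb
  rw [Bk_mul]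
  simp

theorem Nb_det (Z : M23) : (Nb Z).det = 1 := by
  unfold Nb
  rw [Bk_det_lower]
  simp

theorem adj_of_mul {g h : M5} (hgh : g * h = 1) : adjugate g = g.det • h := by
  have h1 : adjugate g * (g * h) = g.det • h := by
    rw [← Matrix.mul_assoc, adjugate_mul, Matrix.smul_mul, Matrix.one_mul]
  rwa [hgh, Matrix.mul_one] at h1

theorem Nb_adj (Z : M23) : adjugate (Nb Z) = Nb (-Z) := by
  have h : Nb Z * Nb (-Z) = 1 := by
    rw [Nb_mul, add_neg_cancel]
    exact Bk_one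
  rw [adj_of_mul h, Nb_det, one_smul]

theorem ThB_fst (Z : M23) (P : M33) (t : ℂ) :
    (ThB Z P t).1 = t • Bk (Zᵀ * J * Z) (-(Zᵀ * J)) (-(J * Z)) J := by
  change (adjugate (Nb Z))ᵀ * (t • Q0) * adjugate (Nb Z) = _
  rw [Nb_adj, Nb, Bk_transpose, Q0_eq, Matrix.mul_smul, Matrix.smul_mul, Bk_mul, Bk_mul]
  simp

theorem ThB_snd (Z : M23) (P : M33) (t : ℂ) :
    (ThB Z P t).2 = Bk P (P * Zᵀ) (Z * P) (Z * P * Zᵀ) := by
  change Nb Z * Bk P 0 0 0 * (Nb Z)ᵀ = _
  rw [Nb, Bk_transpose, Bk_mul, Bk_mul]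
  simp

theorem Ti_ThB (Z : M23) (P : M33) {t : ℂ} (ht : t ≠ 0) : Ti (ThB Z P t) = pk Z P t := by
  have h1 := ThB_fst Z P t
  have h2 := ThB_snd Z P t
  have e : ∀ i j, (ThB Z P t).1 i j = t * Bk (Zᵀ * J * Z) (-(Zᵀ * J)) (-(J * Z)) J i j := by
    intro i j; rw [h1]; rfl
  have b34 : Bk (Zᵀ * J * Z) (-(Zᵀ * J)) (-(J * Z)) J 3 4 = 1 := rfl
  have b04 : Bk (Zᵀ * J * Z) (-(Zᵀ * J)) (-(J * Z)) J 0 4 = (-(Zᵀ * J)) 0 1 := rfl
  have b14 : Bk (Zᵀ * J * Z) (-(Zᵀ * J)) (-(J * Z)) J 1 4 = (-(Zᵀ * J)) 1 1 := rfl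
  have b24 : Bk (Zᵀ * J * Z) (-(Zᵀ * J)) (-(J * Z)) J 2 4 = (-(Zᵀ * J)) 2 1 := rfl
  have b30 : Bk (Zᵀ * J * Z) (-(Zᵀ * J)) (-(J * Z)) J 3 0 = (-(J * Z)) 0 0 := rfl
  have b31 : Bk (Zᵀ * J * Z) (-(Zᵀ * J)) (-(J * Z)) J 3 1 = (-(J * Z)) 0 1 := rfl
  have b32 : Bk (Zᵀ * J * Z) (-(Zᵀ * J)) (-(J * Z)) J 3 2 = (-(J * Z)) 0 2 := rfl
  have k : ∀ i, (-(Zᵀ * J)) i 1 = -Z 0 i := by
    intro i
    simp [Matrix.mul_apply, J, Fin.sum_univ_two]
  have k' : ∀ i, (-(J * Z)) 0 i = -Z 1 i := by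
    intro i
    rw [Matrix.neg_apply, Matrix.mul_apply, Fin.sum_univ_two]
    simp [J]
  funext i
  fin_cases i
  · change -(ThB Z P t).1 0 4 / (ThB Z P t).1 3 4 = Z 0 0
    rw [e, e, b34, b04, k]; field_simp
  · change -(ThB Z P t).1 1 4 / (ThB Z P t).1 3 4 = Z 0 1
    rw [e, e, b34, b14, k]; field_simp
  · change -(ThB Z P t).1 2 4 / (ThB Z P t).1 3 4 = Z 0 2
    rw [e, e, b34, b24, k]; field_simp
  · change -(ThB Z P t).1 3 0 / (ThB Z P t).1 3 4 = Z 1 0
    rw [e, e, b34, b30, k']; field_simp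
  · change -(ThB Z P t).1 3 1 / (ThB Z P t).1 3 4 = Z 1 1
    rw [e, e, b34, b31, k']; field_simp
  · change -(ThB Z P t).1 3 2 / (ThB Z P t).1 3 4 = Z 1 2
    rw [e, e, b34, b32, k']; field_simp
  · change (ThB Z P t).2 0 0 = P 0 0
    rw [h2]; rfl
  · change (ThB Z P t).2 0 1 = P 0 1
    rw [h2]; rfl
  · change (ThB Z P t).2 0 2 = P 0 2
    rw [h2]; rfl
  · change (ThB Z P t).2 1 1 = P 1 1
    rw [h2]; rfl
  · change (ThB Z P t).2 1 2 = P 1 2
    rw [h2]; rfl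
  · change (ThB Z P t).2 2 2 = P 2 2
    rw [h2]; rfl
  · change (ThB Z P t).1 3 4 = t
    rw [e, b34, mul_one]

/-- the action of `GL₅` in the chart -/
theorem act_ThB {a : M33} {b : M32} {c : M23} {d : M22} (hg : (Bk a b c d).det ≠ 0) (Z : M23)
    (P : M33) (t : ℂ) (hm : (a + b * Z).det ≠ 0) : act (Bk a b c d) (ThB Z P t) =
      ThB ((c + d * Z) * (a + b * Z)⁻¹) ((a + b * Z) * P * (a + b * Z)ᵀ)
        ((Bk a b c d).det * (a + b * Z).det * t) := by
  set m : M33 := a + b * Z with hmdef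
  set Z' : M23 := (c + d * Z) * m⁻¹ with hZ'
  have hmu : IsUnit m.det := isUnit_iff_ne_zero.2 hm
  have hm1 : m * m⁻¹ = 1 := Matrix.mul_nonsing_inv m hmu
  have hm2 : m⁻¹ * m = 1 := Matrix.nonsing_inv_mul m hmu
  have hZm : Z' * m = c + d * Z := by
    rw [hZ', Matrix.mul_assoc, hm2, Matrix.mul_one]
  set d' : M22 := d - Z' * b with hd'
  have hf : Bk a b c d * Nb Z = Nb Z' * Bk m b 0 d' := by
    rw [Nb, Nb, Bk_mul, Bk_mul]
    congr 1
    · simp [hmdef]
    · simp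
    · simp [hZm]
    · simp [hd']
  have hdet : (Bk a b c d).det = m.det * d'.det := by
    have h := congrArg Matrix.det hf
    rw [Matrix.det_mul, Matrix.det_mul, Nb_det, Nb_det, Bk_det_upper, mul_one, one_mul] at h
    exact h
  have hd0 : d'.det ≠ 0 := fun h => hg (by rw [hdet, h, mul_zero])
  have hdu : IsUnit d'.det := isUnit_iff_ne_zero.2 hd0
  have hd1 : d' * d'⁻¹ = 1 := Matrix.mul_nonsing_inv d' hdu
  have hinv : Bk m b 0 d' * Bk m⁻¹ (-(m⁻¹ * b * d'⁻¹)) 0 d'⁻¹ = 1 := by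
    rw [Bk_mul, ← Bk_one]
    congr 1
    · simp [hm1]
    · rw [Matrix.mul_neg, ← Matrix.mul_assoc, ← Matrix.mul_assoc, hm1, Matrix.one_mul]
      simp
    · simp
    · simp [hd1]
  have hadj := adj_of_mul hinv
  rw [Bk_det_upper] at hadj
  have haa : ∀ (g h : M5) (x : M5 × M5), act g (act h x) = act (g * h) x := by
    intro g h x
    refine Prod.ext ?_ ?_
    · change (adjugate g)ᵀ * ((adjugate h)ᵀ * x.1 * adjugate h) * adjugate g =
        (adjugate (g * h))ᵀ * x.1 * adjugate (g * h)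
      rw [Matrix.adjugate_mul_distrib, Matrix.transpose_mul]
      simp only [Matrix.mul_assoc]
    · change g * (h * x.2 * hᵀ) * gᵀ = g * h * x.2 * (g * h)ᵀ
      rw [Matrix.transpose_mul]
      simp only [Matrix.mul_assoc]
  unfold ThB
  rw [haa, hf, ← haa]
  congr 1
  refine Prod.ext ?_ ?_
  · change (adjugate (Bk m b 0 d'))ᵀ * (t • Q0) * adjugate (Bk m b 0 d') =
      ((Bk a b c d).det * m.det * t) • Q0
    have hJ : (d'⁻¹)ᵀ * J * d'⁻¹ = (d'.det)⁻¹ • J := by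
      have h1 : (d'⁻¹).det = (d'.det)⁻¹ := by
        rw [Matrix.det_nonsing_inv, Ring.inverse_eq_inv']
      rw [← h1, Matrix.det_fin_two]
      ext i j
      fin_cases i <;> fin_cases j <;> simp [J, Matrix.mul_apply, Fin.sum_univ_two] <;> ring
    rw [hadj, Q0_eq, Matrix.transpose_smul, Bk_transpose, Matrix.mul_smul, Matrix.mul_smul,
      Matrix.smul_mul, Matrix.smul_mul, Matrix.smul_mul, Bk_mul, Bk_mul]
    simp only [Matrix.mul_zero, Matrix.zero_mul, add_zero, zero_add, Matrix.transpose_zero]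
    rw [hJ, Bk_smul, Bk_smul, Bk_smul, Bk_smul]
    simp only [smul_zero, smul_smul]
    congr 1
    congr 1
    rw [hdet]
    field_simp
  · change Bk m b 0 d' * Bk P 0 0 0 * (Bk m b 0 d')ᵀ = Bk (m * P * mᵀ) 0 0 0
    rw [Bk_transpose, Bk_mul, Bk_mul]
    simp

/-- the last coordinate -/
theorem act_fst {a : M33} {b : M32} {c : M23} {d : M22} (hg : (Bk a b c d).det ≠ 0) (Z : M23)
    (P : M33) (t : ℂ) : (act (Bk a b c d) (ThB Z P t)).1 3 4 =
      (Bk a b c d).det * (a + b * Z).det * t := by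
  set G : M5 := Bk a b c d * Nb Z with hG
  have hGd : G.det = (Bk a b c d).det := by rw [hG, Matrix.det_mul, Nb_det, mul_one]
  have hG0 : G.det ≠ 0 := by rwa [hGd]
  have hGb : G = Bk (a + b * Z) b (c + d * Z) d := by
    rw [hG, Nb, Bk_mul]
    simp
  obtain ⟨p, q, r, s, hs⟩ := Bk_surj G⁻¹
  have hGi : G * G⁻¹ = 1 := Matrix.mul_nonsing_inv G (isUnit_iff_ne_zero.2 hG0)
  have hadj := adj_of_mul hGi
  rw [hs, hGb, Bk_mul, ← Bk_one] at hGi
  obtain ⟨-, h2, -, h4⟩ := Bk_inj hGi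
  have hsd : G.det * s.det = (a + b * Z).det := by
    have h5 : G * Bk 1 q 0 s = Bk (a + b * Z) 0 (c + d * Z) 1 := by
      rw [hGb, Bk_mul, h2, h4]
      simp
    have h6 := congrArg Matrix.det h5
    rw [Matrix.det_mul, Bk_det_upper, Bk_det_lower] at h6
    simpa using h6
  have e1 : (act (Bk a b c d) (ThB Z P t)).1 = (adjugate G)ᵀ * (t • Q0) * adjugate G := by
    change (adjugate (Bk a b c d))ᵀ * ((adjugate (Nb Z))ᵀ * (t • Q0) * adjugate (Nb Z)) *
      adjugate (Bk a b c d) = _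
    rw [hG, Matrix.adjugate_mul_distrib, Matrix.transpose_mul]
    simp only [Matrix.mul_assoc]
  have e2 : sᵀ * J * s = s.det • J := by
    rw [Matrix.det_fin_two]
    ext i j
    fin_cases i <;> fin_cases j <;> simp [J, Matrix.mul_apply, Fin.sum_univ_two] <;> ring
  rw [e1, hadj, hs, Q0_eq, Matrix.transpose_smul, Bk_transpose, Matrix.mul_smul, Matrix.mul_smul,
    Matrix.smul_mul, Matrix.smul_mul, Matrix.smul_mul, Bk_mul, Bk_mul]
  simp only [Matrix.mul_zero, Matrix.zero_mul, add_zero, zero_add]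
  rw [e2]
  have e3 : ∀ (x : M33) (y : M32) (z : M23) (k : ℂ), (G.det • t • G.det • Bk x y z (k • J)) 3 4 =
      G.det * (t * (G.det * (k * 1))) := fun _ _ _ _ => rfl
  rw [e3, ← hsd, hGd]
  ring

theorem Bk_ll (a : M33) (b : M32) (c : M23) (d : M22) (i j : Fin 3) :
    Bk a b c d (Fin.castAdd 2 i) (Fin.castAdd 2 j) = a i j := by
  fin_cases i <;> fin_cases j <;> rfl

theorem Bk_lr (a : M33) (b : M32) (c : M23) (d : M22) (i : Fin 3) (j : Fin 2) :
    Bk a b c d (Fin.castAdd 2 i) (Fin.natAdd 3 j) = b i j := by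
  fin_cases i <;> fin_cases j <;> rfl

theorem Bk_rl (a : M33) (b : M32) (c : M23) (d : M22) (i : Fin 2) (j : Fin 3) :
    Bk a b c d (Fin.natAdd 3 i) (Fin.castAdd 2 j) = c i j := by
  fin_cases i <;> fin_cases j <;> rfl

theorem Bk_rr (a : M33) (b : M32) (c : M23) (d : M22) (i j : Fin 2) :
    Bk a b c d (Fin.natAdd 3 i) (Fin.natAdd 3 j) = d i j := by
  fin_cases i <;> fin_cases j <;> rfl

theorem eq_Bk {x : M5} {a : M33} {b : M32} {c : M23} {d : M22}
    (h1 : ∀ i j, x (Fin.castAdd 2 i) (Fin.castAdd 2 j) = a i j)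
    (h2 : ∀ i j, x (Fin.castAdd 2 i) (Fin.natAdd 3 j) = b i j)
    (h3 : ∀ i j, x (Fin.natAdd 3 i) (Fin.castAdd 2 j) = c i j)
    (h4 : ∀ i j, x (Fin.natAdd 3 i) (Fin.natAdd 3 j) = d i j) : x = Bk a b c d := by
  obtain ⟨a', b', c', d', rfl⟩ := Bk_surj x
  have e1 : a' = a := by ext i j; rw [← h1, Bk_ll]
  have e2 : b' = b := by ext i j; rw [← h2, Bk_lr]
  have e3 : c' = c := by ext i j; rw [← h3, Bk_rl]
  have e4 : d' = d := by ext i j; rw [← h4, Bk_rr]
  rw [e1, e2, e3, e4]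

/-- part one -/
theorem part1 {x : M5 × M5} (hx : x ∈ Cone) (h : x.1 3 4 ≠ 0) : Th (Ti x) = x := by
  obtain ⟨hs, hp, -, hA, -, hAQ⟩ := hx
  rw [Th_eq]
  have hsk : ∀ i j, x.1 j i = -x.1 i j := fun i j => congrFun (congrFun hs i) j
  have hsy : ∀ i j, x.2 j i = x.2 i j := fun i j => congrFun (congrFun hA i) j
  have hdiag : ∀ i, x.1 i i = 0 := by
    intro i
    have h44 := hsk i i
    have : (2 : ℂ) * x.1 i i = 0 := by linear_combination h44
    simpa using this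
  have hq : ∀ i j, x.1 i j = (x.1 i 4 * x.1 3 j - x.1 3 i * x.1 j 4) / x.1 3 4 := by
    intro i j
    have h1 := hp i j 3 4
    have h2 := hsk 3 j
    have h3 := hsk 3 i
    rw [eq_div_iff h]
    rw [h2, h3] at h1
    linear_combination h1
  set Z : M23 := Zc (Ti x) with hZ
  have hZ0 : ∀ i : Fin 3, Z 0 i = -x.1 (Fin.castAdd 2 i) 4 / x.1 3 4 := by
    intro i; fin_cases i <;> rfl
  have hZ1 : ∀ i : Fin 3, Z 1 i = -x.1 3 (Fin.castAdd 2 i) / x.1 3 4 := by
    intro i; fin_cases i <;> rfl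
  have hP : ∀ i j : Fin 3, x.2 (Fin.castAdd 2 i) (Fin.castAdd 2 j) = Pc (Ti x) i j := by
    intro i j
    fin_cases i <;> fin_cases j
    · rfl
    · rfl
    · rfl
    · exact hsy 0 1
    · rfl
    · rfl
    · exact hsy 0 2
    · exact hsy 1 2
    · rfl
  have hA3 : ∀ i, x.2 i 3 = ∑ j : Fin 3, x.2 i (Fin.castAdd 2 j) * Z 0 j := by
    intro i
    have h1 := congrFun (congrFun hAQ i) 4
    rw [Matrix.mul_apply, Fin.sum_univ_five, hdiag, Matrix.zero_apply] at h1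
    rw [Fin.sum_univ_three, hZ0, hZ0, hZ0]
    change x.2 i 3 = x.2 i 0 * (-x.1 0 4 / x.1 3 4) + x.2 i 1 * (-x.1 1 4 / x.1 3 4) +
      x.2 i 2 * (-x.1 2 4 / x.1 3 4)
    field_simp
    linear_combination h1
  have hA4 : ∀ i, x.2 i 4 = ∑ j : Fin 3, x.2 i (Fin.castAdd 2 j) * Z 1 j := by
    intro i
    have h1 := congrFun (congrFun hAQ i) 3
    rw [Matrix.mul_apply, Fin.sum_univ_five, hdiag, Matrix.zero_apply, hsk 3 0, hsk 3 1, hsk 3 2,
      hsk 3 4] at h1
    rw [Fin.sum_univ_three, hZ1, hZ1, hZ1]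
    change x.2 i 4 = x.2 i 0 * (-x.1 3 0 / x.1 3 4) + x.2 i 1 * (-x.1 3 1 / x.1 3 4) +
      x.2 i 2 * (-x.1 3 2 / x.1 3 4)
    field_simp
    linear_combination -h1
  have hA34 : ∀ i (α : Fin 2), x.2 i (Fin.natAdd 3 α) =
      ∑ j : Fin 3, x.2 i (Fin.castAdd 2 j) * Z α j := by
    intro i α
    fin_cases α
    · exact hA3 i
    · exact hA4 i
  refine Prod.ext ?_ ?_
  · rw [ThB_fst, Bk_smul]
    symm
    apply eq_Bk
    · intro i j
      change _ = x.1 3 4 * (Zᵀ * J * Z) i j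
      have : (Zᵀ * J * Z) i j = Z 0 i * Z 1 j - Z 1 i * Z 0 j := by
        rw [Matrix.mul_apply, Fin.sum_univ_two, Matrix.mul_apply, Fin.sum_univ_two,
          Matrix.mul_apply, Fin.sum_univ_two]
        simp [J]
        ring
      rw [this, hZ0, hZ0, hZ1, hZ1, hq]
      field_simp
    · intro i j
      change _ = x.1 3 4 * (-(Zᵀ * J)) i j
      rw [Matrix.neg_apply, Matrix.mul_apply, Fin.sum_univ_two]
      fin_cases j
      · change x.1 (Fin.castAdd 2 i) 3 = _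
        rw [hsk 3]
        simp [J, hZ1]
        field_simp
      · change x.1 (Fin.castAdd 2 i) 4 = _
        simp [J, hZ0]
        field_simp
    · intro i j
      change _ = x.1 3 4 * (-(J * Z)) i j
      rw [Matrix.neg_apply, Matrix.mul_apply, Fin.sum_univ_two]
      fin_cases i
      · change x.1 3 (Fin.castAdd 2 j) = _
        simp [J, hZ1]
        field_simp
      · change x.1 4 (Fin.castAdd 2 j) = _
        rw [hsk _ 4]
        simp [J, hZ0]
        field_simp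
    · intro i j
      fin_cases i <;> fin_cases j
      · change x.1 3 3 = x.1 3 4 * 0
        rw [hdiag, mul_zero]
      · change x.1 3 4 = x.1 3 4 * 1
        rw [mul_one]
      · change x.1 4 3 = x.1 3 4 * (-1)
        rw [hsk 3 4]
        ring
      · change x.1 4 4 = x.1 3 4 * 0
        rw [hdiag, mul_zero]
  · rw [ThB_snd]
    symm
    have hr : ∀ (α : Fin 2) (j : Fin 3), (Z * Pc (Ti x)) α j =
        x.2 (Fin.natAdd 3 α) (Fin.castAdd 2 j) := by
      intro α j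
      rw [hsy (Fin.castAdd 2 j), hA34, Matrix.mul_apply]
      refine Finset.sum_congr rfl fun k _ => ?_
      rw [← hP, hsy (Fin.castAdd 2 j), mul_comm]
    apply eq_Bk
    · exact hP
    · intro i α
      rw [hA34, Matrix.mul_apply]
      refine Finset.sum_congr rfl fun k _ => ?_
      rw [hP]
      rfl
    · intro α j
      exact (hr α j).symm
    · intro α β
      rw [hA34, Matrix.mul_apply]
      refine Finset.sum_congr rfl fun k _ => ?_
      rw [hr]
      rfl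

/-- `X ↦ m X mᵀ` -/
def Lm (m : M33) : M33 →ₗ[ℂ] M33 where
  toFun X := m * X * mᵀ
  map_add' X Y := by rw [Matrix.mul_add, Matrix.add_mul]
  map_smul' c X := by rw [Matrix.mul_smul, Matrix.smul_mul]; rfl

theorem det_Lm (m : M33) : LinearMap.det (Lm m) = m.det ^ 6 := by
  rw [← LinearMap.det_toMatrix (Matrix.stdBasis ℂ (Fin 3) (Fin 3))]
  have h : LinearMap.toMatrix (Matrix.stdBasis ℂ (Fin 3) (Fin 3))
      (Matrix.stdBasis ℂ (Fin 3) (Fin 3)) (Lm m) = m ⊗ₖ m := by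
    ext ⟨i, j⟩ ⟨k, l⟩
    rw [LinearMap.toMatrix_apply, Matrix.kroneckerMap_apply, Matrix.stdBasis_eq_single]
    change (m * (Matrix.single k l 1 : M33) * mᵀ) i j = _
    simp [Matrix.mul_apply, Matrix.single, Fin.sum_univ_three]
    fin_cases k <;> fin_cases l <;> simp
  rw [h, Matrix.det_kronecker]
  simp
  ring

/-- coordinates of the symmetric part -/
def s6 (X : M33) : Fin 6 → ℂ :=
  ![X 0 0, (X 0 1 + X 1 0) / 2, (X 0 2 + X 2 0) / 2, X 1 1, (X 1 2 + X 2 1) / 2, X 2 2]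

/-- coordinates of the skew part -/
def k3 (X : M33) : Fin 3 → ℂ := ![(X 0 1 - X 1 0) / 2, (X 0 2 - X 2 0) / 2, (X 1 2 - X 2 1) / 2]

/-- symmetric matrix with given coordinates -/
def Sm (s : Fin 6 → ℂ) : M33 := !![s 0, s 1, s 2; s 1, s 3, s 4; s 2, s 4, s 5]

/-- skew matrix with given coordinates -/
def Km (k : Fin 3 → ℂ) : M33 := !![0, k 0, k 1; -k 0, 0, k 2; -k 1, -k 2, 0]

def phi : M33 ≃ₗ[ℂ] (Fin 6 → ℂ) × (Fin 3 → ℂ) where
  toFun X := (s6 X, k3 X)
  map_add' X Y := by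
    refine Prod.ext ?_ ?_
    · funext i; fin_cases i <;> simp [s6] <;> ring
    · funext i; fin_cases i <;> simp [k3] <;> ring
  map_smul' c X := by
    refine Prod.ext ?_ ?_
    · funext i; fin_cases i <;> simp [s6] <;> ring
    · funext i; fin_cases i <;> simp [k3] <;> ring
  invFun p := Sm p.1 + Km p.2
  left_inv X := by
    ext i j; fin_cases i <;> fin_cases j <;> simp [s6, k3, Sm, Km] <;> ring
  right_inv p := by
    refine Prod.ext ?_ ?_
    · funext i; fin_cases i <;> simp [s6, Sm, Km] <;> ring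
    · funext i; fin_cases i <;> simp [k3, Sm, Km]

/-- the action on symmetric matrices -/
def As (m : M33) : (Fin 6 → ℂ) →ₗ[ℂ] (Fin 6 → ℂ) where
  toFun s := s6 (m * Sm s * mᵀ)
  map_add' s t := by
    have h : Sm (s + t) = Sm s + Sm t := by
      ext i j; fin_cases i <;> fin_cases j <;> simp [Sm]
    rw [h, Matrix.mul_add, Matrix.add_mul]
    exact congrArg Prod.fst (phi.map_add (m * Sm s * mᵀ) (m * Sm t * mᵀ))
  map_smul' c s := by
    have h : Sm (c • s) = c • Sm s := by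
      ext i j; fin_cases i <;> fin_cases j <;> simp [Sm]
    rw [h, Matrix.mul_smul, Matrix.smul_mul]
    exact congrArg Prod.fst (phi.map_smul c (m * Sm s * mᵀ))

/-- the action on skew matrices -/
def Ak (m : M33) : (Fin 3 → ℂ) →ₗ[ℂ] (Fin 3 → ℂ) := Matrix.toLin'
  !![m 0 0 * m 1 1 - m 0 1 * m 1 0, m 0 0 * m 1 2 - m 0 2 * m 1 0, m 0 1 * m 1 2 - m 0 2 * m 1 1;
     m 0 0 * m 2 1 - m 0 1 * m 2 0, m 0 0 * m 2 2 - m 0 2 * m 2 0, m 0 1 * m 2 2 - m 0 2 * m 2 1;
     m 1 0 * m 2 1 - m 1 1 * m 2 0, m 1 0 * m 2 2 - m 1 2 * m 2 0, m 1 1 * m 2 2 - m 1 2 * m 2 1]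

theorem det_Ak (m : M33) : LinearMap.det (Ak m) = m.det ^ 2 := by
  rw [Ak, LinearMap.det_toLin', Matrix.det_fin_three, Matrix.det_fin_three]
  simp
  ring

theorem conj_eq (m : M33) : (phi : M33 →ₗ[ℂ] _) ∘ₗ Lm m ∘ₗ (phi.symm : _ →ₗ[ℂ] M33) =
    (As m).prodMap (Ak m) := by
  apply LinearMap.ext
  rintro ⟨s, k⟩
  change phi (m * (Sm s + Km k) * mᵀ) = (As m s, Ak m k)
  refine Prod.ext ?_ ?_
  · change s6 (m * (Sm s + Km k) * mᵀ) = s6 (m * Sm s * mᵀ)
    funext i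
    fin_cases i <;> simp [s6, Sm, Km, Matrix.mul_apply, Fin.sum_univ_three] <;> ring
  · change k3 (m * (Sm s + Km k) * mᵀ) = Ak m k
    funext i
    fin_cases i <;> simp [Ak, k3, Sm, Km, Matrix.mul_apply, Fin.sum_univ_three, Matrix.mulVec,
      dotProduct] <;> ring

theorem det_As (m : M33) (hm : m.det ≠ 0) : LinearMap.det (As m) = m.det ^ 4 := by
  have h1 : LinearMap.det ((As m).prodMap (Ak m)) = m.det ^ 6 := by
    rw [← conj_eq, LinearMap.det_conj, det_Lm]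
  rw [LinearMap.det_prodMap, det_Ak] at h1
  have h2 : m.det ^ 2 ≠ 0 := pow_ne_zero _ hm
  apply mul_right_cancel₀ h2
  rw [h1]
  ring

/-- `X ↦ A X B` -/
def LAB (A : M22) (B : M33) : M23 →ₗ[ℂ] M23 where
  toFun X := A * X * B
  map_add' X Y := by rw [Matrix.mul_add, Matrix.add_mul]
  map_smul' c X := by rw [Matrix.mul_smul, Matrix.smul_mul]; rfl

theorem det_LAB (A : M22) (B : M33) : LinearMap.det (LAB A B) = A.det ^ 3 * B.det ^ 2 := by
  rw [← LinearMap.det_toMatrix (Matrix.stdBasis ℂ (Fin 2) (Fin 3))]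
  have h : LinearMap.toMatrix (Matrix.stdBasis ℂ (Fin 2) (Fin 3))
      (Matrix.stdBasis ℂ (Fin 2) (Fin 3)) (LAB A B) = A ⊗ₖ Bᵀ := by
    ext ⟨i, j⟩ ⟨k, l⟩
    rw [LinearMap.toMatrix_apply, Matrix.kroneckerMap_apply, Matrix.stdBasis_eq_single]
    change (A * (Matrix.single k l 1 : M23) * B) i j = _
    simp [Matrix.mul_apply, Matrix.single, Fin.sum_univ_three]
    fin_cases k <;> fin_cases l <;> simp
  rw [h, Matrix.det_kronecker]
  simp

theorem det_tri {M M' : Type} [AddCommGroup M] [Module ℂ M] [AddCommGroup M'] [Module ℂ M']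
    [Module.Finite ℂ M] [Module.Finite ℂ M'] (f : M × M' →ₗ[ℂ] M × M') (A : M →ₗ[ℂ] M)
    (D : M' →ₗ[ℂ] M') (h1 : ∀ x y, (f (x, y)).1 = A x) (h2 : ∀ y, (f (0, y)).2 = D y) :
    LinearMap.det f = LinearMap.det A * LinearMap.det D := by
  classical
  let b := Module.Free.chooseBasis ℂ M
  let b' := Module.Free.chooseBasis ℂ M'
  let C : M →ₗ[ℂ] M' := LinearMap.snd ℂ M M' ∘ₗ f ∘ₗ LinearMap.inl ℂ M M'
  rw [← LinearMap.det_toMatrix (b.prod b'), ← LinearMap.det_toMatrix b,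
    ← LinearMap.det_toMatrix b']
  have h : LinearMap.toMatrix (b.prod b') (b.prod b') f =
      fromBlocks (LinearMap.toMatrix b b A) 0 (LinearMap.toMatrix b b' C)
        (LinearMap.toMatrix b' b' D) := by
    ext i j
    rcases i with i | i <;> rcases j with j | j
    · simp [LinearMap.toMatrix_apply, h1]
    · simp [LinearMap.toMatrix_apply, h1]
    · simp [LinearMap.toMatrix_apply, C]
    · simp [LinearMap.toMatrix_apply, h2]
  rw [h, Matrix.det_fromBlocks_zero₁₂]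

theorem vanish {E : Type} [NormedAddCommGroup E] [NormedSpace ℂ E] {h k : E → ℂ} {h' : E →L[ℂ] ℂ}
    {x : E} (hh : HasFDerivAt h h' x) (h0 : h x = 0) (hk : ContinuousAt k x) :
    HasFDerivAt (fun y => h y * k y) (k x • h') x := by
  have h1 : (fun y => h y * (k y - k x)) =o[nhds x] fun y => y - x := by
    have hb : h =O[nhds x] fun y => y - x := by
      have := hh.isBigO_sub
      simpa [h0] using this
    have hc : (fun y => k y - k x) =o[nhds x] fun _ => (1 : ℝ) := by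
      rw [Asymptotics.isLittleO_one_iff]
      have h5 : Filter.Tendsto (fun y => k y - k x) (nhds x) (nhds (k x - k x)) :=
        Filter.Tendsto.sub_const hk (k x)
      rwa [sub_self] at h5
    have h6 := hb.norm_right.mul_isLittleO hc
    simp only [mul_one] at h6
    exact Asymptotics.isLittleO_norm_right.1 h6
  have h2 : HasFDerivAt (fun y => h y * (k y - k x)) (0 : E →L[ℂ] ℂ) x := by
    rw [hasFDerivAt_iff_isLittleO]
    simpa [h0] using h1
  have h3 := h2.add (hh.const_mul (k x))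
  have e : (fun y => h y * k y) = fun y => h y * (k y - k x) + k x * h y := by
    funext y; ring
  rw [e]
  rw [zero_add] at h3
  exact h3


/-- `Zc` as a linear map -/
def ZcL : (Fin 13 → ℂ) →ₗ[ℂ] M23 where
  toFun := Zc
  map_add' v w := by ext i j; fin_cases i <;> fin_cases j <;> rfl
  map_smul' t v := by ext i j; fin_cases i <;> fin_cases j <;> rfl

/-- `Pc` as a linear map -/
def PcL : (Fin 13 → ℂ) →ₗ[ℂ] M33 where
  toFun := Pc
  map_add' v w := by ext i j; fin_cases i <;> fin_cases j <;> rfl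
  map_smul' t v := by ext i j; fin_cases i <;> fin_cases j <;> rfl

/-- the splitting of `ℂ¹³` -/
def psi : (Fin 13 → ℂ) ≃ₗ[ℂ] M23 × ((Fin 6 → ℂ) × ℂ) where
  toFun v := (Zc v, (![v 6, v 7, v 8, v 9, v 10, v 11], v 12))
  map_add' v w := by
    refine Prod.ext (ZcL.map_add v w) (Prod.ext ?_ rfl)
    funext i; fin_cases i <;> rfl
  map_smul' t v := by
    refine Prod.ext (ZcL.map_smul t v) (Prod.ext ?_ rfl)
    funext i; fin_cases i <;> rfl
  invFun p := ![p.1 0 0, p.1 0 1, p.1 0 2, p.1 1 0, p.1 1 1, p.1 1 2, p.2.1 0, p.2.1 1, p.2.1 2,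
    p.2.1 3, p.2.1 4, p.2.1 5, p.2.2]
  left_inv v := by funext i; fin_cases i <;> rfl
  right_inv p := by
    refine Prod.ext ?_ (Prod.ext ?_ rfl)
    · ext i j; fin_cases i <;> fin_cases j <;> rfl
    · funext i; fin_cases i <;> rfl

theorem Zc_psi_symm (p : M23 × ((Fin 6 → ℂ) × ℂ)) : Zc (psi.symm p) = p.1 :=
  congrArg Prod.fst (psi.apply_symm_apply p)

theorem Pc_psi_symm (p : M23 × ((Fin 6 → ℂ) × ℂ)) : Pc (psi.symm p) = Sm p.2.1 := by
  ext i j; fin_cases i <;> fin_cases j <;> rfl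

theorem l12_psi_symm (p : M23 × ((Fin 6 → ℂ) × ℂ)) : (psi.symm p) 12 = p.2.2 := rfl

section Deriv

variable (a : M33) (b : M32) (c : M23) (d : M22) (w₀ : Fin 13 → ℂ)

/-- the matrix `m` -/
def mm (w : Fin 13 → ℂ) : M33 := a + b * Zc w

/-- the action in the chart -/
def Phi (δ : ℂ) (w : Fin 13 → ℂ) : Fin 13 → ℂ :=
  pk ((c + d * Zc w) * (mm a b w)⁻¹) (mm a b w * Pc w * (mm a b w)ᵀ) (δ * (mm a b w).det * w 12)

/-- the matrix `d'` -/
def dd : M22 := d - ((c + d * Zc w₀) * (mm a b w₀)⁻¹) * b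

theorem cont_Zc : Continuous Zc := LinearMap.continuous_of_finiteDimensional ZcL

theorem cont_mm : Continuous (mm a b) := by
  unfold mm
  exact continuous_const.add (continuous_const.matrix_mul cont_Zc)

theorem cont_inv (hm : (mm a b w₀).det ≠ 0) (i j : Fin 3) :
    ContinuousAt (fun w => (mm a b w)⁻¹ i j) w₀ := by
  have h1 : ContinuousAt (fun w => ((mm a b w).det)⁻¹ * (adjugate (mm a b w)) i j) w₀ := by
    refine ContinuousAt.mul (ContinuousAt.inv₀ ?_ hm) ?_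
    · exact (cont_mm a b).matrix_det.continuousAt
    · exact ((cont_mm a b).matrix_adjugate.matrix_elem i j).continuousAt
  refine h1.congr (Filter.Eventually.of_forall fun w => ?_)
  simp only [Matrix.inv_def, Ring.inverse_eq_inv', Matrix.smul_apply, smul_eq_mul]

theorem ev_det (hm : (mm a b w₀).det ≠ 0) : ∀ᶠ w in nhds w₀, (mm a b w).det ≠ 0 :=
  (cont_mm a b).matrix_det.continuousAt.eventually_ne hm

theorem Z_formula {w : Fin 13 → ℂ} (hm : (mm a b w₀).det ≠ 0) (hw : (mm a b w).det ≠ 0) :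
    (c + d * Zc w) * (mm a b w)⁻¹ = (c + d * Zc w₀) * (mm a b w₀)⁻¹ +
      dd a b c d w₀ * (Zc w - Zc w₀) * (mm a b w)⁻¹ := by
  have h1 : (mm a b w) * (mm a b w)⁻¹ = 1 :=
    Matrix.mul_nonsing_inv _ (isUnit_iff_ne_zero.2 hw)
  have h2 : (mm a b w₀)⁻¹ * (mm a b w₀) = 1 :=
    Matrix.nonsing_inv_mul _ (isUnit_iff_ne_zero.2 hm)
  set Z' : M23 := (c + d * Zc w₀) * (mm a b w₀)⁻¹ with hZ'
  have h3 : Z' * mm a b w₀ = c + d * Zc w₀ := by
    rw [hZ', Matrix.mul_assoc, h2, Matrix.mul_one]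
  have h4 : c + d * Zc w = Z' * mm a b w + dd a b c d w₀ * (Zc w - Zc w₀) := by
    have h5 : mm a b w = mm a b w₀ + b * (Zc w - Zc w₀) := by
      unfold mm
      rw [Matrix.mul_sub]
      abel
    rw [h5, Matrix.mul_add, h3, dd, ← hZ', Matrix.sub_mul, ← Matrix.mul_assoc, Matrix.mul_sub d]
    abel
  rw [h4, Matrix.add_mul, Matrix.mul_assoc Z', h1, Matrix.mul_one]

/-- the linear forms `(d' Z) α j` -/
def ell (α : Fin 2) (j : Fin 3) : (Fin 13 → ℂ) →L[ℂ] ℂ :=
  LinearMap.toContinuousLinearMap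
    { toFun := fun v => (dd a b c d w₀ * Zc v) α j
      map_add' := fun v w => by
        have : Zc (v + w) = Zc v + Zc w := ZcL.map_add v w
        rw [this, Matrix.mul_add]; rfl
      map_smul' := fun t v => by
        have : Zc (t • v) = t • Zc v := ZcL.map_smul t v
        rw [this, Matrix.mul_smul]; rfl }

theorem deriv_Z (hm : (mm a b w₀).det ≠ 0) (α : Fin 2) (i : Fin 3) :
    HasFDerivAt (fun w => ((c + d * Zc w) * (mm a b w)⁻¹) α i)
      (∑ j : Fin 3, ((mm a b w₀)⁻¹ j i) • ell a b c d w₀ α j) w₀ := by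
  have h1 : ∀ j : Fin 3, HasFDerivAt (fun w => (dd a b c d w₀ * (Zc w - Zc w₀)) α j *
      (mm a b w)⁻¹ j i) (((mm a b w₀)⁻¹ j i) • ell a b c d w₀ α j) w₀ := by
    intro j
    refine vanish ?_ ?_ (cont_inv a b w₀ hm j i)
    · have h2 := ((ell a b c d w₀ α j).hasFDerivAt (x := w₀)).sub_const (ell a b c d w₀ α j w₀)
      refine h2.congr_of_eventuallyEq (Filter.Eventually.of_forall fun w => ?_)
      change (dd a b c d w₀ * (Zc w - Zc w₀)) α j =
        (dd a b c d w₀ * Zc w) α j - (dd a b c d w₀ * Zc w₀) α j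
      rw [Matrix.mul_sub]
      rfl
    · simp
  have h3 := (HasFDerivAt.fun_sum fun j (_ : j ∈ (Finset.univ : Finset (Fin 3))) => h1 j).const_add
    (((c + d * Zc w₀) * (mm a b w₀)⁻¹) α i)
  refine h3.congr_of_eventuallyEq ?_
  filter_upwards [ev_det a b w₀ hm] with w hw
  rw [Z_formula a b c d w₀ hm hw, Matrix.add_apply, Matrix.mul_apply (M := dd a b c d w₀ * _)]

theorem diff_P (i j : Fin 3) :
    DifferentiableAt ℂ (fun w => (mm a b w * Pc w * (mm a b w)ᵀ) i j) w₀ := by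
  have h1 : ∀ i j, DifferentiableAt ℂ (fun w => mm a b w i j) w₀ := by
    intro i j
    have : (fun w => mm a b w i j) = fun w => a i j + (b i 0 * Zc w 0 j + b i 1 * Zc w 1 j) := by
      funext w
      rw [mm, Matrix.add_apply, Matrix.mul_apply, Fin.sum_univ_two]
    rw [this]
    fin_cases j <;> simp [Zc] <;> fun_prop
  have h2 : ∀ i j, DifferentiableAt ℂ (fun w => Pc w i j) w₀ := by
    intro i j
    fin_cases i <;> fin_cases j <;> simp [Pc] <;> fun_prop
  simp only [Matrix.mul_apply, Matrix.transpose_apply]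
  refine DifferentiableAt.fun_sum fun k _ => DifferentiableAt.mul ?_ (h1 j k)
  exact DifferentiableAt.fun_sum fun l _ => (h1 i l).mul (h2 l k)

theorem diff_det (δ : ℂ) :
    DifferentiableAt ℂ (fun w => δ * (mm a b w).det * w 12) w₀ := by
  have h1 : ∀ i j, DifferentiableAt ℂ (fun w => mm a b w i j) w₀ := by
    intro i j
    have : (fun w => mm a b w i j) = fun w => a i j + (b i 0 * Zc w 0 j + b i 1 * Zc w 1 j) := by
      funext w
      rw [mm, Matrix.add_apply, Matrix.mul_apply, Fin.sum_univ_two]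
    rw [this]
    fin_cases j <;> simp [Zc] <;> fun_prop
  simp only [Matrix.det_fin_three]
  have := h1 0 0
  have := h1 0 1
  have := h1 0 2
  have := h1 1 0
  have := h1 1 1
  have := h1 1 2
  have := h1 2 0
  have := h1 2 1
  have := h1 2 2
  fun_prop

theorem diff_Phi (δ : ℂ) (hm : (mm a b w₀).det ≠ 0) : DifferentiableAt ℂ (Phi a b c d δ) w₀ := by
  rw [differentiableAt_pi]
  intro i
  fin_cases i
  · exact (deriv_Z a b c d w₀ hm 0 0).differentiableAt
  · exact (deriv_Z a b c d w₀ hm 0 1).differentiableAt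
  · exact (deriv_Z a b c d w₀ hm 0 2).differentiableAt
  · exact (deriv_Z a b c d w₀ hm 1 0).differentiableAt
  · exact (deriv_Z a b c d w₀ hm 1 1).differentiableAt
  · exact (deriv_Z a b c d w₀ hm 1 2).differentiableAt
  · exact diff_P a b w₀ 0 0
  · exact diff_P a b w₀ 0 1
  · exact diff_P a b w₀ 0 2
  · exact diff_P a b w₀ 1 1
  · exact diff_P a b w₀ 1 2
  · exact diff_P a b w₀ 2 2
  · exact diff_det a b w₀ δ

theorem coord_Z (δ : ℂ) (hm : (mm a b w₀).det ≠ 0) (v : Fin 13 → ℂ) :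
    Zc (fderiv ℂ (Phi a b c d δ) w₀ v) = dd a b c d w₀ * Zc v * (mm a b w₀)⁻¹ := by
  have h := (diff_Phi a b c d w₀ δ hm).hasFDerivAt
  rw [hasFDerivAt_pi'] at h
  have key : ∀ (α : Fin 2) (i : Fin 3) (n : Fin 13),
      (∀ w, Phi a b c d δ w n = ((c + d * Zc w) * (mm a b w)⁻¹) α i) →
      (fderiv ℂ (Phi a b c d δ) w₀ v) n = (dd a b c d w₀ * Zc v * (mm a b w₀)⁻¹) α i := by
    intro α i n hn
    have h1 := h n
    have h2 := deriv_Z a b c d w₀ hm α i
    have h3 : (fun w => Phi a b c d δ w n) = fun w => ((c + d * Zc w) * (mm a b w)⁻¹) α i := by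
      funext w; exact hn w
    rw [h3] at h1
    have h4 := congrArg (fun L : (Fin 13 → ℂ) →L[ℂ] ℂ => L v) (h1.unique h2)
    simp only [ContinuousLinearMap.comp_apply, ContinuousLinearMap.proj_apply] at h4
    rw [h4, Matrix.mul_apply, _root_.sum_apply]
    refine Finset.sum_congr rfl fun j _ => ?_
    change (mm a b w₀)⁻¹ j i * (dd a b c d w₀ * Zc v) α j = _
    rw [mul_comm]
  ext α i
  fin_cases α <;> fin_cases i
  · exact key 0 0 0 fun _ => rfl
  · exact key 0 1 1 fun _ => rfl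
  · exact key 0 2 2 fun _ => rfl
  · exact key 1 0 3 fun _ => rfl
  · exact key 1 1 4 fun _ => rfl
  · exact key 1 2 5 fun _ => rfl

theorem coord_P (δ : ℂ) (hm : (mm a b w₀).det ≠ 0) {v : Fin 13 → ℂ} (n : Fin 13)
    (L : ℂ) (hn : ∀ t : ℂ, Phi a b c d δ (w₀ + t • v) n = Phi a b c d δ w₀ n + t * L) :
    (fderiv ℂ (Phi a b c d δ) w₀ v) n = L := by
  have h := (diff_Phi a b c d w₀ δ hm).hasFDerivAt
  rw [hasFDerivAt_pi'] at h
  have h1 := (h n).hasLineDerivAt v
  have h2 : HasDerivAt (fun t : ℂ => Phi a b c d δ w₀ n + t * L) L 0 := by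
    have := ((hasDerivAt_id (0 : ℂ)).mul_const L).const_add (Phi a b c d δ w₀ n)
    simpa using this
  have h3 : (fun t : ℂ => Phi a b c d δ (w₀ + t • v) n) =
      fun t : ℂ => Phi a b c d δ w₀ n + t * L := by
    funext t; exact hn t
  have h4 : HasDerivAt (fun t : ℂ => Phi a b c d δ (w₀ + t • v) n)
      ((fderiv ℂ (Phi a b c d δ) w₀ v) n) 0 := h1
  rw [h3] at h4
  exact h4.unique h2

theorem line_P {v : Fin 13 → ℂ} (hv : Zc v = 0) (t : ℂ) (i j : Fin 3) :
    (mm a b (w₀ + t • v) * Pc (w₀ + t • v) * (mm a b (w₀ + t • v))ᵀ) i j =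
      (mm a b w₀ * Pc w₀ * (mm a b w₀)ᵀ) i j + t * (mm a b w₀ * Pc v * (mm a b w₀)ᵀ) i j := by
  have h1 : Zc (w₀ + t • v) = Zc w₀ := by
    have : Zc (w₀ + t • v) = Zc w₀ + t • Zc v := by
      change ZcL (w₀ + t • v) = ZcL w₀ + t • ZcL v
      rw [map_add, map_smul]
    rw [this, hv, smul_zero, add_zero]
  have h2 : Pc (w₀ + t • v) = Pc w₀ + t • Pc v := by
    change PcL (w₀ + t • v) = PcL w₀ + t • PcL v
    rw [map_add, map_smul]
  have h3 : mm a b (w₀ + t • v) = mm a b w₀ := by rw [mm, h1, mm]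
  rw [h3, h2, Matrix.mul_add, Matrix.add_mul, Matrix.mul_smul, Matrix.smul_mul]
  rfl

theorem det_Phi (δ : ℂ) (hm : (mm a b w₀).det ≠ 0)
    (hdet : δ = (mm a b w₀).det * (dd a b c d w₀).det) :
    (fderiv ℂ (Phi a b c d δ) w₀).det = δ ^ 4 := by
  set T := fderiv ℂ (Phi a b c d δ) w₀ with hT
  set m := mm a b w₀ with hmm
  have h1 : T.det = LinearMap.det ((psi : (Fin 13 → ℂ) →ₗ[ℂ] M23 × ((Fin 6 → ℂ) × ℂ)) ∘ₗ
      (T : (Fin 13 → ℂ) →ₗ[ℂ] (Fin 13 → ℂ)) ∘ₗ
      (psi.symm : M23 × ((Fin 6 → ℂ) × ℂ) →ₗ[ℂ] (Fin 13 → ℂ))) := by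
    rw [LinearMap.det_conj]
  rw [h1, det_tri _ (LAB (dd a b c d w₀) m⁻¹)
    ((As m).prodMap ((δ * m.det) • LinearMap.id))]
  · rw [det_LAB, LinearMap.det_prodMap, det_As m hm, LinearMap.det_ring]
    have h2 : (m⁻¹).det = (m.det)⁻¹ := by
      rw [Matrix.det_nonsing_inv, Ring.inverse_eq_inv']
    rw [h2]
    change _ * (_ * ((δ * m.det) * 1)) = _
    rw [hdet]
    field_simp
  · intro x y
    change Zc (T (psi.symm (x, y))) = dd a b c d w₀ * x * m⁻¹
    rw [hT, coord_Z a b c d w₀ δ hm, Zc_psi_symm]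
  · intro y
    have hz : Zc (psi.symm (0, y)) = 0 := Zc_psi_symm (0, y)
    have hp : Pc (psi.symm (0, y)) = Sm y.1 := Pc_psi_symm (0, y)
    set v := psi.symm ((0 : M23), y) with hv
    have hsym : ∀ i j, (m * Sm y.1 * mᵀ) i j = (m * Sm y.1 * mᵀ) j i := by
      intro i j
      have h5 : (m * Sm y.1 * mᵀ)ᵀ = m * Sm y.1 * mᵀ := by
        have h6 : (Sm y.1)ᵀ = Sm y.1 := by
          ext i j; fin_cases i <;> fin_cases j <;> rfl
        rw [Matrix.transpose_mul, Matrix.transpose_mul, h6, Matrix.transpose_transpose,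
          Matrix.mul_assoc]
      exact congrFun (congrFun h5 j) i
    have kP : ∀ (i j : Fin 3) (n : Fin 13),
        (∀ w, Phi a b c d δ w n = (mm a b w * Pc w * (mm a b w)ᵀ) i j) →
        (T v) n = (m * Sm y.1 * mᵀ) i j := by
      intro i j n hn
      refine coord_P a b c d w₀ δ hm n _ fun t => ?_
      rw [hn, hn, line_P a b w₀ hz, hp]
    change (![(T v) 6, (T v) 7, (T v) 8, (T v) 9, (T v) 10, (T v) 11], (T v) 12) =
      (s6 (m * Sm y.1 * mᵀ), (δ * m.det) * y.2)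
    refine Prod.ext ?_ ?_
    · change ![(T v) 6, (T v) 7, (T v) 8, (T v) 9, (T v) 10, (T v) 11] = s6 (m * Sm y.1 * mᵀ)
      rw [kP 0 0 6 fun _ => rfl, kP 0 1 7 fun _ => rfl, kP 0 2 8 fun _ => rfl,
        kP 1 1 9 fun _ => rfl, kP 1 2 10 fun _ => rfl, kP 2 2 11 fun _ => rfl]
      unfold s6
      rw [hsym 1 0, hsym 2 0, hsym 2 1]
      funext i
      fin_cases i <;> simp
    · change (T v) 12 = (δ * m.det) * y.2
      refine coord_P a b c d w₀ δ hm 12 _ fun t => ?_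
      have h7 : Zc (w₀ + t • v) = Zc w₀ := by
        have : Zc (w₀ + t • v) = Zc w₀ + t • Zc v := by
          change ZcL (w₀ + t • v) = ZcL w₀ + t • ZcL v
          rw [map_add, map_smul]
        rw [this, hz, smul_zero, add_zero]
      have h8 : mm a b (w₀ + t • v) = m := by rw [mm, h7, hmm, mm]
      change δ * (mm a b (w₀ + t • v)).det * (w₀ 12 + t * v 12) =
        δ * (mm a b w₀).det * w₀ 12 + t * ((δ * m.det) * y.2)
      rw [h8, ← hmm]
      have h9 : v 12 = y.2 := rfl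
      rw [h9]
      ring

end Deriv

end KXAux

open Matrix KXAux in
/-- Module KX: the canonical class of `X`. -/
theorem stKX : StKX := by
  refine ⟨fun x hx h => part1 hx h, ?_, ?_, ?_⟩
  · intro w hw
    rw [Th_eq, Ti_ThB _ _ hw, pk_c]
  · intro μ lam w
    have h1 : (![w 0, w 1, w 2, w 3, w 4, w 5, lam * w 6, lam * w 7, lam * w 8, lam * w 9,
        lam * w 10, lam * w 11, μ * w 12] : Fin 13 → ℂ) = pk (Zc w) (lam • Pc w) (μ * w 12) := by
      funext i
      fin_cases i <;> rfl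
    have hs : (lam • Pc w)ᵀ = lam • Pc w := by
      rw [Matrix.transpose_smul, Pc_symm]
    rw [h1, Th_pk _ hs, Th_eq]
    refine Prod.ext ?_ ?_
    · change μ • (ThB (Zc w) (Pc w) (w 12)).1 = _
      rw [ThB_fst, ThB_fst, smul_smul]
    · change lam • (ThB (Zc w) (Pc w) (w 12)).2 = _
      rw [ThB_snd, ThB_snd, Bk_smul]
      simp
  · intro g hg w hw h34
    obtain ⟨a, b, c, d, rfl⟩ := Bk_surj g
    rw [Th_eq, act_fst hg] at h34
    have hm : (mm a b w).det ≠ 0 := by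
      intro h0
      apply h34
      change (Bk a b c d).det * (mm a b w).det * w 12 = 0
      rw [h0]
      ring
    refine ⟨fderiv ℂ (Phi a b c d (Bk a b c d).det) w, ?_, ?_⟩
    · refine (diff_Phi a b c d w (Bk a b c d).det hm).hasFDerivAt.congr_of_eventuallyEq ?_
      have h12 : ∀ᶠ u : Fin 13 → ℂ in nhds w, u 12 ≠ 0 :=
        (continuous_apply 12).continuousAt.eventually_ne hw
      filter_upwards [ev_det a b w hm, h12] with u hu hu12
      have hu' : (a + b * Zc u).det ≠ 0 := hu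
      rw [Th_eq, act_ThB hg _ _ _ hu', Ti_ThB _ _
        (mul_ne_zero (mul_ne_zero hg hu') hu12)]
      rfl
    · refine det_Phi a b c d w _ hm ?_
      have h2 : (mm a b w)⁻¹ * (mm a b w) = 1 :=
        Matrix.nonsing_inv_mul _ (isUnit_iff_ne_zero.2 hm)
      have hf : Bk a b c d * Nb (Zc w) =
          Nb ((c + d * Zc w) * (mm a b w)⁻¹) * Bk (mm a b w) b 0 (dd a b c d w) := by
        rw [Nb, Nb, Bk_mul, Bk_mul]
        congr 1
        · simp [mm]
        · simp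
        · rw [Matrix.mul_assoc, h2]
          simp
        · simp [dd]
      have h := congrArg Matrix.det hf
      rw [Matrix.det_mul, Matrix.det_mul, Nb_det, Nb_det, Bk_det_upper, mul_one, one_mul] at h
      exact h

end MC
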