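import Pool.Agent.Lib.MC.AC
import Pool.Agent.Lib.MC.IX

set_option autoImplicit false

/-!
# Two Manin components of the same class (MP_ac098b_ag): module LD

The parametrisation `pt : ℂ¹¹ → X` (an `L D Lᵀ` decomposition) and its inverse `nu`.
-/

noncomputable section

namespace MC

open Matrix

namespace LDAux

/-- the entries of `N` below the diagonal, in the form of a function -/
lemma Nm_det (τ : Fin 11 → ℂ) : (Nm τ).det = 1 := by
  have h : (Nm τ).BlockTriangular OrderDual.toDual := by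
    intro i j hij
    have hij' : i < j := hij
    fin_cases i <;> fin_cases j <;> first
      | rfl
      | (exact absurd hij' (by decide))
  rw [Matrix.det_of_isLowerTriangular _ h, Fin.prod_univ_five]
  simp [Nm]

lemma Nm_three (τ : Fin 11 → ℂ) (i : Fin 5) : Nm τ i 3 = if i = 3 then 1 else 0 := by
  fin_cases i <;> rfl

lemma Nm_four (τ : Fin 11 → ℂ) (i : Fin 5) : Nm τ i 4 = if i = 4 then 1 else 0 := by
  fin_cases i <;> rfl

lemma Dm_mem (β γ : ℂ) : Dm β γ ∈ IXAux.LL := by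
  refine ⟨by rw [Dm, diagonal_transpose], fun i => ?_⟩
  fin_cases i <;> simp [Dm]

lemma Dm_ne (β γ : ℂ) : Dm β γ ≠ 0 := by
  intro h
  have h1 := congrFun (congrFun h 0) 0
  simp [Dm] at h1

/-- the entries of `N D Nᵀ` -/
lemma NDN_apply (τ : Fin 11 → ℂ) (β γ : ℂ) (i j : Fin 5) :
    (Nm τ * Dm β γ * (Nm τ)ᵀ) i j =
      Nm τ i 0 * Nm τ j 0 + β * (Nm τ i 1 * Nm τ j 1) + γ * (Nm τ i 2 * Nm τ j 2) := by
  rw [Matrix.mul_apply, Fin.sum_univ_five]
  simp only [Dm, Matrix.mul_diagonal, Matrix.transpose_apply]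
  simp
  ring

lemma pt_mem (τ : Fin 11 → ℂ) : pt τ ∈ Cone := by
  have h := IXAux.base_mem (c := 1) one_ne_zero (Dm_mem (τ 9) (τ 10)) (Dm_ne _ _)
  rw [one_smul] at h
  exact (stAC.2.1 _ _ (by rw [Nm_det]; exact one_ne_zero)).mpr h

lemma pt_snd (τ : Fin 11 → ℂ) : (pt τ).2 = Nm τ * Dm (τ 9) (τ 10) * (Nm τ)ᵀ := rfl

/-- part (2) -/
lemma nu_pt (τ : Fin 11 → ℂ) (x : M5 × M5) (h9 : τ 9 ≠ 0) (h10 : τ 10 ≠ 0) (h : Same (pt τ) x) :
    dn x.2 ≠ 0 ∧ nu x.2 = τ := by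
  obtain ⟨μ, lam, hμ, hl, rfl⟩ := h
  have e : ∀ i j, (scal μ lam (pt τ)).2 i j =
      lam * (Nm τ i 0 * Nm τ j 0 + τ 9 * (Nm τ i 1 * Nm τ j 1) + τ 10 * (Nm τ i 2 * Nm τ j 2)) := by
    intro i j
    show (lam • (pt τ).2) i j = _
    rw [Matrix.smul_apply, pt_snd, NDN_apply, smul_eq_mul]
  set A : M5 := (scal μ lam (pt τ)).2 with hA
  have a00 : A 0 0 = lam := by rw [e]; simp [Nm]
  have a01 : A 0 1 = lam * τ 0 := by rw [e]; simp [Nm]
  have a02 : A 0 2 = lam * τ 1 := by rw [e]; simp [Nm]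
  have a10 : A 1 0 = lam * τ 0 := by rw [e]; simp [Nm]
  have a11 : A 1 1 = lam * (τ 0 * τ 0 + τ 9) := by rw [e]; simp [Nm]
  have a12 : A 1 2 = lam * (τ 0 * τ 1 + τ 9 * τ 4) := by rw [e]; simp [Nm]
  have a20 : A 2 0 = lam * τ 1 := by rw [e]; simp [Nm]
  have a21 : A 2 1 = lam * (τ 1 * τ 0 + τ 9 * τ 4) := by rw [e]; simp [Nm]
  have a22 : A 2 2 = lam * (τ 1 * τ 1 + τ 9 * (τ 4 * τ 4) + τ 10) := by rw [e]; simp [Nm]
  have a30 : A 3 0 = lam * τ 2 := by rw [e]; simp [Nm]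
  have a31 : A 3 1 = lam * (τ 2 * τ 0 + τ 9 * τ 5) := by rw [e]; simp [Nm]
  have a32 : A 3 2 = lam * (τ 2 * τ 1 + τ 9 * (τ 5 * τ 4) + τ 10 * τ 7) := by rw [e]; simp [Nm]
  have a40 : A 4 0 = lam * τ 3 := by rw [e]; simp [Nm]
  have a41 : A 4 1 = lam * (τ 3 * τ 0 + τ 9 * τ 6) := by rw [e]; simp [Nm]
  have a42 : A 4 2 = lam * (τ 3 * τ 1 + τ 9 * (τ 6 * τ 4) + τ 10 * τ 8) := by rw [e]; simp [Nm]
  have d2 : D2 A = lam ^ 2 * τ 9 := by
    rw [D2, a00, a11, a01, a10]; ring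
  have m2 : m3 A 2 = lam ^ 3 * τ 9 * τ 10 := by
    rw [m3, Matrix.det_fin_three]
    simp only [Matrix.of_apply, Matrix.cons_val', Matrix.cons_val_zero, Matrix.cons_val_one,
      Matrix.cons_val, a00, a01, a02, a10, a11, a12, a20, a21, a22]
    ring
  have m33 : m3 A 3 = lam ^ 3 * τ 9 * τ 10 * τ 7 := by
    rw [m3, Matrix.det_fin_three]
    simp only [Matrix.of_apply, Matrix.cons_val', Matrix.cons_val_zero, Matrix.cons_val_one,
      Matrix.cons_val, a00, a01, a02, a10, a11, a12, a30, a31, a32]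
    ring
  have m34 : m3 A 4 = lam ^ 3 * τ 9 * τ 10 * τ 8 := by
    rw [m3, Matrix.det_fin_three]
    simp only [Matrix.of_apply, Matrix.cons_val', Matrix.cons_val_zero, Matrix.cons_val_one,
      Matrix.cons_val, a00, a01, a02, a10, a11, a12, a40, a41, a42]
    ring
  constructor
  · rw [dn, a00, d2, m2]
    exact mul_ne_zero (mul_ne_zero hl (mul_ne_zero (pow_ne_zero _ hl) h9))
      (mul_ne_zero (mul_ne_zero (pow_ne_zero _ hl) h9) h10)
  · funext i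
    fin_cases i
    · show A 1 0 / A 0 0 = τ 0
      rw [a10, a00]; field_simp
    · show A 2 0 / A 0 0 = τ 1
      rw [a20, a00]; field_simp
    · show A 3 0 / A 0 0 = τ 2
      rw [a30, a00]; field_simp
    · show A 4 0 / A 0 0 = τ 3
      rw [a40, a00]; field_simp
    · show (A 0 0 * A 2 1 - A 0 1 * A 2 0) / D2 A = τ 4
      rw [a00, a21, a01, a20, d2, div_eq_iff (mul_ne_zero (pow_ne_zero _ hl) h9)]; ring
    · show (A 0 0 * A 3 1 - A 0 1 * A 3 0) / D2 A = τ 5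
      rw [a00, a31, a01, a30, d2, div_eq_iff (mul_ne_zero (pow_ne_zero _ hl) h9)]; ring
    · show (A 0 0 * A 4 1 - A 0 1 * A 4 0) / D2 A = τ 6
      rw [a00, a41, a01, a40, d2, div_eq_iff (mul_ne_zero (pow_ne_zero _ hl) h9)]; ring
    · show m3 A 3 / m3 A 2 = τ 7
      rw [m33, m2, div_eq_iff (mul_ne_zero (mul_ne_zero (pow_ne_zero _ hl) h9) h10)]; ring
    · show m3 A 4 / m3 A 2 = τ 8
      rw [m34, m2, div_eq_iff (mul_ne_zero (mul_ne_zero (pow_ne_zero _ hl) h9) h10)]; ring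
    · show D2 A / (A 0 0) ^ 2 = τ 9
      rw [d2, a00, div_eq_iff (pow_ne_zero _ hl)]; ring
    · show m3 A 2 / (D2 A * A 0 0) = τ 10
      rw [m2, d2, a00, div_eq_iff (mul_ne_zero (mul_ne_zero (pow_ne_zero _ hl) h9) hl)]; ring

/-- The first three rows and columns of `A` and of `A₀₀ N D Nᵀ` agree. -/
lemma rows (A : M5) (hA : Aᵀ = A) (h0 : A 0 0 ≠ 0) (h2 : D2 A ≠ 0) (h3 : m3 A 2 ≠ 0) (i : Fin 5) :
    A i 0 = A 0 0 * (Nm (nu A) * Dm (nu A 9) (nu A 10) * (Nm (nu A))ᵀ) i 0 ∧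
    A i 1 = A 0 0 * (Nm (nu A) * Dm (nu A 9) (nu A 10) * (Nm (nu A))ᵀ) i 1 ∧
    A i 2 = A 0 0 * (Nm (nu A) * Dm (nu A 9) (nu A 10) * (Nm (nu A))ᵀ) i 2 := by
  have hs : ∀ i j, A j i = A i j := fun i j => congrFun (congrFun hA i) j
  have s01 : A 0 1 = A 1 0 := hs 1 0
  have s02 : A 0 2 = A 2 0 := hs 2 0
  have s12 : A 1 2 = A 2 1 := hs 2 1
  have n0 : nu A 0 = A 1 0 / A 0 0 := rfl
  have n1 : nu A 1 = A 2 0 / A 0 0 := rfl
  have n2 : nu A 2 = A 3 0 / A 0 0 := rfl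
  have n3 : nu A 3 = A 4 0 / A 0 0 := rfl
  have n4 : nu A 4 = (A 0 0 * A 2 1 - A 0 1 * A 2 0) / D2 A := rfl
  have n5 : nu A 5 = (A 0 0 * A 3 1 - A 0 1 * A 3 0) / D2 A := rfl
  have n6 : nu A 6 = (A 0 0 * A 4 1 - A 0 1 * A 4 0) / D2 A := rfl
  have n7 : nu A 7 = m3 A 3 / m3 A 2 := rfl
  have n8 : nu A 8 = m3 A 4 / m3 A 2 := rfl
  have n9 : nu A 9 = D2 A / (A 0 0) ^ 2 := rfl
  have n10 : nu A 10 = m3 A 2 / (D2 A * A 0 0) := rfl
  have eD : D2 A = A 0 0 * A 1 1 - A 0 1 * A 1 0 := rfl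
  have em : ∀ i, m3 A i = A 0 0 * A 1 1 * A i 2 - A 0 0 * A 1 2 * A i 1 - A 0 1 * A 1 0 * A i 2 +
      A 0 1 * A 1 2 * A i 0 + A 0 2 * A 1 0 * A i 1 - A 0 2 * A 1 1 * A i 0 := by
    intro i
    rw [m3, Matrix.det_fin_three]
    simp only [Matrix.of_apply, Matrix.cons_val', Matrix.cons_val_zero, Matrix.cons_val_one,
      Matrix.cons_val]
  -- the general row
  have key : ∀ (a b c : ℂ), a = A i 0 / A 0 0 → b = (A 0 0 * A i 1 - A 0 1 * A i 0) / D2 A →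
      c = m3 A i / m3 A 2 →
      A i 0 = A 0 0 * a ∧
      A i 1 = A 0 0 * (a * (A 1 0 / A 0 0) + D2 A / (A 0 0) ^ 2 * b) ∧
      A i 2 = A 0 0 * (a * (A 2 0 / A 0 0) + D2 A / (A 0 0) ^ 2 *
        (b * ((A 0 0 * A 2 1 - A 0 1 * A 2 0) / D2 A)) + m3 A 2 / (D2 A * A 0 0) * c) := by
    rintro a b c rfl rfl rfl
    refine ⟨by field_simp, ?_, ?_⟩
    · field_simp
      rw [s01]
      ring
    · field_simp
      rw [em i, eD, s01, s02, s12]
      ring
  have fin : ∀ (a b c : ℂ), Nm (nu A) i 0 = a → Nm (nu A) i 1 = b → Nm (nu A) i 2 = c →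
      a = A i 0 / A 0 0 → b = (A 0 0 * A i 1 - A 0 1 * A i 0) / D2 A →
      c = m3 A i / m3 A 2 →
      A i 0 = A 0 0 * (Nm (nu A) * Dm (nu A 9) (nu A 10) * (Nm (nu A))ᵀ) i 0 ∧
      A i 1 = A 0 0 * (Nm (nu A) * Dm (nu A 9) (nu A 10) * (Nm (nu A))ᵀ) i 1 ∧
      A i 2 = A 0 0 * (Nm (nu A) * Dm (nu A 9) (nu A 10) * (Nm (nu A))ᵀ) i 2 := by
    intro a b c ea eb ec ha hb hc
    obtain ⟨k1, k2, k3⟩ := key a b c ha hb hc
    have f00 : Nm (nu A) 0 0 = 1 := rfl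
    have f01 : Nm (nu A) 0 1 = 0 := rfl
    have f02 : Nm (nu A) 0 2 = 0 := rfl
    have f10 : Nm (nu A) 1 0 = nu A 0 := rfl
    have f11 : Nm (nu A) 1 1 = 1 := rfl
    have f12 : Nm (nu A) 1 2 = 0 := rfl
    have f20 : Nm (nu A) 2 0 = nu A 1 := rfl
    have f21 : Nm (nu A) 2 1 = nu A 4 := rfl
    have f22 : Nm (nu A) 2 2 = 1 := rfl
    refine ⟨?_, ?_, ?_⟩
    · rw [NDN_apply, ea, eb, ec, f00, f01, f02]
      linear_combination k1
    · rw [NDN_apply, ea, eb, ec, f10, f11, f12, n0, n9]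
      linear_combination k2
    · rw [NDN_apply, ea, eb, ec, f20, f21, f22, n1, n4, n9, n10]
      linear_combination k3
  have i5 : i = 0 ∨ i = 1 ∨ i = 2 ∨ i = 3 ∨ i = 4 := by
    fin_cases i <;> simp
  rcases i5 with rfl | rfl | rfl | rfl | rfl
  · refine fin 1 0 0 rfl rfl rfl (by field_simp) ?_ ?_
    · rw [show A 0 0 * A 0 1 - A 0 1 * A 0 0 = 0 by ring, zero_div]
    · rw [show m3 A 0 = 0 by rw [em 0]; ring, zero_div]
  · refine fin (A 1 0 / A 0 0) 1 0 rfl rfl rfl rfl ?_ ?_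
    · rw [← eD, div_self h2]
    · rw [show m3 A 1 = 0 by rw [em 1]; ring, zero_div]
  · exact fin _ _ 1 rfl rfl rfl rfl rfl (div_self h3).symm
  · exact fin _ _ _ rfl rfl rfl rfl rfl rfl
  · exact fin _ _ _ rfl rfl rfl rfl rfl rfl

/-- part (3) -/
lemma pt_nu (x : M5 × M5) (hx : x ∈ Cone) (hdn : dn x.2 ≠ 0) :
    nu x.2 9 ≠ 0 ∧ nu x.2 10 ≠ 0 ∧ Same (pt (nu x.2)) x := by
  obtain ⟨Q, A⟩ := x
  obtain ⟨hQ, -, hQ0, hA, -, hAQ⟩ := hx
  simp only at hQ hQ0 hA hAQ hdn ⊢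
  have h0 : A 0 0 ≠ 0 := fun h => hdn (by rw [dn, h, zero_mul, zero_mul])
  have h2 : D2 A ≠ 0 := fun h => hdn (by rw [dn, h, mul_zero, zero_mul])
  have h3 : m3 A 2 ≠ 0 := fun h => hdn (by rw [dn, h, mul_zero])
  have h9 : nu A 9 ≠ 0 := div_ne_zero h2 (pow_ne_zero _ h0)
  have h10 : nu A 10 ≠ 0 := div_ne_zero h3 (mul_ne_zero h2 h0)
  refine ⟨h9, h10, ?_⟩
  have hrows := rows A hA h0 h2 h3
  set N : M5 := Nm (nu A) with hN
  set D : M5 := Dm (nu A 9) (nu A 10) with hD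
  have hdet : N.det = 1 := Nm_det _
  have hadj1 : adjugate N * N = 1 := by rw [adjugate_mul, hdet, one_smul]
  have hadj2 : N * adjugate N = 1 := by rw [mul_adjugate, hdet, one_smul]
  have hT1 : Nᵀ * (adjugate N)ᵀ = 1 := by rw [← transpose_mul, hadj1, transpose_one]
  have hT2 : (adjugate N)ᵀ * Nᵀ = 1 := by rw [← transpose_mul, hadj2, transpose_one]
  -- the difference
  set R : M5 := A - A 0 0 • (N * D * Nᵀ) with hR
  have hDT : Dᵀ = D := by rw [hD, Dm, diagonal_transpose]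
  have hRT : Rᵀ = R := by
    rw [hR, transpose_sub, transpose_smul, transpose_mul, transpose_mul, transpose_transpose, hA,
      hDT, Matrix.mul_assoc]
  have hRs : ∀ i j, R j i = R i j := fun i j => congrFun (congrFun hRT i) j
  have hRij : ∀ i j, R i j = A i j - A 0 0 * (N * D * Nᵀ) i j := by
    intro i j
    rw [hR, Matrix.sub_apply, Matrix.smul_apply, smul_eq_mul]
  have hR0 : ∀ i, R i 0 = 0 := fun i => by rw [hRij]; exact sub_eq_zero.mpr (hrows i).1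
  have hR1 : ∀ i, R i 1 = 0 := fun i => by rw [hRij]; exact sub_eq_zero.mpr (hrows i).2.1
  have hR2 : ∀ i, R i 2 = 0 := fun i => by rw [hRij]; exact sub_eq_zero.mpr (hrows i).2.2
  have hN3 : ∀ i, N i 3 = if i = 3 then 1 else 0 := Nm_three _
  have hN4 : ∀ i, N i 4 = if i = 4 then 1 else 0 := Nm_four _
  have hNR : N * R = R := by
    ext i j
    rw [Matrix.mul_apply, Fin.sum_univ_five, hRs j 0, hRs j 1, hRs j 2, hR0, hR1, hR2, hN3, hN4]
    fin_cases i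
    · simp only [mul_zero, zero_add]
      show (if (0 : Fin 5) = 3 then (1 : ℂ) else 0) * R 3 j +
        (if (0 : Fin 5) = 4 then (1 : ℂ) else 0) * R 4 j = R 0 j
      rw [if_neg (by decide), if_neg (by decide), hRs j 0, hR0]
      ring
    · simp only [mul_zero, zero_add]
      show (if (1 : Fin 5) = 3 then (1 : ℂ) else 0) * R 3 j +
        (if (1 : Fin 5) = 4 then (1 : ℂ) else 0) * R 4 j = R 1 j
      rw [if_neg (by decide), if_neg (by decide), hRs j 1, hR1]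
      ring
    · simp only [mul_zero, zero_add]
      show (if (2 : Fin 5) = 3 then (1 : ℂ) else 0) * R 3 j +
        (if (2 : Fin 5) = 4 then (1 : ℂ) else 0) * R 4 j = R 2 j
      rw [if_neg (by decide), if_neg (by decide), hRs j 2, hR2]
      ring
    · simp only [mul_zero, zero_add]
      show (if (3 : Fin 5) = 3 then (1 : ℂ) else 0) * R 3 j +
        (if (3 : Fin 5) = 4 then (1 : ℂ) else 0) * R 4 j = R 3 j
      rw [if_pos rfl, if_neg (by decide)]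
      ring
    · simp only [mul_zero, zero_add]
      show (if (4 : Fin 5) = 3 then (1 : ℂ) else 0) * R 3 j +
        (if (4 : Fin 5) = 4 then (1 : ℂ) else 0) * R 4 j = R 4 j
      rw [if_pos rfl, if_neg (by decide)]
      ring
  have hRN : R * Nᵀ = R := by
    have h := congrArg Matrix.transpose hNR
    rwa [transpose_mul, hRT] at h
  have hAeq : A = N * (A 0 0 • D + R) * Nᵀ := by
    rw [Matrix.mul_add, Matrix.add_mul, hNR, hRN, Matrix.mul_smul, Matrix.smul_mul, hR]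
    abel
  set Q' : M5 := Nᵀ * Q * N with hQ'
  have hQback : Q = (adjugate N)ᵀ * Q' * adjugate N := by
    calc Q = ((adjugate N)ᵀ * Nᵀ) * Q * (N * adjugate N) := by
          rw [hT2, hadj2, Matrix.one_mul, Matrix.mul_one]
      _ = (adjugate N)ᵀ * Q' * adjugate N := by simp only [hQ', Matrix.mul_assoc]
  have hQ'T : Q'ᵀ = -Q' := by
    rw [hQ', transpose_mul, transpose_mul, transpose_transpose, hQ, Matrix.neg_mul,
      Matrix.mul_neg, Matrix.mul_assoc]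
  have hQs : ∀ i j, Q' j i = - Q' i j := fun i j => by
    have := congrFun (congrFun hQ'T i) j
    rwa [Matrix.transpose_apply, Matrix.neg_apply] at this
  have hprod : (A 0 0 • D + R) * Q' = 0 := by
    have h5 : N * (A 0 0 • D + R) * Nᵀ * Q = 0 := by rw [← hAeq, hAQ]
    calc (A 0 0 • D + R) * Q' = (adjugate N * N) * (A 0 0 • D + R) * Q' := by
          rw [hadj1, Matrix.one_mul]
      _ = adjugate N * (N * (A 0 0 • D + R) * Nᵀ * Q) * N := by
          simp only [hQ', Matrix.mul_assoc]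
      _ = 0 := by rw [h5, Matrix.mul_zero, Matrix.zero_mul]
  -- the entries of `A₀₀ D + R`
  have hent : ∀ i j, ((A 0 0 • D + R) * Q') i j = A 0 0 * (![1, nu A 9, nu A 10, 0, 0] i * Q' i j) +
      (R i 3 * Q' 3 j + R i 4 * Q' 4 j) := by
    intro i j
    rw [Matrix.add_mul, Matrix.add_apply, Matrix.smul_mul, Matrix.smul_apply, smul_eq_mul, hD, Dm,
      Matrix.diagonal_mul, Matrix.mul_apply, Fin.sum_univ_five, hR0, hR1, hR2]
    ring
  have hz : ∀ i j, A 0 0 * (![1, nu A 9, nu A 10, 0, 0] i * Q' i j) +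
      (R i 3 * Q' 3 j + R i 4 * Q' 4 j) = 0 := by
    intro i j
    rw [← hent, hprod, Matrix.zero_apply]
  have hq0 : ∀ j, Q' 0 j = 0 := by
    intro j
    have h := hz 0 j
    rw [hRs 3 0, hRs 4 0, hR0, hR0] at h
    have h' : A 0 0 * (1 * Q' 0 j) + (0 * Q' 3 j + 0 * Q' 4 j) = 0 := h
    have h'' : A 0 0 * Q' 0 j = 0 := by linear_combination h'
    exact (mul_eq_zero.mp h'').resolve_left h0
  have hq1 : ∀ j, Q' 1 j = 0 := by
    intro j
    have h := hz 1 j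
    rw [hRs 3 1, hRs 4 1, hR1, hR1] at h
    have h' : A 0 0 * (nu A 9 * Q' 1 j) + (0 * Q' 3 j + 0 * Q' 4 j) = 0 := h
    have h'' : (A 0 0 * nu A 9) * Q' 1 j = 0 := by linear_combination h'
    exact (mul_eq_zero.mp h'').resolve_left (mul_ne_zero h0 h9)
  have hq2 : ∀ j, Q' 2 j = 0 := by
    intro j
    have h := hz 2 j
    rw [hRs 3 2, hRs 4 2, hR2, hR2] at h
    have h' : A 0 0 * (nu A 10 * Q' 2 j) + (0 * Q' 3 j + 0 * Q' 4 j) = 0 := h
    have h'' : (A 0 0 * nu A 10) * Q' 2 j = 0 := by linear_combination h'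
    exact (mul_eq_zero.mp h'').resolve_left (mul_ne_zero h0 h10)
  have hd : ∀ i, Q' i i = 0 := fun i => by
    have := hQs i i
    linear_combination (1 / 2 : ℂ) * this
  have hQQ : Q' = Q' 3 4 • Q0 := by
    ext i j
    rw [Matrix.smul_apply, IXAux.Q0_apply, smul_eq_mul]
    have i5 : i = 0 ∨ i = 1 ∨ i = 2 ∨ i = 3 ∨ i = 4 := by
      fin_cases i <;> simp
    have j5 : j = 0 ∨ j = 1 ∨ j = 2 ∨ j = 3 ∨ j = 4 := by
      fin_cases j <;> simp
    have w0 : ∀ i, Q' i 0 = 0 := fun i => by rw [hQs 0 i, hq0, neg_zero]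
    have w1 : ∀ i, Q' i 1 = 0 := fun i => by rw [hQs 1 i, hq1, neg_zero]
    have w2 : ∀ i, Q' i 2 = 0 := fun i => by rw [hQs 2 i, hq2, neg_zero]
    rcases i5 with rfl | rfl | rfl | rfl | rfl <;> rcases j5 with rfl | rfl | rfl | rfl | rfl <;>
      simp [hq0, hq1, hq2, hd, w0, w1, w2, hQs 3 4]
  have hq : Q' 3 4 ≠ 0 := by
    intro h
    rw [h, zero_smul] at hQQ
    apply hQ0
    rw [hQback, hQQ, Matrix.mul_zero, Matrix.zero_mul]
  have hR3 : ∀ i, R i 3 = 0 := by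
    intro i
    have h := hz i 4
    rw [hd 4] at h
    have i5 : i = 0 ∨ i = 1 ∨ i = 2 ∨ i = 3 ∨ i = 4 := by
      fin_cases i <;> simp
    rcases i5 with rfl | rfl | rfl | rfl | rfl
    · rw [hRs 3 0, hR0]
    · rw [hRs 3 1, hR1]
    · rw [hRs 3 2, hR2]
    · have h' : A 0 0 * (0 * Q' 3 4) + (R 3 3 * Q' 3 4 + R 3 4 * 0) = 0 := h
      have h'' : R 3 3 * Q' 3 4 = 0 := by linear_combination h'
      exact (mul_eq_zero.mp h'').resolve_right hq
    · have h' : A 0 0 * (0 * 0) + (R 4 3 * Q' 3 4 + R 4 4 * 0) = 0 := by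
        have e := hz 4 4
        rw [hd 4] at e
        exact e
      have h'' : R 4 3 * Q' 3 4 = 0 := by linear_combination h'
      exact (mul_eq_zero.mp h'').resolve_right hq
  have hR4 : ∀ i, R i 4 = 0 := by
    intro i
    have i5 : i = 0 ∨ i = 1 ∨ i = 2 ∨ i = 3 ∨ i = 4 := by
      fin_cases i <;> simp
    rcases i5 with rfl | rfl | rfl | rfl | rfl
    · rw [hRs 4 0, hR0]
    · rw [hRs 4 1, hR1]
    · rw [hRs 4 2, hR2]
    · rw [hRs 4 3, hR3]
    · have e := hz 4 3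
      rw [hR3, hQs 3 4] at e
      have h' : A 0 0 * (0 * -Q' 3 4) + (0 * Q' 3 3 + R 4 4 * -Q' 3 4) = 0 := e
      have h'' : R 4 4 * Q' 3 4 = 0 := by linear_combination -h'
      exact (mul_eq_zero.mp h'').resolve_right hq
  have hRz : R = 0 := by
    ext i j
    have j5 : j = 0 ∨ j = 1 ∨ j = 2 ∨ j = 3 ∨ j = 4 := by
      fin_cases j <;> simp
    rw [Matrix.zero_apply]
    rcases j5 with rfl | rfl | rfl | rfl | rfl
    · exact hR0 i
    · exact hR1 i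
    · exact hR2 i
    · exact hR3 i
    · exact hR4 i
  refine ⟨Q' 3 4, A 0 0, hq, h0, ?_⟩
  refine Prod.ext ?_ ?_
  · show Q = Q' 3 4 • ((adjugate N)ᵀ * Q0 * adjugate N)
    calc Q = (adjugate N)ᵀ * Q' * adjugate N := hQback
      _ = (adjugate N)ᵀ * (Q' 3 4 • Q0) * adjugate N := by rw [← hQQ]
      _ = Q' 3 4 • ((adjugate N)ᵀ * Q0 * adjugate N) := by
          rw [Matrix.mul_smul, Matrix.smul_mul]
  · show A = A 0 0 • (N * D * Nᵀ)
    have h := hAeq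
    rw [hRz, add_zero, Matrix.mul_smul, Matrix.smul_mul] at h
    exact h

end LDAux

/-- Module LD: the coordinates are inverse to the parametrisation. -/
theorem stLD : StLD :=
  ⟨LDAux.pt_mem, fun τ x h9 h10 h => LDAux.nu_pt τ x h9 h10 h, fun x hx h => LDAux.pt_nu x hx h⟩

end MC
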