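import Pool.Agent.Lib.MC.Stmts3
import Pool.Agent.Lib.MC.DO

set_option autoImplicit false

/-!
# Two Manin components (MP_ac098b_ag): module LP

The parity lemma.
-/

noncomputable section

namespace MC

open Matrix

namespace LPAux

/-! ### Minors -/

theorem rows {n : Type} [Fintype n] [DecidableEq n] (B : Matrix (Fin 5) n ℂ) (h : B.rank = 3) :
    ∃ I : Fin 3 → Fin 5, LinearIndependent ℂ (fun a => B (I a)) := by
  obtain ⟨κ, a, ha, hs, hl⟩ := exists_linearIndependent' ℂ B.row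
  have : Finite κ := Finite.of_injective a ha
  have : Fintype κ := Fintype.ofFinite κ
  have hc : Fintype.card κ = 3 := by
    rw [linearIndependent_iff_card_eq_finrank_span.mp hl, Set.finrank, hs,
      ← Matrix.rank_eq_finrank_span_row, h]
  let e : Fin 3 ≃ κ := (Fintype.equivFinOfCardEq hc).symm
  exact ⟨a ∘ e, hl.comp e e.injective⟩

theorem minor (A : M5) (h : A.rank = 3) : ∃ I J : Fin 3 → Fin 5, (A.submatrix I J).det ≠ 0 := by
  obtain ⟨J, hJ⟩ := rows Aᵀ (by rw [Matrix.rank_transpose, h])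
  have h2 : (A.submatrix id J).rank = 3 := by
    rw [← Matrix.rank_transpose]
    have : LinearIndependent ℂ ((A.submatrix id J)ᵀ).row := hJ
    rw [this.rank_matrix, Fintype.card_fin]
  obtain ⟨I, hI⟩ := rows (A.submatrix id J) h2
  refine ⟨I, J, ?_⟩
  have h3 : LinearIndependent ℂ (A.submatrix I J).row := hI
  rw [Matrix.linearIndependent_rows_iff_isUnit] at h3
  exact ((Matrix.isUnit_iff_isUnit_det _).1 h3).ne_zero

/-- the vector with the coordinates `u` at the indices `J` -/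
def ext5 (J : Fin 3 → Fin 5) (u : Fin 3 → ℂ) : Fin 5 → ℂ := fun i => ∑ a, if J a = i then u a else 0

theorem ext5_dot (J : Fin 3 → Fin 5) (u : Fin 3 → ℂ) (f : Fin 5 → ℂ) :
    ext5 J u ⬝ᵥ f = u ⬝ᵥ (f ∘ J) := by
  simp only [dotProduct, ext5, Finset.sum_mul, ite_mul, zero_mul, Function.comp]
  rw [Finset.sum_comm]
  simp

theorem mul_ext5 (A : M5) (J : Fin 3 → Fin 5) (u : Fin 3 → ℂ) (i : Fin 5) :
    (A *ᵥ ext5 J u) i = ∑ a, A i (J a) * u a := by
  rw [Matrix.mulVec, dotProduct_comm, ext5_dot]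
  simp only [dotProduct, Function.comp]
  exact Finset.sum_congr rfl fun a _ => mul_comm _ _

theorem mul_ext5_comp (A : M5) (I J : Fin 3 → Fin 5) (u : Fin 3 → ℂ) :
    (A *ᵥ ext5 J u) ∘ I = A.submatrix I J *ᵥ u := by
  funext a
  simp only [Function.comp, mul_ext5]
  rfl

theorem inj_res {A : M5} (h : A.rank = 3) {I J : Fin 3 → Fin 5} (hd : (A.submatrix I J).det ≠ 0)
    {y z : Fin 5 → ℂ} (e : (A *ᵥ y) ∘ I = (A *ᵥ z) ∘ I) : A *ᵥ y = A *ᵥ z := by
  let W := LinearMap.range A.mulVecLin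
  let R : W →ₗ[ℂ] (Fin 3 → ℂ) := (LinearMap.funLeft ℂ ℂ I).comp W.subtype
  have hW : Module.finrank ℂ W = Module.finrank ℂ (Fin 3 → ℂ) := by
    rw [Module.finrank_fin_fun]; exact h
  have hsurj : Function.Surjective R := by
    intro u
    refine ⟨⟨A *ᵥ ext5 J ((A.submatrix I J)⁻¹ *ᵥ u), ⟨_, rfl⟩⟩, ?_⟩
    change (A *ᵥ ext5 J ((A.submatrix I J)⁻¹ *ᵥ u)) ∘ I = u
    rw [mul_ext5_comp, Matrix.mulVec_mulVec, Matrix.mul_nonsing_inv _ hd.isUnit, Matrix.one_mulVec]
  have hinj : Function.Injective R :=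
    (LinearMap.injective_iff_surjective_of_finrank_eq_finrank hW).2 hsurj
  have := @hinj ⟨A *ᵥ y, ⟨y, rfl⟩⟩ ⟨A *ᵥ z, ⟨z, rfl⟩⟩ e
  exact congrArg Subtype.val this

/-- the kernel of `Q` is the range of `A` -/
theorem ker_range {x : M5 × M5} (hx : x ∈ Cone) (h : x.2.rank = 3) {f : Fin 5 → ℂ}
    (hf : x.1 *ᵥ f = 0) : ∃ y, f = x.2 *ᵥ y := by
  obtain ⟨h1, h2, h3, h4, h5, h6⟩ := hx
  have hQ := DOAux.rank_Q h1 h3
  have h7 : x.1 * x.2 = 0 := by
    have := congrArg Matrix.transpose h6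
    rw [Matrix.transpose_mul, h1, h4, Matrix.transpose_zero, Matrix.neg_mul, neg_eq_zero] at this
    exact this
  have hle : LinearMap.range x.2.mulVecLin ≤ LinearMap.ker x.1.mulVecLin := by
    rintro _ ⟨y, rfl⟩
    rw [LinearMap.mem_ker, Matrix.mulVecLin_apply, Matrix.mulVecLin_apply, Matrix.mulVec_mulVec, h7,
      Matrix.zero_mulVec]
  have hk := LinearMap.finrank_range_add_finrank_ker x.1.mulVecLin
  rw [Module.finrank_fin_fun] at hk
  have hQ' : Module.finrank ℂ (LinearMap.range x.1.mulVecLin) = x.1.rank := rfl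
  have hA' : Module.finrank ℂ (LinearMap.range x.2.mulVecLin) = x.2.rank := rfl
  have heq := Submodule.eq_of_le_of_finrank_le hle (by omega)
  have : f ∈ LinearMap.ker x.1.mulVecLin := hf
  rw [← heq] at this
  obtain ⟨y, hy⟩ := this
  exact ⟨y, hy.symm⟩

open Classical in
/-- the quadratic form on the range of `A` -/
def qq (A : M5) (f : Fin 5 → ℂ) : ℂ := if h : ∃ y, f = A *ᵥ y then h.choose ⬝ᵥ f else 0

theorem qq_eq {A : M5} (hA : Aᵀ = A) {f y : Fin 5 → ℂ} (h : f = A *ᵥ y) : qq A f = y ⬝ᵥ f := by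
  have h' : ∃ y, f = A *ᵥ y := ⟨y, h⟩
  rw [qq, dif_pos h']
  have hc := h'.choose_spec
  set z := h'.choose
  conv_lhs => rw [h]
  conv_rhs => rw [hc]
  rw [Matrix.dotProduct_mulVec, ← Matrix.mulVec_transpose, hA, dotProduct_comm]

theorem qq_formula {A : M5} (hA : Aᵀ = A) (h : A.rank = 3) {I J : Fin 3 → Fin 5}
    (hd : (A.submatrix I J).det ≠ 0) {f y : Fin 5 → ℂ} (hf : f = A *ᵥ y) :
    qq A f = (adjugate (A.submatrix I J) *ᵥ (f ∘ I)) ⬝ᵥ (f ∘ J) / (A.submatrix I J).det := by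
  set B := A.submatrix I J with hB
  have h1 : f = A *ᵥ ext5 J (B.det⁻¹ • (adjugate B *ᵥ (f ∘ I))) := by
    conv_lhs => rw [hf]
    refine inj_res h hd ?_
    rw [mul_ext5_comp, ← hB, Matrix.mulVec_smul, Matrix.mulVec_mulVec, Matrix.mul_adjugate,
      Matrix.smul_mulVec, Matrix.one_mulVec, smul_smul, inv_mul_cancel₀ hd, one_smul, hf]
  rw [qq_eq hA h1, ext5_dot, smul_dotProduct, smul_eq_mul]
  field_simp

/-! ### The regular function -/

section
variable {k : ℕ} (c : CV (3 * k) (2 * k)) (x : Fin (k + 1) → (Fin 5 → ℂ))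

theorem lin_mem {V : Type} [AddCommGroup V] [Module ℂ V] (φ : V →ₗ[ℂ] ℂ) :
    (fun v => φ v) ∈ Poly V :=
  Algebra.subset_adjoin ⟨φ, rfl⟩

theorem pw_mem (a b : ℕ) (z : ℂ) : (fun v : Fin 2 → ℂ => (v 0 ^ a * v 1 ^ b) * z) ∈ Poly (Fin 2 → ℂ) := by
  have h0 := lin_mem (LinearMap.proj 0 : (Fin 2 → ℂ) →ₗ[ℂ] ℂ)
  have h1 := lin_mem (LinearMap.proj 1 : (Fin 2 → ℂ) →ₗ[ℂ] ℂ)
  exact mul_mem (mul_mem (pow_mem h0 a) (pow_mem h1 b)) ((Poly _).algebraMap_mem z)

theorem sum_mem' {ι : Type} (s : Finset ι) {f : ι → (Fin 2 → ℂ) → ℂ}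
    (hf : ∀ i ∈ s, f i ∈ Poly (Fin 2 → ℂ)) : (fun v => ∑ i ∈ s, f i v) ∈ Poly (Fin 2 → ℂ) := by
  have e : (fun v => ∑ i ∈ s, f i v) = ∑ i ∈ s, f i := by
    funext v
    rw [Finset.sum_apply]
  rw [e]
  exact (Poly _).sum_mem hf

theorem ev_mem {d : ℕ} (q : Fin (d + 1) → M5) (i j : Fin 5) :
    (fun v => ev q v i j) ∈ Poly (Fin 2 → ℂ) := by
  have e : (fun v => ev q v i j) = fun v => ∑ l : Fin (d + 1),
      (v 0 ^ (d - (l : ℕ)) * v 1 ^ (l : ℕ)) * q l i j := by
    funext v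
    simp only [ev, Matrix.sum_apply, Matrix.smul_apply, smul_eq_mul]
  rw [e]
  exact sum_mem' _ fun l _ => pw_mem _ _ _

theorem evv_mem {N : ℕ} (y : Fin (N + 1) → (Fin 5 → ℂ)) (j : Fin 5) :
    (fun v => evv y v j) ∈ Poly (Fin 2 → ℂ) := by
  have e : (fun v => evv y v j) = fun v => ∑ l : Fin (N + 1),
      (v 0 ^ (N - (l : ℕ)) * v 1 ^ (l : ℕ)) * y l j := by
    funext v
    simp only [evv, Finset.sum_apply, Pi.smul_apply, smul_eq_mul]
  rw [e]
  exact sum_mem' _ fun l _ => pw_mem _ _ _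

theorem ev_smul {d : ℕ} (q : Fin (d + 1) → M5) (v : Fin 2 → ℂ) (s : ℂ) :
    ev q (s • v) = s ^ d • ev q v := by
  simp only [ev, Finset.smul_sum, smul_smul]
  refine Finset.sum_congr rfl fun i _ => ?_
  congr 1
  simp only [Pi.smul_apply, smul_eq_mul, mul_pow]
  have : s ^ d = s ^ (d - (i : ℕ)) * s ^ (i : ℕ) := by rw [← pow_add]; congr 1; omega
  rw [this]; ring

theorem evv_smul {N : ℕ} (y : Fin (N + 1) → (Fin 5 → ℂ)) (v : Fin 2 → ℂ) (s : ℂ) :
    evv y (s • v) = s ^ N • evv y v := by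
  simp only [evv, Finset.smul_sum, smul_smul]
  refine Finset.sum_congr rfl fun i _ => ?_
  congr 1
  simp only [Pi.smul_apply, smul_eq_mul, mul_pow]
  have : s ^ N = s ^ (N - (i : ℕ)) * s ^ (i : ℕ) := by rw [← pow_add]; congr 1; omega
  rw [this]; ring

/-- the function is constant -/
theorem const (hRG : StRG) (hc : c ∈ MorCone (3 * k) (2 * k))
    (hr : ∀ v, v ≠ 0 → (ev c.2 v).rank = 3) (hx : x ∈ HH k c) (v w : Fin 2 → ℂ) (hv : v ≠ 0)
    (hw : w ≠ 0) : qq (ev c.2 v) (evv x v) = qq (ev c.2 w) (evv x w) := by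
  have hex : ∀ v, v ≠ 0 → ∃ y, evv x v = ev c.2 v *ᵥ y := fun v hv =>
    ker_range (hc v hv) (hr v hv) (hx v)
  have hsym : ∀ v, v ≠ 0 → (ev c.2 v)ᵀ = ev c.2 v := fun v hv => (hc v hv).2.2.2.1
  refine (hRG 0 (fun v => qq (ev c.2 v) (evv x v)) ?_ ?_).2 rfl v w hv hw
  · intro v hv
    obtain ⟨I, J, hd⟩ := minor _ (hr v hv)
    -- the entries as elements of the subalgebra
    let B : Matrix (Fin 3) (Fin 3) (Poly (Fin 2 → ℂ)) :=
      Matrix.of fun a b => ⟨fun v => ev c.2 v (I a) (J b), ev_mem c.2 _ _⟩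
    let F : Fin 3 → Poly (Fin 2 → ℂ) := fun a => ⟨fun v => evv x v (I a), evv_mem x _⟩
    let G : Fin 3 → Poly (Fin 2 → ℂ) := fun a => ⟨fun v => evv x v (J a), evv_mem x _⟩
    let φ : (Fin 2 → ℂ) → (Poly (Fin 2 → ℂ) →+* ℂ) := fun v =>
      (Pi.evalRingHom (fun _ => ℂ) v).comp (Poly (Fin 2 → ℂ)).val.toRingHom
    have hB : ∀ v, (φ v).mapMatrix B = (ev c.2 v).submatrix I J := fun v => by ext a b; rfl
    have hF : ∀ v, (φ v) ∘ F = evv x v ∘ I := fun v => rfl
    have hG : ∀ v, (φ v) ∘ G = evv x v ∘ J := fun v => rfl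
    have hdet : ∀ v, (B.det : (Fin 2 → ℂ) → ℂ) v = ((ev c.2 v).submatrix I J).det := fun v => by
      rw [← hB, ← RingHom.map_det]; rfl
    have hp : ∀ v, (((adjugate B *ᵥ F) ⬝ᵥ G : Poly (Fin 2 → ℂ)) : (Fin 2 → ℂ) → ℂ) v =
        (adjugate ((ev c.2 v).submatrix I J) *ᵥ (evv x v ∘ I)) ⬝ᵥ (evv x v ∘ J) := fun v => by
      change φ v ((adjugate B *ᵥ F) ⬝ᵥ G) = _
      have h1 : (φ v) ∘ (adjugate B *ᵥ F) = (adjugate B).map (φ v) *ᵥ ((φ v) ∘ F) := by
        funext a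
        exact RingHom.map_mulVec (φ v) _ _ a
      rw [RingHom.map_dotProduct, h1, hG, hF, ← hB, ← RingHom.map_adjugate]
      rfl
    refine ⟨_, ((adjugate B *ᵥ F) ⬝ᵥ G).2, _, B.det.2, ?_, ?_⟩
    · rw [hdet]; exact hd
    · intro v' hv' hd'
      obtain ⟨y, hy⟩ := hex v' hv'
      rw [hdet] at hd'
      rw [hdet, hp]
      exact qq_formula (hsym v' hv') (hr v' hv') hd' hy
  · intro v hv s hs
    have hsv : s • v ≠ 0 := smul_ne_zero hs hv
    obtain ⟨y, hy⟩ := hex _ hsv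
    have h2 : evv x v = ev c.2 v *ᵥ (s ^ k • y) := by
      have h3 := hy
      rw [evv_smul, ev_smul, Matrix.smul_mulVec] at h3
      have hsk : s ^ k ≠ 0 := pow_ne_zero _ hs
      have h4 : s ^ k • evv x v = s ^ k • (ev c.2 v *ᵥ (s ^ k • y)) := by
        rw [h3, Matrix.mulVec_smul, smul_smul, ← pow_add]
        congr 2; ring
      exact smul_right_injective _ hsk h4
    change qq (ev c.2 (s • v)) (evv x (s • v)) = s ^ (0 : ℤ) * qq (ev c.2 v) (evv x v)
    rw [zpow_zero, one_mul, qq_eq (hsym _ hsv) hy, qq_eq (hsym _ hv) h2, evv_smul,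
      dotProduct_smul, smul_dotProduct]

end

/-! ### Expansion at the point `(1, 0)` -/

theorem quad {R : Type} [CommRing R] (P : Matrix (Fin 3) (Fin 3) R) (hP : Pᵀ = P)
    (F y G : Fin 3 → R) (t : R) (hF : F = P *ᵥ y + t • G) :
    (adjugate P *ᵥ F) ⬝ᵥ F - P.det * (2 * (y ⬝ᵥ F) - y ⬝ᵥ (P *ᵥ y)) =
      t ^ 2 * ((adjugate P *ᵥ G) ⬝ᵥ G) := by
  have h1 : adjugate P *ᵥ F = P.det • y + t • (adjugate P *ᵥ G) := by
    rw [hF, Matrix.mulVec_add, Matrix.mulVec_mulVec, Matrix.adjugate_mul, Matrix.smul_mulVec,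
      Matrix.one_mulVec, Matrix.mulVec_smul]
  have hadj : (adjugate P)ᵀ = adjugate P := by rw [Matrix.adjugate_transpose, hP]
  have h2 : (adjugate P *ᵥ G) ⬝ᵥ (P *ᵥ y) = P.det * (y ⬝ᵥ G) := by
    rw [Matrix.dotProduct_mulVec, ← Matrix.mulVec_transpose, hP, Matrix.mulVec_mulVec,
      Matrix.mul_adjugate, Matrix.smul_mulVec, Matrix.one_mulVec, smul_dotProduct, smul_eq_mul,
      dotProduct_comm]
  rw [h1, hF]
  simp only [add_dotProduct, dotProduct_add, smul_dotProduct, dotProduct_smul, smul_eq_mul, h2]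
  ring

open Polynomial in
/-- the polynomial with the given coefficients -/
def pol {N : ℕ} (q : Fin (N + 1) → ℂ) : ℂ[X] := ∑ i : Fin (N + 1), monomial (i : ℕ) (q i)

open Polynomial in
theorem pol_coeff {N : ℕ} (q : Fin (N + 1) → ℂ) (n : ℕ) (h : n < N + 1) :
    (pol q).coeff n = q ⟨n, h⟩ := by
  simp only [pol, finsetSum_coeff, coeff_monomial]
  rw [Finset.sum_eq_single (⟨n, h⟩ : Fin (N + 1))]
  · simp
  · intro b _ hb
    rw [if_neg]
    intro h'
    exact hb (Fin.ext h')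
  · simp

open Polynomial in
theorem pol_eval {N : ℕ} (q : Fin (N + 1) → ℂ) (t : ℂ) :
    (pol q).eval t = ∑ i : Fin (N + 1), t ^ (i : ℕ) * q i := by
  simp only [pol, eval_finsetSum, eval_monomial]
  exact Finset.sum_congr rfl fun i _ => mul_comm _ _

open Polynomial in
/-- the form `S` vanishes on the diagonal -/
theorem alt (hRG : StRG) {k : ℕ} (hk : 1 ≤ k) {c : CV (3 * k) (2 * k)}
    (hc : c ∈ MorCone (3 * k) (2 * k)) (hr : ∀ v, v ≠ 0 → (ev c.2 v).rank = 3)
    (hd : (blk (c.2 0)).det ≠ 0) {x : Fin (k + 1) → (Fin 5 → ℂ)} (hx : x ∈ HH k c) :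
    (fun a => x 0 (i024 a)) ⬝ᵥ TT (c.2 0) (c.2 1) (x 0) (x 1) = 0 := by
  set x0 : Fin 3 → ℂ := fun a => x 0 (i024 a) with hx0
  set x1 : Fin 3 → ℂ := fun a => x 1 (i024 a) with hx1
  set P0 := blk (c.2 0) with hP0
  set P1 := blk (c.2 1) with hP1
  have hv1 : ∀ t : ℂ, (![1, t] : Fin 2 → ℂ) ≠ 0 := fun t h => by
    have := congrFun h 0
    simp at this
  let lam := qq (ev c.2 ![1, 0]) (evv x ![1, 0])
  -- the polynomials
  let Pp : Matrix (Fin 3) (Fin 3) ℂ[X] :=
    Matrix.of fun a b => pol fun i => c.2 i (i024 a) (i024 b)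
  let F : Fin 3 → ℂ[X] := fun a => pol fun i => x i (i024 a)
  have hPe : ∀ t : ℂ, (evalRingHom t).mapMatrix Pp = (ev c.2 ![1, t]).submatrix i024 i024 := by
    intro t
    ext a b
    change eval t (pol _) = _
    rw [pol_eval]
    simp [ev, Matrix.sum_apply]
  have hFe : ∀ t : ℂ, (evalRingHom t) ∘ F = evv x ![1, t] ∘ i024 := by
    intro t
    funext a
    change eval t (pol _) = _
    rw [pol_eval]
    simp [evv, Finset.sum_apply]
  have hc0 : (0 : Fin (2 * k + 1)) = ⟨0, by omega⟩ := rfl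
  have hc1 : (1 : Fin (2 * k + 1)) = ⟨1, by omega⟩ :=
    Fin.ext (Nat.mod_eq_of_lt (by omega : 1 < 2 * k + 1))
  have hk0 : (0 : Fin (k + 1)) = ⟨0, by omega⟩ := rfl
  have hk1 : (1 : Fin (k + 1)) = ⟨1, by omega⟩ :=
    Fin.ext (Nat.mod_eq_of_lt (by omega : 1 < k + 1))
  have hP0c : ∀ a b, (Pp a b).coeff 0 = P0 a b := fun a b => by
    change (pol _).coeff 0 = _
    rw [pol_coeff _ 0 (by omega), ← hc0]; rfl
  have hP1c : ∀ a b, (Pp a b).coeff 1 = P1 a b := fun a b => by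
    change (pol _).coeff 1 = _
    rw [pol_coeff _ 1 (by omega), ← hc1]; rfl
  have hF0c : ∀ a, (F a).coeff 0 = x0 a := fun a => by
    change (pol _).coeff 0 = _
    rw [pol_coeff _ 0 (by omega), ← hk0]
  have hF1c : ∀ a, (F a).coeff 1 = x1 a := fun a => by
    change (pol _).coeff 1 = _
    rw [pol_coeff _ 1 (by omega), ← hk1]
  -- symmetry
  have hsymv : ∀ v, v ≠ 0 → (ev c.2 v)ᵀ = ev c.2 v := fun v hv => (hc v hv).2.2.2.1
  have hPs : Ppᵀ = Pp := by
    refine Matrix.ext fun a b => Polynomial.funext fun t => ?_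
    have h1 := congrFun (congrFun (hPe t) b) a
    have h2 := congrFun (congrFun (hPe t) a) b
    have h3 := congrFun (congrFun (hsymv _ (hv1 t)) (i024 a)) (i024 b)
    change eval t (Pp b a) = _ at h1
    change eval t (Pp a b) = _ at h2
    change eval t (Pp b a) = eval t (Pp a b)
    rw [h1, h2]
    exact h3
  have hP0s : P0ᵀ = P0 := by
    ext a b
    change P0 b a = P0 a b
    rw [← hP0c, ← hP0c]
    have := congrFun (congrFun hPs a) b
    change Pp b a = Pp a b at this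
    rw [this]
  -- the determinant
  have hdet0 : Pp.det.coeff 0 = P0.det := by
    rw [Polynomial.coeff_zero_eq_eval_zero]
    change evalRingHom 0 Pp.det = _
    rw [RingHom.map_det]
    congr 1
    ext a b
    change eval 0 (Pp a b) = _
    rw [← Polynomial.coeff_zero_eq_eval_zero, hP0c]
  have hdne : Pp.det ≠ 0 := by
    intro h
    rw [h] at hdet0
    exact hd (by rw [← hdet0]; simp)
  -- the identity of polynomials
  have hid : C lam * Pp.det = (adjugate Pp *ᵥ F) ⬝ᵥ F := by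
    have h1 : (C lam * Pp.det - (adjugate Pp *ᵥ F) ⬝ᵥ F) * Pp.det = 0 := by
      apply Polynomial.funext
      intro t
      rw [Polynomial.eval_mul, Polynomial.eval_zero]
      by_cases hdt : eval t Pp.det = 0
      · rw [hdt, mul_zero]
      · rw [Polynomial.eval_sub, Polynomial.eval_mul, Polynomial.eval_C]
        have hdt' : eval t Pp.det = ((ev c.2 ![1, t]).submatrix i024 i024).det := by
          change evalRingHom t Pp.det = _
          rw [RingHom.map_det, hPe]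
        have hnum : eval t ((adjugate Pp *ᵥ F) ⬝ᵥ F) =
            (adjugate ((ev c.2 ![1, t]).submatrix i024 i024) *ᵥ (evv x ![1, t] ∘ i024)) ⬝ᵥ
              (evv x ![1, t] ∘ i024) := by
          change evalRingHom t ((adjugate Pp *ᵥ F) ⬝ᵥ F) = _
          have h1 : (evalRingHom t) ∘ (adjugate Pp *ᵥ F) =
              (adjugate Pp).map (evalRingHom t) *ᵥ ((evalRingHom t) ∘ F) := by
            funext a
            exact RingHom.map_mulVec (evalRingHom t) _ _ a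
          rw [RingHom.map_dotProduct, h1, hFe, ← hPe, ← RingHom.map_adjugate]
          rfl
        obtain ⟨y, hy⟩ := ker_range (hc _ (hv1 t)) (hr _ (hv1 t)) (hx ![1, t])
        have h2 := qq_formula (hsymv _ (hv1 t)) (hr _ (hv1 t)) (I := i024) (J := i024)
          (by rw [← hdt']; exact hdt) hy
        have h3 : qq (ev c.2 ![1, t]) (evv x ![1, t]) = lam :=
          const c x hRG hc hr hx _ _ (hv1 t) (hv1 0)
        have h4 : qq (ev c.2 ![1, t]) (evv x ![1, t]) =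
            (adjugate ((ev c.2 ![1, t]).submatrix i024 i024) *ᵥ (evv x ![1, t] ∘ i024)) ⬝ᵥ
              (evv x ![1, t] ∘ i024) / ((ev c.2 ![1, t]).submatrix i024 i024).det := h2
        rw [h3, ← hnum, ← hdt'] at h4
        rw [h4]
        field_simp
        simp
    rcases mul_eq_zero.1 h1 with h | h
    · exact sub_eq_zero.1 h
    · exact absurd h hdne
  -- the vector `y`
  let y : Fin 3 → ℂ := P0.det⁻¹ • (adjugate P0 *ᵥ x0)
  have hy : P0 *ᵥ y = x0 := by
    simp only [y]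
    rw [Matrix.mulVec_smul, Matrix.mulVec_mulVec, Matrix.mul_adjugate, Matrix.smul_mulVec,
      Matrix.one_mulVec, smul_smul, inv_mul_cancel₀ hd, one_smul]
  let yc : Fin 3 → ℂ[X] := fun a => C (y a)
  have hG : ∀ a, ∃ g : ℂ[X], F a = (Pp *ᵥ yc) a + X * g := by
    intro a
    have : X ∣ F a - (Pp *ᵥ yc) a := by
      rw [Polynomial.X_dvd_iff, Polynomial.coeff_sub, hF0c]
      have h2 : ((Pp *ᵥ yc) a).coeff 0 = (P0 *ᵥ y) a := by
        simp only [Matrix.mulVec, dotProduct, yc, finsetSum_coeff, coeff_mul_C, hP0c]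
      rw [h2, hy, sub_self]
    obtain ⟨g, hg⟩ := this
    exact ⟨g, by rw [← hg]; ring⟩
  choose G hG using hG
  have hFG : F = Pp *ᵥ yc + (X : ℂ[X]) • G := by
    funext a
    simp only [Pi.add_apply, Pi.smul_apply, smul_eq_mul]
    exact hG a
  have hq := quad Pp hPs F yc G X hFG
  rw [← hid] at hq
  -- coefficients
  set Φ : ℂ[X] := 2 * (yc ⬝ᵥ F) - yc ⬝ᵥ (Pp *ᵥ yc) with hΦ
  have hq' : Pp.det * (C lam - Φ) = X ^ 2 * ((adjugate Pp *ᵥ G) ⬝ᵥ G) := by
    rw [← hq]; ring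
  have e0 : (Pp.det * (C lam - Φ)).coeff 0 = 0 := by
    rw [hq', Polynomial.coeff_X_pow_mul']; simp
  have e1 : (Pp.det * (C lam - Φ)).coeff 1 = 0 := by
    rw [hq', Polynomial.coeff_X_pow_mul']; simp
  rw [Polynomial.mul_coeff_zero, hdet0] at e0
  have e0' : (C lam - Φ).coeff 0 = 0 := by
    rcases mul_eq_zero.1 e0 with h | h
    · exact absurd h hd
    · exact h
  rw [Polynomial.mul_coeff_one, e0', hdet0, mul_zero, add_zero] at e1
  have e1' : (C lam - Φ).coeff 1 = 0 := by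
    rcases mul_eq_zero.1 e1 with h | h
    · exact absurd h hd
    · exact h
  have hΦ1 : Φ.coeff 1 = 2 * (y ⬝ᵥ x1) - y ⬝ᵥ (P1 *ᵥ y) := by
    rw [hΦ]
    have h2 : (2 : ℂ[X]) = C 2 := rfl
    simp only [dotProduct, Matrix.mulVec, yc, Polynomial.coeff_sub, h2, Polynomial.coeff_C_mul,
      finsetSum_coeff, Polynomial.coeff_mul_C, hF1c, hP1c]
  have e2 : 2 * (y ⬝ᵥ x1) - y ⬝ᵥ (P1 *ᵥ y) = 0 := by
    rw [← hΦ1]
    rw [Polynomial.coeff_sub, Polynomial.coeff_C_succ, zero_sub, neg_eq_zero] at e1'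
    exact e1'
  have hay : adjugate P0 *ᵥ x0 = P0.det • y := by
    simp only [y]
    rw [smul_smul, mul_inv_cancel₀ hd, one_smul]
  have hadj : (adjugate P0)ᵀ = adjugate P0 := by rw [Matrix.adjugate_transpose, hP0s]
  have hmove : ∀ w : Fin 3 → ℂ, x0 ⬝ᵥ (adjugate P0 *ᵥ w) = P0.det * (y ⬝ᵥ w) := by
    intro w
    rw [Matrix.dotProduct_mulVec, ← Matrix.mulVec_transpose, hadj, hay, smul_dotProduct,
      smul_eq_mul]
  have hZ : x0 ⬝ᵥ ((!![0, 0, 1; 0, 0, 0; -1, 0, 0] : Matrix (Fin 3) (Fin 3) ℂ) *ᵥ x0) = 0 := by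
    simp [dotProduct, Matrix.mulVec, Fin.sum_univ_three]
    ring
  unfold TT
  rw [dotProduct_sub, dotProduct_sub, dotProduct_smul, dotProduct_smul, hZ, hmove,
    ← Matrix.mulVec_mulVec, ← Matrix.mulVec_mulVec, hmove, hay, Matrix.mulVec_smul, dotProduct_smul]
  simp only [smul_eq_mul, mul_zero, sub_zero]
  linear_combination P0.det ^ 2 * e2

/-! ### The end of the proof -/

theorem skew_ker (M : (Fin 3 → ℂ) →ₗ[ℂ] (Fin 3 → ℂ)) (h : ∀ z, M z ⬝ᵥ z = 0) :
    ∃ z, z ≠ 0 ∧ M z = 0 := by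
  have hsk : ∀ z w, M z ⬝ᵥ w = - (M w ⬝ᵥ z) := by
    intro z w
    have := h (z + w)
    rw [map_add, add_dotProduct, dotProduct_add, dotProduct_add, h, h] at this
    linear_combination this
  set A := LinearMap.toMatrix' M with hA
  have hAt : Aᵀ = -A := by
    ext i j
    have h1 : ∀ i j, A i j = M (Pi.single j 1) ⬝ᵥ Pi.single i 1 := by
      intro i j
      rw [hA, LinearMap.toMatrix'_apply, dotProduct_single, mul_one]
    rw [Matrix.transpose_apply, Matrix.neg_apply, h1, h1, hsk]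
  have hdet : A.det = 0 := by
    have := congrArg Matrix.det hAt
    rw [Matrix.det_transpose, Matrix.det_neg, Fintype.card_fin] at this
    have h2 : (2 : ℂ) * A.det = 0 := by linear_combination this
    simpa using h2
  obtain ⟨z, hz, hz'⟩ := Matrix.exists_mulVec_eq_zero_iff.2 hdet
  refine ⟨z, hz, ?_⟩
  rw [hA, LinearMap.toMatrix'_mulVec] at hz'
  exact hz'

/-- `T` as a linear map on `H⁰(V)` -/
def tau {k : ℕ} (c : CV (3 * k) (2 * k)) : HH k c →ₗ[ℂ] (Fin 3 → ℂ) where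
  toFun x := TT (c.2 0) (c.2 1) (x.1 0) (x.1 1)
  map_add' x y := by
    have h1 : ∀ i, (fun a => (x + y).1 i (i024 a)) =
        (fun a => x.1 i (i024 a)) + fun a => y.1 i (i024 a) := fun i => rfl
    unfold TT
    rw [h1, h1]
    simp only [Matrix.mulVec_add, smul_add]
    abel
  map_smul' r x := by
    have h1 : ∀ i, (fun a => (r • x).1 i (i024 a)) = r • (fun a => x.1 i (i024 a)) := fun i => rfl
    unfold TT
    rw [h1, h1]
    simp only [Matrix.mulVec_smul, smul_sub, RingHom.id_apply]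
    rw [smul_comm r, smul_comm r]

/-- the restriction of the value at `(1, 0)` to the coordinates `0, 2, 4` -/
def res {k : ℕ} (c : CV (3 * k) (2 * k)) : HH k c →ₗ[ℂ] (Fin 3 → ℂ) where
  toFun x := fun a => x.1 0 (i024 a)
  map_add' _ _ := rfl
  map_smul' _ _ := rfl

theorem stLP' (hRG : StRG) (hRR : StRR) : StLP := by
  intro k hk c hc hr hd hT
  have hinj : Function.Injective (tau c) := by
    rw [injective_iff_map_eq_zero]
    intro x hx
    exact Subtype.ext (hT x.1 x.2 hx)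
  have hfin : Module.finrank ℂ (HH k c) = Module.finrank ℂ (Fin 3 → ℂ) := by
    apply le_antisymm (LinearMap.finrank_le_finrank_of_injective hinj)
    rw [Module.finrank_fin_fun]
    exact hRR k hk c hc hr
  let e : HH k c ≃ₗ[ℂ] (Fin 3 → ℂ) := LinearEquiv.ofBijective (tau c)
    ⟨hinj, (LinearMap.injective_iff_surjective_of_finrank_eq_finrank hfin).1 hinj⟩
  obtain ⟨z, hz, hz'⟩ := skew_ker ((res c).comp e.symm.toLinearMap) (by
    intro z
    have h1 := alt hRG hk hc hr hd (e.symm z).2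
    have h2 : TT (c.2 0) (c.2 1) ((e.symm z).1 0) ((e.symm z).1 1) = z := e.apply_symm_apply z
    rw [h2] at h1
    exact h1)
  refine ⟨(e.symm z).1, (e.symm z).2, ?_, ?_⟩
  · intro h
    apply hz
    have h2 : e.symm z = 0 := Subtype.ext h
    rw [← e.apply_symm_apply z, h2, map_zero]
  · set x := e.symm z with hxz
    have hv0 : (![1, 0] : Fin 2 → ℂ) ≠ 0 := fun h => by
      have := congrFun h 0
      simp at this
    have h0 : ev c.2 ![1, 0] = c.2 0 := by
      unfold ev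
      rw [Finset.sum_eq_single (0 : Fin (2 * k + 1))]
      · simp
      · intro b _ hb
        have : (b : ℕ) ≠ 0 := fun h => hb (Fin.ext h)
        simp [this]
      · simp
    have h1 : evv x.1 ![1, 0] = x.1 0 := by
      unfold evv
      rw [Finset.sum_eq_single (0 : Fin (k + 1))]
      · simp
      · intro b _ hb
        have : (b : ℕ) ≠ 0 := fun h => hb (Fin.ext h)
        simp [this]
      · simp
    obtain ⟨y, hy⟩ := ker_range (hc _ hv0) (hr _ hv0) (x.2 ![1, 0])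
    have hy' : x.1 0 = c.2 0 *ᵥ y := by
      rw [← h1, hy]
      change ev c.2 ![1, 0] *ᵥ y = _
      rw [h0]
    have hr0 : (c.2 0).rank = 3 := by
      have := hr _ hv0
      rwa [h0] at this
    rw [hy']
    have hd' : ((c.2 0).submatrix i024 i024).det ≠ 0 := hd
    have h3 := inj_res hr0 hd' (y := y) (z := 0) (by
      rw [← hy', Matrix.mulVec_zero]
      exact hz')
    rw [h3, Matrix.mulVec_zero]

end LPAux

theorem stLP (hRG : StRG) (hRR : StRR) : StLP := LPAux.stLP' hRG hRR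

end MC
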