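import Pool.Agent.Lib.MC.Stmts2

set_option autoImplicit false

/-!
# Two Manin components of the same class (MP_ac098b_ag): module RG

Regular homogeneous functions on `ℂ² - 0`.
-/

noncomputable section

namespace MC

namespace RGAux

open Polynomial

/-- Restriction of a polynomial function to a line. -/
lemma poly_line (a b : Fin 2 → ℂ) (p : (Fin 2 → ℂ) → ℂ) (hp : p ∈ Poly (Fin 2 → ℂ)) :
    ∃ P : ℂ[X], ∀ x : ℂ, P.eval x = p (a + x • b) := by
  unfold Poly at hp
  induction hp using Algebra.adjoin_induction with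
  | mem f hf =>
    obtain ⟨φ, rfl⟩ := hf
    refine ⟨C (φ a) + X * C (φ b), fun x => ?_⟩
    simp only [eval_add, eval_C, eval_mul, eval_X, map_add, map_smul, smul_eq_mul]
  | algebraMap c =>
    refine ⟨C c, fun x => ?_⟩
    simp
  | add f g _ _ hf hg =>
    obtain ⟨P, hP⟩ := hf
    obtain ⟨Q, hQ⟩ := hg
    refine ⟨P + Q, fun x => ?_⟩
    rw [eval_add, hP, hQ]
    rfl
  | mul f g _ _ hf hg =>
    obtain ⟨P, hP⟩ := hf
    obtain ⟨Q, hQ⟩ := hg
    refine ⟨P * Q, fun x => ?_⟩
    rw [eval_mul, hP, hQ]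
    rfl

/-- The ideal of denominators of a function on the line. -/
def den (f : ℂ → ℂ) : Ideal ℂ[X] where
  carrier := {R | ∃ P : ℂ[X], ∀ x, R.eval x * f x = P.eval x}
  zero_mem' := ⟨0, fun x => by simp⟩
  add_mem' := by
    rintro R R' ⟨P, hP⟩ ⟨P', hP'⟩
    refine ⟨P + P', fun x => ?_⟩
    rw [eval_add, eval_add, ← hP, ← hP']
    ring
  smul_mem' := by
    rintro u R ⟨P, hP⟩
    refine ⟨u * P, fun x => ?_⟩
    rw [smul_eq_mul, eval_mul, eval_mul, ← hP]
    ring

/-- A function which is locally a quotient of polynomials is a polynomial. -/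
lemma exists_poly (f : ℂ → ℂ)
    (h : ∀ x₀ : ℂ, ∃ P R : ℂ[X], R.eval x₀ ≠ 0 ∧ ∀ x, R.eval x ≠ 0 → f x = P.eval x / R.eval x) :
    ∃ F : ℂ[X], ∀ x, f x = F.eval x := by
  have hx : ∀ x₀ : ℂ, ∃ R ∈ den f, R.eval x₀ ≠ 0 := by
    intro x₀
    obtain ⟨P, R, hR, hf⟩ := h x₀
    refine ⟨R * R, ⟨P * R, fun x => ?_⟩, by rw [eval_mul]; exact mul_ne_zero hR hR⟩
    rw [eval_mul, eval_mul]
    by_cases h0 : R.eval x = 0
    · rw [h0]
      ring
    · rw [hf x h0]
      field_simp
  obtain ⟨D, hD⟩ := (IsPrincipalIdealRing.principal (den f)).principal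
  have hD0 : ∀ x₀ : ℂ, D.eval x₀ ≠ 0 := by
    intro x₀ h0
    obtain ⟨R, hR, hR0⟩ := hx x₀
    rw [hD] at hR
    obtain ⟨u, rfl⟩ := Submodule.mem_span_singleton.mp hR
    apply hR0
    rw [smul_eq_mul, eval_mul, h0, mul_zero]
  have hdeg : D.degree = 0 := by
    by_contra hne
    obtain ⟨x, hx⟩ := IsAlgClosed.exists_root D hne
    exact hD0 x hx
  have hDm : D ∈ den f := by
    rw [hD]
    exact Submodule.mem_span_singleton_self D
  obtain ⟨P, hP⟩ := hDm
  rw [eq_C_of_degree_eq_zero hdeg] at hP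
  have hc : D.coeff 0 ≠ 0 := by
    have h1 := hD0 0
    rwa [← coeff_zero_eq_eval_zero] at h1
  refine ⟨C (D.coeff 0)⁻¹ * P, fun x => ?_⟩
  rw [eval_mul, eval_C, ← hP x, eval_C]
  field_simp

/-- The restriction of `ψ` to a line. -/
lemma line_poly (ψ : (Fin 2 → ℂ) → ℂ)
    (h : ∀ v, v ≠ 0 → ∃ p ∈ Poly (Fin 2 → ℂ), ∃ r ∈ Poly (Fin 2 → ℂ), r v ≠ 0 ∧
      ∀ v', v' ≠ 0 → r v' ≠ 0 → ψ v' = p v' / r v') (a b : Fin 2 → ℂ)
    (hab : ∀ x : ℂ, a + x • b ≠ 0) : ∃ F : ℂ[X], ∀ x : ℂ, ψ (a + x • b) = F.eval x := by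
  refine exists_poly (fun x => ψ (a + x • b)) fun x₀ => ?_
  obtain ⟨p, hp, r, hr, h0, h1⟩ := h _ (hab x₀)
  obtain ⟨P, hP⟩ := poly_line a b p hp
  obtain ⟨R, hR⟩ := poly_line a b r hr
  refine ⟨P, R, by rw [hR]; exact h0, fun x hx => ?_⟩
  rw [hR] at hx
  rw [hP, hR]
  exact h1 _ (hab x) hx

end RGAux

open RGAux Polynomial in
theorem stRG : StRG := by
  intro k ψ h hh
  obtain ⟨F, hF⟩ := line_poly ψ h ![1, 0] ![0, 1] (by
    intro x hx
    have := congrFun hx 0
    simp at this)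
  obtain ⟨G, hG⟩ := line_poly ψ h ![0, 1] ![1, 0] (by
    intro x hx
    have := congrFun hx 1
    simp at this)
  have e1 : ∀ x : ℂ, ψ ![1, x] = F.eval x := by
    intro x
    rw [← hF x]
    congr 1
    ext i
    fin_cases i <;> simp
  have e2 : ∀ x : ℂ, ψ ![x, 1] = G.eval x := by
    intro x
    rw [← hG x]
    congr 1
    ext i
    fin_cases i <;> simp
  -- the transition function
  have e3 : ∀ x : ℂ, x ≠ 0 → F.eval x = x ^ k * G.eval x⁻¹ := by
    intro x hx
    rw [← e1, ← e2, ← hh _ _ x hx]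
    · congr 1
      ext i
      fin_cases i <;> simp [hx]
    · intro h0
      have := congrFun h0 1
      simp at this
  -- all values of `ψ`
  have e4 : ∀ v, v ≠ 0 → (∃ x s : ℂ, s ≠ 0 ∧ ψ v = s ^ k * F.eval x) ∨
      (∃ s : ℂ, s ≠ 0 ∧ ψ v = s ^ k * G.eval 0) := by
    intro v hv
    by_cases h0 : v 0 = 0
    · right
      have h1 : v 1 ≠ 0 := by
        intro h1
        apply hv
        ext i
        fin_cases i
        · exact h0
        · exact h1
      refine ⟨v 1, h1, ?_⟩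
      rw [← e2, ← hh _ _ _ h1]
      · congr 1
        ext i
        fin_cases i
        · simp [h0]
        · simp
      · intro h2
        have := congrFun h2 1
        simp at this
    · left
      refine ⟨(v 0)⁻¹ * v 1, v 0, h0, ?_⟩
      rw [← e1, ← hh _ _ _ h0]
      · congr 1
        ext i
        fin_cases i
        · simp
        · simp [h0]
      · intro h2
        have := congrFun h2 0
        simp at this
  have key : ∀ n : ℕ, k = -(n : ℤ) → (n ≠ 0 → F = 0) ∧ ∃ c, F = C c := by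
    intro n hn
    have h1 : X ^ (n + G.natDegree) * F = G.reverse := by
      refine eq_of_infinite_eval_eq _ _ ?_
      refine Set.Infinite.mono (s := {x : ℂ | x ≠ 0}) ?_ ?_
      · intro x hx
        have hx' : x ≠ 0 := hx
        have h2 := e3 x hx'
        let _ : Invertible (x⁻¹) := invertibleOfNonzero (inv_ne_zero hx')
        have h3 := eval₂_reverse_mul_pow (RingHom.id ℂ) (x⁻¹) G
        rw [invOf_eq_inv, inv_inv] at h3
        change (X ^ (n + G.natDegree) * F).eval x = G.reverse.eval x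
        have h4 : G.reverse.eval x * (x⁻¹) ^ G.natDegree = G.eval x⁻¹ := h3
        rw [eval_mul, eval_pow, eval_X, h2, ← h4, hn, pow_add, zpow_neg, zpow_natCast, inv_pow]
        field_simp
      · exact (Set.finite_singleton (0:ℂ)).infinite_compl
    have h5 : (X ^ (n + G.natDegree) * F).natDegree ≤ G.natDegree := by
      rw [h1]
      exact reverse_natDegree_le G
    by_cases hF0 : F = 0
    · exact ⟨fun _ => hF0, 0, by rw [hF0, C_0]⟩
    · rw [natDegree_mul (pow_ne_zero _ X_ne_zero) hF0, natDegree_X_pow] at h5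
      refine ⟨fun hn0 => by omega, F.coeff 0, ?_⟩
      exact eq_C_of_natDegree_eq_zero (by omega)
  refine ⟨fun hk => ?_, fun hk => ?_⟩
  · obtain ⟨n, hn⟩ : ∃ n : ℕ, k = -(n : ℤ) := ⟨k.natAbs, by omega⟩
    have hF0 : F = 0 := (key n hn).1 (by rintro rfl; simp at hn; omega)
    have hG0 : G = 0 := by
      refine eq_of_infinite_eval_eq _ _ ?_
      refine Set.Infinite.mono (s := {x : ℂ | x ≠ 0}) ?_ ?_
      · intro x hx
        have hx' : x ≠ 0 := hx
        have h2 := e3 x⁻¹ (inv_ne_zero hx')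
        rw [hF0, eval_zero, inv_inv] at h2
        change G.eval x = (0 : ℂ[X]).eval x
        rw [eval_zero]
        rcases mul_eq_zero.mp h2.symm with h3 | h3
        · exact absurd h3 (zpow_ne_zero _ (inv_ne_zero hx'))
        · exact h3
      · exact (Set.finite_singleton (0:ℂ)).infinite_compl
    intro v hv
    rcases e4 v hv with ⟨x, s, _, h1⟩ | ⟨s, _, h1⟩
    · rw [h1, hF0, eval_zero, mul_zero]
    · rw [h1, hG0, eval_zero, mul_zero]
  · obtain ⟨c, hc⟩ := (key 0 (by simpa using hk)).2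
    have hGc : G = C c := by
      refine eq_of_infinite_eval_eq _ _ ?_
      refine Set.Infinite.mono (s := {x : ℂ | x ≠ 0}) ?_ ?_
      · intro x hx
        have hx' : x ≠ 0 := hx
        have h2 := e3 x⁻¹ (inv_ne_zero hx')
        rw [hc, hk, zpow_zero, one_mul, inv_inv, eval_C] at h2
        change G.eval x = (C c).eval x
        rw [eval_C, h2]
      · exact (Set.finite_singleton (0:ℂ)).infinite_compl
    have hall : ∀ v, v ≠ 0 → ψ v = c := by
      intro v hv
      rcases e4 v hv with ⟨x, s, _, h1⟩ | ⟨s, _, h1⟩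
      · rw [h1, hc, eval_C, hk, zpow_zero, one_mul]
      · rw [h1, hGc, eval_C, hk, zpow_zero, one_mul]
    intro v w hv hw
    rw [hall v hv, hall w hw]

end MC
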