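import Pool.Agent.Lib.MC.Stmts3

set_option autoImplicit false

/-!
# Two Manin components of the same class (MP_ac098b_ag): module RKK

The rank is constant on the curves of class `k (2, 3)` which meet the open set.
-/

noncomputable section

namespace MC

open Matrix

namespace RKKAux

variable {V W : Type} [AddCommGroup V] [Module ℂ V] [AddCommGroup W] [Module ℂ W]

/-- The composition of a polynomial function with a polynomial map. -/
lemma poly_comp {F : V → W} (hF : PolyMap F) {f : W → ℂ} (hf : f ∈ Poly W) :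
    (fun v => f (F v)) ∈ Poly V := by
  unfold Poly at hf
  induction hf using Algebra.adjoin_induction with
  | mem f hf =>
    obtain ⟨φ, rfl⟩ := hf
    exact hF φ
  | algebraMap c => exact (Poly V).algebraMap_mem c
  | add f g _ _ hf hg => exact (Poly V).add_mem hf hg
  | mul f g _ _ hf hg => exact (Poly V).mul_mem hf hg

lemma mono_mem (a b : ℕ) (z : ℂ) :
    (fun v : Fin 2 → ℂ => (v 0 ^ a * v 1 ^ b) * z) ∈ Poly (Fin 2 → ℂ) := by
  have h0 : (fun v : Fin 2 → ℂ => v 0) ∈ Poly (Fin 2 → ℂ) :=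
    Algebra.subset_adjoin ⟨LinearMap.proj 0, rfl⟩
  have h1 : (fun v : Fin 2 → ℂ => v 1) ∈ Poly (Fin 2 → ℂ) :=
    Algebra.subset_adjoin ⟨LinearMap.proj 1, rfl⟩
  exact (Poly _).mul_mem ((Poly _).mul_mem ((Poly _).pow_mem h0 a) ((Poly _).pow_mem h1 b))
    ((Poly _).algebraMap_mem z)

lemma sum_mem' {ι : Type} (s : Finset ι) {f : ι → V → ℂ} (hf : ∀ i ∈ s, f i ∈ Poly V) :
    (fun v => ∑ i ∈ s, f i v) ∈ Poly V := by
  have e : (fun v => ∑ i ∈ s, f i v) = ∑ i ∈ s, f i := by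
    funext v
    rw [Finset.sum_apply]
  rw [e]
  exact (Poly V).sum_mem hf

/-- The points of a curve are polynomials of the parameter. -/
lemma polyMap_evp {d e : ℕ} (c : CV d e) : PolyMap (fun v : Fin 2 → ℂ => evp c v) := by
  intro φ
  have e1 : (fun v : Fin 2 → ℂ => φ (evp c v)) =
      (fun v => ∑ i : Fin (d + 1), (v 0 ^ (d - (i : ℕ)) * v 1 ^ (i : ℕ)) * φ (c.1 i, 0)) +
      (fun v => ∑ i : Fin (e + 1), (v 0 ^ (e - (i : ℕ)) * v 1 ^ (i : ℕ)) * φ (0, c.2 i)) := by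
    funext v
    rw [Pi.add_apply]
    have e2 : evp c v = LinearMap.inl ℂ M5 M5 (ev c.1 v) + LinearMap.inr ℂ M5 M5 (ev c.2 v) := by
      simp [evp]
    rw [e2, map_add, ev, ev, map_sum, map_sum, map_sum, map_sum]
    congr 1
    · refine Finset.sum_congr rfl fun i _ => ?_
      rw [map_smul, map_smul, smul_eq_mul]
      rfl
    · refine Finset.sum_congr rfl fun i _ => ?_
      rw [map_smul, map_smul, smul_eq_mul]
      rfl
  rw [e1]
  exact (Poly _).add_mem (sum_mem' _ fun i _ => mono_mem _ _ _)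
    (sum_mem' _ fun i _ => mono_mem _ _ _)

lemma ev_smul {d : ℕ} (q : Fin (d + 1) → M5) (s : ℂ) (v : Fin 2 → ℂ) :
    ev q (s • v) = s ^ d • ev q v := by
  unfold ev
  rw [Finset.smul_sum]
  refine Finset.sum_congr rfl fun i _ => ?_
  rw [smul_smul]
  congr 1
  have h : (i : ℕ) ≤ d := Nat.lt_succ_iff.mp i.2
  have e : s ^ d = s ^ (d - (i : ℕ)) * s ^ (i : ℕ) := by
    rw [← pow_add, Nat.sub_add_cancel h]
  rw [e, Pi.smul_apply, Pi.smul_apply, smul_eq_mul, smul_eq_mul, mul_pow, mul_pow]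
  ring

lemma evp_smul {d e : ℕ} (c : CV d e) (s : ℂ) (v : Fin 2 → ℂ) :
    evp c (s • v) = scal (s ^ d) (s ^ e) (evp c v) := by
  unfold evp scal
  rw [ev_smul, ev_smul]

end RKKAux

open RKKAux in
/-- Module RKK. -/
theorem stRKK (hRG : StRG) (hSE : StSE) : StRKK := by
  classical
  intro k c hc hex v hv
  obtain ⟨w, hw, hwr⟩ := hex
  obtain ⟨δ, ⟨hreg, hhom⟩, -, hδ⟩ := hSE.2.2
  set ψ : (Fin 2 → ℂ) → ℂ := fun u => if hu : u ≠ 0 then δ ⟨evp c u, hc u hu⟩ else 0 with hψ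
  have hψ' : ∀ u (hu : u ≠ 0), ψ u = δ ⟨evp c u, hc u hu⟩ := by
    intro u hu
    simp only [hψ, dif_pos hu]
  have h1 := (hRG 0 ψ ?_ ?_).2 rfl w v hw hv
  · rw [hψ' w hw, hψ' v hv] at h1
    have h2 : δ ⟨evp c w, hc w hw⟩ ≠ 0 := (hδ ⟨evp c w, hc w hw⟩).2 hwr
    rw [h1] at h2
    have h3 := (hδ ⟨evp c v, hc v hv⟩).1 h2
    exact h3
  · intro u hu
    obtain ⟨p, hp, r, hr, h0, h2⟩ := hreg ⟨evp c u, hc u hu⟩
    refine ⟨fun u' => p (evp c u'), poly_comp (polyMap_evp c) hp,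
      fun u' => r (evp c u'), poly_comp (polyMap_evp c) hr, h0, ?_⟩
    intro u' hu' hr'
    rw [hψ' u' hu']
    exact h2 ⟨evp c u', hc u' hu'⟩ hr'
  · intro u hu s hs
    have hsu : s • u ≠ 0 := smul_ne_zero hs hu
    rw [hψ' u hu, hψ' _ hsu]
    have h3 := hhom ⟨evp c u, hc u hu⟩ ⟨evp c (s • u), hc _ hsu⟩ (s ^ (3 * k)) (s ^ (2 * k))
      (pow_ne_zero _ hs) (pow_ne_zero _ hs) (evp_smul c s u)
    rw [h3]
    congr 1
    rw [_root_.zpow_zero, ← _root_.zpow_natCast, ← _root_.zpow_natCast, ← _root_.zpow_mul,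
      ← _root_.zpow_mul, ← zpow_add₀ hs]
    have e : ((3 * k : ℕ) : ℤ) * -2 + ((2 * k : ℕ) : ℤ) * 3 = 0 := by
      push_cast
      ring
    rw [e, _root_.zpow_zero]

end MC
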