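import Pool.Agent.Lib.MC.Stmts3

set_option autoImplicit false

/-!
# MP_ac098b_ag, module RR: the theorem of Riemann and Roch for `S(k)`
-/

noncomputable section

namespace MC

open Matrix

namespace RRAux

open Polynomial

/-! ### Linear algebra -/

/-- two vectors in the image of `Q` -/
theorem plane {Q A : M5} (hx : (Q, A) ∈ Cone) (hr : A.rank = 3) {x y : Fin 5 → ℂ}
    (h1 : A *ᵥ x = 0) (h2 : A *ᵥ y = 0) :
    ∃ μ : ℂ, ∀ a b, x a * y b - y a * x b = μ * Q a b := by
  obtain ⟨hskew, hpl, hQ0, -, -, hAQ⟩ := hx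
  change Qᵀ = -Q at hskew
  change ∀ i j k l, Q i j * Q k l - Q i k * Q j l + Q i l * Q j k = 0 at hpl
  change Q ≠ 0 at hQ0
  change A * Q = 0 at hAQ
  have hsk : ∀ i j, Q j i = -Q i j := fun i j => congrFun (congrFun hskew i) j
  have hle : LinearMap.range Q.mulVecLin ≤ LinearMap.ker A.mulVecLin := by
    rintro _ ⟨z, rfl⟩
    rw [LinearMap.mem_ker]
    change A *ᵥ (Q *ᵥ z) = 0
    rw [Matrix.mulVec_mulVec, hAQ, Matrix.zero_mulVec]
  have hker : Module.finrank ℂ (LinearMap.ker A.mulVecLin) = 2 := by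
    have h3 := LinearMap.finrank_range_add_finrank_ker A.mulVecLin
    have h4 : Module.finrank ℂ (LinearMap.range A.mulVecLin) = 3 := hr
    rw [h4, Module.finrank_fin_fun] at h3
    omega
  obtain ⟨i, j, hij⟩ : ∃ i j, Q i j ≠ 0 := by
    by_contra h
    push Not at h
    apply hQ0
    ext i j
    exact h i j
  have hdiag : ∀ i, Q i i = 0 := fun i => by
    have := hsk i i
    linear_combination (1 / 2 : ℂ) * this
  have hlin : LinearIndependent ℂ ![Q *ᵥ Pi.single i 1, Q *ᵥ Pi.single j 1] := by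
    rw [LinearIndependent.pair_iff]
    intro s t hst
    rw [Matrix.mulVec_single_one, Matrix.mulVec_single_one] at hst
    have e1 : s * Q i i + t * Q i j = 0 := congrFun hst i
    have e2 : s * Q j i + t * Q j j = 0 := congrFun hst j
    rw [hdiag, mul_zero, zero_add] at e1
    rw [hdiag, mul_zero, add_zero, hsk i j] at e2
    refine ⟨?_, (mul_eq_zero.1 e1).resolve_right hij⟩
    exact (mul_eq_zero.1 e2).resolve_right (neg_ne_zero.2 hij)
  have hrange : 2 ≤ Module.finrank ℂ (LinearMap.range Q.mulVecLin) := by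
    have h3 : Module.finrank ℂ (Submodule.span ℂ (Set.range
        ![Q *ᵥ Pi.single i 1, Q *ᵥ Pi.single j 1])) = 2 := by
      rw [finrank_span_eq_card hlin]
      rfl
    rw [← h3]
    apply Submodule.finrank_mono
    rw [Submodule.span_le]
    rintro _ ⟨a, rfl⟩
    fin_cases a
    · exact ⟨Pi.single i 1, rfl⟩
    · exact ⟨Pi.single j 1, rfl⟩
  have heq := Submodule.eq_of_le_of_finrank_le hle (by rw [hker]; exact hrange)
  have hx : x ∈ LinearMap.range Q.mulVecLin := by
    rw [heq, LinearMap.mem_ker]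
    exact h1
  have hy : y ∈ LinearMap.range Q.mulVecLin := by
    rw [heq, LinearMap.mem_ker]
    exact h2
  obtain ⟨z, rfl⟩ := hx
  obtain ⟨z', rfl⟩ := hy
  refine ⟨∑ c, ∑ d, Q c d * z c * z' d, fun a b => ?_⟩
  change (∑ c, Q a c * z c) * (∑ d, Q b d * z' d) - (∑ d, Q a d * z' d) * (∑ c, Q b c * z c)
    = (∑ c, ∑ d, Q c d * z c * z' d) * Q a b
  rw [Finset.sum_mul_sum, Finset.sum_mul_sum, Finset.sum_comm
    (f := fun d c => Q a d * z' d * (Q b c * z c)), ← Finset.sum_sub_distrib, Finset.sum_mul]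
  refine Finset.sum_congr rfl fun c _ => ?_
  rw [← Finset.sum_sub_distrib, Finset.sum_mul]
  refine Finset.sum_congr rfl fun d _ => ?_
  linear_combination (-(z c * z' d)) * hpl a b c d

/-! ### Dehomogenisation -/

section forms
variable {N : ℕ}

/-- the entries of a form with values in the matrices -/
def dm (q : Fin (N + 1) → M5) (a b : Fin 5) : ℂ[X] :=
  ∑ i : Fin (N + 1), C (q i a b) * X ^ (i : ℕ)

/-- the entries of a form with values in the vectors -/
def dv : (Fin (N + 1) → (Fin 5 → ℂ)) →ₗ[ℂ] (Fin 5 → ℂ[X]) where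
  toFun x b := ∑ i : Fin (N + 1), C (x i b) * X ^ (i : ℕ)
  map_add' x y := by
    funext b
    change ∑ i : Fin (N + 1), C (x i b + y i b) * X ^ (i : ℕ) = (∑ i : Fin (N + 1), C (x i b)
      * X ^ (i : ℕ)) + ∑ i : Fin (N + 1), C (y i b) * X ^ (i : ℕ)
    rw [← Finset.sum_add_distrib]
    refine Finset.sum_congr rfl fun i _ => ?_
    rw [C_add, add_mul]
  map_smul' s x := by
    funext b
    change ∑ i : Fin (N + 1), C (s * x i b) * X ^ (i : ℕ)
      = s • ∑ i : Fin (N + 1), C (x i b) * X ^ (i : ℕ)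
    rw [Finset.smul_sum]
    refine Finset.sum_congr rfl fun i _ => ?_
    rw [C_mul, Polynomial.smul_eq_C_mul, mul_assoc]

theorem dv_apply (x : Fin (N + 1) → (Fin 5 → ℂ)) (b : Fin 5) :
    dv x b = ∑ i : Fin (N + 1), C (x i b) * X ^ (i : ℕ) := rfl

theorem eval_dm (q : Fin (N + 1) → M5) (a b : Fin 5) (t : ℂ) :
    (dm q a b).eval t = ev q ![1, t] a b := by
  unfold dm ev
  rw [Polynomial.eval_finsetSum, Matrix.sum_apply]
  refine Finset.sum_congr rfl fun i _ => ?_
  rw [Polynomial.eval_mul, Polynomial.eval_C, Polynomial.eval_pow, Polynomial.eval_X]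
  change _ = ((1 : ℂ) ^ (N - (i : ℕ)) * t ^ (i : ℕ)) * q i a b
  rw [one_pow, one_mul, mul_comm]

theorem eval_dv (x : Fin (N + 1) → (Fin 5 → ℂ)) (b : Fin 5) (t : ℂ) :
    (dv x b).eval t = evv x ![1, t] b := by
  unfold evv
  rw [dv_apply, Polynomial.eval_finsetSum, Finset.sum_apply]
  refine Finset.sum_congr rfl fun i _ => ?_
  rw [Polynomial.eval_mul, Polynomial.eval_C, Polynomial.eval_pow, Polynomial.eval_X]
  change _ = ((1 : ℂ) ^ (N - (i : ℕ)) * t ^ (i : ℕ)) * x i b
  rw [one_pow, one_mul, mul_comm]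

theorem natDegree_dm_le (q : Fin (N + 1) → M5) (a b : Fin 5) : (dm q a b).natDegree ≤ N := by
  refine Polynomial.natDegree_sum_le_of_forall_le _ _ fun i _ => ?_
  exact (Polynomial.natDegree_C_mul_X_pow_le (q i a b) (i : ℕ)).trans (Nat.lt_succ_iff.1 i.2)

theorem natDegree_dv_le (x : Fin (N + 1) → (Fin 5 → ℂ)) (b : Fin 5) :
    (dv x b).natDegree ≤ N := by
  rw [dv_apply]
  refine Polynomial.natDegree_sum_le_of_forall_le _ _ fun i _ => ?_
  exact (Polynomial.natDegree_C_mul_X_pow_le (x i b) (i : ℕ)).trans (Nat.lt_succ_iff.1 i.2)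

theorem coeff_dm (q : Fin (N + 1) → M5) (a b : Fin 5) :
    (dm q a b).coeff N = q (Fin.last N) a b := by
  unfold dm
  rw [Polynomial.finsetSum_coeff, Finset.sum_eq_single (Fin.last N)]
  · rw [Polynomial.coeff_C_mul_X_pow, if_pos (by simp)]
  · intro i _ hi
    rw [Polynomial.coeff_C_mul_X_pow, if_neg]
    intro h
    apply hi
    apply Fin.ext
    rw [Fin.val_last]
    exact h.symm
  · intro h
    exact absurd (Finset.mem_univ _) h

theorem ev_inf (q : Fin (N + 1) → M5) : ev q ![0, 1] = q (Fin.last N) := by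
  unfold ev
  rw [Finset.sum_eq_single (Fin.last N)]
  · simp
  · intro i _ hi
    have h : N - (i : ℕ) ≠ 0 := by
      intro h
      apply hi
      apply Fin.ext
      rw [Fin.val_last]
      have := i.2
      omega
    simp [h]
  · intro h
    exact absurd (Finset.mem_univ _) h

theorem ev_smul (q : Fin (N + 1) → M5) (s : ℂ) (v : Fin 2 → ℂ) :
    ev q (s • v) = s ^ N • ev q v := by
  unfold ev
  rw [Finset.smul_sum]
  refine Finset.sum_congr rfl fun i _ => ?_
  rw [smul_smul]
  congr 1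
  have h : s ^ N = s ^ (N - (i : ℕ)) * s ^ (i : ℕ) := by
    rw [← pow_add]
    congr 1
    have := i.2
    omega
  simp only [Pi.smul_apply, smul_eq_mul]
  rw [mul_pow, mul_pow, h]
  ring

theorem evv_smul (x : Fin (N + 1) → (Fin 5 → ℂ)) (s : ℂ) (v : Fin 2 → ℂ) :
    evv x (s • v) = s ^ N • evv x v := by
  unfold evv
  rw [Finset.smul_sum]
  refine Finset.sum_congr rfl fun i _ => ?_
  rw [smul_smul]
  congr 1
  have h : s ^ N = s ^ (N - (i : ℕ)) * s ^ (i : ℕ) := by
    rw [← pow_add]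
    congr 1
    have := i.2
    omega
  simp only [Pi.smul_apply, smul_eq_mul]
  rw [mul_pow, mul_pow, h]
  ring

end forms

theorem continuous_ev {N : ℕ} (q : Fin (N + 1) → M5) (t : ℂ) :
    Continuous fun s : ℂ => ev q ![s, t] := by
  unfold ev
  refine continuous_finsetSum _ fun i _ => ?_
  have h : Continuous fun s : ℂ => (![s, t] : Fin 2 → ℂ) 0 ^ (N - (i : ℕ))
      * (![s, t] : Fin 2 → ℂ) 1 ^ (i : ℕ) := by
    change Continuous fun s : ℂ => s ^ (N - (i : ℕ)) * t ^ (i : ℕ)
    fun_prop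
  exact h.smul continuous_const

theorem continuous_evv {N : ℕ} (x : Fin (N + 1) → (Fin 5 → ℂ)) (t : ℂ) :
    Continuous fun s : ℂ => evv x ![s, t] := by
  unfold evv
  refine continuous_finsetSum _ fun i _ => ?_
  have h : Continuous fun s : ℂ => (![s, t] : Fin 2 → ℂ) 0 ^ (N - (i : ℕ))
      * (![s, t] : Fin 2 → ℂ) 1 ^ (i : ℕ) := by
    change Continuous fun s : ℂ => s ^ (N - (i : ℕ)) * t ^ (i : ℕ)
    fun_prop
  exact h.smul continuous_const

/-- sections of `S(N)` in terms of polynomials -/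
theorem mem_HH {d e N : ℕ} {c : CV d e} {x : Fin (N + 1) → (Fin 5 → ℂ)}
    (h : ∀ a, ∑ b, dm c.1 a b * dv x b = 0) : x ∈ HH N c := by
  have h1 : ∀ t : ℂ, ev c.1 ![1, t] *ᵥ evv x ![1, t] = 0 := by
    intro t
    funext a
    have h2 := congrArg (Polynomial.eval t) (h a)
    rw [Polynomial.eval_finsetSum, Polynomial.eval_zero] at h2
    rw [Pi.zero_apply, ← h2]
    change ∑ b, ev c.1 ![1, t] a b * evv x ![1, t] b = _
    refine Finset.sum_congr rfl fun b _ => ?_
    rw [Polynomial.eval_mul, eval_dm, eval_dv]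
  have h2 : ∀ s t : ℂ, s ≠ 0 → ev c.1 ![s, t] *ᵥ evv x ![s, t] = 0 := by
    intro s t hs
    have h3 : (![s, t] : Fin 2 → ℂ) = s • ![1, t / s] := by
      funext i
      fin_cases i
      · change s = s * 1
        rw [mul_one]
      · change t = s * (t / s)
        rw [mul_div_cancel₀ _ hs]
    rw [h3, ev_smul, evv_smul, Matrix.smul_mulVec, Matrix.mulVec_smul, h1, smul_zero, smul_zero]
  intro v
  have h3 : v = ![v 0, v 1] := by
    funext i
    fin_cases i <;> rfl
  rw [h3]
  have h4 : (fun s : ℂ => ev c.1 ![s, v 1] *ᵥ evv x ![s, v 1]) = fun _ => 0 := by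
    refine Continuous.ext_on (dense_compl_singleton (0 : ℂ)) ?_ continuous_const ?_
    · exact (continuous_ev _ _).matrix_mulVec (continuous_evv _ _)
    · intro s hs
      exact h2 s (v 1) hs
  exact congrFun h4 (v 0)

/-! ### Polynomials -/

/-- polynomials without common root -/
theorem bez {ι : Type} [Fintype ι] (p : ι → ℂ[X]) (h : ∀ t : ℂ, ∃ i, (p i).eval t ≠ 0) :
    ∃ u : ι → ℂ[X], ∑ i, u i * p i = 1 := by
  have h1 : Ideal.span (Set.range p) = ⊤ := by
    by_contra hne
    obtain ⟨d, hd⟩ := (IsPrincipalIdealRing.principal (Ideal.span (Set.range p))).principal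
    have hdvd : ∀ i, d ∣ p i := by
      intro i
      have h2 : p i ∈ Ideal.span (Set.range p) := Ideal.subset_span ⟨i, rfl⟩
      rw [hd] at h2
      exact Ideal.mem_span_singleton.1 h2
    have hdeg : d.degree ≠ 0 := by
      intro h2
      apply hne
      rw [hd]
      exact Ideal.span_singleton_eq_top.2 (Polynomial.isUnit_iff_degree_eq_zero.2 h2)
    obtain ⟨t, ht⟩ := IsAlgClosed.exists_root d hdeg
    obtain ⟨i, hi⟩ := h t
    apply hi
    obtain ⟨w, hw⟩ := hdvd i
    rw [hw, Polynomial.eval_mul, ht.eq_zero, zero_mul]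
  have h2 : (1 : ℂ[X]) ∈ Ideal.span (Set.range p) := by rw [h1]; exact Submodule.mem_top
  exact Ideal.mem_span_range_iff_exists_fun.1 h2

/-- the degree of a vector of polynomials -/
def dg (x : Fin 5 → ℂ[X]) : ℕ := Finset.univ.sup fun i => (x i).natDegree

theorem le_dg (x : Fin 5 → ℂ[X]) (i : Fin 5) : (x i).natDegree ≤ dg x :=
  Finset.le_sup (f := fun i => (x i).natDegree) (Finset.mem_univ i)

theorem exists_dg {x : Fin 5 → ℂ[X]} (hx : x ≠ 0) : ∃ i, x i ≠ 0 ∧ (x i).natDegree = dg x := by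
  rcases Nat.eq_zero_or_pos (dg x) with h | h
  · obtain ⟨i, hi⟩ := Function.ne_iff.1 hx
    refine ⟨i, hi, ?_⟩
    have := le_dg x i
    omega
  · obtain ⟨i, -, hi⟩ := Finset.exists_mem_eq_sup Finset.univ Finset.univ_nonempty
      (fun i => (x i).natDegree)
    refine ⟨i, ?_, hi.symm⟩
    intro h0
    change dg x = (x i).natDegree at hi
    rw [h0, natDegree_zero] at hi
    omega

/-- the matrix of polynomials times a vector -/
def mv (m : Fin 5 → Fin 5 → ℂ[X]) (x : Fin 5 → ℂ[X]) (a : Fin 5) : ℂ[X] := ∑ b, m a b * x b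

/-- a primitive vector in the kernel -/
theorem exists_prim (m : Fin 5 → Fin 5 → ℂ[X]) {y : Fin 5 → ℂ[X]} (hy : y ≠ 0)
    (hm : ∀ a, mv m y a = 0) : ∃ x : Fin 5 → ℂ[X], x ≠ 0 ∧ (∀ a, mv m x a = 0) ∧ dg x ≤ dg y ∧
      ∀ t : ℂ, ∃ i, (x i).eval t ≠ 0 := by
  classical
  obtain ⟨x, ⟨hx0, hx1⟩, hmin⟩ := (measure dg).wf.has_min
    {x : Fin 5 → ℂ[X] | x ≠ 0 ∧ ∀ a, mv m x a = 0} ⟨y, hy, hm⟩
  refine ⟨x, hx0, hx1, ?_, ?_⟩
  · exact not_lt.1 (hmin y ⟨hy, hm⟩)
  · intro t
    by_contra hc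
    push Not at hc
    have h1 : ∀ i, ∃ w, x i = (X - C t) * w := fun i =>
      (Polynomial.dvd_iff_isRoot.2 (hc i))
    choose w hw using h1
    have hX : (X - C t : ℂ[X]) ≠ 0 := Polynomial.X_sub_C_ne_zero t
    have hw0 : w ≠ 0 := by
      rintro rfl
      apply hx0
      funext i
      rw [hw i, Pi.zero_apply, mul_zero]
    have hw1 : ∀ a, mv m w a = 0 := by
      intro a
      have h2 : (X - C t) * mv m w a = 0 := by
        rw [← hx1 a]
        unfold mv
        rw [Finset.mul_sum]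
        refine Finset.sum_congr rfl fun b _ => ?_
        rw [hw b]
        ring
      exact (mul_eq_zero.1 h2).resolve_left hX
    have hlt : dg w < dg x := by
      obtain ⟨i, hi, hid⟩ := exists_dg hw0
      have h3 := le_dg x i
      rw [hw i, natDegree_mul hX hi, natDegree_X_sub_C, hid] at h3
      omega
    exact hmin w ⟨hw0, hw1⟩ hlt

theorem mem_degLT {n : ℕ} {p : ℂ[X]} (h : p.natDegree ≤ n) : p ∈ degreeLT ℂ (n + 1) := by
  rw [mem_degreeLT]
  exact (Polynomial.degree_le_of_natDegree_le h).trans_lt (by exact_mod_cast Nat.lt_succ_self n)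

instance (n : ℕ) : Module.Finite ℂ (degreeLT ℂ n) :=
  Module.Finite.equiv (degreeLTEquiv ℂ n).symm

theorem finrank_degLT (n : ℕ) : Module.finrank ℂ (degreeLT ℂ n) = n := by
  rw [LinearEquiv.finrank_eq (degreeLTEquiv ℂ n), Module.finrank_fin_fun]

/-- rank and nullity for a map into the polynomials of bounded degree -/
theorem nullity {U : Type} [AddCommGroup U] [Module ℂ U] [Module.Finite ℂ U] (f : U →ₗ[ℂ] ℂ[X])
    (n : ℕ) (h : ∀ x, (f x).natDegree ≤ n) :
    Module.finrank ℂ U ≤ Module.finrank ℂ (LinearMap.ker f) + (n + 1) := by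
  have h1 := LinearMap.finrank_range_add_finrank_ker f
  have h2 : LinearMap.range f ≤ degreeLT ℂ (n + 1) := by
    rintro _ ⟨x, rfl⟩
    exact mem_degLT (h x)
  have h3 := Submodule.finrank_mono h2
  rw [finrank_degLT] at h3
  omega

/-! ### The main computation -/

/-- the map `x ↦ Q x` -/
def FQ {d N : ℕ} (q : Fin (d + 1) → M5) :
    (Fin (N + 1) → (Fin 5 → ℂ)) →ₗ[ℂ] (Fin 5 → ℂ[X]) where
  toFun x := mv (dm q) (dv x)
  map_add' x y := by
    funext a
    change ∑ b, dm q a b * dv (x + y) b = (∑ b, dm q a b * dv x b) + ∑ b, dm q a b * dv y b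
    rw [map_add, ← Finset.sum_add_distrib]
    refine Finset.sum_congr rfl fun b _ => ?_
    rw [Pi.add_apply, mul_add]
  map_smul' s x := by
    funext a
    change ∑ b, dm q a b * dv (s • x) b = s • ∑ b, dm q a b * dv x b
    rw [map_smul, Finset.smul_sum]
    refine Finset.sum_congr rfl fun b _ => ?_
    rw [Pi.smul_apply, mul_smul_comm]

theorem FQ_apply {d N : ℕ} (q : Fin (d + 1) → M5) (x : Fin (N + 1) → (Fin 5 → ℂ)) (a : Fin 5) :
    FQ q x a = ∑ b, dm q a b * dv x b := rfl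

theorem natDegree_FQ_le {d N : ℕ} (q : Fin (d + 1) → M5) (x : Fin (N + 1) → (Fin 5 → ℂ))
    (a : Fin 5) : (FQ q x a).natDegree ≤ d + N := by
  rw [FQ_apply]
  refine Polynomial.natDegree_sum_le_of_forall_le _ _ fun b _ => ?_
  exact (Polynomial.natDegree_mul_le).trans (add_le_add (natDegree_dm_le _ _ _)
    (natDegree_dv_le _ _))

/-- a linear functional with polynomial coefficients -/
def lf (u : Fin 5 → ℂ[X]) : (Fin 5 → ℂ[X]) →ₗ[ℂ] ℂ[X] where
  toFun y := ∑ i, u i * y i
  map_add' x y := by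
    rw [← Finset.sum_add_distrib]
    refine Finset.sum_congr rfl fun b _ => ?_
    rw [Pi.add_apply, mul_add]
  map_smul' s x := by
    rw [RingHom.id_apply, Finset.smul_sum]
    refine Finset.sum_congr rfl fun b _ => ?_
    rw [Pi.smul_apply, mul_smul_comm]

theorem lf_apply (u y : Fin 5 → ℂ[X]) : lf u y = ∑ i, u i * y i := rfl

theorem ne_zero_pt (t : ℂ) : (![1, t] : Fin 2 → ℂ) ≠ 0 := by
  intro h
  have := congrFun h 0
  simp at this

theorem ne_zero_inf : (![0, 1] : Fin 2 → ℂ) ≠ 0 := by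
  intro h
  have := congrFun h 1
  simp at this

theorem main {k : ℕ} {c : CV (3 * k) (2 * k)} (hc : c ∈ MorCone (3 * k) (2 * k))
    (hr : ∀ v, v ≠ 0 → (ev c.2 v).rank = 3) : 3 ≤ Module.finrank ℂ (HH k c) := by
  set Q := dm c.1 with hQ
  set A := dm c.2 with hA
  -- `A Q = 0`
  have hAQ : ∀ a b, ∑ j, A a j * Q j b = 0 := by
    intro a b
    apply Polynomial.funext
    intro t
    have h1 := (hc ![1, t] (ne_zero_pt t)).2.2.2.2.2
    have h2 := congrFun (congrFun h1 a) b
    rw [Polynomial.eval_finsetSum, Polynomial.eval_zero]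
    refine Eq.trans ?_ h2
    change _ = ∑ j, ev c.2 ![1, t] a j * ev c.1 ![1, t] j b
    refine Finset.sum_congr rfl fun j _ => ?_
    rw [Polynomial.eval_mul, hA, hQ, eval_dm, eval_dm]
  -- a column of `Q`
  have hQne : ∀ t : ℂ, ∃ p : Fin 5 × Fin 5, (Q p.1 p.2).eval t ≠ 0 := by
    intro t
    by_contra h
    push Not at h
    apply (hc ![1, t] (ne_zero_pt t)).2.2.1
    ext i j
    have := h (i, j)
    rw [hQ, eval_dm] at this
    exact this
  obtain ⟨⟨i0, j0⟩, hij0⟩ := hQne 0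
  have hcol : (fun a => Q a j0) ≠ 0 := by
    intro h
    apply hij0
    have := congrFun h i0
    change Q i0 j0 = 0 at this
    change (Q i0 j0).eval 0 = 0
    rw [this, Polynomial.eval_zero]
  obtain ⟨x1, hx10, hx1, hx1d, hx1p⟩ := exists_prim A hcol (fun a => hAQ a j0)
  have hdcol : dg (fun a => Q a j0) ≤ 3 * k := by
    apply Finset.sup_le
    intro a _
    exact natDegree_dm_le _ _ _
  set a0 := dg x1 with ha0
  have ha0k : a0 ≤ 3 * k := hx1d.trans hdcol
  -- Bezout
  obtain ⟨u, hu⟩ := bez (fun p : Fin 5 × Fin 5 => Q p.1 p.2) hQne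
  obtain ⟨w, hw⟩ := bez x1 hx1p
  -- entry of degree `3 k`
  obtain ⟨i1, j1, h1⟩ : ∃ i j, (Q i j).coeff (3 * k) ≠ 0 := by
    by_contra h
    push Not at h
    apply (hc ![0, 1] ne_zero_inf).2.2.1
    ext i j
    have := h i j
    rw [hQ, coeff_dm] at this
    change ev c.1 ![0, 1] i j = 0
    rw [ev_inf]
    exact this
  have hQd : (Q i1 j1).natDegree = 3 * k :=
    le_antisymm (natDegree_dm_le _ _ _) (Polynomial.le_natDegree_of_ne_zero h1)
  have hQ1 : Q i1 j1 ≠ 0 := by
    intro h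
    rw [h, coeff_zero] at h1
    exact h1 rfl
  obtain ⟨b1, hb1, hb1d⟩ := exists_dg hx10
  -- proportionality
  have hprop : ∀ y : Fin 5 → ℂ[X], (∀ a, mv A y a = 0) → ∀ a b i j,
      (x1 a * y b - y a * x1 b) * Q i j = Q a b * (x1 i * y j - y i * x1 j) := by
    intro y hy a b i j
    apply Polynomial.funext
    intro t
    have hker : ∀ z : Fin 5 → ℂ[X], (∀ a, mv A z a = 0) →
        ev c.2 ![1, t] *ᵥ (fun b => (z b).eval t) = 0 := by
      intro z hz
      funext a
      have h2 := congrArg (Polynomial.eval t) (hz a)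
      unfold mv at h2
      rw [Polynomial.eval_finsetSum, Polynomial.eval_zero] at h2
      rw [Pi.zero_apply, ← h2]
      change ∑ b, ev c.2 ![1, t] a b * (z b).eval t = _
      refine Finset.sum_congr rfl fun b _ => ?_
      rw [Polynomial.eval_mul, hA, eval_dm]
    obtain ⟨μ, hμ⟩ := plane (hc ![1, t] (ne_zero_pt t)) (hr _ (ne_zero_pt t)) (hker x1 hx1)
      (hker y hy)
    have e1 := hμ a b
    have e2 := hμ i j
    simp only [Polynomial.eval_mul, Polynomial.eval_sub]
    rw [hQ, eval_dm, eval_dm, e1, e2]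
    ring
  -- the functional `μ`
  set U : Fin 5 → ℂ[X] := fun b => ∑ i, u (i, b) * x1 i - ∑ j, u (b, j) * x1 j with hU
  have hUμ : ∀ y : Fin 5 → ℂ[X], lf U y = ∑ p : Fin 5 × Fin 5, u p * (x1 p.1 * y p.2
      - y p.1 * x1 p.2) := by
    intro y
    rw [lf_apply, hU]
    simp only [sub_mul, mul_sub, Finset.sum_sub_distrib, Finset.sum_mul]
    rw [Fintype.sum_prod_type, Fintype.sum_prod_type]
    congr 1
    · rw [Finset.sum_comm]
      refine Finset.sum_congr rfl fun i _ => Finset.sum_congr rfl fun j _ => ?_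
      ring
    · refine Finset.sum_congr rfl fun i _ => Finset.sum_congr rfl fun j _ => ?_
      ring
  have hμ : ∀ y : Fin 5 → ℂ[X], (∀ a, mv A y a = 0) → ∀ a b,
      x1 a * y b - y a * x1 b = Q a b * lf U y := by
    intro y hy a b
    rw [hUμ, Finset.mul_sum]
    have h2 : ∑ p : Fin 5 × Fin 5, Q a b * (u p * (x1 p.1 * y p.2 - y p.1 * x1 p.2))
        = ∑ p : Fin 5 × Fin 5, (x1 a * y b - y a * x1 b) * (u p * Q p.1 p.2) := by
      refine Finset.sum_congr rfl fun p _ => ?_
      linear_combination (-(u p)) * hprop y hy a b p.1 p.2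
    rw [h2, ← Finset.mul_sum, hu, mul_one]
  -- the composites
  have hAF : ∀ (x : Fin (k + 1) → (Fin 5 → ℂ)) (a : Fin 5), mv A (FQ c.1 x) a = 0 := by
    intro x a
    unfold mv
    have h2 : ∑ b, A a b * FQ c.1 x b = ∑ j, (∑ b, A a b * Q b j) * dv x j := by
      simp only [FQ_apply, Finset.mul_sum, Finset.sum_mul]
      rw [Finset.sum_comm]
      refine Finset.sum_congr rfl fun i _ => Finset.sum_congr rfl fun j _ => ?_
      rw [hQ]
      ring
    rw [h2]
    refine Finset.sum_eq_zero fun j _ => ?_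
    rw [hAQ, zero_mul]
  set G : (Fin (k + 1) → (Fin 5 → ℂ)) →ₗ[ℂ] ℂ[X] := (lf U).comp (FQ c.1) with hG
  have hGd : ∀ x, (G x).natDegree ≤ a0 + k := by
    intro x
    by_cases h0 : G x = 0
    · rw [h0, natDegree_zero]
      omega
    have h2 := hμ _ (hAF x) i1 j1
    have h3 : (x1 i1 * FQ c.1 x j1 - FQ c.1 x i1 * x1 j1).natDegree ≤ a0 + (3 * k + k) := by
      refine (Polynomial.natDegree_sub_le _ _).trans (max_le ?_ ?_)
      · exact natDegree_mul_le.trans (add_le_add (le_dg x1 i1) (natDegree_FQ_le _ _ _))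
      · refine natDegree_mul_le.trans ?_
        rw [add_comm]
        exact add_le_add (le_dg x1 j1) (natDegree_FQ_le _ _ _)
    rw [h2] at h3
    have h4 : (Q i1 j1 * lf U (FQ c.1 x)).natDegree = 3 * k + (G x).natDegree := by
      change (Q i1 j1 * G x).natDegree = _
      rw [natDegree_mul hQ1 h0, hQd]
    omega
  have hn1 := nullity G (a0 + k) hGd
  -- the second map
  set G2 : LinearMap.ker G →ₗ[ℂ] ℂ[X] := ((lf w).comp (FQ c.1)).comp (LinearMap.ker G).subtype
    with hG2
  have hmul : ∀ x : LinearMap.ker G, ∀ b, FQ c.1 (x : Fin (k + 1) → (Fin 5 → ℂ)) b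
      = G2 x * x1 b := by
    intro x b
    have h0 : lf U (FQ c.1 (x : Fin (k + 1) → (Fin 5 → ℂ))) = 0 := x.2
    have h2 : ∀ a, FQ c.1 (x : Fin (k + 1) → (Fin 5 → ℂ)) a * x1 b
        = x1 a * FQ c.1 (x : Fin (k + 1) → (Fin 5 → ℂ)) b := by
      intro a
      have h3 := hμ _ (hAF x) a b
      rw [h0, mul_zero] at h3
      linear_combination -h3
    change _ = (∑ a, w a * FQ c.1 (x : Fin (k + 1) → (Fin 5 → ℂ)) a) * x1 b
    rw [Finset.sum_mul]
    have h4 : ∑ a, w a * FQ c.1 (x : Fin (k + 1) → (Fin 5 → ℂ)) a * x1 b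
        = ∑ a, (w a * x1 a) * FQ c.1 (x : Fin (k + 1) → (Fin 5 → ℂ)) b := by
      refine Finset.sum_congr rfl fun a _ => ?_
      linear_combination w a * h2 a
    rw [h4, ← Finset.sum_mul, hw, one_mul]
  have hG2d : ∀ x, (G2 x).natDegree ≤ 4 * k - a0 := by
    intro x
    by_cases h0 : G2 x = 0
    · rw [h0, natDegree_zero]
      omega
    have h2 := natDegree_FQ_le c.1 (x : Fin (k + 1) → (Fin 5 → ℂ)) b1
    rw [hmul x b1, natDegree_mul h0 hb1, hb1d] at h2
    omega
  have hn2 := nullity G2 (4 * k - a0) hG2d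
  -- the kernel
  have hn3 : Module.finrank ℂ (LinearMap.ker G2) ≤ Module.finrank ℂ (HH k c) := by
    have hmem : ∀ x : LinearMap.ker G2, ((x : LinearMap.ker G) : Fin (k + 1) → (Fin 5 → ℂ)) ∈
        HH k c := by
      intro x
      apply mem_HH
      intro a
      have h2 := hmul x a
      have h3 : G2 x = 0 := x.2
      rw [h3, zero_mul] at h2
      exact h2
    let J : LinearMap.ker G2 →ₗ[ℂ] HH k c :=
      { toFun := fun x => ⟨((x : LinearMap.ker G) : Fin (k + 1) → (Fin 5 → ℂ)), hmem x⟩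
        map_add' := fun x y => rfl
        map_smul' := fun s x => rfl }
    apply LinearMap.finrank_le_finrank_of_injective (f := J)
    intro x y hxy
    apply Subtype.ext
    apply Subtype.ext
    have h5 : ((J x : HH k c) : Fin (k + 1) → (Fin 5 → ℂ)) = (J y : HH k c) := by rw [hxy]
    exact h5
  have hfin : Module.finrank ℂ (Fin (k + 1) → (Fin 5 → ℂ)) = 5 * (k + 1) := by
    rw [Module.finrank_pi_fintype]
    simp [mul_comm]
  rw [hfin] at hn1
  omega

end RRAux

/-- Module RR. -/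
theorem stRR (_hRG : StRG) : StRR := by
  intro k _ c hc hr
  exact RRAux.main hc hr

end MC
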