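import Pool.Agent.Lib.MC.Stmts2
import Pool.Agent.Lib.MC.IX
import Pool.Agent.Lib.MC.AC

set_option autoImplicit false

/-!
# Module SE: the section `δ` of `3 H - 2 σ`

On the cone one has `det (A + e_k e_kᵀ + e_l e_lᵀ) = δ Q_{kl} ^ 2`.
-/

noncomputable section

namespace MC

open Matrix

namespace SEAux

/-- the matrix `A + e_k e_kᵀ + e_l e_lᵀ` -/
def AE (A : M5) (k l : Fin 5) : M5 := A + Matrix.single k k 1 + Matrix.single l l 1

/-- the matrix with columns `e₀, e₁, e₂, u, w` -/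
def FM (u w : Fin 5 → ℂ) : M5 :=
  !![1, 0, 0, u 0, w 0; 0, 1, 0, u 1, w 1; 0, 0, 1, u 2, w 2; 0, 0, 0, u 3, w 3;
    0, 0, 0, u 4, w 4]

lemma det_FM (u w : Fin 5 → ℂ) : (FM u w).det = u 3 * w 4 - u 4 * w 3 := by
  simp [FM, Matrix.det_succ_row_zero, Fin.sum_univ_succ, Fin.succAbove]
  ring

lemma LL_row {A : M5} (hA : A ∈ IXAux.LL) (j : Fin 5) : A 3 j = 0 ∧ A 4 j = 0 := by
  have h := hA.1
  have h3 : A 3 j = A j 3 := by
    conv_lhs => rw [← h]
    rfl
  have h4 : A 4 j = A j 4 := by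
    conv_lhs => rw [← h]
    rfl
  rw [h3, h4]
  exact hA.2 j

lemma FM_mul {A : M5} (hA : A ∈ IXAux.LL) (u w : Fin 5 → ℂ) :
    FM u w * AE A 3 4 * (FM u w)ᵀ = A + vecMulVec u u + vecMulVec w w := by
  have hc := hA.2
  have hr := LL_row hA
  ext i j
  rw [Matrix.mul_apply]
  simp only [Matrix.mul_apply, Fin.sum_univ_five]
  fin_cases i <;> fin_cases j <;>
    simp [FM, AE, vecMulVec_apply, hc, hr]

lemma det_add {A : M5} (hA : A ∈ IXAux.LL) (u w : Fin 5 → ℂ) :
    (A + vecMulVec u u + vecMulVec w w).det =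
      (AE A 3 4).det * (u 3 * w 4 - u 4 * w 3) ^ 2 := by
  rw [← FM_mul hA, det_mul, det_mul, det_transpose, det_FM]
  ring

lemma main {g : M5} (hg : g.det ≠ 0) {c : ℂ} (hc : c ≠ 0) {A : M5} (hA : A ∈ IXAux.LL)
    (k l : Fin 5) :
    (AE (act g (c • Q0, A)).2 k l).det =
      ((AE A 3 4).det * (c ^ 2 * g.det ^ 2)⁻¹) * (act g (c • Q0, A)).1 k l ^ 2 := by
  have hgu : IsUnit g.det := isUnit_iff_ne_zero.mpr hg
  have hgG : g * g⁻¹ = 1 := Matrix.mul_nonsing_inv g hgu
  have hadj := IXAux.adj_of_mul hgG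
  have hcol : ∀ m : Fin 5, g *ᵥ (fun i => g⁻¹ i m) = Pi.single m 1 := by
    intro m
    ext i
    have := congrFun (congrFun hgG i) m
    rw [Matrix.mul_apply] at this
    rw [Matrix.mulVec, dotProduct, this, Matrix.one_apply, Pi.single_apply]
  have hE : ∀ m : Fin 5, g * vecMulVec (fun i => g⁻¹ i m) (fun i => g⁻¹ i m) * gᵀ =
      Matrix.single m m 1 := by
    intro m
    rw [mul_vecMulVec, hcol, vecMulVec_mul, vecMul_transpose, hcol]
    ext i j
    simp only [vecMulVec_apply, Pi.single_apply, Matrix.single_apply]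
    by_cases h1 : m = i <;> by_cases h2 : m = j <;> simp [h1, h2, Ne.symm, eq_comm]
  have h2 : AE (act g (c • Q0, A)).2 k l =
      g * (A + vecMulVec (fun i => g⁻¹ i k) (fun i => g⁻¹ i k) +
        vecMulVec (fun i => g⁻¹ i l) (fun i => g⁻¹ i l)) * gᵀ := by
    rw [Matrix.mul_add, Matrix.mul_add, Matrix.add_mul, Matrix.add_mul, hE, hE]
    rfl
  have h1 : (act g (c • Q0, A)).1 k l =
      c * g.det ^ 2 * (g⁻¹ 3 k * g⁻¹ 4 l - g⁻¹ 4 k * g⁻¹ 3 l) := by
    show ((adjugate g)ᵀ * (c • Q0) * adjugate g) k l = _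
    rw [Matrix.mul_smul, Matrix.smul_mul, Matrix.smul_apply, IXAux.conj_apply, hadj]
    simp only [Matrix.smul_apply, smul_eq_mul]
    ring
  rw [h2, h1, det_mul, det_mul, det_transpose, det_add hA]
  field_simp

lemma rank_D0 : IXAux.D0.rank = 3 := by
  rw [IXAux.D0, Matrix.rank_diagonal, Fintype.card_subtype]
  have h : (Finset.univ.filter fun i : Fin 5 => (![1, 1, 1, 0, 0] : Fin 5 → ℂ) i ≠ 0) =
      {0, 1, 2} := by
    ext i
    fin_cases i <;> simp
  rw [h]
  rfl

lemma rank_AE {A : M5} (hA : A ∈ IXAux.LL) : A.rank = 3 ↔ (AE A 3 4).det ≠ 0 := by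
  have hc := hA.2
  have hr := LL_row hA
  constructor
  · intro h3 h0
    obtain ⟨v, hv, hBv⟩ := Matrix.exists_mulVec_eq_zero_iff.mpr h0
    have hB : AE A 3 4 *ᵥ v = A *ᵥ v + Pi.single 3 (v 3) + Pi.single 4 (v 4) := by
      rw [AE, Matrix.add_mulVec, Matrix.add_mulVec]
      congr 1
      · congr 1
        ext i
        simp [Matrix.mulVec, dotProduct, Matrix.single_apply, Pi.single_apply, ite_and, eq_comm]
      · ext i
        simp [Matrix.mulVec, dotProduct, Matrix.single_apply, Pi.single_apply, ite_and, eq_comm]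
    have hA3 : (A *ᵥ v) 3 = 0 := by
      simp [Matrix.mulVec, dotProduct, hr]
    have hA4 : (A *ᵥ v) 4 = 0 := by
      simp [Matrix.mulVec, dotProduct, hr]
    have hv3 : v 3 = 0 := by
      have := congrFun (hB.symm.trans hBv) 3
      simpa [hA3] using this
    have hv4 : v 4 = 0 := by
      have := congrFun (hB.symm.trans hBv) 4
      simpa [hA4] using this
    have hAv : A *ᵥ v = 0 := by
      have := hB.symm.trans hBv
      simpa [hv3, hv4] using this
    -- three independent vectors in the kernel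
    set N : Matrix (Fin 3) (Fin 5) ℂ := ![v, Pi.single 3 1, Pi.single 4 1] with hN
    have hli : LinearIndependent ℂ N.row := by
      rw [Fintype.linearIndependent_iff]
      intro c hc0
      have e3 := congrFun hc0 3
      have e4 := congrFun hc0 4
      simp [Fin.sum_univ_three, hN, hv3, Matrix.row] at e3
      simp [Fin.sum_univ_three, hN, hv4, Matrix.row] at e4
      obtain ⟨i, hi⟩ := Function.ne_iff.mp hv
      have ei := congrFun hc0 i
      simp [Fin.sum_univ_three, hN, Matrix.row, e3, e4] at ei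
      intro j
      fin_cases j
      · exact ei.resolve_right hi
      · exact e3
      · exact e4
    have hrN : (Nᵀ).rank = 3 := by
      rw [Matrix.rank_transpose]
      simpa using hli.rank_matrix
    have hAN : A * Nᵀ = 0 := by
      ext i j
      rw [Matrix.mul_apply]
      fin_cases j
      · exact congrFun hAv i
      · show ∑ k, A i k * (Pi.single 3 1 : Fin 5 → ℂ) k = 0
        simp [Pi.single_apply, (hc i).1]
      · show ∑ k, A i k * (Pi.single 4 1 : Fin 5 → ℂ) k = 0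
        simp [Pi.single_apply, (hc i).2]
    have := Matrix.rank_add_rank_le_card_of_mul_eq_zero hAN
    rw [h3, hrN] at this
    simp at this
  · intro h
    have hD : AE A 3 4 * IXAux.D0 = A := by
      ext i j
      simp only [Matrix.mul_apply, Fin.sum_univ_five]
      fin_cases i <;> fin_cases j <;>
        simp [IXAux.D0, AE, hc, hr, Matrix.single_apply, Matrix.diagonal_apply]
    rw [← hD, Matrix.rank_mul_eq_right_of_isUnit_det _ _ (isUnit_iff_ne_zero.mpr h), rank_D0]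

/-- the value `d` of the section -/
def IsD (x : M5 × M5) (d : ℂ) : Prop := ∀ k l, (AE x.2 k l).det = d * x.1 k l ^ 2

lemma exists_ne {x : M5 × M5} (hx : x ∈ Cone) : ∃ k l, x.1 k l ≠ 0 := by
  by_contra hcon
  push Not at hcon
  exact hx.2.2.1 (by ext i j; exact hcon i j)

lemma IsD.unique {x : M5 × M5} (hx : x ∈ Cone) {d d' : ℂ} (h : IsD x d) (h' : IsD x d') :
    d = d' := by
  obtain ⟨k, l, hkl⟩ := exists_ne hx
  have := (h k l).symm.trans (h' k l)
  exact mul_right_cancel₀ (pow_ne_zero 2 hkl) this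

/-- existence, with homogeneity and the rank condition -/
lemma exists_D {x : M5 × M5} (hx : x ∈ Cone) : ∃ d, IsD x d ∧ (d ≠ 0 ↔ x.2.rank = 3) ∧
    ∀ μ lam : ℂ, μ ≠ 0 → lam ≠ 0 → IsD (scal μ lam x) (μ ^ (-2 : ℤ) * lam ^ (3 : ℤ) * d) := by
  obtain ⟨g, hg, c, hc, A, hA, hA0, rfl⟩ := IXAux.nf hx
  have hgu : IsUnit g.det := isUnit_iff_ne_zero.mpr hg
  refine ⟨(AE A 3 4).det * (c ^ 2 * g.det ^ 2)⁻¹, fun k l => main hg hc hA k l, ?_, ?_⟩
  · have h1 : (act g (c • Q0, A)).2.rank = A.rank := by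
      show (g * A * gᵀ).rank = A.rank
      rw [Matrix.rank_mul_eq_left_of_isUnit_det _ _ (by rw [det_transpose]; exact hgu),
        Matrix.rank_mul_eq_right_of_isUnit_det _ _ hgu]
    rw [h1, rank_AE hA]
    have h2 : (c ^ 2 * g.det ^ 2)⁻¹ ≠ 0 :=
      inv_ne_zero (mul_ne_zero (pow_ne_zero _ hc) (pow_ne_zero _ hg))
    exact ⟨left_ne_zero_of_mul, fun h => mul_ne_zero h h2⟩
  · intro μ lam hμ hl k l
    have h1 : scal μ lam (act g (c • Q0, A)) = act g ((μ * c) • Q0, lam • A) := by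
      rw [← IXAux.act_scal, scal, smul_smul]
    rw [h1, main hg (mul_ne_zero hμ hc) (IXAux.LL.smul_mem lam hA) k l]
    congr 1
    have h3 : (AE (lam • A) 3 4).det = lam ^ 3 * (AE A 3 4).det := by
      have h4 : AE (lam • A) 3 4 = Matrix.diagonal ![lam, lam, lam, 1, 1] * AE A 3 4 := by
        have hr := LL_row hA
        ext i j
        rw [Matrix.diagonal_mul]
        fin_cases i <;> fin_cases j <;> simp [AE, hr, Matrix.single_apply]
      rw [h4, det_mul, det_diagonal, Fin.prod_univ_five]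
      show lam * lam * lam * 1 * 1 * _ = _
      ring
    have h5 : μ ^ (-2 : ℤ) = (μ ^ 2)⁻¹ := by
      rw [_root_.zpow_neg]
      norm_cast
    have h6 : lam ^ (3 : ℤ) = lam ^ 3 := by norm_cast
    rw [h3, h5, h6]
    field_simp

open Classical in
/-- the section -/
def delta (x : Cone) : ℂ := (exists_D x.2).choose

lemma delta_spec (x : Cone) : IsD x (delta x) ∧ (delta x ≠ 0 ↔ (x : M5 × M5).2.rank = 3) ∧
    ∀ μ lam : ℂ, μ ≠ 0 → lam ≠ 0 →
      IsD (scal μ lam x) (μ ^ (-2 : ℤ) * lam ^ (3 : ℤ) * delta x) :=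
  (exists_D x.2).choose_spec

/-- the entries are polynomial functions -/
lemma e1_mem (k l : Fin 5) : (fun x : M5 × M5 => x.1 k l) ∈ Poly (M5 × M5) :=
  ACAux.poly_lin ((Matrix.entryLinearMap ℂ ℂ k l).comp (LinearMap.fst ℂ M5 M5))

lemma e2_mem (k l : Fin 5) : (fun x : M5 × M5 => x.2 k l) ∈ Poly (M5 × M5) :=
  ACAux.poly_lin ((Matrix.entryLinearMap ℂ ℂ k l).comp (LinearMap.snd ℂ M5 M5))

lemma AE_mem (k l : Fin 5) : (fun x : M5 × M5 => (AE x.2 k l).det) ∈ Poly (M5 × M5) := by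
  apply ACAux.MPoly.det (F := fun x : M5 × M5 => AE x.2 k l)
  intro a b
  exact (Poly (M5 × M5)).add_mem ((Poly (M5 × M5)).add_mem (e2_mem a b)
    (ACAux.poly_const _)) (ACAux.poly_const _)

lemma regular_of_poly {p : M5 × M5 → ℂ} (hp : p ∈ Poly (M5 × M5)) :
    Regular fun x : Cone => p x :=
  fun _ => ⟨p, hp, 1, (Poly (M5 × M5)).one_mem, one_ne_zero, fun y _ => by simp⟩

/-- the base point -/
lemma base : ((Q0, IXAux.D0) : M5 × M5) ∈ Cone := by
  have := IXAux.base_mem one_ne_zero IXAux.D0_mem IXAux.D0_ne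
  rwa [one_smul] at this

end SEAux

open SEAux in
/-- **Module SE.** -/
theorem stSE : StSE := by
  refine ⟨⟨fun x => (x : M5 × M5).2 0 0, ⟨regular_of_poly (e2_mem 0 0), ?_⟩, ?_⟩,
    ⟨fun x => (x : M5 × M5).1 3 4, ⟨regular_of_poly (e1_mem 3 4), ?_⟩, ?_⟩,
    delta, ⟨?_, ?_⟩, ?_, fun x => (delta_spec x).2.1⟩
  · intro x y μ lam hμ hl hy
    simp [hy, scal]
  · intro h
    have := congrFun h ⟨_, base⟩
    simp [IXAux.D0] at this
  · intro x y μ lam hμ hl hy
    simp [hy, scal]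
  · intro h
    have := congrFun h ⟨_, base⟩
    simp [Q0] at this
  · intro x
    obtain ⟨k, l, hkl⟩ := exists_ne x.2
    refine ⟨fun y => (AE y.2 k l).det, AE_mem k l, fun y => y.1 k l * y.1 k l,
      ACAux.poly_mul (e1_mem k l) (e1_mem k l), mul_ne_zero hkl hkl, fun y hy => ?_⟩
    have h1 := (delta_spec y).1 k l
    have hy' : (y : M5 × M5).1 k l * (y : M5 × M5).1 k l ≠ 0 := hy
    show delta y = (AE (y : M5 × M5).2 k l).det / ((y : M5 × M5).1 k l * (y : M5 × M5).1 k l)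
    rw [h1, eq_div_iff hy']
    ring
  · intro x y μ lam hμ hl hy
    refine IsD.unique y.2 (delta_spec y).1 ?_
    rw [hy]
    exact (delta_spec x).2.2 μ lam hμ hl
  · intro h
    have h1 := (delta_spec ⟨_, base⟩).2.1.mpr rank_D0
    exact h1 (congrFun h _)

end MC

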