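import Pool.Agent.Lib.MC.Stmts

set_option autoImplicit false

/-!
# Module ST: components of `Mor` are stable under `GL₅`
-/

noncomputable section

namespace MC

open Matrix

namespace STAux

/-- linear functions are polynomial functions -/
lemma lin_mem {V : Type} [AddCommGroup V] [Module ℂ V] (φ : V →ₗ[ℂ] ℂ) :
    (φ : V → ℂ) ∈ Poly V :=
  Algebra.subset_adjoin ⟨φ, rfl⟩

/-- entries are polynomial functions -/
lemma entry_mem (i j : Fin 5) : (fun A : M5 => A i j) ∈ Poly M5 :=
  lin_mem (Matrix.entryLinearMap ℂ ℂ i j)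

/-- the determinant is a polynomial function -/
lemma det_mem : (fun A : M5 => A.det) ∈ Poly M5 := by
  have h : (fun A : M5 => A.det) =
      ∑ σ : Equiv.Perm (Fin 5), ((Equiv.Perm.sign σ : ℤ) : ℂ) •
        ∏ i : Fin 5, (fun A : M5 => A (σ i) i) := by
    funext A
    rw [Matrix.det_apply', Finset.sum_apply]
    refine Finset.sum_congr rfl fun σ _ => ?_
    rw [Pi.smul_apply, Finset.prod_apply, smul_eq_mul]
  rw [h]
  exact Subalgebra.sum_mem _ fun σ _ => Subalgebra.smul_mem _
    (Subalgebra.prod_mem _ fun i _ => entry_mem (σ i) i) _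

lemma hat_subset {d e : ℕ} (M : Set (Mor d e)) : hat M ⊆ MorCone d e := by
  rintro c ⟨h, _⟩
  exact h

end STAux

open STAux in
/-- **Module ST.** Components are stable under `GL₅`. -/
theorem stST (hZA : StZA) (hTO : StTO) (hAC : StAC) : StST := by
  intro d e M hM g hg c hc
  obtain ⟨-, hcone, hac⟩ := hAC
  obtain ⟨hev, -, hone, hpoly⟩ := hac d e
  obtain ⟨hirr, hmax⟩ := (hTO d e).1 M hM
  have hS := hZA.2.2 M5 (CV d e) (CV d e) (fun x : M5 × CV d e => actc x.1 x.2) hpoly
    (fun A : M5 => A.det) det_mem ⟨1, by simp⟩ (hat M) hirr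
  refine hmax _ hS ?_ ?_ ⟨g, c, hg, hc, rfl⟩
  · rintro x ⟨w, v, hw, hv, rfl⟩ u hu
    show evp (actc w v) u ∈ Cone
    rw [hev, hcone w _ hw]
    exact hat_subset M hv u hu
  · intro v hv
    exact ⟨1, v, by simp, hv, (hone v).symm⟩

end MC

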