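import Pool.Agent.Lib.MC.Stmts

set_option autoImplicit false

/-!
# MP_ac098b_ag, module TH: no thin factorisation
-/

noncomputable section

namespace MC

open Matrix

namespace THAux

/-! ### Polynomial functions -/

section general
variable {V W : Type} [AddCommGroup V] [Module ℂ V] [AddCommGroup W] [Module ℂ W]

theorem lin_mem (φ : V →ₗ[ℂ] ℂ) : (fun v => φ v) ∈ Poly V := Algebra.subset_adjoin ⟨φ, rfl⟩

theorem const_mem (c : ℂ) : (fun _ : V => c) ∈ Poly V := (Poly V).algebraMap_mem c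

theorem mul_mem' {f g : V → ℂ} (hf : f ∈ Poly V) (hg : g ∈ Poly V) :
    (fun v => f v * g v) ∈ Poly V := (Poly V).mul_mem hf hg

theorem add_mem' {f g : V → ℂ} (hf : f ∈ Poly V) (hg : g ∈ Poly V) :
    (fun v => f v + g v) ∈ Poly V := (Poly V).add_mem hf hg

theorem sub_mem' {f g : V → ℂ} (hf : f ∈ Poly V) (hg : g ∈ Poly V) :
    (fun v => f v - g v) ∈ Poly V := (Poly V).sub_mem hf hg

theorem pow_mem' {f : V → ℂ} (hf : f ∈ Poly V) (n : ℕ) :
    (fun v => f v ^ n) ∈ Poly V := (Poly V).pow_mem hf n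

theorem sum_mem' {ι : Type} (s : Finset ι) {f : ι → V → ℂ} (hf : ∀ i ∈ s, f i ∈ Poly V) :
    (fun v => ∑ i ∈ s, f i v) ∈ Poly V := by
  have h := (Poly V).sum_mem hf
  have e : (fun v => ∑ i ∈ s, f i v) = ∑ i ∈ s, f i := by
    funext v
    rw [Finset.sum_apply]
  rw [e]
  exact h

theorem prod_mem' {ι : Type} (s : Finset ι) {f : ι → V → ℂ} (hf : ∀ i ∈ s, f i ∈ Poly V) :
    (fun v => ∏ i ∈ s, f i v) ∈ Poly V := by
  have h := (Poly V).prod_mem hf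
  have e : (fun v => ∏ i ∈ s, f i v) = ∏ i ∈ s, f i := by
    funext v
    rw [Finset.prod_apply]
  rw [e]
  exact h

/-- functions which are regular where `δ` does not vanish -/
def Loc (δ : W → ℂ) (hδ : δ ∈ Poly W) : Subalgebra ℂ (W → ℂ) where
  carrier := {φ | ∃ K : ℕ, ∃ p ∈ Poly W, ∀ w, δ w ≠ 0 → p w = φ w * δ w ^ K}
  mul_mem' := by
    rintro φ φ' ⟨K, p, hp, h⟩ ⟨K', p', hp', h'⟩
    refine ⟨K + K', fun w => p w * p' w, mul_mem' hp hp', fun w hw => ?_⟩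
    change p w * p' w = φ w * φ' w * δ w ^ (K + K')
    rw [h w hw, h' w hw]
    ring
  add_mem' := by
    rintro φ φ' ⟨K, p, hp, h⟩ ⟨K', p', hp', h'⟩
    refine ⟨K + K', fun w => p w * δ w ^ K' + p' w * δ w ^ K,
      add_mem' (mul_mem' hp (pow_mem' hδ _)) (mul_mem' hp' (pow_mem' hδ _)), fun w hw => ?_⟩
    change p w * δ w ^ K' + p' w * δ w ^ K = (φ w + φ' w) * δ w ^ (K + K')
    rw [h w hw, h' w hw]
    ring
  algebraMap_mem' c := ⟨0, fun _ => c, const_mem c, fun w _ => by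
    change c = c * δ w ^ 0
    rw [pow_zero, mul_one]⟩

variable {δ : W → ℂ} {hδ : δ ∈ Poly W}

theorem poly_le_loc {φ : W → ℂ} (h : φ ∈ Poly W) : φ ∈ Loc δ hδ :=
  ⟨0, φ, h, fun w _ => by rw [pow_zero, mul_one]⟩

/-- nonvanishing is given by a polynomial -/
theorem loc_nz {φ : W → ℂ} (h : φ ∈ Loc δ hδ) :
    ∃ ψ ∈ Poly W, ∀ w, ψ w ≠ 0 ↔ φ w ≠ 0 ∧ δ w ≠ 0 := by
  obtain ⟨K, p, hp, h⟩ := h
  refine ⟨fun w => p w * δ w, mul_mem' hp hδ, fun w => ?_⟩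
  constructor
  · intro h1
    have h2 : δ w ≠ 0 := right_ne_zero_of_mul h1
    have h3 : p w ≠ 0 := left_ne_zero_of_mul h1
    rw [h w h2] at h3
    exact ⟨left_ne_zero_of_mul h3, h2⟩
  · rintro ⟨h1, h2⟩
    apply mul_ne_zero _ h2
    rw [h w h2]
    exact mul_ne_zero h1 (pow_ne_zero _ h2)

/-- common denominators for two functions -/
theorem loc_pair {φ φ' : W → ℂ} (h : φ ∈ Loc δ hδ) (h' : φ' ∈ Loc δ hδ) :
    ∃ (K : ℕ) (a b : W → ℂ), a ∈ Poly W ∧ b ∈ Poly W ∧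
      ∀ w, δ w ≠ 0 → a w = φ w * δ w ^ K ∧ b w = φ' w * δ w ^ K := by
  obtain ⟨K, p, hp, h⟩ := h
  obtain ⟨K', p', hp', h'⟩ := h'
  refine ⟨K + K', fun w => p w * δ w ^ K', fun w => p' w * δ w ^ K,
    mul_mem' hp (pow_mem' hδ _), mul_mem' hp' (pow_mem' hδ _), fun w hw => ⟨?_, ?_⟩⟩
  · change p w * δ w ^ K' = _
    rw [h w hw]
    ring
  · change p' w * δ w ^ K = _
    rw [h' w hw]
    ring

theorem loc_comp (hZA : StZA) {π : V → W} (hπ : PolyMap π) {φ : W → ℂ} (h : φ ∈ Loc δ hδ)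
    (hδ' : (fun v => δ (π v)) ∈ Poly V) : (fun v => φ (π v)) ∈ Loc (fun v => δ (π v)) hδ' := by
  obtain ⟨K, p, hp, h⟩ := h
  exact ⟨K, fun v => p (π v), hZA.2.1 V W π hπ p hp, fun v hv => h (π v) hv⟩

theorem loc_mul {φ φ' : W → ℂ} (h : φ ∈ Loc δ hδ) (h' : φ' ∈ Loc δ hδ) :
    (fun w => φ w * φ' w) ∈ Loc δ hδ := (Loc δ hδ).mul_mem h h'

theorem loc_sum {ι : Type} (s : Finset ι) {f : ι → W → ℂ} (hf : ∀ i ∈ s, f i ∈ Loc δ hδ) :
    (fun w => ∑ i ∈ s, f i w) ∈ Loc δ hδ := by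
  have h := (Loc δ hδ).sum_mem hf
  have e : (fun w => ∑ i ∈ s, f i w) = ∑ i ∈ s, f i := by
    funext w
    rw [Finset.sum_apply]
  rw [e]
  exact h

end general

/-- the projections -/
theorem polyMap_snd : PolyMap (fun x : M5 × M5 => x.2) := by
  intro φ
  exact lin_mem (φ.comp (LinearMap.snd ℂ M5 M5))

theorem coord_mem {V : Type} [AddCommGroup V] [Module ℂ V] {N : ℕ} {h : V → (Fin N → ℂ)}
    (hh : PolyMap h) (i : Fin N) : (fun v => h v i) ∈ Poly V :=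
  hh (LinearMap.proj i)

theorem entry_mem {V : Type} [AddCommGroup V] [Module ℂ V] {F : V → M5 × M5}
    (hF : PolyMap F) (a b : Fin 5) : (fun v => (F v).1 a b) ∈ Poly V :=
  hF ((LinearMap.proj b).comp ((LinearMap.proj a).comp (LinearMap.fst ℂ M5 M5)))

theorem polyMap_pi {V : Type} [AddCommGroup V] [Module ℂ V] {N : ℕ} {h : V → (Fin N → ℂ)}
    (hh : ∀ i, (fun v => h v i) ∈ Poly V) : PolyMap h := by
  intro φ
  have e : (fun v => φ (h v)) = fun v => ∑ i, h v i * φ (Pi.single i 1) := by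
    funext v
    conv_lhs => rw [← Finset.univ_sum_single (h v)]
    rw [map_sum]
    refine Finset.sum_congr rfl fun i _ => ?_
    have : Pi.single i (h v i) = h v i • (Pi.single i (1 : ℂ) : Fin N → ℂ) := by
      rw [← Pi.single_smul, smul_eq_mul, mul_one]
    rw [this, map_smul, smul_eq_mul]
  rw [e]
  exact sum_mem' _ fun i _ => mul_mem' (hh i) (const_mem _)

/-- the value of a pair of forms is a polynomial map -/
theorem polyMap_evp (d e : ℕ) : PolyMap (fun x : CV d e × (Fin 2 → ℂ) => evp x.1 x.2) := by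
  intro φ
  have h0 : (fun x : CV d e × (Fin 2 → ℂ) => x.2 0) ∈ Poly (CV d e × (Fin 2 → ℂ)) :=
    lin_mem ((LinearMap.proj 0).comp (LinearMap.snd ℂ (CV d e) (Fin 2 → ℂ)))
  have h1 : (fun x : CV d e × (Fin 2 → ℂ) => x.2 1) ∈ Poly (CV d e × (Fin 2 → ℂ)) :=
    lin_mem ((LinearMap.proj 1).comp (LinearMap.snd ℂ (CV d e) (Fin 2 → ℂ)))
  have h2 : ∀ i : Fin (d + 1), (fun x : CV d e × (Fin 2 → ℂ) => φ (x.1.1 i, 0)) ∈
      Poly (CV d e × (Fin 2 → ℂ)) := fun i =>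
    lin_mem (φ.comp ((LinearMap.inl ℂ M5 M5).comp ((LinearMap.proj i).comp
      ((LinearMap.fst ℂ (Fin (d + 1) → M5) (Fin (e + 1) → M5)).comp
        (LinearMap.fst ℂ (CV d e) (Fin 2 → ℂ))))))
  have h3 : ∀ i : Fin (e + 1), (fun x : CV d e × (Fin 2 → ℂ) => φ (0, x.1.2 i)) ∈
      Poly (CV d e × (Fin 2 → ℂ)) := fun i =>
    lin_mem (φ.comp ((LinearMap.inr ℂ M5 M5).comp ((LinearMap.proj i).comp
      ((LinearMap.snd ℂ (Fin (d + 1) → M5) (Fin (e + 1) → M5)).comp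
        (LinearMap.fst ℂ (CV d e) (Fin 2 → ℂ))))))
  have e1 : (fun x : CV d e × (Fin 2 → ℂ) => φ (evp x.1 x.2)) = fun x =>
      (∑ i : Fin (d + 1), x.2 0 ^ (d - (i : ℕ)) * x.2 1 ^ (i : ℕ) * φ (x.1.1 i, 0))
      + ∑ i : Fin (e + 1), x.2 0 ^ (e - (i : ℕ)) * x.2 1 ^ (i : ℕ) * φ (0, x.1.2 i) := by
    funext x
    have h4 : evp x.1 x.2 = (LinearMap.inl ℂ M5 M5) (ev x.1.1 x.2)
        + (LinearMap.inr ℂ M5 M5) (ev x.1.2 x.2) := by
      change (ev x.1.1 x.2, ev x.1.2 x.2) = (ev x.1.1 x.2 + 0, 0 + ev x.1.2 x.2)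
      rw [add_zero, zero_add]
    rw [h4, map_add]
    unfold ev
    rw [map_sum, map_sum, map_sum, map_sum]
    congr 1
    · refine Finset.sum_congr rfl fun i _ => ?_
      rw [map_smul, map_smul, smul_eq_mul]
      rfl
    · refine Finset.sum_congr rfl fun i _ => ?_
      rw [map_smul, map_smul, smul_eq_mul]
      rfl
  rw [e1]
  exact add_mem' (sum_mem' _ fun i _ => mul_mem' (mul_mem' (pow_mem' h0 _) (pow_mem' h1 _)) (h2 i))
    (sum_mem' _ fun i _ => mul_mem' (mul_mem' (pow_mem' h0 _) (pow_mem' h1 _)) (h3 i))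

/-! ### The coordinates -/

theorem ent (i j : Fin 5) : (fun A : M5 => A i j) ∈ Poly M5 :=
  lin_mem ((LinearMap.proj j).comp (LinearMap.proj i : (Fin 5 → Fin 5 → ℂ) →ₗ[ℂ] (Fin 5 → ℂ)))

theorem D2_mem : D2 ∈ Poly M5 :=
  sub_mem' (mul_mem' (ent 0 0) (ent 1 1)) (mul_mem' (ent 0 1) (ent 1 0))

theorem m3_mem (i : Fin 5) : (fun A => m3 A i) ∈ Poly M5 := by
  have e : (fun A : M5 => m3 A i) = fun A => A 0 0 * A 1 1 * A i 2 - A 0 0 * A 1 2 * A i 1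
      - A 0 1 * A 1 0 * A i 2 + A 0 1 * A 1 2 * A i 0 + A 0 2 * A 1 0 * A i 1
      - A 0 2 * A 1 1 * A i 0 := by
    funext A
    unfold m3
    rw [Matrix.det_fin_three]
    simp
  rw [e]
  have m : ∀ a b c a' b' c' : Fin 5, (fun A : M5 => A a a' * A b b' * A c c') ∈ Poly M5 :=
    fun a b c a' b' c' => mul_mem' (mul_mem' (ent a a') (ent b b')) (ent c c')
  exact sub_mem' (add_mem' (add_mem' (sub_mem' (sub_mem' (m _ _ _ _ _ _) (m _ _ _ _ _ _))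
    (m _ _ _ _ _ _)) (m _ _ _ _ _ _)) (m _ _ _ _ _ _)) (m _ _ _ _ _ _)

theorem dn_mem : dn ∈ Poly M5 := mul_mem' (mul_mem' (ent 0 0) D2_mem) (m3_mem 2)

theorem dn_ne {A : M5} (h : dn A ≠ 0) : A 0 0 ≠ 0 ∧ D2 A ≠ 0 ∧ m3 A 2 ≠ 0 := by
  unfold dn at h
  exact ⟨left_ne_zero_of_mul (left_ne_zero_of_mul h), right_ne_zero_of_mul (left_ne_zero_of_mul h),
    right_ne_zero_of_mul h⟩

theorem inv1 : (fun A : M5 => (A 0 0)⁻¹) ∈ Loc dn dn_mem := by
  refine ⟨1, fun A => D2 A * m3 A 2, mul_mem' D2_mem (m3_mem 2), fun A hA => ?_⟩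
  have h := (dn_ne hA).1
  change D2 A * m3 A 2 = (A 0 0)⁻¹ * dn A ^ 1
  unfold dn
  field_simp

theorem inv2 : (fun A : M5 => (D2 A)⁻¹) ∈ Loc dn dn_mem := by
  refine ⟨1, fun A => A 0 0 * m3 A 2, mul_mem' (ent 0 0) (m3_mem 2), fun A hA => ?_⟩
  have h := (dn_ne hA).2.1
  change A 0 0 * m3 A 2 = (D2 A)⁻¹ * dn A ^ 1
  unfold dn
  field_simp

theorem inv3 : (fun A : M5 => (m3 A 2)⁻¹) ∈ Loc dn dn_mem := by
  refine ⟨1, fun A => A 0 0 * D2 A, mul_mem' (ent 0 0) D2_mem, fun A hA => ?_⟩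
  have h := (dn_ne hA).2.2
  change A 0 0 * D2 A = (m3 A 2)⁻¹ * dn A ^ 1
  unfold dn
  field_simp

theorem nu_mem (i : Fin 11) : (fun A : M5 => nu A i) ∈ Loc dn dn_mem := by
  have a1 : ∀ j : Fin 5, (fun A : M5 => A j 0 / A 0 0) ∈ Loc dn dn_mem := fun j => by
    simp only [div_eq_mul_inv]
    exact loc_mul (poly_le_loc (ent j 0)) inv1
  have a2 : ∀ j : Fin 5, (fun A : M5 => (A 0 0 * A j 1 - A 0 1 * A j 0) / D2 A) ∈
      Loc dn dn_mem := fun j => by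
    simp only [div_eq_mul_inv]
    exact loc_mul (poly_le_loc (sub_mem' (mul_mem' (ent 0 0) (ent j 1))
      (mul_mem' (ent 0 1) (ent j 0)))) inv2
  have a3 : ∀ j : Fin 5, (fun A : M5 => m3 A j / m3 A 2) ∈ Loc dn dn_mem := fun j => by
    simp only [div_eq_mul_inv]
    exact loc_mul (poly_le_loc (m3_mem j)) inv3
  have a4 : (fun A : M5 => D2 A / A 0 0 ^ 2) ∈ Loc dn dn_mem := by
    have e : (fun A : M5 => D2 A / A 0 0 ^ 2) = fun A => D2 A * (A 0 0)⁻¹ * (A 0 0)⁻¹ := by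
      funext A
      rw [div_eq_mul_inv, sq, mul_inv]
      ring
    rw [e]
    exact loc_mul (loc_mul (poly_le_loc D2_mem) inv1) inv1
  have a5 : (fun A : M5 => m3 A 2 / (D2 A * A 0 0)) ∈ Loc dn dn_mem := by
    have e : (fun A : M5 => m3 A 2 / (D2 A * A 0 0)) = fun A => m3 A 2 * (D2 A)⁻¹ * (A 0 0)⁻¹ := by
      funext A
      rw [div_eq_mul_inv, mul_inv]
      ring
    rw [e]
    exact loc_mul (loc_mul (poly_le_loc (m3_mem 2)) inv2) inv1
  fin_cases i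
  · exact a1 1
  · exact a1 2
  · exact a1 3
  · exact a1 4
  · exact a2 2
  · exact a2 3
  · exact a2 4
  · exact a3 3
  · exact a3 4
  · exact a4
  · exact a5

/-- a polynomial in the coordinates -/
def ea (α : MvPolynomial (Fin 11) ℂ) (A : M5) : ℂ := MvPolynomial.eval (nu A) α

theorem ea_mem (α : MvPolynomial (Fin 11) ℂ) : ea α ∈ Loc dn dn_mem := by
  induction α using MvPolynomial.induction_on with
  | C a =>
    have e : ea (MvPolynomial.C a) = fun _ => a := by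
      funext A
      exact MvPolynomial.eval_C a
    rw [e]
    exact poly_le_loc (const_mem a)
  | add p q hp hq =>
    have e : ea (p + q) = ea p + ea q := by
      funext A
      exact map_add _ _ _
    rw [e]
    exact (Loc dn dn_mem).add_mem hp hq
  | mul_X p i hp =>
    have e : ea (p * MvPolynomial.X i) = ea p * fun A => nu A i := by
      funext A
      change MvPolynomial.eval (nu A) _ = MvPolynomial.eval (nu A) p * nu A i
      rw [map_mul, MvPolynomial.eval_X]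
    rw [e]
    exact (Loc dn dn_mem).mul_mem hp (nu_mem i)

/-! ### Scalars -/

theorem D2_smul (lam : ℂ) (A : M5) : D2 (lam • A) = lam ^ 2 * D2 A := by
  unfold D2
  simp only [Matrix.smul_apply, smul_eq_mul]
  ring

theorem m3_smul (lam : ℂ) (A : M5) (i : Fin 5) : m3 (lam • A) i = lam ^ 3 * m3 A i := by
  unfold m3
  rw [Matrix.det_fin_three, Matrix.det_fin_three]
  simp
  ring

theorem dn_smul (lam : ℂ) (A : M5) : dn (lam • A) = lam ^ 6 * dn A := by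
  unfold dn
  rw [D2_smul, m3_smul]
  simp only [Matrix.smul_apply, smul_eq_mul]
  ring

theorem nu_smul {lam : ℂ} (h : lam ≠ 0) (A : M5) : nu (lam • A) = nu A := by
  unfold nu
  have a1 : ∀ j : Fin 5, (lam • A) j 0 / (lam • A) 0 0 = A j 0 / A 0 0 := fun j => by
    simp only [Matrix.smul_apply, smul_eq_mul]
    exact mul_div_mul_left _ _ h
  have a2 : ∀ j : Fin 5, ((lam • A) 0 0 * (lam • A) j 1 - (lam • A) 0 1 * (lam • A) j 0)
      / D2 (lam • A) = (A 0 0 * A j 1 - A 0 1 * A j 0) / D2 A := fun j => by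
    rw [D2_smul]
    simp only [Matrix.smul_apply, smul_eq_mul]
    rw [← mul_div_mul_left _ (D2 A) (pow_ne_zero 2 h)]
    ring
  have a3 : ∀ j : Fin 5, m3 (lam • A) j / m3 (lam • A) 2 = m3 A j / m3 A 2 := fun j => by
    rw [m3_smul, m3_smul, mul_div_mul_left _ _ (pow_ne_zero 3 h)]
  have a4 : D2 (lam • A) / (lam • A) 0 0 ^ 2 = D2 A / A 0 0 ^ 2 := by
    rw [D2_smul]
    simp only [Matrix.smul_apply, smul_eq_mul]
    rw [mul_pow, mul_div_mul_left _ _ (pow_ne_zero 2 h)]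
  have a5 : m3 (lam • A) 2 / (D2 (lam • A) * (lam • A) 0 0) = m3 A 2 / (D2 A * A 0 0) := by
    rw [D2_smul, m3_smul]
    simp only [Matrix.smul_apply, smul_eq_mul]
    have e : lam ^ 2 * D2 A * (lam * A 0 0) = lam ^ 3 * (D2 A * A 0 0) := by ring
    rw [e, mul_div_mul_left _ _ (pow_ne_zero 3 h)]
  rw [a1, a1, a1, a1, a2, a2, a2, a3, a3, a4, a5]

theorem same_dn {x y : M5 × M5} (h : Same x y) : dn y.2 ≠ 0 ↔ dn x.2 ≠ 0 := by
  obtain ⟨μ, lam, hμ, hl, rfl⟩ := h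
  change dn (lam • x.2) ≠ 0 ↔ _
  rw [dn_smul, mul_ne_zero_iff]
  exact ⟨fun h => h.2, fun h => ⟨pow_ne_zero _ hl, h⟩⟩

theorem same_nu {x y : M5 × M5} (h : Same x y) : nu y.2 = nu x.2 := by
  obtain ⟨μ, lam, hμ, hl, rfl⟩ := h
  exact nu_smul hl _

theorem same_ea {x y : M5 × M5} (h : Same x y) (α : MvPolynomial (Fin 11) ℂ) :
    ea α y.2 = ea α x.2 := by
  unfold ea
  rw [same_nu h]

theorem same_refl (x : M5 × M5) : Same x x := by
  refine ⟨1, 1, one_ne_zero, one_ne_zero, ?_⟩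
  unfold scal
  rw [one_smul, one_smul]

theorem dn_zero : dn (0 : M5) = 0 := by
  unfold dn
  simp

theorem ne_zero_of_dn {A : M5} (h : dn A ≠ 0) : A ≠ 0 := by
  rintro rfl
  exact h dn_zero

/-- a nonzero polynomial in the coordinates does not vanish identically on `X` -/
theorem exists_pt (hLD : StLD) {α : MvPolynomial (Fin 11) ℂ} (hα : α ≠ 0) :
    ∃ x ∈ Cone, dn x.2 ≠ 0 ∧ ea α x.2 ≠ 0 := by
  have h1 : α * MvPolynomial.X 9 * MvPolynomial.X 10 ≠ 0 :=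
    mul_ne_zero (mul_ne_zero hα (MvPolynomial.X_ne_zero 9)) (MvPolynomial.X_ne_zero 10)
  have h2 : ∃ τ : Fin 11 → ℂ, MvPolynomial.eval τ (α * MvPolynomial.X 9 * MvPolynomial.X 10) ≠ 0 := by
    by_contra h
    push Not at h
    apply h1
    apply MvPolynomial.funext
    intro τ
    rw [h τ, map_zero]
  obtain ⟨τ, hτ⟩ := h2
  rw [map_mul, map_mul, MvPolynomial.eval_X, MvPolynomial.eval_X] at hτ
  have h3 := left_ne_zero_of_mul (left_ne_zero_of_mul hτ)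
  have h9 := right_ne_zero_of_mul (left_ne_zero_of_mul hτ)
  have h10 := right_ne_zero_of_mul hτ
  obtain ⟨h4, h5⟩ := hLD.2.1 τ (pt τ) h9 h10 (same_refl _)
  refine ⟨pt τ, hLD.1 τ, h4, ?_⟩
  unfold ea
  rw [h5]
  exact h3

/-! ### The family -/

section main
variable {d e : ℕ} {M : Set (Mor d e)} {N : ℕ} {Y : PVar N}
  {f : (Fin (N + 1) → ℂ) → M5 × M5} {h : CV d e × (Fin 2 → ℂ) → (Fin (N + 1) → ℂ)}
  {g : CV d e × (Fin 2 → ℂ) → ℂ}

/-- the data -/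
structure Dat (M : Set (Mor d e)) (Y : PVar N) (f : (Fin (N + 1) → ℂ) → M5 × M5)
    (h : CV d e × (Fin 2 → ℂ) → (Fin (N + 1) → ℂ)) (g : CV d e × (Fin 2 → ℂ) → ℂ) : Prop where
  za : StZA
  ld : StLD
  gf : StGF
  irr : Irr (fam M)
  dom : ∀ g ∈ Poly (M5 × M5), (∀ y ∈ fam M, g (evp y.1 y.2) = 0) → ∀ x ∈ Cone, g x = 0
  mor : IsMorph Y f
  fin : GenFinite Y f
  hh : PolyMap h
  hg : g ∈ Poly (CV d e × (Fin 2 → ℂ))
  hg0 : ∃ x ∈ fam M, g x ≠ 0
  fac : ∀ x ∈ fam M, g x ≠ 0 → h x ∈ Y.pts ∧ Same (f (h x)) (evp x.1 x.2)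

variable (D : Dat M Y f h g)
include D

theorem pull {φ : M5 × M5 → ℂ} (hφ : φ ∈ Poly (M5 × M5)) :
    (fun x : CV d e × (Fin 2 → ℂ) => φ (evp x.1 x.2)) ∈ Poly (CV d e × (Fin 2 → ℂ)) :=
  D.za.2.1 _ _ _ (polyMap_evp d e) φ hφ

theorem pull2 {φ : M5 → ℂ} (hφ : φ ∈ Poly M5) :
    (fun x : CV d e × (Fin 2 → ℂ) => φ (ev x.1.2 x.2)) ∈ Poly (CV d e × (Fin 2 → ℂ)) :=
  pull D (φ := fun x => φ x.2) (D.za.2.1 _ _ _ polyMap_snd φ hφ)

/-- the thin map is dominant -/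
theorem dominant : Dominant Y f := by
  intro φ hφ h1
  apply D.dom φ hφ
  by_contra h2
  push Not at h2
  obtain ⟨x, hx, h3, h4⟩ := D.irr.2 _ (pull D hφ) g D.hg h2 D.hg0
  apply h3
  obtain ⟨h5, h6⟩ := D.fac x hx h4
  exact h1 _ h5 _ h6

/-- a nonzero polynomial in the coordinates does not vanish identically on the family -/
theorem exists_fam {α : MvPolynomial (Fin 11) ℂ} (hα : α ≠ 0) {φ : CV d e × (Fin 2 → ℂ) → ℂ}
    (hφ : φ ∈ Poly (CV d e × (Fin 2 → ℂ))) (h0 : ∃ x ∈ fam M, φ x ≠ 0) :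
    ∃ x ∈ fam M, φ x ≠ 0 ∧ dn (ev x.1.2 x.2) ≠ 0 ∧ ea α (ev x.1.2 x.2) ≠ 0 := by
  obtain ⟨ψ, hψ, h1⟩ := loc_nz (ea_mem α)
  have h2 : ∃ x ∈ fam M, ψ (ev x.1.2 x.2) ≠ 0 := by
    by_contra h3
    push Not at h3
    obtain ⟨x, hx, h4, h5⟩ := exists_pt D.ld hα
    have h6 := D.dom (fun x => ψ x.2) (D.za.2.1 _ _ _ polyMap_snd ψ hψ) h3 x hx
    exact (h1 x.2).2 ⟨h5, h4⟩ h6
  obtain ⟨x, hx, h3, h4⟩ := D.irr.2 _ hφ _ (pull2 D hψ) h0 h2
  obtain ⟨h5, h6⟩ := (h1 _).1 h4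
  exact ⟨x, hx, h3, h6, h5⟩

/-- the relation of a polynomial map and of its restriction to the graph -/
theorem polyMap_F2 {F : (Fin (N + 1) → ℂ) → M5 × M5} (hF : PolyMap F) :
    PolyMap (fun y => (F y).2) := by
  intro φ
  exact hF (φ.comp (LinearMap.snd ℂ M5 M5))

/-- injectivity of the pull back of functions -/
theorem inj {P P' : (Fin (N + 1) → ℂ) → ℂ} (hP : P ∈ Poly (Fin (N + 1) → ℂ))
    (hP' : P' ∈ Poly (Fin (N + 1) → ℂ))
    (hinv : ∀ y ∈ Y.pts, ∀ lam : ℂ, lam ≠ 0 → P (lam • y) * P' y = P y * P' (lam • y))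
    (h1 : ∃ x ∈ fam M, g x ≠ 0 ∧ P' (h x) ≠ 0)
    (h2 : ∀ x ∈ fam M, g x ≠ 0 → P (h x) = 0) : ∀ y ∈ Y.pts, P y = 0 := by
  by_contra hc
  push Not at hc
  have hY' : ∃ y ∈ Y.pts, P' y ≠ 0 := by
    obtain ⟨x, hx, h3, h4⟩ := h1
    exact ⟨h x, (D.fac x hx h3).1, h4⟩
  obtain ⟨n, α, hn, hrel⟩ := D.gf N Y f D.mor D.fin (dominant D) P hP P' hP' hY' hinv
  classical
  have hex : ∃ i, α i ≠ 0 := ⟨n, hn⟩
  set i0 := Nat.find hex with hi0
  have hα0 : α i0 ≠ 0 := Nat.find_spec hex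
  have hlt : ∀ i < i0, α i = 0 := fun i hi => by
    by_contra h3
    exact Nat.find_min hex hi h3
  obtain ⟨n', rfl⟩ : ∃ n', n = i0 + n' := by
    have h3 : i0 ≤ n := Nat.find_min' hex hn
    exact ⟨n - i0, by omega⟩
  -- a good point of the family
  obtain ⟨x, hx, h3, h4, h5⟩ := exists_fam D hα0 (φ := fun x => g x * P' (h x))
    (mul_mem' D.hg (D.za.2.1 _ _ _ D.hh P' hP'))
    (by
      obtain ⟨x, hx, h3, h4⟩ := h1
      exact ⟨x, hx, mul_ne_zero h3 h4⟩)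
  have hgx := left_ne_zero_of_mul h3
  have hPx := right_ne_zero_of_mul h3
  obtain ⟨hy1, hs1⟩ := D.fac x hx hgx
  obtain ⟨F, hF, hF1, hF2, hF3⟩ := D.mor.2.2 (h x) hy1
  have hsF := hF3 (h x) hy1 hF1 hF2
  obtain ⟨a, b, hab⟩ : ∃ a b, (F (h x)).1 a b ≠ 0 := by
    by_contra h6
    push Not at h6
    apply hF1
    ext a b
    exact h6 a b
  have hdnF : dn (F (h x)).2 ≠ 0 := (same_dn hsF).2 ((same_dn hs1).1 h4)
  have heaF : ea (α i0) (F (h x)).2 ≠ 0 := by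
    rw [same_ea hsF, ← same_ea hs1]
    exact h5
  have hF2' := polyMap_F2 D hF
  have hδ : (fun y => dn (F y).2) ∈ Poly (Fin (N + 1) → ℂ) := D.za.2.1 _ _ _ hF2' dn dn_mem
  have hΦ : (fun y => ∑ i ∈ Finset.range (n' + 1),
      ea (α (i0 + i)) (F y).2 * P y ^ i * P' y ^ (n' - i)) ∈ Loc (fun y => dn (F y).2) hδ := by
    refine loc_sum _ fun i _ => ?_
    refine loc_mul (loc_mul ?_ (poly_le_loc (pow_mem' hP i))) (poly_le_loc (pow_mem' hP' _))
    exact loc_comp D.za hF2' (ea_mem _) hδ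
  obtain ⟨ψ, hψ, h7⟩ := loc_nz hΦ
  have h8 : ψ (h x) ≠ 0 := by
    apply (h7 _).2
    refine ⟨?_, hdnF⟩
    change (∑ i ∈ Finset.range (n' + 1), ea (α (i0 + i)) (F (h x)).2 * P (h x) ^ i
      * P' (h x) ^ (n' - i)) ≠ 0
    rw [Finset.sum_range_succ', h2 x hx hgx]
    have h9 : ∑ i ∈ Finset.range n', ea (α (i0 + (i + 1))) (F (h x)).2 * (0 : ℂ) ^ (i + 1)
        * P' (h x) ^ (n' - (i + 1)) = 0 := by
      refine Finset.sum_eq_zero fun i _ => ?_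
      rw [pow_succ, mul_zero, mul_zero, zero_mul]
    rw [h9, zero_add, pow_zero, mul_one, add_zero]
    exact mul_ne_zero heaF (pow_ne_zero _ hPx)
  obtain ⟨y, hy, h9, h10⟩ := Y.irr.2 (fun y => ψ y * (F y).1 a b)
    (mul_mem' hψ (entry_mem hF a b)) P hP ⟨h x, hy1, mul_ne_zero h8 hab⟩ hc
  have h11 := left_ne_zero_of_mul h9
  have h12 := right_ne_zero_of_mul h9
  obtain ⟨h13, h14⟩ := (h7 y).1 h11
  have hy1' : (F y).1 ≠ 0 := by
    intro h15
    apply h12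
    rw [h15]
    rfl
  have hsy := hF3 y hy hy1' (ne_zero_of_dn h14)
  have hr := hrel y hy ((same_dn hsy).1 h14)
  apply h13
  have h15 : ∑ i ∈ Finset.range (i0 + n' + 1),
      MvPolynomial.eval (nu (f y).2) (α i) * P y ^ i * P' y ^ (i0 + n' - i)
      = P y ^ i0 * ∑ i ∈ Finset.range (n' + 1),
        ea (α (i0 + i)) (F y).2 * P y ^ i * P' y ^ (n' - i) := by
    rw [add_assoc, Finset.sum_range_add]
    have h16 : ∑ i ∈ Finset.range i0,
        MvPolynomial.eval (nu (f y).2) (α i) * P y ^ i * P' y ^ (i0 + n' - i) = 0 := by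
      refine Finset.sum_eq_zero fun i hi => ?_
      rw [hlt i (Finset.mem_range.1 hi), map_zero, zero_mul, zero_mul]
    rw [h16, zero_add, Finset.mul_sum]
    refine Finset.sum_congr rfl fun i _ => ?_
    have h17 : i0 + n' - (i0 + i) = n' - i := by omega
    rw [h17, pow_add, same_ea hsy]
    unfold ea
    ring
  rw [h15] at hr
  exact (mul_eq_zero.1 hr).resolve_left (pow_ne_zero _ h10)

/-- the coordinates of `h` are rational functions on `X` -/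
theorem rational (hKE : ∀ p ∈ Poly (CV d e × (Fin 2 → ℂ)), ∀ q ∈ Poly (CV d e × (Fin 2 → ℂ)),
    (∃ x ∈ fam M, q x ≠ 0) → ∀ (n : ℕ) (α : ℕ → MvPolynomial (Fin 11) ℂ), α n ≠ 0 →
    (∀ x ∈ fam M, dn (ev x.1.2 x.2) ≠ 0 → ∑ i ∈ Finset.range (n + 1),
      MvPolynomial.eval (nu (ev x.1.2 x.2)) (α i) * p x ^ i * q x ^ (n - i) = 0) →
    ∃ R₁ R₂ : MvPolynomial (Fin 11) ℂ, R₂ ≠ 0 ∧ ∀ x ∈ fam M, dn (ev x.1.2 x.2) ≠ 0 →
      p x * MvPolynomial.eval (nu (ev x.1.2 x.2)) R₂ =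
        q x * MvPolynomial.eval (nu (ev x.1.2 x.2)) R₁) (j : Fin (N + 1))
    (hj : ∃ x ∈ fam M, g x ≠ 0 ∧ h x j ≠ 0) (i : Fin (N + 1)) :
    ∃ R₁ R₂ : MvPolynomial (Fin 11) ℂ, R₂ ≠ 0 ∧ ∀ x ∈ fam M, dn (ev x.1.2 x.2) ≠ 0 →
      h x i * ea R₂ (ev x.1.2 x.2) = h x j * ea R₁ (ev x.1.2 x.2) := by
  obtain ⟨x0, hx0, hg0, hj0⟩ := hj
  have hpi : ∀ k : Fin (N + 1), (fun y : Fin (N + 1) → ℂ => y k) ∈ Poly (Fin (N + 1) → ℂ) :=
    fun k => lin_mem (LinearMap.proj k : (Fin (N + 1) → ℂ) →ₗ[ℂ] ℂ)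
  obtain ⟨n, α, hn, hrel⟩ := D.gf N Y f D.mor D.fin (dominant D) (fun y => y i) (hpi i)
    (fun y => y j) (hpi j) ⟨h x0, (D.fac x0 hx0 hg0).1, hj0⟩ (by
      intro y _ lam _
      change lam * y i * y j = y i * (lam * y j)
      ring)
  refine hKE (fun x => h x i) (coord_mem D.hh i) (fun x => h x j) (coord_mem D.hh j)
    ⟨x0, hx0, hj0⟩ n α hn ?_
  intro x hx hdx
  by_contra hne
  have hδ := pull2 D dn_mem
  have hev : PolyMap (fun x : CV d e × (Fin 2 → ℂ) => ev x.1.2 x.2) := by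
    intro φ
    exact polyMap_evp d e (φ.comp (LinearMap.snd ℂ M5 M5))
  have hΦ : (fun x : CV d e × (Fin 2 → ℂ) => ∑ k ∈ Finset.range (n + 1),
      ea (α k) (ev x.1.2 x.2) * h x i ^ k * h x j ^ (n - k)) ∈
      Loc (fun x : CV d e × (Fin 2 → ℂ) => dn (ev x.1.2 x.2)) hδ := by
    refine loc_sum _ fun k _ => ?_
    refine loc_mul (loc_mul ?_ (poly_le_loc (pow_mem' (coord_mem D.hh i) k)))
      (poly_le_loc (pow_mem' (coord_mem D.hh j) _))
    exact loc_comp D.za hev (ea_mem _) hδ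
  obtain ⟨ψ, hψ, h7⟩ := loc_nz hΦ
  obtain ⟨x2, hx2, h8, h9⟩ := D.irr.2 ψ hψ g D.hg ⟨x, hx, (h7 x).2 ⟨hne, hdx⟩⟩ D.hg0
  obtain ⟨h10, h11⟩ := (h7 x2).1 h8
  obtain ⟨h12, h13⟩ := D.fac x2 hx2 h9
  apply h10
  have h14 := hrel (h x2) h12 ((same_dn h13).1 h11)
  rw [← h14]
  refine Finset.sum_congr rfl fun k _ => ?_
  change ea (α k) (evp x2.1 x2.2).2 * _ * _ = _
  rw [same_ea h13]
  rfl

/-- the map has a rational inverse -/
theorem birational (hKE : ∀ p ∈ Poly (CV d e × (Fin 2 → ℂ)), ∀ q ∈ Poly (CV d e × (Fin 2 → ℂ)),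
    (∃ x ∈ fam M, q x ≠ 0) → ∀ (n : ℕ) (α : ℕ → MvPolynomial (Fin 11) ℂ), α n ≠ 0 →
    (∀ x ∈ fam M, dn (ev x.1.2 x.2) ≠ 0 → ∑ i ∈ Finset.range (n + 1),
      MvPolynomial.eval (nu (ev x.1.2 x.2)) (α i) * p x ^ i * q x ^ (n - i) = 0) →
    ∃ R₁ R₂ : MvPolynomial (Fin 11) ℂ, R₂ ≠ 0 ∧ ∀ x ∈ fam M, dn (ev x.1.2 x.2) ≠ 0 →
      p x * MvPolynomial.eval (nu (ev x.1.2 x.2)) R₂ =
        q x * MvPolynomial.eval (nu (ev x.1.2 x.2)) R₁) : Birational Y f := by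
  refine ⟨dominant D, ?_⟩
  obtain ⟨x0, hx0, hgx0⟩ := D.hg0
  obtain ⟨j, hj⟩ : ∃ j, h x0 j ≠ 0 := by
    by_contra h1
    push Not at h1
    apply Y.zero_notMem
    have h2 : h x0 = 0 := by
      funext j
      exact h1 j
    rw [← h2]
    exact (D.fac x0 hx0 hgx0).1
  choose R₁ R₂ hR₂ hR using rational D hKE j ⟨x0, hx0, hgx0, hj⟩
  choose K a b ha hb hab using fun i => loc_pair (ea_mem (R₁ i)) (ea_mem (R₂ i))
  have hprod : (∏ i, R₂ i) ≠ 0 := Finset.prod_ne_zero_iff.2 fun i _ => hR₂ i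
  obtain ⟨x, hx, h3, h4, h5⟩ := exists_fam D hprod (φ := fun x => g x * h x j)
    (mul_mem' D.hg (coord_mem D.hh j)) ⟨x0, hx0, mul_ne_zero hgx0 hj⟩
  have hgx := left_ne_zero_of_mul h3
  have hjx := right_ne_zero_of_mul h3
  obtain ⟨hy1, hs1⟩ := D.fac x hx hgx
  obtain ⟨F, hF, hF1, hF2, hF3⟩ := D.mor.2.2 (h x) hy1
  have hsF := hF3 (h x) hy1 hF1 hF2
  obtain ⟨k, l, hkl⟩ : ∃ k l, (F (h x)).1 k l ≠ 0 := by
    by_contra h6
    push Not at h6
    apply hF1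
    ext k l
    exact h6 k l
  have hdnF : dn (F (h x)).2 ≠ 0 := (same_dn hsF).2 ((same_dn hs1).1 h4)
  have hR2x : ∀ i, ea (R₂ i) (ev x.1.2 x.2) ≠ 0 := by
    intro i
    unfold ea at h5 ⊢
    rw [map_prod] at h5
    exact Finset.prod_ne_zero_iff.1 h5 i (Finset.mem_univ i)
  have hbx : ∀ i, b i (F (h x)).2 ≠ 0 := by
    intro i
    rw [(hab i _ hdnF).2]
    refine mul_ne_zero ?_ (pow_ne_zero _ hdnF)
    rw [same_ea hsF, ← same_ea hs1]
    exact hR2x i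
  have hF2' := polyMap_F2 D hF
  have hδ : (fun y => dn (F y).2) ∈ Poly (Fin (N + 1) → ℂ) := D.za.2.1 _ _ _ hF2' dn dn_mem
  have haF : ∀ i, (fun y => a i (F y).2) ∈ Poly (Fin (N + 1) → ℂ) := fun i =>
    D.za.2.1 _ _ _ hF2' _ (ha i)
  have hbF : ∀ i, (fun y => b i (F y).2) ∈ Poly (Fin (N + 1) → ℂ) := fun i =>
    D.za.2.1 _ _ _ hF2' _ (hb i)
  have hpi : ∀ k : Fin (N + 1), (fun y : Fin (N + 1) → ℂ => y k) ∈ Poly (Fin (N + 1) → ℂ) :=
    fun k => lin_mem (LinearMap.proj k : (Fin (N + 1) → ℂ) →ₗ[ℂ] ℂ)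
  have hen := entry_mem hF k l
  -- good points
  have good : ∀ y ∈ Y.pts, dn (F y).2 * (F y).1 k l ≠ 0 → Same (f y) (F y) := by
    intro y hy h6
    refine hF3 y hy ?_ (ne_zero_of_dn (left_ne_zero_of_mul h6))
    intro h7
    apply right_ne_zero_of_mul h6
    rw [h7]
    rfl
  have key : ∀ i, ∀ y ∈ Y.pts,
      (y i * b i (F y).2 - y j * a i (F y).2) * (dn (F y).2 * (F y).1 k l) = 0 := by
    intro i
    refine inj D (P := fun y => (y i * b i (F y).2 - y j * a i (F y).2) * (dn (F y).2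
      * (F y).1 k l)) (P' := fun y => y j * b i (F y).2 * (dn (F y).2 * (F y).1 k l))
      (mul_mem' (sub_mem' (mul_mem' (hpi i) (hbF i)) (mul_mem' (hpi j) (haF i)))
        (mul_mem' hδ hen))
      (mul_mem' (mul_mem' (hpi j) (hbF i)) (mul_mem' hδ hen)) ?_ ?_ ?_
    · intro y hy lam hlam
      change ((lam * y i) * b i (F (lam • y)).2 - (lam * y j) * a i (F (lam • y)).2)
        * (dn (F (lam • y)).2 * (F (lam • y)).1 k l) * (y j * b i (F y).2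
        * (dn (F y).2 * (F y).1 k l))
        = (y i * b i (F y).2 - y j * a i (F y).2) * (dn (F y).2 * (F y).1 k l)
        * ((lam * y j) * b i (F (lam • y)).2 * (dn (F (lam • y)).2 * (F (lam • y)).1 k l))
      by_cases h6 : dn (F y).2 * (F y).1 k l = 0
      · rw [h6]
        ring
      by_cases h7 : dn (F (lam • y)).2 * (F (lam • y)).1 k l = 0
      · rw [h7]
        ring
      have hy' := Y.smul_mem y hy lam hlam
      have s1 := good y hy h6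
      have s2 := good _ hy' h7
      have s3 := D.mor.2.1 y hy lam hlam
      have d1 := left_ne_zero_of_mul h6
      have d2 := left_ne_zero_of_mul h7
      have n1 : ∀ α, ea α (F (lam • y)).2 = ea α (F y).2 := by
        intro α
        rw [same_ea s2, same_ea s1, same_ea s3]
      have h8 : a i (F (lam • y)).2 * b i (F y).2 = a i (F y).2 * b i (F (lam • y)).2 := by
        rw [(hab i _ d1).1, (hab i _ d1).2, (hab i _ d2).1, (hab i _ d2).2, n1, n1]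
        ring
      linear_combination (-(lam * y j * y j * (dn (F (lam • y)).2 * (F (lam • y)).1 k l)
        * (dn (F y).2 * (F y).1 k l))) * h8
    · exact ⟨x, hx, hgx, mul_ne_zero (mul_ne_zero hjx (hbx i)) (mul_ne_zero hdnF hkl)⟩
    · intro x' hx' hg'
      change (h x' i * b i (F (h x')).2 - h x' j * a i (F (h x')).2)
        * (dn (F (h x')).2 * (F (h x')).1 k l) = 0
      by_cases h6 : dn (F (h x')).2 * (F (h x')).1 k l = 0
      · rw [h6, mul_zero]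
      obtain ⟨hy', hs'⟩ := D.fac x' hx' hg'
      have s1 := good _ hy' h6
      have d1 := left_ne_zero_of_mul h6
      have d2 : dn (ev x'.1.2 x'.2) ≠ 0 := (same_dn hs').2 ((same_dn s1).1 d1)
      have h7 := hR i x' hx' d2
      have n1 : ∀ α, ea α (F (h x')).2 = ea α (ev x'.1.2 x'.2) := by
        intro α
        rw [same_ea s1, ← same_ea hs']
        rfl
      rw [(hab i _ d1).1, (hab i _ d1).2, n1, n1]
      have h8 : h x' i * (ea (R₂ i) (ev x'.1.2 x'.2) * dn (F (h x')).2 ^ K i)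
          - h x' j * (ea (R₁ i) (ev x'.1.2 x'.2) * dn (F (h x')).2 ^ K i)
          = (h x' i * ea (R₂ i) (ev x'.1.2 x'.2) - h x' j * ea (R₁ i) (ev x'.1.2 x'.2))
            * dn (F (h x')).2 ^ K i := by ring
      rw [h8, h7, sub_self, zero_mul, zero_mul]
  -- the inverse
  have hsnd : ∀ φ ∈ Poly M5, (fun x : M5 × M5 => φ x.2) ∈ Poly (M5 × M5) := fun φ hφ =>
    D.za.2.1 _ _ _ polyMap_snd φ hφ
  refine ⟨fun x i => a i x.2 * ∏ k ∈ Finset.univ.erase i, b k x.2, ?_, ?_⟩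
  · apply polyMap_pi
    intro i
    exact mul_mem' (hsnd _ (ha i)) (prod_mem' _ fun k _ => hsnd _ (hb k))
  refine ⟨fun y => y j * (dn (F y).2 * (F y).1 k l) * ∏ i, b i (F y).2,
    mul_mem' (mul_mem' (hpi j) (mul_mem' hδ hen)) (prod_mem' _ fun i _ => hbF i), ?_, ?_⟩
  · exact ⟨h x, hy1, mul_ne_zero (mul_ne_zero hjx (mul_ne_zero hdnF hkl))
      (Finset.prod_ne_zero_iff.2 fun i _ => hbx i)⟩
  · intro y hy h6 z hz
    have h7 := right_ne_zero_of_mul h6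
    have h8 := left_ne_zero_of_mul (left_ne_zero_of_mul h6)
    have h9 := right_ne_zero_of_mul (left_ne_zero_of_mul h6)
    have s1 := good y hy h9
    have d1 := left_ne_zero_of_mul h9
    have d2 : dn z.2 ≠ 0 := (same_dn hz).2 ((same_dn s1).1 d1)
    have n1 : ∀ α, ea α (F y).2 = ea α z.2 := by
      intro α
      rw [same_ea s1, same_ea hz]
    have hb0 : ∀ i, b i z.2 ≠ 0 := by
      intro i
      have h10 := Finset.prod_ne_zero_iff.1 h7 i (Finset.mem_univ i)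
      rw [(hab i _ d1).2, n1] at h10
      rw [(hab i _ d2).2]
      exact mul_ne_zero (left_ne_zero_of_mul h10) (pow_ne_zero _ d2)
    have h10 : ∀ i, y i * b i z.2 = y j * a i z.2 := by
      intro i
      have h11 := (mul_eq_zero.1 (key i y hy)).resolve_right h9
      rw [(hab i _ d1).1, (hab i _ d1).2, n1, n1] at h11
      have h12 : (y i * ea (R₂ i) z.2 - y j * ea (R₁ i) z.2) * dn (F y).2 ^ K i = 0 := by
        rw [← h11]
        ring
      have h13 := (mul_eq_zero.1 h12).resolve_right (pow_ne_zero _ d1)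
      rw [(hab i _ d2).1, (hab i _ d2).2]
      linear_combination (dn z.2 ^ K i) * h13
    refine ⟨(∏ i, b i z.2) / y j, div_ne_zero (Finset.prod_ne_zero_iff.2 fun i _ => hb0 i) h8, ?_⟩
    funext i
    change a i z.2 * ∏ k ∈ Finset.univ.erase i, b k z.2 = (∏ i, b i z.2) / y j * y i
    rw [← Finset.mul_prod_erase Finset.univ (fun k => b k z.2) (Finset.mem_univ i)]
    have h11 := h10 i
    field_simp
    linear_combination (-(∏ k ∈ Finset.univ.erase i, b k z.2)) * h11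

end main

end THAux

open THAux

/-- Module TH. -/
theorem stTH (hKE : StKE) (hGF : StGF) (hDO : StDO) (hLD : StLD) (_hIX : StIX) (hZA : StZA) :
    StTH := by
  intro d e M hM hc N Y f hf hfac
  obtain ⟨hI, hD⟩ := hDO d e M hM
  obtain ⟨-, hD2⟩ := hD hc
  obtain ⟨hmor, hfin, hbir⟩ := hf
  obtain ⟨h, hh, g, hg, hg0, hx⟩ := hfac
  have D : Dat M Y f h g := ⟨hZA, hLD, hGF, hI, hD2, hmor, hfin, hh, hg, hg0, hx⟩
  exact hbir (birational D (hKE d e M hM hc))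

end MC
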