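import Pool.Agent.Lib.MC.Stmts

set_option autoImplicit false

/-!
# Module TO: irreducible components of `Mor` and their cones
-/

noncomputable section

namespace MC

open Matrix Topology

namespace TOAux

/-! ### The Zariski topology has the principal open sets as a basis -/

section Zar

variable {V : Type} [AddCommGroup V] [Module ℂ V]

theorem isOpen_basic {f : V → ℂ} (hf : f ∈ Poly V) : IsOpen[zar V] {v | f v ≠ 0} :=
  TopologicalSpace.isOpen_generateFrom_of_mem ⟨f, hf, rfl⟩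

theorem exists_basic {U : Set V} (hU : IsOpen[zar V] U) :
    ∀ v ∈ U, ∃ f ∈ Poly V, f v ≠ 0 ∧ ∀ w, f w ≠ 0 → w ∈ U := by
  have hU' : TopologicalSpace.GenerateOpen {U | ∃ f ∈ Poly V, U = {v | f v ≠ 0}} U := hU
  induction hU' with
  | basic s hs =>
    intro v hv
    obtain ⟨f, hf, rfl⟩ := hs
    exact ⟨f, hf, hv, fun w hw => hw⟩
  | univ =>
    intro v _
    exact ⟨1, (Poly V).one_mem, by simp, fun w _ => Set.mem_univ w⟩
  | inter s t hs ht ihs iht =>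
    intro v hv
    obtain ⟨f, hf, hfv, hfs⟩ := ihs hs v hv.1
    obtain ⟨g, hg, hgv, hgt⟩ := iht ht v hv.2
    refine ⟨f * g, (Poly V).mul_mem hf hg, mul_ne_zero hfv hgv, fun w hw => ?_⟩
    have hw' : f w * g w ≠ 0 := hw
    exact ⟨hfs w (left_ne_zero_of_mul hw'), hgt w (right_ne_zero_of_mul hw')⟩
  | sUnion S hS ih =>
    intro v hv
    obtain ⟨s, hs, hvs⟩ := hv
    obtain ⟨f, hf, hfv, hfs⟩ := ih s hs (hS s hs) v hvs
    exact ⟨f, hf, hfv, fun w hw => ⟨s, hs, hfs w hw⟩⟩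

theorem polyMap_linear {W : Type} [AddCommGroup W] [Module ℂ W] (L : V →ₗ[ℂ] W) :
    PolyMap (fun v => L v) := fun φ => Algebra.subset_adjoin ⟨φ ∘ₗ L, rfl⟩

end Zar

/-! ### Scalars -/

variable {d e : ℕ}

/-- scalars as a linear map -/
def sc (μ lam : ℂ) : CV d e →ₗ[ℂ] CV d e :=
  LinearMap.prodMap (μ • LinearMap.id) (lam • LinearMap.id)

theorem sc_apply (μ lam : ℂ) (c : CV d e) : sc μ lam c = (μ • c.1, lam • c.2) := rfl

/-- the orbit map -/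
def orb (c : CV d e) : (ℂ × ℂ) →ₗ[ℂ] CV d e :=
  LinearMap.prodMap (LinearMap.toSpanSingleton ℂ _ c.1) (LinearMap.toSpanSingleton ℂ _ c.2)

theorem orb_apply (c : CV d e) (x : ℂ × ℂ) : orb c x = (x.1 • c.1, x.2 • c.2) := rfl

theorem ev_smul {n : ℕ} (μ : ℂ) (q : Fin (n + 1) → M5) (v : Fin 2 → ℂ) :
    ev (μ • q) v = μ • ev q v := by
  unfold ev
  rw [Finset.smul_sum]
  refine Finset.sum_congr rfl fun i _ => ?_
  rw [Pi.smul_apply, smul_comm]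

theorem scal_cone {μ lam : ℂ} (hμ : μ ≠ 0) (hl : lam ≠ 0) {x : M5 × M5} (hx : x ∈ Cone) :
    scal μ lam x ∈ Cone := by
  obtain ⟨h1, h2, h3, h4, h5, h6⟩ := hx
  refine ⟨?_, ?_, ?_, ?_, ?_, ?_⟩
  · show (μ • x.1)ᵀ = -(μ • x.1)
    rw [Matrix.transpose_smul, h1, smul_neg]
  · intro i j k l
    show (μ • x.1) i j * (μ • x.1) k l - (μ • x.1) i k * (μ • x.1) j l +
      (μ • x.1) i l * (μ • x.1) j k = 0
    simp only [Matrix.smul_apply, smul_eq_mul]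
    linear_combination μ ^ 2 * h2 i j k l
  · exact smul_ne_zero hμ h3
  · show (lam • x.2)ᵀ = lam • x.2
    rw [Matrix.transpose_smul, h4]
  · exact smul_ne_zero hl h5
  · show (lam • x.2) * (μ • x.1) = 0
    rw [Matrix.smul_mul, Matrix.mul_smul, h6, smul_zero, smul_zero]

theorem sc_mem {μ lam : ℂ} (hμ : μ ≠ 0) (hl : lam ≠ 0) {c : CV d e} (hc : c ∈ MorCone d e) :
    ((μ • c.1, lam • c.2) : CV d e) ∈ MorCone d e := by
  intro v hv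
  have : evp ((μ • c.1, lam • c.2) : CV d e) v = scal μ lam (evp c v) := by
    unfold evp scal
    rw [ev_smul, ev_smul]
  rw [this]
  exact scal_cone hμ hl (hc v hv)

/-! ### The quotient map -/

/-- the quotient map -/
def mkm (d e : ℕ) : MorCone d e → Mor d e := Quotient.mk (morSetoid d e)

/-- open sets of `Mor` -/
theorem exists_basic_mor {U : Set (Mor d e)} (hU : IsOpen U) {c : CV d e} (hc : c ∈ MorCone d e)
    (hcU : (Quotient.mk (morSetoid d e) ⟨c, hc⟩ : Mor d e) ∈ U) :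
    ∃ f ∈ Poly (CV d e), f c ≠ 0 ∧ ∀ (w : CV d e) (hw : w ∈ MorCone d e), f w ≠ 0 →
      (Quotient.mk (morSetoid d e) ⟨w, hw⟩ : Mor d e) ∈ U := by
  have h1 : IsOpen (mkm d e ⁻¹' U) := isOpen_coinduced.mp hU
  obtain ⟨W, hW, hWU⟩ := (@isOpen_induced_iff _ _ (zar (CV d e)) _ _).mp h1
  have hcW : c ∈ W := by
    have : (⟨c, hc⟩ : MorCone d e) ∈ (Subtype.val ⁻¹' W : Set (MorCone d e)) := by
      rw [hWU]
      exact hcU
    exact this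
  obtain ⟨f, hf, hfc, hfW⟩ := exists_basic hW c hcW
  refine ⟨f, hf, hfc, fun w hw hfw => ?_⟩
  have : (⟨w, hw⟩ : MorCone d e) ∈ (Subtype.val ⁻¹' W : Set (MorCone d e)) := hfW w hfw
  rw [hWU] at this
  exact this

/-- the image of a principal open set is open -/
theorem isOpen_image (hZA : StZA) {f : CV d e → ℂ} (hf : f ∈ Poly (CV d e)) :
    IsOpen {x : Mor d e | ∃ (c : CV d e) (h : c ∈ MorCone d e), f c ≠ 0 ∧
      x = Quotient.mk (morSetoid d e) ⟨c, h⟩} := by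
  refine isOpen_coinduced.mpr ?_
  have h : mkm d e ⁻¹' {x : Mor d e | ∃ (c : CV d e)
      (h : c ∈ MorCone d e), f c ≠ 0 ∧ x = Quotient.mk (morSetoid d e) ⟨c, h⟩} =
      ⋃ p : {p : ℂ × ℂ // p.1 ≠ 0 ∧ p.2 ≠ 0},
        (Subtype.val ⁻¹' {c : CV d e | f (sc p.1.1 p.1.2 c) ≠ 0} : Set (MorCone d e)) := by
    ext x
    simp only [Set.mem_preimage, Set.mem_ofPred_eq, Set.mem_iUnion]
    constructor
    · rintro ⟨c, h, hfc, hx⟩
      obtain ⟨μ, lam, hμ, hl, hc⟩ := Quotient.exact hx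
      refine ⟨⟨(μ, lam), hμ, hl⟩, ?_⟩
      rw [sc_apply]
      have hc' : c = (μ • (x : CV d e).1, lam • (x : CV d e).2) := hc
      rw [← hc']
      exact hfc
    · rintro ⟨⟨⟨μ, lam⟩, hμ, hl⟩, hfx⟩
      refine ⟨sc μ lam x, sc_mem hμ hl x.2, hfx, Quotient.sound ⟨μ, lam, hμ, hl, rfl⟩⟩
  refine (congrArg IsOpen h).mpr ?_
  refine isOpen_iUnion fun p => ?_
  refine (@isOpen_induced_iff _ _ (zar (CV d e)) _ _).mpr
    ⟨{c : CV d e | f (sc p.1.1 p.1.2 c) ≠ 0}, ?_, rfl⟩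
  exact isOpen_basic (hZA.2.1 (CV d e) (CV d e) _ (polyMap_linear (sc p.1.1 p.1.2)) f hf)

theorem irr_hat (hZA : StZA) {M : Set (Mor d e)} (hM : IsIrreducible M) : Irr (hat M) := by
  obtain ⟨hne, hirr⟩ := hM
  refine ⟨?_, ?_⟩
  · obtain ⟨x, hx⟩ := hne
    obtain ⟨⟨c, hc⟩, rfl⟩ := Quotient.exists_rep x
    exact ⟨c, hc, hx⟩
  · rintro f hf g hg ⟨c, ⟨hc, hcM⟩, hfc⟩ ⟨c', ⟨hc', hcM'⟩, hgc⟩
    obtain ⟨m, hmM, ⟨c1, hc1, hf1, hm1⟩, ⟨c2, hc2, hg2, hm2⟩⟩ :=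
      hirr _ _ (isOpen_image hZA hf) (isOpen_image hZA hg)
        ⟨_, hcM, c, hc, hfc, rfl⟩ ⟨_, hcM', c', hc', hgc, rfl⟩
    obtain ⟨μ, lam, hμ, hl, h12⟩ := Quotient.exact (hm1.symm.trans hm2)
    have h12' : c2 = (μ • c1.1, lam • c1.2) := h12
    have hF : (fun x : ℂ × ℂ => f (orb c1 x)) ∈ Poly (ℂ × ℂ) :=
      hZA.2.1 (ℂ × ℂ) (CV d e) _ (polyMap_linear (orb c1)) f hf
    have hG : (fun x : ℂ × ℂ => g (orb c1 x)) ∈ Poly (ℂ × ℂ) :=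
      hZA.2.1 (ℂ × ℂ) (CV d e) _ (polyMap_linear (orb c1)) g hg
    have hH1 : (fun x : ℂ × ℂ => x.1) ∈ Poly (ℂ × ℂ) :=
      Algebra.subset_adjoin ⟨LinearMap.fst ℂ ℂ ℂ, rfl⟩
    have hH2 : (fun x : ℂ × ℂ => x.2) ∈ Poly (ℂ × ℂ) :=
      Algebra.subset_adjoin ⟨LinearMap.snd ℂ ℂ ℂ, rfl⟩
    obtain ⟨u, hu1, hu2⟩ := hZA.1 (ℂ × ℂ) _ hF _ hG ((1, 1) : ℂ × ℂ) (μ, lam)
      (by
        show f (orb c1 (1, 1)) ≠ 0
        rw [orb_apply]
        simpa using hf1)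
      (by
        show g (orb c1 (μ, lam)) ≠ 0
        rw [orb_apply, ← h12']
        exact hg2)
    obtain ⟨u', hu1', hu2'⟩ := hZA.1 (ℂ × ℂ) _ ((Poly (ℂ × ℂ)).mul_mem hF hG) _
      ((Poly (ℂ × ℂ)).mul_mem hH1 hH2) u ((1, 1) : ℂ × ℂ)
      (by
        show f (orb c1 u) * g (orb c1 u) ≠ 0
        exact mul_ne_zero hu1 hu2)
      (by
        show (1 : ℂ) * 1 ≠ 0
        norm_num)
    have hfg : f (orb c1 u') * g (orb c1 u') ≠ 0 := hu1'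
    have hmul : u'.1 * u'.2 ≠ 0 := hu2'
    have h1 := left_ne_zero_of_mul hmul
    have h2 := right_ne_zero_of_mul hmul
    refine ⟨orb c1 u', ⟨sc_mem h1 h2 hc1, ?_⟩, left_ne_zero_of_mul hfg,
      right_ne_zero_of_mul hfg⟩
    have : (Quotient.mk (morSetoid d e) ⟨orb c1 u', sc_mem h1 h2 hc1⟩ : Mor d e) = m := by
      rw [hm1]
      exact (Quotient.sound ⟨u'.1, u'.2, h1, h2, rfl⟩ :
        Quotient.mk (morSetoid d e) ⟨c1, hc1⟩ =
          Quotient.mk (morSetoid d e) ⟨orb c1 u', sc_mem h1 h2 hc1⟩).symm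
    rw [this]
    exact hmM

theorem irr_image {S : Set (CV d e)} (hS : Irr S) (hSM : S ⊆ MorCone d e) :
    IsIrreducible {x : Mor d e | ∃ (c : CV d e) (h : c ∈ MorCone d e), c ∈ S ∧
      x = Quotient.mk (morSetoid d e) ⟨c, h⟩} := by
  obtain ⟨⟨c, hc⟩, hirr⟩ := hS
  refine ⟨⟨_, c, hSM hc, hc, rfl⟩, ?_⟩
  rintro U W hU hW ⟨x, ⟨c1, h1, hc1, rfl⟩, hxU⟩ ⟨y, ⟨c2, h2, hc2, rfl⟩, hyW⟩
  obtain ⟨f, hf, hf1, hfU⟩ := exists_basic_mor hU h1 hxU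
  obtain ⟨g, hg, hg2, hgW⟩ := exists_basic_mor hW h2 hyW
  obtain ⟨v, hvS, hfv, hgv⟩ := hirr f hf g hg ⟨c1, hc1, hf1⟩ ⟨c2, hc2, hg2⟩
  exact ⟨_, ⟨v, hSM hvS, hvS, rfl⟩, hfU v (hSM hvS) hfv, hgW v (hSM hvS) hgv⟩

end TOAux

open TOAux in
theorem stTO (hZA : StZA) : StTO := by
  intro d e
  refine ⟨fun M hM => ⟨irr_hat hZA hM.prop, fun S hS hSM hMS c hc => ?_⟩, fun c hc => ?_⟩
  · have h1 := irr_image hS hSM
    have h2 : M ≤ {x : Mor d e | ∃ (c : CV d e) (h : c ∈ MorCone d e), c ∈ S ∧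
        x = Quotient.mk (morSetoid d e) ⟨c, h⟩} := by
      intro x hx
      obtain ⟨⟨c, hc⟩, rfl⟩ := Quotient.exists_rep x
      exact ⟨c, hc, hMS ⟨hc, hx⟩, rfl⟩
    have h3 := hM.le_of_ge h1 h2
    exact ⟨hSM hc, h3 ⟨c, hSM hc, hc, rfl⟩⟩
  · exact ⟨irreducibleComponent (Quotient.mk (morSetoid d e) ⟨c, hc⟩ : Mor d e),
      irreducibleComponent_mem_irreducibleComponents _, hc, mem_irreducibleComponent⟩

end MC
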