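import Pool.Agent.Lib.MC.Stmts3
import Pool.Agent.Lib.MC.DO

set_option autoImplicit false

/-!
# Module TWK: two components, for all multiples of the class
-/

noncomputable section

namespace MC

open Matrix

namespace TWKAux

/-! ### Polynomial functions -/

section poly

variable {V : Type} [AddCommGroup V] [Module ℂ V]

theorem pconst (c : ℂ) : (fun _ : V => c) ∈ Poly V := (Poly V).algebraMap_mem c

theorem plin (φ : V →ₗ[ℂ] ℂ) : (fun v => φ v) ∈ Poly V := Algebra.subset_adjoin ⟨φ, rfl⟩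

theorem pmul {f g : V → ℂ} (hf : f ∈ Poly V) (hg : g ∈ Poly V) :
    (fun v => f v * g v) ∈ Poly V := (Poly V).mul_mem hf hg

theorem padd {f g : V → ℂ} (hf : f ∈ Poly V) (hg : g ∈ Poly V) :
    (fun v => f v + g v) ∈ Poly V := (Poly V).add_mem hf hg

theorem psub {f g : V → ℂ} (hf : f ∈ Poly V) (hg : g ∈ Poly V) :
    (fun v => f v - g v) ∈ Poly V := (Poly V).sub_mem hf hg

theorem psum {ι : Type} (s : Finset ι) {f : ι → V → ℂ} (hf : ∀ i ∈ s, f i ∈ Poly V) :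
    (fun v => ∑ i ∈ s, f i v) ∈ Poly V := by
  have e : (fun v => ∑ i ∈ s, f i v) = ∑ i ∈ s, f i := by
    funext v
    rw [Finset.sum_apply]
  rw [e]
  exact (Poly V).sum_mem hf

theorem pprod {ι : Type} (s : Finset ι) {f : ι → V → ℂ} (hf : ∀ i ∈ s, f i ∈ Poly V) :
    (fun v => ∏ i ∈ s, f i v) ∈ Poly V := by
  have e : (fun v => ∏ i ∈ s, f i v) = ∏ i ∈ s, f i := by
    funext v
    rw [Finset.prod_apply]
  rw [e]
  exact (Poly V).prod_mem hf

/-- all entries are polynomial functions -/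
def MP {m n : ℕ} (F : V → Matrix (Fin m) (Fin n) ℂ) : Prop :=
  ∀ a b, (fun v => F v a b) ∈ Poly V

/-- all entries are polynomial functions -/
def VP {n : ℕ} (F : V → Fin n → ℂ) : Prop := ∀ a, (fun v => F v a) ∈ Poly V

theorem MP.mul {l m n : ℕ} {F : V → Matrix (Fin l) (Fin m) ℂ} {F' : V → Matrix (Fin m) (Fin n) ℂ}
    (h : MP F) (h' : MP F') : MP fun v => F v * F' v := by
  intro a b
  simp only [Matrix.mul_apply]
  exact psum _ fun i _ => pmul (h a i) (h' i b)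

theorem MP.mulVec {l m : ℕ} {F : V → Matrix (Fin l) (Fin m) ℂ} {F' : V → Fin m → ℂ}
    (h : MP F) (h' : VP F') : VP fun v => F v *ᵥ F' v := by
  intro a
  simp only [Matrix.mulVec, dotProduct]
  exact psum _ fun i _ => pmul (h a i) (h' i)

theorem MP.det {n : ℕ} {F : V → Matrix (Fin n) (Fin n) ℂ} (h : MP F) :
    (fun v => (F v).det) ∈ Poly V := by
  simp only [Matrix.det_apply']
  exact psum _ fun σ _ => pmul (pconst _) (pprod _ fun i _ => h _ _)

theorem MP.adjugate {n : ℕ} {F : V → Matrix (Fin n) (Fin n) ℂ} (h : MP F) :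
    MP fun v => Matrix.adjugate (F v) := by
  intro a b
  simp only [Matrix.adjugate_apply]
  apply MP.det (F := fun v => (F v).updateRow b (Pi.single a 1))
  intro i j
  by_cases hi : i = b
  · subst hi
    simp only [Matrix.updateRow_self]
    exact pconst _
  · simp only [Matrix.updateRow_ne hi]
    exact h i j

/-- functionals of vector valued polynomial functions -/
theorem VP.functional {n : ℕ} {F : V → Fin n → ℂ} (h : VP F) (φ : (Fin n → ℂ) →ₗ[ℂ] ℂ) :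
    (fun v => φ (F v)) ∈ Poly V := by
  have e : (fun v => φ (F v)) = fun v => ∑ i, F v i * φ (Pi.single i 1) := by
    funext v
    conv_lhs => rw [pi_eq_sum_univ' (F v)]
    simp only [map_sum, map_smul, smul_eq_mul]
  rw [e]
  exact psum _ fun i _ => pmul (h i) (pconst _)

/-- injectivity is an open condition -/
theorem inj_open {E F : Type} [AddCommGroup E] [Module ℂ E] [FiniteDimensional ℂ E]
    [AddCommGroup F] [Module ℂ F] (L : V → (E →ₗ[ℂ] F)) (hL : ∀ x, PolyMap fun c => L c x)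
    (c₀ : V) (h₀ : ∀ x, L c₀ x = 0 → x = 0) :
    ∃ f ∈ Poly V, f c₀ ≠ 0 ∧ ∀ c, f c ≠ 0 → ∀ x, L c x = 0 → x = 0 := by
  obtain ⟨G, hG⟩ := LinearMap.exists_leftInverse_of_injective (L c₀)
    (LinearMap.ker_eq_bot'.mpr h₀)
  let b := Module.finBasis ℂ E
  refine ⟨fun c => (LinearMap.toMatrix b b (G ∘ₗ L c)).det, ?_, ?_, ?_⟩
  · refine MP.det fun i j => ?_
    have e : (fun c => LinearMap.toMatrix b b (G ∘ₗ L c) i j) =
        fun c => (b.coord i ∘ₗ G) (L c (b j)) := by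
      funext c
      rw [LinearMap.toMatrix_apply]
      rfl
    rw [e]
    exact hL (b j) _
  · show (LinearMap.toMatrix b b (G ∘ₗ L c₀)).det ≠ 0
    rw [hG, LinearMap.toMatrix_id, Matrix.det_one]
    exact one_ne_zero
  · intro c hc x hx
    have hc' : (LinearMap.toMatrix b b (G ∘ₗ L c)).det ≠ 0 := hc
    have h1 : LinearMap.toMatrix b b (G ∘ₗ L c) *ᵥ (b.repr x) = 0 := by
      rw [LinearMap.toMatrix_mulVec_repr]
      rw [LinearMap.comp_apply, hx, map_zero, map_zero]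
      rfl
    have h2 := Matrix.eq_zero_of_mulVec_eq_zero hc' h1
    have h3 : b.repr x = 0 := by
      ext i
      exact congrFun h2 i
    exact (LinearEquiv.map_eq_zero_iff _).mp h3

end poly

/-! ### The linear maps -/

variable {d e : ℕ}

/-- the part with `Q` -/
def LQ (N : ℕ) (c : CV d e) :
    (Fin (N + 1) → (Fin 5 → ℂ)) →ₗ[ℂ] ((Fin 2 → ℂ) → (Fin 5 → ℂ)) where
  toFun x v := ev c.1 v *ᵥ evv x v
  map_add' x y := by
    funext v
    have h : evv (x + y) v = evv x v + evv y v := by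
      simp [evv, Finset.sum_add_distrib]
    show ev c.1 v *ᵥ evv (x + y) v = ev c.1 v *ᵥ evv x v + ev c.1 v *ᵥ evv y v
    rw [h, Matrix.mulVec_add]
  map_smul' a x := by
    funext v
    have h : evv (a • x) v = a • evv x v := by
      simp only [evv, Pi.smul_apply, Finset.smul_sum]
      exact Finset.sum_congr rfl fun i _ => smul_comm _ _ _
    show ev c.1 v *ᵥ evv (a • x) v = a • (ev c.1 v *ᵥ evv x v)
    rw [h, Matrix.mulVec_smul]

theorem mem_HH {N : ℕ} {c : CV d e} {x : Fin (N + 1) → (Fin 5 → ℂ)} :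
    x ∈ HH N c ↔ LQ N c x = 0 := by
  constructor
  · intro h
    funext v
    exact h v
  · intro h v
    exact congrFun h v

/-- the same map as a function of `c` -/
def LQc (e : ℕ) {N : ℕ} (x : Fin (N + 1) → (Fin 5 → ℂ)) :
    CV d e →ₗ[ℂ] ((Fin 2 → ℂ) → (Fin 5 → ℂ)) where
  toFun c v := ev c.1 v *ᵥ evv x v
  map_add' c c' := by
    funext v
    have h : ev (c + c').1 v = ev c.1 v + ev c'.1 v := by
      simp [ev, Finset.sum_add_distrib]
    show ev (c + c').1 v *ᵥ evv x v = ev c.1 v *ᵥ evv x v + ev c'.1 v *ᵥ evv x v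
    rw [h, Matrix.add_mulVec]
  map_smul' a c := by
    funext v
    have h : ev (a • c).1 v = a • ev c.1 v := by
      simp only [ev, Prod.smul_fst, Pi.smul_apply, Finset.smul_sum]
      exact Finset.sum_congr rfl fun i _ => smul_comm _ _ _
    show ev (a • c).1 v *ᵥ evv x v = a • (ev c.1 v *ᵥ evv x v)
    rw [h, Matrix.smul_mulVec]

/-- the first map -/
def L1 (k : ℕ) (c : CV d e) : (Fin (k + 1) → (Fin 5 → ℂ)) →ₗ[ℂ]
    ((Fin 2 → ℂ) → (Fin 5 → ℂ)) × (Fin 5 → ℂ) :=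
  (LQ k c).prod (LinearMap.proj 0)

theorem L1_poly (k : ℕ) (x : Fin (k + 1) → (Fin 5 → ℂ)) :
    PolyMap fun c : CV d e => L1 k c x := by
  intro φ
  have h : (fun c : CV d e => φ (L1 k c x)) =
      fun c => (φ ∘ₗ LinearMap.inl ℂ _ _ ∘ₗ LQc e x) c + φ (0, x 0) := by
    funext c
    show φ (L1 k c x) = φ (LQ k c x, 0) + φ (0, x 0)
    rw [← map_add, Prod.mk_add_mk, add_zero, zero_add]
    rfl
  rw [h]
  exact padd (plin _) (pconst _)

/-- the map `T` as a linear map -/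
def TL (k : ℕ) (A₀ A₁ : M5) : (Fin (k + 1) → (Fin 5 → ℂ)) →ₗ[ℂ] (Fin 3 → ℂ) where
  toFun x := TT A₀ A₁ (x 0) (x 1)
  map_add' x y := by
    have h1 : (fun a => (x + y) 1 (i024 a)) = (fun a => x 1 (i024 a)) + fun a => y 1 (i024 a) :=
      rfl
    have h0 : (fun a => (x + y) 0 (i024 a)) = (fun a => x 0 (i024 a)) + fun a => y 0 (i024 a) :=
      rfl
    unfold TT
    rw [h1, h0, Matrix.mulVec_add, Matrix.mulVec_add, Matrix.mulVec_add, smul_add, smul_add]
    abel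
  map_smul' r x := by
    have h1 : (fun a => (r • x) 1 (i024 a)) = r • fun a => x 1 (i024 a) := rfl
    have h0 : (fun a => (r • x) 0 (i024 a)) = r • fun a => x 0 (i024 a) := rfl
    unfold TT
    rw [h1, h0, Matrix.mulVec_smul, Matrix.mulVec_smul, Matrix.mulVec_smul, RingHom.id_apply,
      smul_sub, smul_sub, smul_comm _ r, smul_comm _ r]

theorem blk_poly (i : Fin (e + 1)) : MP fun c : CV d e => blk (c.2 i) := by
  intro a b
  exact plin ((LinearMap.proj (i024 b)).comp ((LinearMap.proj (i024 a)).comp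
    ((LinearMap.proj i).comp (LinearMap.snd ℂ (Fin (d + 1) → M5) (Fin (e + 1) → M5)))))

theorem TT_poly (x₀ x₁ : Fin 5 → ℂ) : VP fun c : CV d e => TT (c.2 0) (c.2 1) x₀ x₁ := by
  have hc : ∀ w : Fin 3 → ℂ, VP fun _ : CV d e => w := fun w a => pconst _
  have h0 := blk_poly (d := d) (e := e) 0
  have h1 := blk_poly (d := d) (e := e) 1
  intro a
  unfold TT
  refine psub (psub (pmul (pmul (pconst _) h0.det) ?_) ?_) (pmul (pmul (pconst _) ?_) ?_)
  · exact (MP.mulVec h0.adjugate (hc _)) a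
  · exact (MP.mulVec ((h0.adjugate.mul h1).mul h0.adjugate) (hc _)) a
  · simp only [pow_two]
    exact pmul h0.det h0.det
  · exact pconst _

/-- the second map -/
def L2 (k : ℕ) (c : CV d e) : (Fin (k + 1) → (Fin 5 → ℂ)) →ₗ[ℂ]
    ((Fin 2 → ℂ) → (Fin 5 → ℂ)) × (Fin 3 → ℂ) :=
  (LQ k c).prod (TL k (c.2 0) (c.2 1))

theorem L2_poly (k : ℕ) (x : Fin (k + 1) → (Fin 5 → ℂ)) :
    PolyMap fun c : CV d e => L2 k c x := by
  intro φ
  have h : (fun c : CV d e => φ (L2 k c x)) =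
      fun c => (φ ∘ₗ LinearMap.inl ℂ _ _ ∘ₗ LQc e x) c +
        (φ ∘ₗ LinearMap.inr ℂ _ _) (TT (c.2 0) (c.2 1) (x 0) (x 1)) := by
    funext c
    show φ (L2 k c x) = φ (LQ k c x, 0) + φ (0, TT (c.2 0) (c.2 1) (x 0) (x 1))
    rw [← map_add, Prod.mk_add_mk, add_zero, zero_add]
    rfl
  rw [h]
  exact padd (plin _) ((TT_poly (x 0) (x 1)).functional _)

theorem ev_e0 {n : ℕ} (q : Fin (n + 1) → M5) : ev q ![1, 0] = q 0 := by
  unfold ev
  rw [Finset.sum_eq_single 0]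
  · simp
  · intro i _ hi
    have hi' : (i : ℕ) ≠ 0 := fun h => hi (Fin.ext h)
    simp [hi']
  · simp

theorem rank_three {c : CV d e} (hc : c ∈ MorCone d e) (hb : (blk (c.2 0)).det ≠ 0) :
    ∃ v : Fin 2 → ℂ, v ≠ 0 ∧ (ev c.2 v).rank = 3 := by
  have hv : (![1, 0] : Fin 2 → ℂ) ≠ 0 := by
    intro h
    have := congrFun h 0
    simp at this
  refine ⟨![1, 0], hv, ?_⟩
  have h0 : (evp c ![1, 0]).2.rank ≤ 3 := DOAux.rank_le (hc _ hv)
  have h0' : (ev c.2 ![1, 0]).rank ≤ 3 := h0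
  have h1 := Matrix.rank_of_det_ne_zero hb
  have h2 : (blk (c.2 0)).rank ≤ (c.2 0).rank := Matrix.rank_submatrix_le (c.2 0) i024 i024
  rw [ev_e0] at h0' ⊢
  simp only [Fintype.card_fin] at h1
  omega

end TWKAux

open TWKAux in
theorem stTWK (hTO : StTO) (hRKK : StRKK) (hLP : StLP) (hEXK : StEXK) : StTWK := by
  intro k hk
  obtain ⟨⟨c₁, hc₁, hr₁, hi₁⟩, c₂, hc₂, hr₂, hb₂, hi₂⟩ := hEXK k hk
  obtain ⟨hT1, hT2⟩ := hTO (3 * k) (2 * k)
  obtain ⟨M₁, hM₁, hcM₁⟩ := hT2 c₁ hc₁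
  obtain ⟨M₂, hM₂, hcM₂⟩ := hT2 c₂ hc₂
  refine ⟨M₁, hM₁, M₂, hM₂, ?_, ⟨c₁, hcM₁, hr₁⟩, c₂, hcM₂, hr₂⟩
  rintro rfl
  obtain ⟨f₁, hf₁, hf₁c, hf₁i⟩ := inj_open (fun c : CV (3 * k) (2 * k) => L1 k c)
    (fun x => L1_poly k x) c₁ (fun x hx => by
      have hx' : (LQ k c₁ x, x 0) = (0, 0) := hx
      exact hi₁ x (mem_HH.mpr (Prod.ext_iff.mp hx').1) (Prod.ext_iff.mp hx').2)
  obtain ⟨f₂, hf₂, hf₂c, hf₂i⟩ := inj_open (fun c : CV (3 * k) (2 * k) => L2 k c)
    (fun x => L2_poly k x) c₂ (fun x hx => by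
      have hx' : (LQ k c₂ x, TT (c₂.2 0) (c₂.2 1) (x 0) (x 1)) = (0, 0) := hx
      exact hi₂ x (mem_HH.mpr (Prod.ext_iff.mp hx').1) (Prod.ext_iff.mp hx').2)
  obtain ⟨c, hc, hc1, hc2⟩ := (hT1 M₁ hM₁).1.2 f₁ hf₁
    (fun c => f₂ c * (blk (c.2 0)).det) (pmul hf₂ (blk_poly 0).det) ⟨c₁, hcM₁, hf₁c⟩
    ⟨c₂, hcM₂, mul_ne_zero hf₂c hb₂⟩
  have hcm : c ∈ MorCone (3 * k) (2 * k) := DOAux.hat_sub hc
  have hb : (blk (c.2 0)).det ≠ 0 := right_ne_zero_of_mul hc2
  obtain ⟨x, hx, hx0, hxz⟩ := hLP k hk c hcm (hRKK k c hcm (rank_three hcm hb)) hb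
    (fun x hx hT => hf₂i c (left_ne_zero_of_mul hc2) x (by
      show (LQ k c x, TT (c.2 0) (c.2 1) (x 0) (x 1)) = (0, 0)
      rw [mem_HH.mp hx, hT]))
  refine hx0 (hf₁i c hc1 x ?_)
  show (LQ k c x, x 0) = (0, 0)
  rw [mem_HH.mp hx, hxz]

end MC
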