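import Pool.Agent.Lib.MC.Stmts2
import Pool.Agent.Lib.MC.AC
import Pool.Agent.Lib.MC.EXK
import Pool.Agent.Lib.MC.IX
import Pool.Agent.Lib.MC.RKK

set_option autoImplicit false

/-!
# Two Manin components (MP_ac098b_ag): module UN

The divisor `E` is rigid: the quotient of a section of `k E` by `δ ^ k` is constant on the curves of
class `(2, 3)` in the open orbit, and these curves connect the open orbit.
-/

noncomputable section

namespace MC

open Matrix

namespace UNAux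

/-- the quotient `φ / δ ^ k` -/
def Phi (φ δ : Cone → ℂ) (k : ℕ) (x : M5 × M5) : ℂ := by
  classical
  exact if hx : x ∈ Cone then φ ⟨x, hx⟩ / δ ⟨x, hx⟩ ^ k else 0

lemma Phi_of {φ δ : Cone → ℂ} {k : ℕ} {x : M5 × M5} (hx : x ∈ Cone) :
    Phi φ δ k x = φ ⟨x, hx⟩ / δ ⟨x, hx⟩ ^ k := by
  unfold Phi
  exact dif_pos hx

lemma Phi_same {φ δ : Cone → ℂ} {k : ℕ} (hφ : IsSec (3 * k) (-2 * k) φ) (hδ : IsSec 3 (-2) δ)
    {x y : M5 × M5} (hx : x ∈ Cone) (h : Same x y) : Phi φ δ k y = Phi φ δ k x := by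
  obtain ⟨μ, lam, hμ, hl, rfl⟩ := h
  have hy : scal μ lam x ∈ Cone := DOAux.cone_scal hμ hl hx
  rw [Phi_of hx, Phi_of hy, hφ.2 ⟨x, hx⟩ ⟨_, hy⟩ μ lam hμ hl rfl,
    hδ.2 ⟨x, hx⟩ ⟨_, hy⟩ μ lam hμ hl rfl]
  have e : (μ ^ (-2 : ℤ) * lam ^ (3 : ℤ) * δ ⟨x, hx⟩) ^ k =
      μ ^ (-2 * (k : ℤ)) * lam ^ (3 * (k : ℤ)) * δ ⟨x, hx⟩ ^ k := by
    rw [mul_pow, mul_pow, ← _root_.zpow_natCast, ← _root_.zpow_natCast, ← _root_.zpow_mul,
      ← _root_.zpow_mul]
  rw [e]
  exact mul_div_mul_left _ _ (mul_ne_zero (zpow_ne_zero _ hμ) (zpow_ne_zero _ hl))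

/-- The quotient is constant on the curves of rank three. -/
lemma Phi_curve (hRG : StRG) {φ δ : Cone → ℂ} {k : ℕ} (hφ : IsSec (3 * k) (-2 * k) φ)
    (hδ : IsSec 3 (-2) δ) (hδ' : ∀ x : Cone, δ x ≠ 0 ↔ (x : M5 × M5).2.rank = 3)
    {c : CV 3 2} (hc : c ∈ MorCone 3 2) (hr : ∀ v, v ≠ 0 → (ev c.2 v).rank = 3)
    (v w : Fin 2 → ℂ) (hv : v ≠ 0) (hw : w ≠ 0) :
    Phi φ δ k (evp c v) = Phi φ δ k (evp c w) := by
  refine (hRG 0 (fun u => Phi φ δ k (evp c u)) ?_ ?_).2 rfl v w hv hw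
  · intro u hu
    obtain ⟨p, hp, r, hr0, h0, h1⟩ := hφ.1 ⟨evp c u, hc u hu⟩
    obtain ⟨p', hp', r', hr0', h0', h1'⟩ := hδ.1 ⟨evp c u, hc u hu⟩
    have hd : δ ⟨evp c u, hc u hu⟩ ≠ 0 := (hδ' _).2 (hr u hu)
    have hp0 : p' (evp c u) ≠ 0 := by
      intro h
      apply hd
      rw [h1' ⟨evp c u, hc u hu⟩ h0', h, zero_div]
    refine ⟨fun u' => (p * r' ^ k * (r' * p')) (evp c u'),
      RKKAux.poly_comp (RKKAux.polyMap_evp c) ((Poly _).mul_mem ((Poly _).mul_mem hp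
        ((Poly _).pow_mem hr0' k)) ((Poly _).mul_mem hr0' hp')),
      fun u' => (r * p' ^ k * (r' * p')) (evp c u'),
      RKKAux.poly_comp (RKKAux.polyMap_evp c) ((Poly _).mul_mem ((Poly _).mul_mem hr0
        ((Poly _).pow_mem hp' k)) ((Poly _).mul_mem hr0' hp')), ?_, ?_⟩
    · exact mul_ne_zero (mul_ne_zero h0 (pow_ne_zero _ hp0)) (mul_ne_zero h0' hp0)
    · intro u' hu' hR
      have hR1 : r (evp c u') * p' (evp c u') ^ k * (r' (evp c u') * p' (evp c u')) ≠ 0 := hR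
      have ha : r (evp c u') ≠ 0 := left_ne_zero_of_mul (left_ne_zero_of_mul hR1)
      have hb : r' (evp c u') ≠ 0 := left_ne_zero_of_mul (right_ne_zero_of_mul hR1)
      have hb' : p' (evp c u') ≠ 0 := right_ne_zero_of_mul (right_ne_zero_of_mul hR1)
      change Phi φ δ k (evp c u') = (p (evp c u') * r' (evp c u') ^ k *
        (r' (evp c u') * p' (evp c u'))) / (r (evp c u') * p' (evp c u') ^ k *
        (r' (evp c u') * p' (evp c u')))
      rw [Phi_of (hc u' hu'), h1 ⟨_, hc u' hu'⟩ ha, h1' ⟨_, hc u' hu'⟩ hb]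
      dsimp only
      rw [div_pow]
      field_simp
  · intro u hu s hs
    rw [_root_.zpow_zero, one_mul, RKKAux.evp_smul]
    exact Phi_same hφ hδ (hc u hu) ⟨s ^ 3, s ^ 2, pow_ne_zero _ hs, pow_ne_zero _ hs, rfl⟩

/-! ### The open orbit -/

/-- the base point -/
def X0 : M5 × M5 := evp (EXKAux.ce 1) ![1, 0]

/-- the second point of the curve -/
def X1 : M5 × M5 := evp (EXKAux.ce 1) ![0, 1]

/-- the diagonal matrix of the base point -/
def Dg : M5 := Matrix.diagonal ![1, 0, 1, 0, 1]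

/-- the permutation matrix `0 → 1 → 0`, `2 → 3 → 4 → 2` -/
def PP : M5 := !![0, 1, 0, 0, 0; 1, 0, 0, 0, 0; 0, 0, 0, 0, 1; 0, 0, 1, 0, 0; 0, 0, 0, 1, 0]

lemma Dg_eq : Dg =
    !![1, 0, 0, 0, 0; 0, 0, 0, 0, 0; 0, 0, 1, 0, 0; 0, 0, 0, 0, 0; 0, 0, 0, 0, 1] := by
  ext i j
  fin_cases i <;> fin_cases j <;> simp [Dg, Matrix.diagonal]

lemma v10 : (![1, 0] : Fin 2 → ℂ) ≠ 0 := EXKAux.v10

lemma v01 : (![0, 1] : Fin 2 → ℂ) ≠ 0 := by
  intro h
  have := congrFun h 1
  simp at this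

lemma X0_mem : X0 ∈ Cone := EXKAux.ce_mem 1 _ v10

lemma X1_mem : X1 ∈ Cone := EXKAux.ce_mem 1 _ v01

lemma X0_rank : X0.2.rank = 3 := EXKAux.ce_rank le_rfl

lemma X0_snd : X0.2 = Dg := by
  have h : X0.2 = EXKAux.Ae 1 ![1, 0] := EXKAux.ce2 1 _
  rw [h]
  ext i j
  fin_cases i <;> fin_cases j <;> simp [EXKAux.Ae, Dg, Matrix.diagonal]

lemma X0_fst : X0.1 =
    !![0, 0, 0, 0, 0; 0, 0, 0, -1, 0; 0, 0, 0, 0, 0; 0, 1, 0, 0, 0; 0, 0, 0, 0, 0] := by
  have h : X0.1 = EXKAux.wd (EXKAux.xe 1 ![1, 0]) (EXKAux.ye 1 ![1, 0]) := EXKAux.ce1 1 _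
  rw [h]
  ext i j
  fin_cases i <;> fin_cases j <;> simp [EXKAux.wd, EXKAux.xe, EXKAux.ye]

lemma X1_snd : X1.2 = Matrix.diagonal ![0, 1, 1, 1, 0] := by
  have h : X1.2 = EXKAux.Ae 1 ![0, 1] := EXKAux.ce2 1 _
  rw [h]
  ext i j
  fin_cases i <;> fin_cases j <;> simp [EXKAux.Ae, Matrix.diagonal]

lemma X1_fst : X1.1 =
    !![0, 0, 0, 0, 1; 0, 0, 0, 0, 0; 0, 0, 0, 0, 0; 0, 0, 0, 0, 0; -1, 0, 0, 0, 0] := by
  have h : X1.1 = EXKAux.wd (EXKAux.xe 1 ![0, 1]) (EXKAux.ye 1 ![0, 1]) := EXKAux.ce1 1 _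
  rw [h]
  ext i j
  fin_cases i <;> fin_cases j <;> simp [EXKAux.wd, EXKAux.xe, EXKAux.ye]

lemma PP_mul : PP * PPᵀ = 1 := by
  ext i j
  fin_cases i <;> fin_cases j <;> simp [PP, Matrix.mul_apply, Fin.sum_univ_five]

lemma PP_mul' : PPᵀ * PP = 1 := by
  ext i j
  fin_cases i <;> fin_cases j <;> simp [PP, Matrix.mul_apply, Fin.sum_univ_five]

lemma PP_det : PP.det ≠ 0 := by
  intro h
  have h1 := congrArg Matrix.det PP_mul
  rw [det_mul, h, zero_mul, det_one] at h1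
  exact zero_ne_one h1

/-- `PP` moves the first point to the second one. -/
lemma act_PP : Same X1 (act PP X0) := by
  have h2 : (act PP X0).2 = X1.2 := by
    change PP * X0.2 * PPᵀ = X1.2
    rw [X0_snd, X1_snd, Dg_eq]
    ext i j
    fin_cases i <;> fin_cases j <;>
      simp [PP, Matrix.mul_apply, Fin.sum_univ_five, Matrix.diagonal]
  have h3 : PP * X0.1 * PPᵀ = (-1 : ℂ) • X1.1 := by
    rw [X0_fst, X1_fst]
    ext i j
    fin_cases i <;> fin_cases j <;>
      simp [PP, Matrix.mul_apply, Fin.sum_univ_five]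
  have h1 : (act PP X0).1 = (-(PP.det ^ 2)) • X1.1 := by
    change (adjugate PP)ᵀ * X0.1 * adjugate PP = _
    rw [IXAux.adj_of_mul PP_mul, transpose_smul, transpose_transpose, Matrix.smul_mul,
      Matrix.smul_mul, Matrix.mul_smul, h3, smul_smul, smul_smul]
    congr 1
    ring
  refine ⟨-(PP.det ^ 2), 1, neg_ne_zero.2 (pow_ne_zero _ PP_det), one_ne_zero, ?_⟩
  refine Prod.ext h1 ?_
  rw [h2]
  simp [scal]

/-- A point of the cone with the same `A`. -/
lemma same_of_snd {y : M5 × M5} (hy : y ∈ Cone) (h : y.2 = Dg) : Same X0 y := by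
  obtain ⟨hs, -, h0, -, -, hm⟩ := hy
  rw [h] at hm
  have hrow : ∀ i : Fin 5, i ≠ 1 → i ≠ 3 → ∀ j, y.1 i j = 0 := by
    intro i h1 h3 j
    have h4 := congrFun (congrFun hm i) j
    rw [Dg, Matrix.diagonal_mul, Matrix.zero_apply] at h4
    fin_cases i
    · simpa using h4
    · exact absurd rfl h1
    · simpa using h4
    · exact absurd rfl h3
    · simpa using h4
  have hsk : ∀ i j, y.1 j i = -y.1 i j := fun i j => congrFun (congrFun hs i) j
  have hcol : ∀ j : Fin 5, j ≠ 1 → j ≠ 3 → ∀ i, y.1 i j = 0 := by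
    intro j h1 h3 i
    rw [hsk j i, hrow j h1 h3 i, neg_zero]
  have hd : ∀ i, y.1 i i = 0 := by
    intro i
    have := hsk i i
    linear_combination this / 2
  have he : y.1 = (-(y.1 1 3)) • X0.1 := by
    rw [X0_fst]
    ext i j
    have h31 := hsk 1 3
    fin_cases i <;> fin_cases j <;>
      simp [hrow 0, hrow 2, hrow 4, hcol 0, hcol 2, hcol 4, hd, h31]
  refine ⟨-(y.1 1 3), 1, ?_, one_ne_zero, ?_⟩
  · intro h5
    apply h0
    rw [he, h5, zero_smul]
  · refine Prod.ext he ?_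
    rw [h, X0_snd.symm]
    simp [scal]

/-- the columns of `h` with index different from `j` are those of the unit matrix -/
def Fx (j : Fin 5) (h : M5) : Prop := ∀ i, i ≠ j → ∀ a, h a i = (1 : M5) a i

lemma mul_Dg {j : Fin 5} (hj : j = 1 ∨ j = 3) {h : M5} (hh : Fx j h) : h * Dg = Dg := by
  ext a i
  rw [Dg, Matrix.mul_diagonal]
  by_cases hij : i = j
  · subst hij
    have h0 : (![1, 0, 1, 0, 1] : Fin 5 → ℂ) i = 0 := by
      rcases hj with rfl | rfl <;> simp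
    rw [h0, mul_zero, Matrix.diagonal_apply]
    by_cases hai : a = i
    · rw [if_pos hai, hai, h0]
    · rw [if_neg hai]
  · rw [hh i hij a, Matrix.one_apply, Matrix.diagonal_apply]
    by_cases hai : a = i
    · rw [if_pos hai, if_pos hai, one_mul, hai]
    · rw [if_neg hai, if_neg hai, zero_mul]

lemma act_Fx {j : Fin 5} (hj : j = 1 ∨ j = 3) {h : M5} (hh : Fx j h) (hd : h.det ≠ 0) :
    Same X0 (act h X0) := by
  refine same_of_snd (ACAux.act_mem hd X0_mem) ?_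
  change h * X0.2 * hᵀ = Dg
  rw [X0_snd, mul_Dg hj hh]
  have h1 : Dg * hᵀ = (h * Dg)ᵀ := by
    rw [transpose_mul, Dg, diagonal_transpose]
  rw [h1, mul_Dg hj hh, Dg, diagonal_transpose]

/-- the property of the matrices `h` which is used in the induction -/
def Inv (F : M5 → ℂ) (h : M5) : Prop := ∀ g : M5, g.det ≠ 0 → F (g * h) = F g

lemma Inv.mul {F : M5 → ℂ} {a b : M5} (ha : Inv F a) (hb : Inv F b) (hd : a.det ≠ 0) :
    Inv F (a * b) := by
  intro g hg
  rw [← Matrix.mul_assoc, hb (g * a) (by rw [det_mul]; exact mul_ne_zero hg hd), ha g hg]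

lemma Inv.conj {F : M5 → ℂ} (hP : Inv F PP) {h : M5} (hd : h.det ≠ 0)
    (hh : Inv F (PPᵀ * h * PP)) : Inv F h := by
  have hT : PPᵀ.det ≠ 0 := by
    rw [det_transpose]
    exact PP_det
  have hP' : Inv F PPᵀ := by
    intro g hg
    rw [← hP (g * PPᵀ) (by rw [det_mul]; exact mul_ne_zero hg hT), Matrix.mul_assoc, PP_mul',
      Matrix.mul_one]
  have h1 : Inv F (PP * (PPᵀ * h * PP) * PPᵀ) := by
    refine Inv.mul (Inv.mul hP hh PP_det) hP' ?_
    rw [det_mul, det_mul, det_mul]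
    exact mul_ne_zero PP_det (mul_ne_zero (mul_ne_zero hT hd) PP_det)
  have h2 : PP * (PPᵀ * h * PP) * PPᵀ = h := by
    rw [← Matrix.mul_assoc, ← Matrix.mul_assoc, PP_mul, Matrix.one_mul, Matrix.mul_assoc,
      PP_mul, Matrix.mul_one]
  rwa [h2] at h1

/-- the permutation -/
def pr : Fin 5 → Fin 5 := ![1, 0, 3, 4, 2]

lemma PP_apply (a i : Fin 5) : PP a i = if a = pr i then 1 else 0 := by
  fin_cases a <;> fin_cases i <;> simp [PP, pr]

lemma pr_inj : Function.Injective pr := by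
  intro a b h
  revert h
  fin_cases a <;> fin_cases b <;> simp [pr]

lemma Fx.conj {j : Fin 5} {h : M5} (hh : Fx (pr j) h) : Fx j (PPᵀ * h * PP) := by
  intro i hij a
  have h1 : ∀ b, (h * PP) b i = h b (pr i) := by
    intro b
    rw [Matrix.mul_apply, Finset.sum_eq_single (pr i)]
    · rw [PP_apply, if_pos rfl, mul_one]
    · intro c _ hc
      rw [PP_apply, if_neg hc, mul_zero]
    · intro hc
      exact absurd (Finset.mem_univ _) hc
  have h2 : (PPᵀ * (h * PP)) a i = (h * PP) (pr a) i := by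
    rw [Matrix.mul_apply, Finset.sum_eq_single (pr a)]
    · rw [transpose_apply, PP_apply, if_pos rfl, one_mul]
    · intro c _ hc
      rw [transpose_apply, PP_apply, if_neg hc, zero_mul]
    · intro hc
      exact absurd (Finset.mem_univ _) hc
  rw [Matrix.mul_assoc, h2, h1, hh (pr i) (fun hc => hij (pr_inj hc)), Matrix.one_apply,
    Matrix.one_apply]
  by_cases hai : a = i
  · rw [if_pos hai, if_pos (by rw [hai])]
  · rw [if_neg hai, if_neg (fun hc => hai (pr_inj hc))]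

lemma conj_det {h : M5} (hd : h.det ≠ 0) : (PPᵀ * h * PP).det ≠ 0 := by
  rw [det_mul, det_mul, det_transpose]
  exact mul_ne_zero (mul_ne_zero PP_det hd) PP_det

/-- All matrices with four trivial columns have the property. -/
lemma inv_Fx {F : M5 → ℂ} (hP : Inv F PP)
    (h13 : ∀ j : Fin 5, j = 1 ∨ j = 3 → ∀ h : M5, h.det ≠ 0 → Fx j h → Inv F h)
    (j : Fin 5) (h : M5) (hd : h.det ≠ 0) (hh : Fx j h) : Inv F h := by
  have step : ∀ j : Fin 5, (∀ h : M5, h.det ≠ 0 → Fx j h → Inv F h) →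
      ∀ h : M5, h.det ≠ 0 → Fx (pr j) h → Inv F h := by
    intro j hj h hd hh
    exact Inv.conj hP hd (hj _ (conj_det hd) hh.conj)
  have h0 := step 1 (h13 1 (Or.inl rfl))
  have h4 := step 3 (h13 3 (Or.inr rfl))
  have h2 := step 4 h4
  fin_cases j
  · exact h0 h hd hh
  · exact h13 1 (Or.inl rfl) h hd hh
  · exact h2 h hd hh
  · exact h13 3 (Or.inr rfl) h hd hh
  · exact h4 h hd hh

/-- All invertible matrices have the property. -/
lemma inv_all {F : M5 → ℂ} (hF : ∀ (j : Fin 5) (h : M5), h.det ≠ 0 → Fx j h → Inv F h)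
    (h : M5) (hd : h.det ≠ 0) : Inv F h := by
  refine Matrix.diagonal_transvection_induction_of_det_ne_zero (Inv F) h hd ?_ ?_ ?_
  · intro D hD
    have hne : ∀ i, D i ≠ 0 := by
      intro i hi
      apply hD
      rw [det_diagonal]
      exact Finset.prod_eq_zero (Finset.mem_univ i) hi
    have key : ∀ s : Finset (Fin 5),
        Inv F (Matrix.diagonal fun i => if i ∈ s then D i else 1) := by
      intro s
      induction s using Finset.induction_on with
      | empty =>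
        intro g _
        have : (Matrix.diagonal fun i => if i ∈ (∅ : Finset (Fin 5)) then D i else 1) =
            (1 : M5) := by
          simp
        rw [this, Matrix.mul_one]
      | insert j s hj ih =>
        have e1 : (Matrix.diagonal fun i => if i ∈ insert j s then D i else 1) =
            (Matrix.diagonal fun i => if i ∈ s then D i else 1) *
              (Matrix.diagonal fun i => if i = j then D i else 1) := by
          rw [Matrix.diagonal_mul_diagonal]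
          congr 1
          funext i
          by_cases hi : i = j
          · subst hi
            simp [hj]
          · simp [hi]
        have d1 : (Matrix.diagonal fun i => if i ∈ s then D i else 1).det ≠ 0 := by
          rw [det_diagonal]
          refine Finset.prod_ne_zero_iff.2 fun i _ => ?_
          split_ifs
          · exact hne i
          · exact one_ne_zero
        have d2 : (Matrix.diagonal fun i => if i = j then D i else 1).det ≠ 0 := by
          rw [det_diagonal]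
          refine Finset.prod_ne_zero_iff.2 fun i _ => ?_
          split_ifs
          · exact hne i
          · exact one_ne_zero
        rw [e1]
        refine Inv.mul ih (hF j _ d2 ?_) d1
        intro i hi a
        rw [Matrix.diagonal_apply, Matrix.one_apply]
        by_cases hai : a = i
        · subst hai
          simp [hi]
        · rw [if_neg hai, if_neg hai]
    have h1 := key Finset.univ
    simpa using h1
  · intro t
    refine hF t.j _ ?_ ?_
    · rw [Matrix.TransvectionStruct.det]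
      exact one_ne_zero
    · intro i hi a
      rw [Matrix.TransvectionStruct.toMatrix, Matrix.transvection, Matrix.add_apply,
        Matrix.single_apply, if_neg (fun h => hi h.2.symm), add_zero]
  · intro a b ha _ hPa hPb
    exact Inv.mul hPa hPb ha

/-- The quotient is constant on the open orbit. -/
lemma Phi_const (hRG : StRG) (hIX : StIX) {φ δ : Cone → ℂ} {k : ℕ}
    (hφ : IsSec (3 * k) (-2 * k) φ) (hδ : IsSec 3 (-2) δ)
    (hδ' : ∀ x : Cone, δ x ≠ 0 ↔ (x : M5 × M5).2.rank = 3) {x : M5 × M5} (hx : x ∈ Cone)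
    (hr : x.2.rank = 3) : Phi φ δ k x = Phi φ δ k X0 := by
  have hc : EXKAux.ce 1 ∈ MorCone 3 2 := EXKAux.ce_mem 1
  -- the rank is constant on the curve
  have hrk : ∀ v, v ≠ 0 → (ev (EXKAux.ce 1).2 v).rank = 3 := by
    have hA : ∀ v : Fin 2 → ℂ, v ≠ 0 → (ev (EXKAux.ce 1).2 v).rank = 3 := by
      intro v hv
      have hm := EXKAux.ce_mem 1 v hv
      have h2 : (evp (EXKAux.ce 1) v).2 = EXKAux.Ae 1 v := EXKAux.ce2 1 v
      rcases EXKAux.pt_ne hv with h | h
      · have h3 := EXKAux.rank_three hm ![0, 2, 4] ?_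
        · exact h3
        · rw [h2, Matrix.det_fin_three]
          simp [EXKAux.Ae]
          have e : v 0 ^ 2 * (v 0 ^ 2 + v 1 ^ 2) * v 0 ^ 2 -
              v 0 ^ 2 * (v 0 * v 1) * (v 0 * v 1) = (v 0 ^ 2) ^ 3 := by ring
          rw [e]
          exact pow_ne_zero _ (pow_ne_zero _ h)
      · have h3 := EXKAux.rank_three hm ![1, 2, 3] ?_
        · exact h3
        · rw [h2, Matrix.det_fin_three]
          simp [EXKAux.Ae]
          have e : v 1 ^ 2 * (v 0 ^ 2 + v 1 ^ 2) * v 1 ^ 2 -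
              v 1 ^ 2 * (v 0 * v 1) * (v 0 * v 1) = (v 1 ^ 2) ^ 3 := by ring
          rw [e]
          exact pow_ne_zero _ (pow_ne_zero _ h)
    exact hA
  have hrg : ∀ g : M5, g.det ≠ 0 → ∀ v, v ≠ 0 →
      (ev (actc g (EXKAux.ce 1 : CV 3 2)).2 v).rank = 3 := by
    intro g hg v hv
    have h1 : evp (actc g (EXKAux.ce 1 : CV 3 2)) v = act g (evp (EXKAux.ce 1) v) :=
      (stAC.2.2 3 2).1 g _ v
    have h2 : ev (actc g (EXKAux.ce 1 : CV 3 2)).2 v = g * ev (EXKAux.ce 1).2 v * gᵀ :=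
      congrArg Prod.snd h1
    rw [h2, Matrix.rank_mul_eq_left_of_isUnit_det, Matrix.rank_mul_eq_right_of_isUnit_det]
    · exact hrk v hv
    · exact isUnit_iff_ne_zero.2 hg
    · rw [det_transpose]
      exact isUnit_iff_ne_zero.2 hg
  have hcg : ∀ g : M5, g.det ≠ 0 → actc g (EXKAux.ce 1 : CV 3 2) ∈ MorCone 3 2 := by
    intro g hg v hv
    rw [(stAC.2.2 3 2).1 g _ v]
    exact (stAC.2.1 g _ hg).2 (hc v hv)
  have hmem : ∀ g : M5, g.det ≠ 0 → act g X0 ∈ Cone := fun g hg => ACAux.act_mem hg X0_mem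
  set F : M5 → ℂ := fun g => Phi φ δ k (act g X0) with hF
  have hsame : ∀ (g : M5), g.det ≠ 0 → ∀ y z : M5 × M5, y ∈ Cone → Same y z →
      Phi φ δ k (act g z) = Phi φ δ k (act g y) := by
    rintro g hg y z hy ⟨μ, lam, hμ, hl, rfl⟩
    rw [IXAux.act_scal]
    exact Phi_same hφ hδ (ACAux.act_mem hg hy) ⟨μ, lam, hμ, hl, rfl⟩
  have hP : Inv F PP := by
    intro g hg
    change Phi φ δ k (act (g * PP) X0) = Phi φ δ k (act g X0)
    rw [← IXAux.act_act, hsame g hg X1 _ X1_mem act_PP]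
    have h1 := Phi_curve hRG hφ hδ hδ' (hcg g hg) (hrg g hg) ![0, 1] ![1, 0] v01 v10
    rw [(stAC.2.2 3 2).1, (stAC.2.2 3 2).1] at h1
    exact h1
  have h13 : ∀ j : Fin 5, j = 1 ∨ j = 3 → ∀ h : M5, h.det ≠ 0 → Fx j h → Inv F h := by
    intro j hj h hd hh g hg
    change Phi φ δ k (act (g * h) X0) = Phi φ δ k (act g X0)
    rw [← IXAux.act_act, hsame g hg X0 _ X0_mem (act_Fx hj hh hd)]
  have hall := inv_all (inv_Fx hP h13)
  obtain ⟨g, hg, hs⟩ := hIX.2.2 X0 X0_mem x hx X0_rank hr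
  rw [Phi_same hφ hδ (hmem g hg) hs]
  have h2 := hall g hg 1 (by rw [det_one]; exact one_ne_zero)
  rw [Matrix.one_mul] at h2
  change F g = _
  rw [h2, hF]
  change Phi φ δ k (act 1 X0) = _
  have h3 : act 1 X0 = X0 := by
    simp [act]
  rw [h3]

/-- The sections of `k E` are the multiples of `δ ^ k`, for the section `δ` of module SE. -/
lemma rigid (hRG : StRG) (hIX : StIX) {φ δ : Cone → ℂ} {k : ℕ}
    (hφ : IsSec (3 * k) (-2 * k) φ) (hδ : IsSec 3 (-2) δ)
    (hδ' : ∀ x : Cone, δ x ≠ 0 ↔ (x : M5 × M5).2.rank = 3) :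
    ∃ c : ℂ, ∀ x, φ x = c * δ x ^ k := by
  refine ⟨Phi φ δ k X0, ?_⟩
  have h3 : ∀ x : Cone, (x : M5 × M5).2.rank = 3 → φ x = Phi φ δ k X0 * δ x ^ k := by
    intro x hr
    have h1 := Phi_const hRG hIX hφ hδ hδ' x.2 hr
    rw [← h1, Phi_of x.2]
    have hd : δ x ≠ 0 := (hδ' x).2 hr
    exact (div_mul_cancel₀ _ (pow_ne_zero _ hd)).symm
  intro x
  by_contra hne
  obtain ⟨p, hp, r, hr, h0, h1⟩ := hφ.1 x
  obtain ⟨p', hp', r', hr', h0', h1'⟩ := hδ.1 x
  obtain ⟨p₀, hp₀, r₀, hr₀, h0₀, h1₀⟩ := hδ.1 ⟨X0, X0_mem⟩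
  have hX : δ ⟨X0, X0_mem⟩ ≠ 0 := (hδ' _).2 X0_rank
  have hpX : p₀ X0 ≠ 0 := by
    intro h
    apply hX
    rw [h1₀ ⟨X0, X0_mem⟩ h0₀]
    change p₀ X0 / r₀ X0 = 0
    rw [h, zero_div]
  set C := Phi φ δ k X0 with hC
  -- the difference, up to denominators
  have hxx : (p x * r' x ^ k - C * (r x * p' x ^ k)) * (r x * r' x) ≠ 0 := by
    refine mul_ne_zero ?_ (mul_ne_zero h0 h0')
    intro h5
    apply hne
    rw [h1 x h0, h1' x h0', div_pow]
    field_simp
    linear_combination h5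
  obtain ⟨y, hy, hy1, hy2⟩ := hIX.1.2 (fun z => (p z * r' z ^ k - C * (r z * p' z ^ k)) *
      (r z * r' z)) ((Poly _).mul_mem ((Poly _).sub_mem ((Poly _).mul_mem hp
      ((Poly _).pow_mem hr' k)) ((Poly _).mul_mem ((Poly _).algebraMap_mem C)
      ((Poly _).mul_mem hr ((Poly _).pow_mem hp' k)))) ((Poly _).mul_mem hr hr'))
    (fun z => p₀ z * r₀ z) ((Poly _).mul_mem hp₀ hr₀) ⟨x, x.2, hxx⟩
    ⟨X0, X0_mem, mul_ne_zero hpX h0₀⟩
  have hr0 : r₀ y ≠ 0 := right_ne_zero_of_mul hy2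
  have hp0 : p₀ y ≠ 0 := left_ne_zero_of_mul hy2
  have hd : δ ⟨y, hy⟩ ≠ 0 := by
    rw [h1₀ ⟨y, hy⟩ hr0]
    exact div_ne_zero hp0 hr0
  have hrank := (hδ' ⟨y, hy⟩).1 hd
  have h4 := h3 ⟨y, hy⟩ hrank
  have hr1 : r y ≠ 0 := left_ne_zero_of_mul (right_ne_zero_of_mul hy1)
  have hr2 : r' y ≠ 0 := right_ne_zero_of_mul (right_ne_zero_of_mul hy1)
  apply left_ne_zero_of_mul hy1
  rw [h1 ⟨y, hy⟩ hr1, h1' ⟨y, hy⟩ hr2] at h4
  dsimp only at h4
  rw [div_pow] at h4
  field_simp at h4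
  linear_combination h4

end UNAux

open UNAux in
/-- Module UN. -/
theorem stUN (hRG : StRG) (hSE : StSE) (hIX : StIX) : StUN := by
  intro δ hδ hδ0 k φ hφ
  obtain ⟨δ₀, h1, -, h2⟩ := hSE.2.2
  obtain ⟨c, hc⟩ := rigid hRG hIX hφ h1 h2
  have hδ1 : IsSec (3 * (1 : ℕ)) (-2 * (1 : ℕ)) δ := by
    simpa using hδ
  obtain ⟨c₁, hc₁⟩ := rigid hRG hIX hδ1 h1 h2
  have hc0 : c₁ ≠ 0 := by
    rintro rfl
    apply hδ0
    funext x
    rw [hc₁ x, zero_mul]
    rfl
  refine ⟨c / c₁ ^ k, fun x => ?_⟩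
  rw [hc x, hc₁ x, pow_one, mul_pow]
  field_simp

end MC
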