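import Pool.Agent.Lib.MC.KE
import Pool.Agent.Lib.MC.TH
import Pool.Agent.Lib.MC.GF
import Pool.Agent.Lib.MC.TWK
import Pool.Agent.Lib.MC.RKK
import Pool.Agent.Lib.MC.LP
import Pool.Agent.Lib.MC.RR
import Pool.Agent.Lib.MC.EXK
import Pool.Agent.Lib.MC.RG
import Pool.Agent.Lib.MC.SE
import Pool.Agent.Lib.MC.LD
import Pool.Agent.Lib.MC.FL
import Pool.Agent.Lib.MC.TO
import Pool.Agent.Lib.MC.ST
import Pool.Agent.Lib.MC.ZA
import Pool.Agent.Lib.MC.EX
import Pool.Agent.Lib.MC.BD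
import Pool.Agent.Lib.MC.UN
import Pool.Agent.Lib.MC.EF
import Pool.Agent.Lib.MC.GG
import Pool.Agent.Lib.MC.CH

set_option autoImplicit false

/-!
# Two Manin components of the same class (MP_ac098b_ag): assembly
-/

namespace MC

theorem cTO : StTO := stTO stZA

theorem cST : StST := stST stZA cTO stAC

theorem cIX : StIX := stIX stZA stAC

theorem cDO : StDO := stDO cST cIX stAC stZA cTO

theorem cKE : StKE := stKE cST cDO stLD stFL stZA stAC

theorem cTH : StTH := stTH cKE (stGF stLD) cDO stLD cIX stZA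

theorem cTWK : StTWK := stTWK cTO (stRKK stRG stSE) (stLP stRG (stRR stRG)) stEXK

theorem cEF : StEF := stEF stSE (stBD stRG cIX stEX stAC)

theorem cUN : StUN := stUN stRG stSE cIX

theorem cIN : StIN := stIN cEF

/-- two Manin components -/
theorem two (k : ℕ) (hk : 1 ≤ k) : ∃ M₁ ∈ irreducibleComponents (Mor (3 * k) (2 * k)),
    ∃ M₂ ∈ irreducibleComponents (Mor (3 * k) (2 * k)), M₁ ≠ M₂ ∧ NoThin M₁ ∧ NoThin M₂ := by
  obtain ⟨M₁, h₁, M₂, h₂, h, r₁, r₂⟩ := cTWK k hk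
  exact ⟨M₁, h₁, M₂, h₂, h, cTH _ _ M₁ h₁ r₁, cTH _ _ M₂ h₂ r₂⟩

end MC
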