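import Pool.Agent.Lib.MC.Defs

set_option autoImplicit false

/-!
# Two Manin components of the same class (MP_ac098b_ag): statements of the modules
-/

noncomputable section

namespace MC

open Matrix

/-! ### Zariski topology -/

/-- Module ZA: two polynomial functions which do not vanish identically do not vanish at a common
point (restrict to a line); composition of polynomial maps; products: if `S` is irreducible and
`T = {h ≠ 0}` is a nonempty principal open set in a vector space then the image of `T × S` under a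
polynomial map is irreducible. -/
def StZA : Prop :=
  (∀ (V : Type) [AddCommGroup V] [Module ℂ V], ∀ f ∈ Poly V, ∀ g ∈ Poly V, ∀ v w : V, f v ≠ 0 →
    g w ≠ 0 → ∃ u, f u ≠ 0 ∧ g u ≠ 0) ∧
  (∀ (V W : Type) [AddCommGroup V] [Module ℂ V] [AddCommGroup W] [Module ℂ W] (F : V → W),
    PolyMap F → ∀ f ∈ Poly W, (fun v => f (F v)) ∈ Poly V) ∧
  (∀ (W V V' : Type) [AddCommGroup W] [Module ℂ W] [AddCommGroup V] [Module ℂ V]
    [AddCommGroup V'] [Module ℂ V'] (φ : W × V → V'), PolyMap φ → ∀ h ∈ Poly W, (∃ w, h w ≠ 0) →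
    ∀ S : Set V, Irr S → Irr {x | ∃ w v, h w ≠ 0 ∧ v ∈ S ∧ x = φ (w, v)})

/-- Module TO (from ZA): the cone over an irreducible component of `Mor` is irreducible, and maximal
among the irreducible subsets of `MorCone`; every curve lies in a component. -/
def StTO : Prop :=
  ∀ d e : ℕ, (∀ M ∈ irreducibleComponents (Mor d e), Irr (hat M) ∧
    ∀ S : Set (CV d e), Irr S → S ⊆ MorCone d e → hat M ⊆ S → S ⊆ hat M) ∧
    ∀ c ∈ MorCone d e, ∃ M ∈ irreducibleComponents (Mor d e), c ∈ hat M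

/-! ### The action of `GL₅` -/

/-- the action on pairs of forms -/
def actc {d e : ℕ} (g : M5) (c : CV d e) : CV d e :=
  (fun i => (adjugate g)ᵀ * c.1 i * adjugate g, fun i => g * c.2 i * gᵀ)

/-- Module AC: elementary properties of the action. -/
def StAC : Prop :=
  (∀ (g h : M5) (x : M5 × M5), act g (act h x) = act (g * h) x) ∧
  (∀ (g : M5) (x : M5 × M5), g.det ≠ 0 → (act g x ∈ Cone ↔ x ∈ Cone)) ∧
  ∀ (d e : ℕ), (∀ (g : M5) (c : CV d e) (v : Fin 2 → ℂ), evp (actc g c) v = act g (evp c v)) ∧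
    (∀ (g h : M5) (c : CV d e), actc g (actc h c) = actc (g * h) c) ∧
    (∀ c : CV d e, actc 1 c = c) ∧
    PolyMap (fun x : M5 × CV d e => actc x.1 x.2)

/-- Module ST (from ZA, TO, AC): components are stable under `GL₅`. -/
def StST : Prop :=
  ∀ d e : ℕ, ∀ M ∈ irreducibleComponents (Mor d e), ∀ g : M5, g.det ≠ 0 → ∀ c ∈ hat M,
    actc g c ∈ hat M

/-- Module IX: the variety `X` is irreducible, and `GL₅` acts transitively on the pairs with `A` of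
rank three. -/
def StIX : Prop :=
  Irr Cone ∧ (∃ x ∈ Cone, x.2.rank = 3) ∧
  ∀ x ∈ Cone, ∀ y ∈ Cone, x.2.rank = 3 → y.2.rank = 3 → ∃ g : M5, g.det ≠ 0 ∧ Same (act g x) y

/-- Module DO (from ST, IX, AC, ZA): the family map of a component which contains a curve meeting
the open orbit is dominant; the cone over `M × ℙ¹` is irreducible. -/
def StDO : Prop :=
  ∀ d e : ℕ, ∀ M ∈ irreducibleComponents (Mor d e), Irr (fam M) ∧
    ((∃ c ∈ hat M, ∃ v, v ≠ 0 ∧ (ev c.2 v).rank = 3) →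
      (∀ x ∈ Cone, x.2.rank = 3 → ∃ c ∈ hat M, ∃ v, v ≠ 0 ∧ Same (evp c v) x) ∧
      ∀ g ∈ Poly (M5 × M5), (∀ y ∈ fam M, g (evp y.1 y.2) = 0) → ∀ x ∈ Cone, g x = 0)

/-! ### Two components -/

/-- Module RK: a curve of class `(σ, H) = (3, 2)` which meets the open set where the rank is three
does not leave it. -/
def StRK : Prop :=
  ∀ c ∈ MorCone 3 2, (∃ v, v ≠ 0 ∧ (ev c.2 v).rank = 3) → ∀ v, v ≠ 0 → (ev c.2 v).rank = 3

/-- the quadratic form -/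
def qf (x : Fin 5 → ℂ) (A : M5) (y : Fin 5 → ℂ) : ℂ := x ⬝ᵥ (A *ᵥ y)

/-- the indices `0, 2, 4` -/
def i024 : Fin 3 → Fin 5 := ![0, 2, 4]

/-- the block `P` of `A` with rows and columns `0, 2, 4` -/
def blk (A : M5) : Matrix (Fin 3) (Fin 3) ℂ := A.submatrix i024 i024

/-- vectors in the kernel of `A` (if `A` has rank at most three), for `j = 1, 3`:
`det P e_j - ∑ (adj P A_(I j))_a e_(I a)` -/
def kap (A : M5) (j : Fin 5) : Fin 5 → ℂ :=
  (blk A).det • Pi.single j 1 -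
    ∑ a : Fin 3, (adjugate (blk A) *ᵥ (fun b => A (i024 b) j)) a • Pi.single (i024 a) (1 : ℂ)

/-- the vector `e₂ + e₄` -/
def xx : Fin 5 → ℂ := ![0, 0, 1, 0, 1]

/-- the determinant of `A₂` on the kernel of `A₀` -/
def GG (A₀ A₂ : M5) : ℂ :=
  (!![qf (kap A₀ 1) A₂ (kap A₀ 1), qf (kap A₀ 1) A₂ (kap A₀ 3);
      qf (kap A₀ 3) A₂ (kap A₀ 1), qf (kap A₀ 3) A₂ (kap A₀ 3)]).det

/-- the Gram determinant -/
def FF (A₀ A₁ A₂ : M5) : ℂ :=
  (!![qf (kap A₀ 1) A₂ (kap A₀ 1), qf (kap A₀ 1) A₂ (kap A₀ 3), qf (kap A₀ 1) A₁ xx,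
        qf (kap A₀ 1) A₂ xx;
      qf (kap A₀ 3) A₂ (kap A₀ 1), qf (kap A₀ 3) A₂ (kap A₀ 3), qf (kap A₀ 3) A₁ xx,
        qf (kap A₀ 3) A₂ xx;
      qf (kap A₀ 1) A₁ xx, qf (kap A₀ 3) A₁ xx, qf xx A₀ xx, qf xx A₁ xx / 2;
      qf (kap A₀ 1) A₂ xx, qf (kap A₀ 3) A₂ xx, qf xx A₁ xx / 2, qf xx A₂ xx]).det

/-- Module IV: for a quadratic matrix form of constant rank three `G F = 0`. -/
def StIV : Prop :=
  ∀ A₀ A₁ A₂ : M5, A₀ᵀ = A₀ → A₁ᵀ = A₁ → A₂ᵀ = A₂ →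
    (∀ s t : ℂ, (s ≠ 0 ∨ t ≠ 0) → (s ^ 2 • A₀ + (s * t) • A₁ + t ^ 2 • A₂).rank = 3) →
    (blk A₀).det ≠ 0 → GG A₀ A₂ * FF A₀ A₁ A₂ = 0

/-- Module EX: the two curves. -/
def StEX : Prop :=
  (∃ c ∈ MorCone 3 2, (blk (c.2 0)).det ≠ 0 ∧ GG (c.2 0) (c.2 2) ≠ 0) ∧
  (∃ c ∈ MorCone 3 2, (blk (c.2 0)).det ≠ 0 ∧ FF (c.2 0) (c.2 1) (c.2 2) ≠ 0)

/-- Module TW (from TO, RK, IV, EX): two components. -/
def StTW : Prop :=
  ∃ M₁ ∈ irreducibleComponents (Mor 3 2), ∃ M₂ ∈ irreducibleComponents (Mor 3 2), M₁ ≠ M₂ ∧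
    (∃ c ∈ hat M₁, ∃ v, v ≠ 0 ∧ (ev c.2 v).rank = 3) ∧
    ∃ c ∈ hat M₂, ∃ v, v ≠ 0 ∧ (ev c.2 v).rank = 3

/-! ### The function field of `X` -/

/-- the unit lower triangular matrix with entries `τ` -/
def Nm (τ : Fin 11 → ℂ) : M5 :=
  !![1, 0, 0, 0, 0; τ 0, 1, 0, 0, 0; τ 1, τ 4, 1, 0, 0; τ 2, τ 5, τ 7, 1, 0; τ 3, τ 6, τ 8, 0, 1]

/-- the diagonal matrix `(1, β, γ, 0, 0)` -/
def Dm (β γ : ℂ) : M5 := Matrix.diagonal ![1, β, γ, 0, 0]

/-- the birational parametrisation `ℂ¹¹ → X` -/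
def pt (τ : Fin 11 → ℂ) : M5 × M5 := act (Nm τ) (Q0, Dm (τ 9) (τ 10))

/-- the leading minors -/
def D2 (A : M5) : ℂ := A 0 0 * A 1 1 - A 0 1 * A 1 0

/-- the minor with rows `0, 1, i` and columns `0, 1, 2` -/
def m3 (A : M5) (i : Fin 5) : ℂ :=
  (!![A 0 0, A 0 1, A 0 2; A 1 0, A 1 1, A 1 2; A i 0, A i 1, A i 2]).det

/-- the coordinates of a point of `X` -/
def nu (A : M5) : Fin 11 → ℂ :=
  ![A 1 0 / A 0 0, A 2 0 / A 0 0, A 3 0 / A 0 0, A 4 0 / A 0 0,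
    (A 0 0 * A 2 1 - A 0 1 * A 2 0) / D2 A, (A 0 0 * A 3 1 - A 0 1 * A 3 0) / D2 A,
    (A 0 0 * A 4 1 - A 0 1 * A 4 0) / D2 A, m3 A 3 / m3 A 2, m3 A 4 / m3 A 2,
    D2 A / (A 0 0) ^ 2, m3 A 2 / (D2 A * A 0 0)]

/-- the domain of the coordinates -/
def dn (A : M5) : ℂ := A 0 0 * D2 A * m3 A 2

/-- Module LD: the coordinates are inverse to the parametrisation. -/
def StLD : Prop :=
  (∀ τ : Fin 11 → ℂ, pt τ ∈ Cone) ∧
  (∀ (τ : Fin 11 → ℂ) (x : M5 × M5), τ 9 ≠ 0 → τ 10 ≠ 0 → Same (pt τ) x →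
    dn x.2 ≠ 0 ∧ nu x.2 = τ) ∧
  (∀ x ∈ Cone, dn x.2 ≠ 0 → nu x.2 9 ≠ 0 ∧ nu x.2 10 ≠ 0 ∧ Same (pt (nu x.2)) x)

/-- Module FL: an irreducible polynomial over `ℂ(τ)` which has a root after each of the substitutions
`τ₉ ↦ τ₉ ^ 2`, `τ₁₀ ↦ τ₁₀ ^ 2` has degree one. -/
def StFL : Prop :=
  ∀ (K : Type) [Field K] [Algebra (MvPolynomial (Fin 11) ℂ) K]
    [IsFractionRing (MvPolynomial (Fin 11) ℂ) K] (κ₁ κ₂ : K →+* K),
    (∀ p : MvPolynomial (Fin 11) ℂ, κ₁ (algebraMap _ K p) = algebraMap _ K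
      (MvPolynomial.bind₁ (fun i => if i = 9 then (MvPolynomial.X 9) ^ 2 else MvPolynomial.X i) p)) →
    (∀ p : MvPolynomial (Fin 11) ℂ, κ₂ (algebraMap _ K p) = algebraMap _ K
      (MvPolynomial.bind₁ (fun i => if i = 10 then (MvPolynomial.X 10) ^ 2 else MvPolynomial.X i)
        p)) →
    ∀ P : Polynomial K, Irreducible P → (∃ x, (P.map κ₁).eval x = 0) →
      (∃ x, (P.map κ₂).eval x = 0) → P.natDegree = 1

/-- Module KE (from ST, DO, LD, FL, ZA, AC): the field of rational functions of `X` is algebraically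
closed in the field of rational functions on (the cone over) `M × ℙ¹`: if `z = p / q` is algebraic
over `ℂ(X) = ℂ(τ)` then it is in `ℂ(X)`. -/
def StKE : Prop :=
  ∀ d e : ℕ, ∀ M ∈ irreducibleComponents (Mor d e),
    (∃ c ∈ hat M, ∃ v, v ≠ 0 ∧ (ev c.2 v).rank = 3) →
    ∀ p ∈ Poly (CV d e × (Fin 2 → ℂ)), ∀ q ∈ Poly (CV d e × (Fin 2 → ℂ)),
    (∃ x ∈ fam M, q x ≠ 0) → ∀ (n : ℕ) (α : ℕ → MvPolynomial (Fin 11) ℂ), α n ≠ 0 →
    (∀ x ∈ fam M, dn (ev x.1.2 x.2) ≠ 0 → ∑ i ∈ Finset.range (n + 1),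
      MvPolynomial.eval (nu (ev x.1.2 x.2)) (α i) * p x ^ i * q x ^ (n - i) = 0) →
    ∃ R₁ R₂ : MvPolynomial (Fin 11) ℂ, R₂ ≠ 0 ∧ ∀ x ∈ fam M, dn (ev x.1.2 x.2) ≠ 0 →
      p x * MvPolynomial.eval (nu (ev x.1.2 x.2)) R₂ =
        q x * MvPolynomial.eval (nu (ev x.1.2 x.2)) R₁

/-! ### Thin maps -/

/-- Module GF (from LD, IX, ZA): if the dominant morphism `f : Y → X` is generically finite then every
rational function `P / P'` on `Y` is algebraic over `ℂ(X) = ℂ(τ)`. -/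
def StGF : Prop :=
  ∀ (N : ℕ) (Y : PVar N) (f : (Fin (N + 1) → ℂ) → M5 × M5), IsMorph Y f → GenFinite Y f →
    Dominant Y f → ∀ P ∈ Poly (Fin (N + 1) → ℂ), ∀ P' ∈ Poly (Fin (N + 1) → ℂ),
    (∃ y ∈ Y.pts, P' y ≠ 0) →
    (∀ y ∈ Y.pts, ∀ lam : ℂ, lam ≠ 0 → P (lam • y) * P' y = P y * P' (lam • y)) →
    ∃ (n : ℕ) (α : ℕ → MvPolynomial (Fin 11) ℂ), α n ≠ 0 ∧
      ∀ y ∈ Y.pts, dn (f y).2 ≠ 0 → ∑ i ∈ Finset.range (n + 1),
        MvPolynomial.eval (nu (f y).2) (α i) * P y ^ i * P' y ^ (n - i) = 0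

/-- Module TH (from KE, GF, DO, LD, IX, ZA): components which contain a curve meeting the open orbit
factor rationally through no thin morphism. -/
def StTH : Prop :=
  ∀ d e : ℕ, ∀ M ∈ irreducibleComponents (Mor d e),
    (∃ c ∈ hat M, ∃ v, v ≠ 0 ∧ (ev c.2 v).rank = 3) → NoThin M

/-! ### The case `k = 1` -/

/-- There are two different irreducible components of the space of the morphisms `f : ℙ¹ → X` with
`σ.f = 3` and `H.f = 2`, whose family maps factor rationally through no thin morphism. -/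
def StTwo : Prop :=
  ∃ M₁ ∈ irreducibleComponents (Mor 3 2), ∃ M₂ ∈ irreducibleComponents (Mor 3 2), M₁ ≠ M₂ ∧
    NoThin M₁ ∧ NoThin M₂

end MC
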