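import Pool.Agent.Lib.MC.Stmts

set_option autoImplicit false

/-!
# Two Manin components of the same class (MP_ac098b_ag): the geometry of `X`
-/

noncomputable section

namespace MC

open Matrix

/-! ### Sections of line bundles, the pseudo-effective cone -/

/-- Module SE: the section `δ` of `3 H - 2 σ` with divisor `E = {rank A ≤ 2}`:
`det A[I, I] = δ Q_J ^ 2` for the complement `I` of `J`. -/
def StSE : Prop :=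
  (∃ φ, IsSec 1 0 φ ∧ φ ≠ 0) ∧ (∃ φ, IsSec 0 1 φ ∧ φ ≠ 0) ∧
  ∃ δ : Cone → ℂ, IsSec 3 (-2) δ ∧ δ ≠ 0 ∧ ∀ x : Cone, δ x ≠ 0 ↔ (x : M5 × M5).2.rank = 3

/-- Module RG: a function on `ℂ² - 0` which is regular and homogeneous of degree `k` vanishes if
`k < 0`, and is constant if `k = 0`. -/
def StRG : Prop :=
  ∀ (k : ℤ) (ψ : (Fin 2 → ℂ) → ℂ),
    (∀ v, v ≠ 0 → ∃ p ∈ Poly (Fin 2 → ℂ), ∃ r ∈ Poly (Fin 2 → ℂ), r v ≠ 0 ∧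
      ∀ v', v' ≠ 0 → r v' ≠ 0 → ψ v' = p v' / r v') →
    (∀ v, v ≠ 0 → ∀ s : ℂ, s ≠ 0 → ψ (s • v) = s ^ k * ψ v) →
    (k < 0 → ∀ v, v ≠ 0 → ψ v = 0) ∧ (k = 0 → ∀ v w, v ≠ 0 → w ≠ 0 → ψ v = ψ w)

/-- Module BD (from RG, IX, EX, AC): the classes of the nonzero sections. -/
def StBD : Prop := ∀ (m n : ℤ) (φ : Cone → ℂ), IsSec m n φ → φ ≠ 0 → 0 ≤ m ∧ 0 ≤ 2 * m + 3 * n

/-- Module UN (from RG, SE, IX, ZA, RK): the divisor `E` is rigid: the sections of `k E` are the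
multiples of `δ ^ k`. So the Iitaka dimension of `E` is zero. -/
def StUN : Prop :=
  ∀ δ : Cone → ℂ, IsSec 3 (-2) δ → δ ≠ 0 → ∀ (k : ℕ) (φ : Cone → ℂ),
    IsSec (3 * k) (-2 * k) φ → ∃ c : ℂ, ∀ x, φ x = c * δ x ^ k

/-- Module EF (from SE, BD): the pseudo-effective cone is generated by `σ = (0, 1)` and
`E = (3, -2)`. -/
def StEF : Prop := Eff = {D : ℝ × ℝ | 0 ≤ D.1 ∧ 0 ≤ 2 * D.1 + 3 * D.2}

/-- Module IN (from EF): for `0 < c ≤ 1 / 2` one has `a(X, L) = 1`, and `F(X, L)` is the ray of the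
class `(H, σ) = (2, 3)`. -/
def StIN : Prop :=
  ∀ c : ℝ, 0 < c → c ≤ 1 / 2 → IsA (Lc c) 1 ∧ KX + (1 : ℝ) • Lc c = c • ((3, -2) : ℝ × ℝ) ∧
    Face (Lc c) 1 = {α | ∃ r : ℝ, 0 ≤ r ∧ α = (2 * r, 3 * r)} ∧
    ((2, 3) : ℝ × ℝ) ∈ intrinsicInterior ℝ (Face (Lc c) 1)

end MC
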