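import Pool.Agent.Lib.MC.Stmts2

set_option autoImplicit false

/-!
# Two Manin components of the same class (MP_ac098b_ag): all multiples of the class `(2, 3)`

Curves of class `(σ, H) = (3 k, 2 k)` of constant rank three. The bundle `V = S(k)` on `ℙ¹` is an
orthogonal bundle of rank three; the two types are `V = O³` and `V = O(1) + O + O(-1)`. The parity of
`h⁰(V(-1))` is constant in families.
-/

noncomputable section

namespace MC

open Matrix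

/-- the value of a vector of binary forms of degree `N` -/
def evv {N : ℕ} (x : Fin (N + 1) → (Fin 5 → ℂ)) (v : Fin 2 → ℂ) : Fin 5 → ℂ :=
  ∑ i : Fin (N + 1), (v 0 ^ (N - (i : ℕ)) * v 1 ^ (i : ℕ)) • x i

/-- `H⁰(S(N))`: the vectors of forms of degree `N` with values in `S = ker Q` -/
def HH {d e : ℕ} (N : ℕ) (c : CV d e) : Submodule ℂ (Fin (N + 1) → (Fin 5 → ℂ)) where
  carrier := {x | ∀ v, ev c.1 v *ᵥ evv x v = 0}
  zero_mem' := by
    intro v
    simp [evv]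
  add_mem' := by
    intro x y hx hy v
    have h : evv (x + y) v = evv x v + evv y v := by
      simp [evv, Finset.sum_add_distrib]
    rw [h, Matrix.mulVec_add, hx v, hy v, add_zero]
  smul_mem' := by
    intro a x hx v
    have h : evv (a • x) v = a • evv x v := by
      simp only [evv, Pi.smul_apply, Finset.smul_sum]
      exact Finset.sum_congr rfl fun i _ => smul_comm _ _ _
    rw [h, Matrix.mulVec_smul, hx v, smul_zero]

/-- Module RKK (from RG or directly): the rank is constant on curves which meet the open set. -/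
def StRKK : Prop :=
  ∀ k : ℕ, ∀ c ∈ MorCone (3 * k) (2 * k), (∃ v, v ≠ 0 ∧ (ev c.2 v).rank = 3) →
    ∀ v, v ≠ 0 → (ev c.2 v).rank = 3

/-- Module RR (from RG): the theorem of Riemann and Roch for `V = S(k)`. -/
def StRR : Prop :=
  ∀ k : ℕ, 1 ≤ k → ∀ c ∈ MorCone (3 * k) (2 * k), (∀ v, v ≠ 0 → (ev c.2 v).rank = 3) →
    3 ≤ Module.finrank ℂ (HH k c)

/-- the linear map `T` (`x₀`, `x₁` are the coefficients of `s ^ k` and `s ^ (k - 1) t`; `A₀`, `A₁`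
those of `s ^ (2 k)` and `s ^ (2 k - 1) t`) -/
def TT (A₀ A₁ : M5) (x₀ x₁ : Fin 5 → ℂ) : Fin 3 → ℂ :=
  (2 * (blk A₀).det) • (adjugate (blk A₀) *ᵥ (fun a => x₁ (i024 a))) -
    (adjugate (blk A₀) * blk A₁ * adjugate (blk A₀)) *ᵥ (fun a => x₀ (i024 a)) -
    (2 * (blk A₀).det ^ 2) • (!![0, 0, 1; 0, 0, 0; -1, 0, 0] *ᵥ (fun a => x₀ (i024 a)))

/-- Module LP (from RG, RR): parity. If `T` is injective on `H⁰(V)` then there is a nonzero section
of `V` which vanishes at the point `(1, 0)`. -/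
def StLP : Prop :=
  ∀ k : ℕ, 1 ≤ k → ∀ c ∈ MorCone (3 * k) (2 * k), (∀ v, v ≠ 0 → (ev c.2 v).rank = 3) →
    (blk (c.2 0)).det ≠ 0 → (∀ x ∈ HH k c, TT (c.2 0) (c.2 1) (x 0) (x 1) = 0 → x = 0) →
    ∃ x ∈ HH k c, x ≠ 0 ∧ x 0 = 0

/-- Module EXK: the two curves. -/
def StEXK : Prop :=
  ∀ k : ℕ, 1 ≤ k →
  (∃ c ∈ MorCone (3 * k) (2 * k), (∃ v, v ≠ 0 ∧ (ev c.2 v).rank = 3) ∧
    ∀ x ∈ HH k c, x 0 = 0 → x = 0) ∧
  (∃ c ∈ MorCone (3 * k) (2 * k), (∃ v, v ≠ 0 ∧ (ev c.2 v).rank = 3) ∧ (blk (c.2 0)).det ≠ 0 ∧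
    ∀ x ∈ HH k c, TT (c.2 0) (c.2 1) (x 0) (x 1) = 0 → x = 0)

/-- Module TWK (from TO, RKK, LP, EXK): two components, for all multiples of the class. -/
def StTWK : Prop :=
  ∀ k : ℕ, 1 ≤ k → ∃ M₁ ∈ irreducibleComponents (Mor (3 * k) (2 * k)),
    ∃ M₂ ∈ irreducibleComponents (Mor (3 * k) (2 * k)), M₁ ≠ M₂ ∧
    (∃ c ∈ hat M₁, ∃ v, v ≠ 0 ∧ (ev c.2 v).rank = 3) ∧
    ∃ c ∈ hat M₂, ∃ v, v ≠ 0 ∧ (ev c.2 v).rank = 3

end MC
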